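import Pool.Agent.H7.PS.PU
import Pool.Agent.H7.FF.Main
import Pool.Graph.R_seed8.H343R2.EFb
import Pool.Graph.R_seed8.H345R2.A2.Smooth

/-! The side of the zeros: one dyadic block. -/

open Filter Topology Complex MeasureTheory
open scoped ENNReal

namespace Pool.Agent.H7.PS

open H370 TH803TW Pool.Agent.Y744

lemma cross_A (RH : RiemannHypothesis) {K : ℝ} (hK : 0 ≤ K) {η : ℝ} (hη : 0 < η) :
    ∃ V1 : ℝ, 20 ≤ V1 ∧ ∀ V : ℝ, V1 ≤ V → ∀ Λ : ℝ, Real.log V ≤ Λ → ∀ f : ℝ → ℝ,
      (∀ y, |f y| ≤ K / (1 + y ^ 2)) →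
      |QS (Zt V) (Zb V (2 * V)) mz (fun s => s.im) f Λ| ≤ η * (V * Real.log V) := by
  classical
  obtain ⟨C, B0, V0, hC, hB0, hV0, hblk, hloc⟩ := PP_bound RH
  obtain ⟨V2, hV2, hnear⟩ := near_bound
  set lam : ℝ := 4800 * (K + 1) * (C + 1) / η with hlam
  have hlam0 : 0 < lam := by positivity
  have ev1 : ∀ᶠ V : ℝ in atTop, 4800 * (K + 1) * lam / η ≤ Real.log V :=
    Real.tendsto_log_atTop.eventually_ge_atTop _
  have ev2 : ∀ᶠ V : ℝ in atTop, (9600 * (K + 1) * (2 * C + 1) / η) ^ 2 ≤ Real.log V :=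
    Real.tendsto_log_atTop.eventually_ge_atTop _
  have ev3 : ∀ᶠ V : ℝ in atTop, B0 ≤ V := eventually_ge_atTop _
  obtain ⟨V3, hV3⟩ := (ev1.and (ev2.and ev3)).exists_forall_of_atTop
  refine ⟨max (max V0 V2) V3, hV0.trans ((le_max_left _ _).trans (le_max_left _ _)),
    fun V hV Λ hΛ f hf => ?_⟩
  have hVV0 : V0 ≤ V := ((le_max_left _ _).trans (le_max_left _ _)).trans hV
  have hVV2 : V2 ≤ V := ((le_max_right _ _).trans (le_max_left _ _)).trans hV
  obtain ⟨e1, e2, e3⟩ := hV3 V ((le_max_right _ _).trans hV)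
  have hV20 : 20 ≤ V := hV0.trans hVV0
  have hlV1 : 1 ≤ Real.log V := by
    rw [Real.le_log_iff_exp_le (by linarith)]
    linarith [Real.exp_one_lt_d9]
  have hΛ1 : 1 ≤ Λ := hlV1.trans hΛ
  set Y := V * Real.log V with hY
  have hVY : V ≤ Y := by rw [hY]; nlinarith
  have hY0 : 0 < Y := by linarith
  have hPblk : PP1 (Zb V (2 * V)) mz (fun s => s.im) Λ ≤ C * Y :=
    (PP1_anti (x := fun s : ℂ => s.im) (Zb V (2 * V)) mz_nonneg (by linarith) hΛ).trans
      (hblk V hVV0)
  have hPt := hloc V hVV0 Λ hΛ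
  set A := (Zt V).filter (fun s => V - 1 < s.im) with hA
  set B := (Zt V).filter (fun s => ¬ V - 1 < s.im) with hB
  have hAsum : 2 * (∑ s ∈ A, mz s) ^ 2 ≤ V := by
    refine le_trans ?_ (hnear V hVV2)
    have : ∑ s ∈ A, mz s ≤ ∑ s ∈ Zb (V - 1) (V - 1 + 3), mz s := by
      refine Finset.sum_le_sum_of_subset_of_nonneg (fun s hs => ?_) fun s _ _ => mz_nonneg s
      obtain ⟨h1, h2⟩ := Finset.mem_filter.1 hs
      rw [mem_Zt] at h1
      rw [mem_Zb (by linarith)]
      exact ⟨h1.1, h1.2.1, h2, by linarith [h1.2.2.2.1], h1.2.2.2.2⟩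
    have h0 : 0 ≤ ∑ s ∈ A, mz s := Finset.sum_nonneg fun s _ => mz_nonneg s
    have := pow_le_pow_left₀ h0 this 2
    linarith
  have hPA : PP1 A mz (fun s => s.im) Λ ≤ V / 2 := by
    have := PP1_le_sq A mz_nonneg (x := fun s : ℂ => s.im) Λ
    linarith
  have hPB : PP1 B mz (fun s => s.im) Λ ≤ B0 + C * Y :=
    (PP1_mono (Finset.filter_subset _ _) mz_nonneg Λ).trans hPt
  have n1 := QS_abs_bound (x := fun s : ℂ => s.im) A (Zb V (2 * V)) mz_nonneg hf
    (Λ := Λ) (lam := lam) (by linarith) hlam0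
  have n2 := QS_far_bound (x := fun s : ℂ => s.im) B (Zb V (2 * V)) mz_nonneg hf hΛ1 (by
    intro s hs s' hs'
    obtain ⟨h1, h2⟩ := Finset.mem_filter.1 hs
    rw [mem_Zb (by linarith)] at hs'
    have h3 := hs'.2.2.1
    push Not at h2
    rw [abs_sub_comm]
    refine le_trans ?_ (le_abs_self _)
    linarith)
  have n0 := QS_le_abs (x := fun s : ℂ => s.im) (Zt V) (Zb V (2 * V)) mz_nonneg f Λ
  rw [← Finset.sum_filter_add_sum_filter_not (Zt V) (fun s => V - 1 < s.im)] at n0
  -- the near part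
  have b1 : 1600 * K * (lam * PP1 A mz (fun s => s.im) Λ +
      1 / lam * PP1 (Zb V (2 * V)) mz (fun s => s.im) Λ) ≤ 2 * η / 3 * Y := by
    have c1 : lam * PP1 A mz (fun s => s.im) Λ ≤ lam * V :=
      mul_le_mul_of_nonneg_left (by linarith) hlam0.le
    have c2 : 1600 * K * (lam * V) ≤ η / 3 * Y := by
      rw [div_le_iff₀ hη] at e1
      have : 1600 * K * (lam * V) ≤ 1600 * (K + 1) * (lam * V) := by
        have : 0 ≤ lam * V := by positivity
        nlinarith
      refine this.trans ?_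
      have h3 : 4800 * (K + 1) * lam * V ≤ Real.log V * η * V :=
        mul_le_mul_of_nonneg_right e1 (by linarith)
      rw [hY]
      linarith
    have c3 : 1 / lam * PP1 (Zb V (2 * V)) mz (fun s => s.im) Λ ≤ 1 / lam * (C * Y) :=
      mul_le_mul_of_nonneg_left hPblk (by positivity)
    have c4 : 1600 * K * (1 / lam * (C * Y)) ≤ η / 3 * Y := by
      have h4 : 1600 * K * (1 / lam * (C * Y)) = (1600 * K * C / lam) * Y := by
        field_simp
      rw [h4]
      refine mul_le_mul_of_nonneg_right ?_ hY0.le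
      rw [div_le_iff₀ hlam0, hlam]
      have h5 : η / 3 * (4800 * (K + 1) * (C + 1) / η) = 1600 * ((K + 1) * (C + 1)) := by
        field_simp
        ring
      rw [h5]
      nlinarith
    have hK0 : 0 ≤ 1600 * K := by positivity
    calc 1600 * K * (lam * PP1 A mz (fun s => s.im) Λ +
        1 / lam * PP1 (Zb V (2 * V)) mz (fun s => s.im) Λ) ≤
          1600 * K * (lam * V + 1 / lam * (C * Y)) := by gcongr
      _ = 1600 * K * (lam * V) + 1600 * K * (1 / lam * (C * Y)) := by ring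
      _ ≤ _ := by linarith
  -- the far part
  have b2 : 3200 * K / Real.sqrt Λ * (PP1 B mz (fun s => s.im) Λ +
      PP1 (Zb V (2 * V)) mz (fun s => s.im) Λ) ≤ η / 3 * Y := by
    have hs : 9600 * (K + 1) * (2 * C + 1) / η ≤ Real.sqrt Λ :=
      Real.le_sqrt_of_sq_le (e2.trans hΛ)
    have hs0 : 0 < Real.sqrt Λ := Real.sqrt_pos.2 (by linarith)
    have c1 : PP1 B mz (fun s => s.im) Λ + PP1 (Zb V (2 * V)) mz (fun s => s.im) Λ ≤
        (2 * C + 1) * Y := by nlinarith
    calc 3200 * K / Real.sqrt Λ * (PP1 B mz (fun s => s.im) Λ +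
        PP1 (Zb V (2 * V)) mz (fun s => s.im) Λ) ≤ 3200 * K / Real.sqrt Λ * ((2 * C + 1) * Y) :=
          mul_le_mul_of_nonneg_left c1 (by positivity)
      _ = (3200 * K * (2 * C + 1) / Real.sqrt Λ) * Y := by ring
      _ ≤ η / 3 * Y := by
          refine mul_le_mul_of_nonneg_right ?_ hY0.le
          rw [div_le_iff₀ hs0]
          rw [div_le_iff₀ hη] at hs
          nlinarith
  calc |QS (Zt V) (Zb V (2 * V)) mz (fun s => s.im) f Λ| ≤ _ := n0
    _ ≤ 2 * η / 3 * Y + η / 3 * Y := add_le_add (n1.trans b1) (n2.trans b2)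
    _ = η * Y := by ring


lemma cross_gen (RH : RiemannHypothesis) {K : ℝ} (hK : 0 ≤ K) {η : ℝ} (hη : 0 < η) :
    ∃ V1 : ℝ, 20 ≤ V1 ∧ ∀ V : ℝ, V1 ≤ V → ∀ L : ℝ, Real.log V / 2 ≤ L → ∀ f : ℝ → ℝ,
      (∀ y, |f y| ≤ K / (1 + y ^ 2)) →
      |QS (Zt V) (Zb V (2 * V)) mz (fun s => s.im) f L| ≤ η * (V * Real.log V) := by
  obtain ⟨V1, hV1, h⟩ := cross_A RH (K := 4 * K) (by positivity) hη
  refine ⟨V1, hV1, fun V hV L hL f hf => ?_⟩
  have hV20 : 20 ≤ V := hV1.trans hV
  have hl : 0 < Real.log V := Real.log_pos (by linarith)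
  rcases le_or_gt (Real.log V) L with h1 | h1
  · refine h V hV L h1 f fun y => (hf y).trans ?_
    have : 0 ≤ K / (1 + y ^ 2) := by positivity
    have e : 4 * K / (1 + y ^ 2) = 4 * (K / (1 + y ^ 2)) := by ring
    linarith
  · obtain ⟨s, hs⟩ : ∃ s, s = L / Real.log V := ⟨_, rfl⟩
    have hs1 : 1 / 2 ≤ s := by
      rw [hs, div_le_div_iff₀ (by norm_num) hl]
      linarith
    have h2 := h V hV (Real.log V) le_rfl (fun y => f (s * y)) fun y => (hf (s * y)).trans ?_
    · have e : QS (Zt V) (Zb V (2 * V)) mz (fun s => s.im) (fun y => f (s * y)) (Real.log V) =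
          QS (Zt V) (Zb V (2 * V)) mz (fun s => s.im) f L := by
        unfold QS
        refine Finset.sum_congr rfl fun a _ => Finset.sum_congr rfl fun b _ => ?_
        have e2 : s * ((a.im - b.im) * Real.log V / (2 * Real.pi)) =
            (a.im - b.im) * L / (2 * Real.pi) := by
          rw [hs]
          field_simp
        show mz a * mz b * f (s * ((a.im - b.im) * Real.log V / (2 * Real.pi))) =
          mz a * mz b * f ((a.im - b.im) * L / (2 * Real.pi))
        rw [e2]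
      rwa [e] at h2
    · rw [div_le_div_iff₀ (by positivity) (by positivity)]
      have h3 : 1 / 4 ≤ s ^ 2 := by nlinarith
      have h4 : 1 + y ^ 2 ≤ 4 * (1 + (s * y) ^ 2) := by
        have h5 : (s * y) ^ 2 = s ^ 2 * y ^ 2 := by ring
        rw [h5]
        nlinarith [sq_nonneg y, mul_le_mul_of_nonneg_right h3 (sq_nonneg y)]
      calc K * (1 + y ^ 2) ≤ K * (4 * (1 + (s * y) ^ 2)) := mul_le_mul_of_nonneg_left h4 hK
        _ = _ := by ring

/-- the terms on the critical line -/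
lemma hh_rh (RH : RiemannHypothesis) {A B : ℝ} {s : ℂ} (hs : s ∈ zset riemannZeta A B)
    (u t : ℝ) : ‖hh u t s‖ = Real.exp (-(s.im - t) ^ 2 / 2) := by
  have h1 := H370.A2.rh_line RH hs
  rw [pc_norm_hh, h1]
  simp

lemma AA_le_Zg (RH : RiemannHypothesis) {A B : ℝ} (hA : 1 ≤ A) (u t : ℝ) :
    ‖AA riemannZeta A B u t‖ ≤ Zg riemannZeta A B t := by
  rw [AA_eq good_zeta hA]
  unfold Zg
  refine (norm_sum_le _ _).trans (Finset.sum_le_sum fun s hs => ?_)
  rw [norm_mul, Complex.norm_natCast, hh_rh RH ((mem_Zf good_zeta hA).mp hs)]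

/-- the explicit formula for a dyadic block -/
lemma ef_block (RH : RiemannHypothesis) {A : ℝ} (hA : 0 ≤ A) : ∃ C V0 : ℝ, 0 < C ∧ 10 ≤ V0 ∧
    ∀ V : ℝ, V0 ≤ V → ∀ u t : ℝ, 0 ≤ u → u ≤ A * Real.log V → V + Real.log V ≤ t →
      t ≤ 2 * V - Real.log V →
      ‖AA riemannZeta V (2 * V) u t - (1 / Real.sqrt (2 * Real.pi) : ℝ) *
        (Real.log V * cexp (I * u * t) * Real.exp (-u ^ 2 / 2) - PP H370.A2.lamC u t)‖ ≤ C := by
  classical
  obtain ⟨C, T0, hC, hT0, hEF⟩ := H343.explicit_formula_zeta good_zeta A 1 hA one_pos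
  obtain ⟨C2, hC2, hN⟩ := NN_crude good_zeta
  have hlim : ∀ᶠ V : ℝ in atTop, V * Real.log V * Real.exp (-(Real.log V - 1) ^ 2 / 2) ≤ 1 := by
    filter_upwards [Real.tendsto_log_atTop.eventually_ge_atTop 8, eventually_gt_atTop 0]
      with V hV hV0
    have h1 : V = Real.exp (Real.log V) := (Real.exp_log hV0).symm
    have h2 : Real.log V ≤ Real.exp (Real.log V) := by
      have := Real.add_one_le_exp (Real.log V)
      linarith
    have h3 : V * Real.log V ≤ Real.exp (2 * Real.log V) := by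
      rw [two_mul, Real.exp_add, ← h1]
      rw [← h1] at h2
      exact mul_le_mul_of_nonneg_left h2 hV0.le
    calc V * Real.log V * Real.exp (-(Real.log V - 1) ^ 2 / 2) ≤
        Real.exp (2 * Real.log V) * Real.exp (-(Real.log V - 1) ^ 2 / 2) :=
          mul_le_mul_of_nonneg_right h3 (Real.exp_pos _).le
      _ ≤ 1 := by
          rw [← Real.exp_add]
          apply Real.exp_le_one_iff.mpr
          nlinarith
  obtain ⟨V1, hV1⟩ := hlim.exists_forall_of_atTop
  refine ⟨C + C2, max T0 V1, by positivity, hT0.trans (le_max_left _ _), fun V hV u t hu huA h1 h2 => ?_⟩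
  have hVT0 : T0 ≤ V := (le_max_left _ _).trans hV
  have hVV1 := hV1 V ((le_max_right _ _).trans hV)
  have hV10 : 10 ≤ V := hT0.trans hVT0
  obtain ⟨U1, U2, hU1, hU1', hU2', hU2, hmain⟩ := hEF V hVT0
  have hm := hmain u t hu huA h1 h2
  have e1 : H343.AAb 1 riemannZeta U1 U2 u t = AA riemannZeta U1 U2 u t := by
    unfold H343.AAb AA H343.hhb hh
    simp
  have e2 : H343.PPb 1 (fun n => (ArithmeticFunction.vonMangoldt n : ℂ)) u t =
      PP H370.A2.lamC u t := by
    unfold H343.PPb PP H370.A2.lamC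
    simp
  rw [e1, e2] at hm
  simp only [mul_one] at hm
  have hU : 1 ≤ U1 := by linarith
  have hV1' : 1 ≤ V := by linarith
  have hsub : Zf riemannZeta U1 U2 ⊆ Zf riemannZeta V (2 * V) := by
    intro s hs
    rw [mem_Zf good_zeta hU] at hs
    rw [mem_Zf good_zeta hV1']
    exact ⟨hs.1, hs.2.1, by linarith [hs.2.2.1], by linarith [hs.2.2.2.1], hs.2.2.2.2⟩
  have hdiff : AA riemannZeta V (2 * V) u t - AA riemannZeta U1 U2 u t =
      ∑ s ∈ Zf riemannZeta V (2 * V) \ Zf riemannZeta U1 U2, (mult riemannZeta s : ℂ) * hh u t s := by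
    rw [AA_eq good_zeta hU, AA_eq good_zeta hV1', ← Finset.sum_sdiff hsub]
    ring
  have hL1 : 1 ≤ Real.log V := by
    rw [Real.le_log_iff_exp_le (by linarith)]
    linarith [Real.exp_one_lt_d9]
  have hnorm : ‖AA riemannZeta V (2 * V) u t - AA riemannZeta U1 U2 u t‖ ≤ C2 := by
    rw [hdiff]
    have h3 : ∀ s ∈ Zf riemannZeta V (2 * V) \ Zf riemannZeta U1 U2,
        ‖(mult riemannZeta s : ℂ) * hh u t s‖ ≤
        (mult riemannZeta s : ℝ) * Real.exp (-(Real.log V - 1) ^ 2 / 2) := by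
      intro s hs
      rw [Finset.mem_sdiff, mem_Zf good_zeta hU, mem_Zf good_zeta hV1'] at hs
      obtain ⟨hs1, hs2⟩ := hs
      rw [norm_mul, Complex.norm_natCast, hh_rh RH hs1]
      apply mul_le_mul_of_nonneg_left _ (Nat.cast_nonneg _)
      have h4 : s.im ≤ U1 ∨ U2 < s.im := by
        by_contra hcon
        push Not at hcon
        exact hs2 ⟨hs1.1, hs1.2.1, hcon.1, hcon.2, hs1.2.2.2.2⟩
      have h5 : (Real.log V - 1) ^ 2 ≤ (s.im - t) ^ 2 := by
        rcases h4 with h4 | h4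
        · nlinarith
        · nlinarith
      apply Real.exp_le_exp.mpr
      linarith
    refine (norm_sum_le _ _).trans ((Finset.sum_le_sum h3).trans ?_)
    rw [← Finset.sum_mul]
    have h4 : ∑ s ∈ Zf riemannZeta V (2 * V) \ Zf riemannZeta U1 U2, (mult riemannZeta s : ℝ) ≤
        C2 * (V * Real.log V) := by
      refine le_trans ?_ (hN V (by linarith) V (2 * V) le_rfl le_rfl)
      rw [NN_eq good_zeta hV1', Nat.cast_sum]
      exact Finset.sum_le_sum_of_subset_of_nonneg Finset.sdiff_subset fun _ _ _ => by positivity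
    calc (∑ s ∈ Zf riemannZeta V (2 * V) \ Zf riemannZeta U1 U2, (mult riemannZeta s : ℝ)) *
          Real.exp (-(Real.log V - 1) ^ 2 / 2) ≤
          C2 * (V * Real.log V) * Real.exp (-(Real.log V - 1) ^ 2 / 2) :=
            mul_le_mul_of_nonneg_right h4 (Real.exp_pos _).le
      _ = C2 * (V * Real.log V * Real.exp (-(Real.log V - 1) ^ 2 / 2)) := by ring
      _ ≤ C2 * 1 := mul_le_mul_of_nonneg_left hVV1 hC2.le
      _ = C2 := mul_one _
  have hm2 := hm.trans (mul_le_of_le_one_right hC.le (Real.exp_le_one_iff.2 (by linarith)))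
  calc ‖AA riemannZeta V (2 * V) u t - (1 / Real.sqrt (2 * Real.pi) : ℝ) *
        (Real.log V * cexp (I * u * t) * Real.exp (-u ^ 2 / 2) - PP H370.A2.lamC u t)‖ =
      ‖(AA riemannZeta U1 U2 u t - (1 / Real.sqrt (2 * Real.pi) : ℝ) *
        (Real.log V * cexp (I * u * t) * Real.exp (-u ^ 2 / 2) - PP H370.A2.lamC u t)) +
        (AA riemannZeta V (2 * V) u t - AA riemannZeta U1 U2 u t)‖ := by
        congr 1
        ring
    _ ≤ _ := norm_add_le _ _
    _ ≤ C + C2 := add_le_add hm2 hnorm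

lemma young {a b η : ℝ} (hη : 0 < η) : (a + b) ^ 2 ≤ (1 + η) * a ^ 2 + (1 + 1 / η) * b ^ 2 := by
  have h : (1 + η) * a ^ 2 + (1 + 1 / η) * b ^ 2 - (a + b) ^ 2 = (η * a - b) ^ 2 / η := by
    field_simp
    ring
  have h2 : 0 ≤ (η * a - b) ^ 2 / η := by positivity
  linarith

/-- the pointwise bound -/
lemma AA_point (RH : RiemannHypothesis) {A : ℝ} (hA : 0 ≤ A) : ∃ C V0 : ℝ, 0 < C ∧ 10 ≤ V0 ∧
    ∀ V : ℝ, V0 ≤ V → ∀ u t : ℝ, Real.log V / 4 ≤ u → u ≤ A * Real.log V → V + Real.log V ≤ t →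
      t ≤ 2 * V - Real.log V →
      ‖AA riemannZeta V (2 * V) u t‖ ≤ 1 / Real.sqrt (2 * Real.pi) * ‖ph u t‖ + C := by
  obtain ⟨C, V0, hC, hV0, h⟩ := ef_block RH hA
  have ev1 : ∀ᶠ V : ℝ in atTop, Real.log V * Real.exp (-(Real.log V / 4) ^ 2 / 2) ≤ 1 := by
    filter_upwards [Real.tendsto_log_atTop.eventually_ge_atTop 32] with V hV
    have h1 : Real.log V ≤ Real.exp (Real.log V) := by
      have := Real.add_one_le_exp (Real.log V)
      linarith
    calc Real.log V * Real.exp (-(Real.log V / 4) ^ 2 / 2) ≤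
        Real.exp (Real.log V) * Real.exp (-(Real.log V / 4) ^ 2 / 2) :=
          mul_le_mul_of_nonneg_right h1 (Real.exp_pos _).le
      _ ≤ 1 := by
          rw [← Real.exp_add]
          apply Real.exp_le_one_iff.mpr
          nlinarith
  have ev2 : ∀ᶠ V : ℝ in atTop, A * Real.log V / 2 + 1 / 8 - V ^ 2 / 2 ≤ 0 := by
    have h1 := (Real.isLittleO_log_id_atTop).bound (show (0 : ℝ) < 1 / (A + 1) by positivity)
    filter_upwards [h1, eventually_ge_atTop 2] with V hV hV2
    have hl : 0 ≤ Real.log V := Real.log_nonneg (by linarith)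
    rw [Real.norm_of_nonneg hl, id, Real.norm_of_nonneg (by linarith)] at hV
    have h2 : (A + 1) * Real.log V ≤ V := by
      have h3 : (A + 1) * Real.log V ≤ (A + 1) * (1 / (A + 1) * V) :=
        mul_le_mul_of_nonneg_left hV (by linarith)
      have h4 : (A + 1) * (1 / (A + 1) * V) = V := by field_simp
      linarith
    nlinarith
  obtain ⟨V1, hV1⟩ := (ev1.and ev2).exists_forall_of_atTop
  refine ⟨C + 2, max V0 V1, by positivity, hV0.trans (le_max_left _ _),
    fun V hV u t hu huA h1 h2 => ?_⟩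
  have hVV0 : V0 ≤ V := (le_max_left _ _).trans hV
  obtain ⟨e1, e2⟩ := hV1 V ((le_max_right _ _).trans hV)
  have hV10 : 10 ≤ V := hV0.trans hVV0
  have hl1 : 1 ≤ Real.log V := by
    rw [Real.le_log_iff_exp_le (by linarith)]
    linarith [Real.exp_one_lt_d9]
  have hu0 : 0 ≤ u := by linarith
  have hm := h V hVV0 u t hu0 huA h1 h2
  have hpi := Real.pi_gt_three
  obtain ⟨c0, hc0⟩ : ∃ c0, c0 = 1 / Real.sqrt (2 * Real.pi) := ⟨_, rfl⟩
  have hc00 : 0 < c0 := by rw [hc0]; positivity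
  have hc01 : c0 ≤ 1 := by
    rw [hc0, div_le_one (by positivity)]
    exact Real.one_le_sqrt.2 (by linarith)
  rw [← hc0] at hm ⊢
  -- the pole
  have hpole : ‖(Real.log V : ℂ) * cexp (I * u * t) * Real.exp (-u ^ 2 / 2)‖ ≤ 1 := by
    rw [norm_mul, norm_mul, Complex.norm_real, Complex.norm_real,
        Real.norm_of_nonneg (by linarith), Real.norm_of_nonneg (Real.exp_pos _).le,
        show (I * u * t : ℂ) = ((u * t : ℝ) : ℂ) * I by push_cast; ring,
        Complex.norm_exp_ofReal_mul_I, mul_one]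
    refine le_trans ?_ e1
    refine mul_le_mul_of_nonneg_left (Real.exp_le_exp.2 ?_) (by linarith)
    have : (Real.log V / 4) ^ 2 ≤ u ^ 2 := pow_le_pow_left₀ (by positivity) hu 2
    linarith
  -- the primes
  have hPP : ‖PP H370.A2.lamC u t‖ ≤ ‖ph u t‖ + Real.sqrt (2 * Real.pi) := by
    rw [charFun_mu1, norm_mul, show (u * t * I : ℂ) = ((u * t : ℝ) : ℂ) * I by push_cast; ring,
      Complex.norm_exp_ofReal_mul_I, one_mul]
    have h3 : charFun (mu rho1 u) (-t) = ph u (-t) + charFun (mu rho2 u) (-t) := by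
      unfold ph
      ring
    rw [h3]
    refine (norm_add_le _ _).trans (add_le_add (le_of_eq ?_) ?_)
    · have h4 := ph_neg u t
      rw [← ofReal_norm, ← ofReal_norm, ENNReal.ofReal_eq_ofReal_iff (norm_nonneg _)
        (norm_nonneg _)] at h4
      exact h4
    · rw [charFun_mu2]
      refine mul_le_of_le_one_right (Real.sqrt_nonneg _) (Real.exp_le_one_iff.2 ?_)
      have h5 : V ^ 2 ≤ (-t) ^ 2 := by
        have h6 : V ≤ t := by linarith
        nlinarith
      linarith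
  have h3 : AA riemannZeta V (2 * V) u t = (AA riemannZeta V (2 * V) u t - (c0 : ℂ) *
      (Real.log V * cexp (I * u * t) * Real.exp (-u ^ 2 / 2) - PP H370.A2.lamC u t)) +
      (c0 : ℂ) * (Real.log V * cexp (I * u * t) * Real.exp (-u ^ 2 / 2) -
        PP H370.A2.lamC u t) := by ring
  rw [h3]
  refine (norm_add_le _ _).trans ?_
  have h4 : ‖(c0 : ℂ) * (Real.log V * cexp (I * u * t) * Real.exp (-u ^ 2 / 2) -
        PP H370.A2.lamC u t)‖ ≤ c0 * (1 + (‖ph u t‖ + Real.sqrt (2 * Real.pi))) := by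
    rw [norm_mul, Complex.norm_real, Real.norm_of_nonneg hc00.le]
    refine mul_le_mul_of_nonneg_left ?_ hc00.le
    exact (norm_sub_le _ _).trans (add_le_add hpole hPP)
  have h5 : c0 * Real.sqrt (2 * Real.pi) = 1 := by
    rw [hc0]
    have : Real.sqrt (2 * Real.pi) ≠ 0 := by positivity
    field_simp
  have h6 : c0 * (1 + (‖ph u t‖ + Real.sqrt (2 * Real.pi))) = c0 * ‖ph u t‖ + (c0 + 1) := by
    rw [mul_add, mul_add, h5]
    ring
  linarith

lemma ph_cont (u : ℝ) : Continuous (ph u) := by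
  unfold ph
  exact (continuous_charFun).sub continuous_charFun

/-- the mean square of a block -/
lemma JJ_block (RH : RiemannHypothesis) {A η : ℝ} (hA : 0 ≤ A) (hη : 0 < η) :
    ∃ C V0 : ℝ, 0 < C ∧ 10 ≤ V0 ∧ ∀ V : ℝ, V0 ≤ V → ∀ u : ℝ, Real.log V / 4 ≤ u →
      u ≤ A * Real.log V → JJ riemannZeta V (2 * V) u ≤
        (1 + η) / (2 * Real.pi) * (∫ t in V..(2 * V), ‖ph u t‖ ^ 2) + C * V := by
  obtain ⟨C, V0, hC, hV0, h⟩ := AA_point RH hA
  obtain ⟨Co, T1, hCo, hT1, hout⟩ := H370.AS.Zg_outer good_zeta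
  have ev1 : ∀ᶠ V : ℝ in atTop, Real.log V ^ 3 ≤ V := by
    have h1 := (Real.isLittleO_pow_log_id_atTop (n := 3)).bound (show (0 : ℝ) < 1 by norm_num)
    filter_upwards [h1, eventually_ge_atTop (1 : ℝ)] with V hV hV1
    rw [Real.norm_eq_abs, Real.norm_eq_abs, id, abs_of_pos (by linarith : (0 : ℝ) < V),
      one_mul] at hV
    exact (le_abs_self _).trans hV
  have ev2 : ∀ᶠ V : ℝ in atTop, 2 * Real.log V ≤ V := by
    have h1 := (Real.isLittleO_log_id_atTop).bound (show (0 : ℝ) < 1 / 2 by norm_num)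
    filter_upwards [h1, eventually_ge_atTop 2] with V hV hV2
    have hl : 0 ≤ Real.log V := Real.log_nonneg (by linarith)
    rw [Real.norm_of_nonneg hl, id, Real.norm_of_nonneg (by linarith)] at hV
    linarith
  obtain ⟨V1, hV1⟩ := (ev1.and ev2).exists_forall_of_atTop
  refine ⟨(1 + 1 / η) * C ^ 2 + Co, max (max V0 T1) V1, by positivity,
    hV0.trans ((le_max_left _ _).trans (le_max_left _ _)), fun V hV u hu huA => ?_⟩
  have hVV0 : V0 ≤ V := ((le_max_left _ _).trans (le_max_left _ _)).trans hV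
  have hVT1 : T1 ≤ V := ((le_max_right _ _).trans (le_max_left _ _)).trans hV
  obtain ⟨e1, e2⟩ := hV1 V ((le_max_right _ _).trans hV)
  have hV10 : 10 ≤ V := hV0.trans hVV0
  have hU : 1 ≤ V := by linarith
  have hpi := Real.pi_gt_three
  have hl1 : 1 ≤ Real.log V := by
    rw [Real.le_log_iff_exp_le (by linarith)]
    linarith [Real.exp_one_lt_d9]
  have hab : V + Real.log V ≤ 2 * V - Real.log V := by linarith
  have hint := AA_sq_int good_zeta (U2 := 2 * V) hU u
  have hsplit : JJ riemannZeta V (2 * V) u =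
      (∫ t in (V + Real.log V)..(2 * V - Real.log V), ‖AA riemannZeta V (2 * V) u t‖ ^ 2) +
      ∫ t in (Set.Icc (V + Real.log V) (2 * V - Real.log V))ᶜ,
        ‖AA riemannZeta V (2 * V) u t‖ ^ 2 := by
    unfold JJ
    rw [← integral_add_compl measurableSet_Icc hint, intervalIntegral.integral_of_le hab,
      integral_Icc_eq_integral_Ioc]
  have houter : ∫ t in (Set.Icc (V + Real.log V) (2 * V - Real.log V))ᶜ,
        ‖AA riemannZeta V (2 * V) u t‖ ^ 2 ≤ Co * V := by
    have h1 : ∫ t in (Set.Icc (V + Real.log V) (2 * V - Real.log V))ᶜ,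
        ‖AA riemannZeta V (2 * V) u t‖ ^ 2 ≤
        ∫ t in (Set.Icc (V + Real.log V) (2 * V - Real.log V))ᶜ, Zg riemannZeta V (2 * V) t ^ 2 :=
      integral_mono hint.integrableOn
        (H370.AS.Zg_sq_int good_zeta (b := 2 * V) hU).integrableOn fun t =>
          pow_le_pow_left₀ (norm_nonneg _) (AA_le_Zg RH hU u t) 2
    refine (h1.trans (hout V hVT1 V (2 * V) le_rfl le_rfl)).trans ?_
    exact mul_le_mul_of_nonneg_left e1 hCo.le
  have hphc : Continuous fun t => ‖ph u t‖ ^ 2 := (ph_cont u).norm.pow 2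
  have hinner : ∫ t in (V + Real.log V)..(2 * V - Real.log V),
      ‖AA riemannZeta V (2 * V) u t‖ ^ 2 ≤
      (1 + η) / (2 * Real.pi) * (∫ t in V..(2 * V), ‖ph u t‖ ^ 2) + (1 + 1 / η) * C ^ 2 * V := by
    calc ∫ t in (V + Real.log V)..(2 * V - Real.log V), ‖AA riemannZeta V (2 * V) u t‖ ^ 2 ≤
        ∫ t in (V + Real.log V)..(2 * V - Real.log V),
          ((1 + η) / (2 * Real.pi) * ‖ph u t‖ ^ 2 + (1 + 1 / η) * C ^ 2) := by
          refine intervalIntegral.integral_mono_on hab ?_ ?_ fun t ht => ?_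
          · exact ((AA_cont good_zeta hU u).norm.pow 2).intervalIntegrable _ _
          · exact ((continuous_const.mul hphc).add continuous_const).intervalIntegrable _ _
          · have h1 := h V hVV0 u t hu huA ht.1 ht.2
            have h2 := pow_le_pow_left₀ (norm_nonneg _) h1 2
            refine h2.trans ((young hη).trans (le_of_eq ?_))
            rw [mul_pow, div_pow, one_pow, Real.sq_sqrt (by positivity)]
            ring
      _ ≤ ∫ t in V..(2 * V), ((1 + η) / (2 * Real.pi) * ‖ph u t‖ ^ 2 + (1 + 1 / η) * C ^ 2) := by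
          refine intervalIntegral.integral_mono_interval (by linarith) hab (by linarith)
            (Eventually.of_forall fun t => ?_) ?_
          · show 0 ≤ (1 + η) / (2 * Real.pi) * ‖ph u t‖ ^ 2 + (1 + 1 / η) * C ^ 2
            positivity
          · exact ((continuous_const.mul hphc).add continuous_const).intervalIntegrable _ _
      _ = _ := by
          have hc3 : Continuous fun t => (1 + η) / (2 * Real.pi) * ‖ph u t‖ ^ 2 :=
            continuous_const.mul hphc
          rw [intervalIntegral.integral_add (hc3.intervalIntegrable _ _)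
            (continuous_const.intervalIntegrable _ _), intervalIntegral.integral_const_mul,
            intervalIntegral.integral_const, smul_eq_mul]
          ring
  rw [hsplit]
  calc _ ≤ ((1 + η) / (2 * Real.pi) * (∫ t in V..(2 * V), ‖ph u t‖ ^ 2) +
      (1 + 1 / η) * C ^ 2 * V) + Co * V := add_le_add hinner houter
    _ = _ := by ring

end Pool.Agent.H7.PS
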