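import Pool.Agent.H7.PS.Zer3

/-! The pairs of zeros up to the heights `τ T`. -/

open MeasureTheory Filter Topology Real
open scoped ENNReal ContDiff

namespace Pool.Agent.H7.PS

open H370 TH803TW Pool.Agent.Y744 Pool.Agent.Y744.ANC Pool.Agent.H7.FF
open Pool.Agent.Results.MP_103a5c_nt.BohrSetPairs

variable {κ : ℝ} {K : ℝ → ℝ}

/-- the counting function -/
noncomputable def BB (T τ y : ℝ) : ℝ := (Xf T)⁻¹ * ∑ s ∈ Zt (τ * T), ∑ s' ∈ Zt (τ * T),
  mz s * mz s' * Set.indicator {x : ℝ | |x| ≤ y} (fun _ => (1 : ℝ)) (dd T s s')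

lemma Lam_BB (hK : TK κ K) (T τ : ℝ) :
    Lam (BB T τ) K = (Xf T)⁻¹ * Q2 (ct K) (τ * T) (Real.log T) := by
  have hw := dct_int hK
  have e1 : ∀ y, BB T τ y * dct K y =
      (Xf T)⁻¹ * ∑ s ∈ Zt (τ * T), ∑ s' ∈ Zt (τ * T), mz s * mz s' *
        (Set.Ici |dd T s s'|).indicator (dct K) y := by
    intro y
    unfold BB
    rw [mul_assoc, Finset.sum_mul]
    congr 1
    refine Finset.sum_congr rfl fun s _ => ?_
    rw [Finset.sum_mul]
    refine Finset.sum_congr rfl fun s' _ => ?_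
    rw [mul_assoc]
    congr 1
    by_cases hx : |dd T s s'| ≤ y
    · rw [Set.indicator_of_mem (show dd T s s' ∈ {x : ℝ | |x| ≤ y} from hx),
        Set.indicator_of_mem (show y ∈ Set.Ici |dd T s s'| from hx), one_mul]
    · rw [Set.indicator_of_notMem (show dd T s s' ∉ {x : ℝ | |x| ≤ y} from hx),
        Set.indicator_of_notMem (show y ∉ Set.Ici |dd T s s'| from hx), zero_mul]
  unfold Lam
  simp_rw [e1]
  have hi : ∀ t : ℝ, Integrable ((Set.Ici t).indicator (dct K)) := fun t =>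
    hw.indicator measurableSet_Ici
  rw [integral_const_mul, integral_finsetSum _ fun s _ => integrable_finsetSum _ fun s' _ =>
    (hi _).const_mul _]
  rw [← mul_neg]
  congr 1
  unfold Q2 QS
  rw [← Finset.sum_neg_distrib]
  refine Finset.sum_congr rfl fun s _ => ?_
  rw [integral_finsetSum _ fun s' _ => (hi _).const_mul _, ← Finset.sum_neg_distrib]
  refine Finset.sum_congr rfl fun s' _ => ?_
  rw [integral_const_mul, integral_indicator measurableSet_Ici, integral_Ici_eq_integral_Ioi,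
    Pool.Agent.H7.FF.tail_int hK]
  have : ct K |dd T s s'| = ct K ((s.im - s'.im) * Real.log T / (2 * π)) := by
    show ct K |dd T s s'| = ct K (dd T s s')
    rcases abs_cases (dd T s s') with ⟨h1, _⟩ | ⟨h1, _⟩
    · rw [h1]
    · rw [h1, TK.ct_neg]
  rw [this]
  ring

lemma BB_nonneg {T : ℝ} (hT : 1 < T) (τ y : ℝ) : 0 ≤ BB T τ y := by
  unfold BB
  refine mul_nonneg (inv_nonneg.2 (Xf_pos hT).le) ?_
  refine Finset.sum_nonneg fun s _ => Finset.sum_nonneg fun s' _ => ?_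
  exact mul_nonneg (mul_nonneg (mz_nonneg _) (mz_nonneg _)) (ind_nonneg _ _)

lemma BB_mono {T : ℝ} (hT : 1 < T) (τ : ℝ) : Monotone (BB T τ) := by
  intro a b hab
  unfold BB
  refine mul_le_mul_of_nonneg_left ?_ (inv_nonneg.2 (Xf_pos hT).le)
  refine Finset.sum_le_sum fun s _ => Finset.sum_le_sum fun s' _ => ?_
  refine mul_le_mul_of_nonneg_left ?_ (mul_nonneg (mz_nonneg _) (mz_nonneg _))
  exact Set.indicator_le_indicator_of_subset (fun x (hx : |x| ≤ a) => hx.trans hab)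
    (fun _ => zero_le_one) _

lemma Zt_mono {a b : ℝ} (h : a ≤ b) : Zt a ⊆ Zt b := by
  intro s hs
  rw [mem_Zt] at hs ⊢
  exact ⟨hs.1, hs.2.1, hs.2.2.1, hs.2.2.2.1.trans h, hs.2.2.2.2⟩

lemma BB_mono2 {T : ℝ} (hT : 1 < T) (y : ℝ) : Monotone fun τ => BB T τ y := by
  intro a b hab
  show BB T a y ≤ BB T b y
  unfold BB
  refine mul_le_mul_of_nonneg_left ?_ (inv_nonneg.2 (Xf_pos hT).le)
  have hsub : Zt (a * T) ⊆ Zt (b * T) := Zt_mono (mul_le_mul_of_nonneg_right hab (by linarith))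
  have hnn : ∀ s s' : ℂ, 0 ≤ mz s * mz s' *
      Set.indicator {x : ℝ | |x| ≤ y} (fun _ => (1 : ℝ)) (dd T s s') := fun s s' =>
    mul_nonneg (mul_nonneg (mz_nonneg _) (mz_nonneg _)) (ind_nonneg _ _)
  calc _ ≤ ∑ s ∈ Zt (a * T), ∑ s' ∈ Zt (b * T), mz s * mz s' *
      Set.indicator {x : ℝ | |x| ≤ y} (fun _ => (1 : ℝ)) (dd T s s') :=
        Finset.sum_le_sum fun s _ => Finset.sum_le_sum_of_subset_of_nonneg hsub
          fun s' _ _ => hnn s s'
    _ ≤ _ := Finset.sum_le_sum_of_subset_of_nonneg hsub fun s _ _ =>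
        Finset.sum_nonneg fun s' _ => hnn s s'

lemma BB_neg (T τ y : ℝ) (hy : y < 0) : BB T τ y = 0 := by
  unfold BB
  have : {x : ℝ | |x| ≤ y} = ∅ := by
    ext x
    simp only [Set.mem_ofPred_eq, Set.mem_empty_iff_false, iff_false, not_le]
    exact hy.trans_le (abs_nonneg x)
  rw [this]
  simp

lemma Zt_empty {a : ℝ} (ha : a ≤ 0) : Zt a = ∅ := by
  ext s
  rw [mem_Zt]
  simp only [Finset.notMem_empty, iff_false]
  rintro ⟨_, _, h3, h4, _⟩
  linarith

lemma BB_zero {T τ : ℝ} (hT : 0 ≤ T) (hτ : τ ≤ 0) (y : ℝ) : BB T τ y = 0 := by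
  unfold BB
  rw [Zt_empty (mul_nonpos_of_nonpos_of_nonneg hτ hT)]
  simp

/-- growth -/
lemma BB_bound (RH : RiemannHypothesis) : ∃ C0 : ℝ, 0 ≤ C0 ∧ ∀ τ : ℝ, 0 < τ →
    ∀ᶠ T : ℝ in atTop, ∀ y, BB T τ y ≤ C0 * τ * (1 + y ^ 2) := by
  obtain ⟨C, B0, V0, hC, hB0, hV0, hblk, hloc⟩ := PP_bound RH
  have hpi := Real.pi_pos
  refine ⟨12800 * (2 * C + 1) * (2 * π), by positivity, fun τ hτ => ?_⟩
  filter_upwards [log_ratio hτ, eventually_ge_atTop (V0 / τ), eventually_ge_atTop (B0 / τ),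
    eventually_ge_atTop (Real.exp 1)] with T hlr hT0 hTB hTe y
  obtain ⟨l1, l2, l3⟩ := hlr
  rw [div_le_iff₀ hτ] at hT0 hTB
  have hT1 : 1 < T := lt_of_lt_of_le (Real.one_lt_exp_iff.2 one_pos) hTe
  have hTpos : 0 < T := by linarith
  have hL : 1 ≤ Real.log T := by
    rw [Real.le_log_iff_exp_le hTpos]
    exact hTe
  have hX := Xf_pos hT1
  obtain ⟨V, hV⟩ : ∃ V, V = τ * T := ⟨_, rfl⟩
  have hVV0 : V0 ≤ V := by linarith
  have hVB : B0 ≤ V := by linarith
  rw [← hV] at l1 l2 l3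
  have hlV : 0 < Real.log V := by linarith
  rcases lt_or_ge y 0 with hy | hy
  · rw [BB_neg T τ y hy]
    positivity
  · unfold BB
    rw [← hV, inv_mul_le_iff₀ hX]
    have h1 : ∑ s ∈ Zt V, ∑ s' ∈ Zt V, mz s * mz s' *
        Set.indicator {x : ℝ | |x| ≤ y} (fun _ => (1 : ℝ)) (dd T s s') ≤
        (1 + y ^ 2) * ∑ s ∈ Zt V, ∑ s' ∈ Zt V, mz s * mz s' *
        |(fun x : ℝ => 4 / (1 + x ^ 2)) ((s.im - s'.im) * Real.log V / (2 * π))| := by
      rw [Finset.mul_sum]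
      refine Finset.sum_le_sum fun s _ => ?_
      rw [Finset.mul_sum]
      refine Finset.sum_le_sum fun s' _ => ?_
      have hm : 0 ≤ mz s * mz s' := mul_nonneg (mz_nonneg _) (mz_nonneg _)
      obtain ⟨x, hx⟩ : ∃ x, x = (s.im - s'.im) * Real.log V / (2 * π) := ⟨_, rfl⟩
      rw [← hx]
      have hdx : dd T s s' = (Real.log T / Real.log V) * x := by
        rw [hx]
        unfold dd
        field_simp
      rw [hdx]
      have hr : 1 / 2 ≤ Real.log T / Real.log V := by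
        rw [div_le_div_iff₀ (by norm_num) hlV]
        linarith
      obtain ⟨r, hre⟩ : ∃ r, r = Real.log T / Real.log V := ⟨_, rfl⟩
      rw [← hre] at hr ⊢
      show mz s * mz s' * Set.indicator {x : ℝ | |x| ≤ y} (fun _ => (1 : ℝ)) (r * x) ≤
        (1 + y ^ 2) * (mz s * mz s' * |4 / (1 + x ^ 2)|)
      have h2 : Set.indicator {x : ℝ | |x| ≤ y} (fun _ => (1 : ℝ)) (r * x) ≤
          (1 + y ^ 2) * (4 / (1 + x ^ 2)) := by
        by_cases hx : |r * x| ≤ y
        · rw [Set.indicator_of_mem (show r * x ∈ {x : ℝ | |x| ≤ y} from hx), ← mul_div_assoc,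
            le_div_iff₀ (by positivity), one_mul]
          have h3 : (r * x) ^ 2 ≤ y ^ 2 := by
            rw [← sq_abs (r * x)]
            exact pow_le_pow_left₀ (abs_nonneg _) hx 2
          have h4 : 1 / 4 ≤ r ^ 2 := by nlinarith
          have h5 : 1 / 4 * x ^ 2 ≤ r ^ 2 * x ^ 2 := mul_le_mul_of_nonneg_right h4 (sq_nonneg _)
          nlinarith [sq_nonneg y]
        · rw [Set.indicator_of_notMem (show r * x ∉ {x : ℝ | |x| ≤ y} from hx)]
          positivity
      rw [abs_of_nonneg (by positivity)]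
      have h3 := mul_le_mul_of_nonneg_left h2 hm
      linarith
    have h2 := QS_abs_bound (x := fun s : ℂ => s.im) (Zt V) (Zt V) mz_nonneg
      (f := fun x : ℝ => 4 / (1 + x ^ 2)) (K := 4) (fun x => by
        rw [abs_of_nonneg (by positivity)]) (Λ := Real.log V) hlV one_pos
    have h3 := hloc V hVV0 (Real.log V) le_rfl
    have h6 : B0 + C * (V * Real.log V) ≤ (2 * C + 1) * (V * Real.log T) := by
      have a1 : V * Real.log V ≤ V * (2 * Real.log T) :=
        mul_le_mul_of_nonneg_left l3 (by linarith)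
      have a2 : B0 ≤ V * Real.log T := by nlinarith
      nlinarith
    calc _ ≤ _ := h1
      _ ≤ (1 + y ^ 2) * (12800 * ((2 * C + 1) * (V * Real.log T))) := by
          refine mul_le_mul_of_nonneg_left (h2.trans ?_) (by positivity)
          linarith
      _ = Xf T * (12800 * (2 * C + 1) * (2 * π) * τ * (1 + y ^ 2)) := by
          rw [hV]
          unfold Xf
          field_simp

/-- the ratio of the normalisations -/
lemma Xf_ratio {τ : ℝ} (hτ : 0 < τ) : Tendsto (fun T => Xf (τ * T) / Xf T) atTop (𝓝 τ) := by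
  have h4 : Tendsto (fun T : ℝ => τ * (1 + Real.log τ * (Real.log T)⁻¹)) atTop
      (𝓝 (τ * (1 + Real.log τ * 0))) :=
    ((((tendsto_inv_atTop_zero.comp Real.tendsto_log_atTop).const_mul _)).const_add _).const_mul _
  rw [mul_zero, add_zero, mul_one] at h4
  refine h4.congr' ?_
  filter_upwards [eventually_gt_atTop (1 : ℝ)] with T hT
  have hL : 0 < Real.log T := Real.log_pos hT
  have hpi := Real.pi_pos
  unfold Xf
  rw [Real.log_mul hτ.ne' (by linarith)]
  field_simp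
  ring

/-- the diagonal -/
lemma BB_diag {τ : ℝ} (hτ : 0 < τ) {ε : ℝ} (hε : 0 < ε) :
    ∀ᶠ T : ℝ in atTop, ∀ y, 0 ≤ y → τ - ε ≤ BB T τ y := by
  have h1 : ∀ᶠ T : ℝ in atTop, 1 - ε / (2 * (τ + 1)) ≤ Aa (τ * T) 0 :=
    (tendsto_id.const_mul_atTop hτ).eventually (Aa_diag (ε := ε / (2 * (τ + 1))) (by positivity))
  have h2 := (tendsto_order.1 (Xf_ratio hτ)).1 (τ - ε / 2) (by linarith)
  have h3 := (tendsto_order.1 (Xf_ratio hτ)).2 (τ + 1) (by linarith)
  filter_upwards [h1, h2, h3, eventually_gt_atTop 1, eventually_gt_atTop (1 / τ)]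
    with T h1 h2 h3 hT hTτ y hy
  rw [div_lt_iff₀ hτ] at hTτ
  have hX := Xf_pos hT
  have hX2 := Xf_pos (V := τ * T) (by linarith)
  have h4 : Xf (τ * T) / Xf T * Aa (τ * T) 0 ≤ BB T τ 0 := by
    unfold Aa PC BB
    have e : Xf (τ * T) / Xf T * ((Xf (τ * T))⁻¹ * ∑ s ∈ Zt (τ * T), ∑ s' ∈ Zt (τ * T),
        mz s * mz s' * Set.indicator {x : ℝ | |x| ≤ 0} (fun _ => (1 : ℝ)) (dd (τ * T) s s')) =
        (Xf T)⁻¹ * ∑ s ∈ Zt (τ * T), ∑ s' ∈ Zt (τ * T),
        mz s * mz s' * Set.indicator {x : ℝ | |x| ≤ 0} (fun _ => (1 : ℝ)) (dd (τ * T) s s') := by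
      field_simp
    rw [e]
    refine mul_le_mul_of_nonneg_left ?_ (inv_nonneg.2 hX.le)
    refine Finset.sum_le_sum fun s _ => Finset.sum_le_sum fun s' _ => ?_
    refine mul_le_mul_of_nonneg_left ?_ (mul_nonneg (mz_nonneg _) (mz_nonneg _))
    by_cases hx : |dd (τ * T) s s'| ≤ 0
    · have h5 : dd (τ * T) s s' = 0 := abs_eq_zero.1 (le_antisymm hx (abs_nonneg _))
      have hlog : Real.log (τ * T) ≠ 0 := (Real.log_pos (by linarith)).ne'
      have h6 : s.im - s'.im = 0 := by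
        unfold dd at h5
        have hpi := Real.pi_ne_zero
        rw [div_eq_zero_iff] at h5
        rcases h5 with h5 | h5
        · rcases mul_eq_zero.1 h5 with h7 | h7
          · exact h7
          · exact absurd h7 hlog
        · exact absurd h5 (by positivity)
      have h7 : dd T s s' = 0 := by
        unfold dd
        rw [h6]
        simp
      rw [h5, h7]
    · rw [Set.indicator_of_notMem (show dd (τ * T) s s' ∉ {x : ℝ | |x| ≤ 0} from hx)]
      exact ind_nonneg _ _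
  have h5 : BB T τ 0 ≤ BB T τ y := BB_mono hT τ hy
  have h8 : (τ - ε / 2) - ε / 2 ≤ Xf (τ * T) / Xf T * Aa (τ * T) 0 := by
    have h9 : 0 ≤ Xf (τ * T) / Xf T := by positivity
    have h10 : Xf (τ * T) / Xf T * (1 - ε / (2 * (τ + 1))) ≤ Xf (τ * T) / Xf T * Aa (τ * T) 0 :=
      mul_le_mul_of_nonneg_left h1 h9
    have h11 : Xf (τ * T) / Xf T * (ε / (2 * (τ + 1))) ≤ (τ + 1) * (ε / (2 * (τ + 1))) :=
      mul_le_mul_of_nonneg_right h3.le (by positivity)
    have h12 : (τ + 1) * (ε / (2 * (τ + 1))) = ε / 2 := by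
      field_simp
    nlinarith
  linarith

/-- pairs weighted by a nonnegative transform -/
lemma Lam_BB_ge (hK : TK κ K) (hpos : ∀ y, 0 ≤ ct K y) {T : ℝ} (hT : 1 < T) (τ : ℝ) :
    ct K 0 * BB T τ 0 ≤ Lam (BB T τ) K := by
  rw [Lam_BB hK]
  unfold BB Q2 QS
  rw [mul_left_comm]
  refine mul_le_mul_of_nonneg_left ?_ (inv_nonneg.2 (Xf_pos hT).le)
  rw [Finset.mul_sum]
  refine Finset.sum_le_sum fun s _ => ?_
  rw [Finset.mul_sum]
  refine Finset.sum_le_sum fun s' _ => ?_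
  have hm : 0 ≤ mz s * mz s' := mul_nonneg (mz_nonneg _) (mz_nonneg _)
  show ct K 0 * (mz s * mz s' * Set.indicator {x : ℝ | |x| ≤ 0} (fun _ => (1 : ℝ)) (dd T s s')) ≤
    mz s * mz s' * ct K (dd T s s')
  by_cases hx : |dd T s s'| ≤ 0
  · have h5 : dd T s s' = 0 := abs_eq_zero.1 (le_antisymm hx (abs_nonneg _))
    rw [h5, Set.indicator_of_mem (by simp : (0 : ℝ) ∈ {x : ℝ | |x| ≤ 0})]
    linarith
  · rw [Set.indicator_of_notMem (show dd T s s' ∉ {x : ℝ | |x| ≤ 0} from hx), mul_zero, mul_zero]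
    exact mul_nonneg hm (hpos _)

end Pool.Agent.H7.PS
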