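import Pool.Agent.H7.PS.Ker

/-! The upper bound on the side of the primes. -/

open MeasureTheory Filter Topology Real
open scoped ENNReal

namespace Pool.Agent.H7.PS

/-- the integral over the lengths -/
noncomputable def BI (R X : ℝ) : ℝ≥0∞ :=
  ∫⁻ H in Set.Ioi (0 : ℝ), ENNReal.ofReal ((1 + H / X) ^ (-R)) * Ul X H

lemma BI_crude {R X : ℝ} (hX : 0 < X) (hR : 3 < R) :
    BI R X ≤ ENNReal.ofReal (4 * cC ^ 2 * (X ^ 4 / (R - 3))) := by
  have h := B_gen (X := X) (R := R) (H1 := 0) (H2 := 0) (M0 := 0) (M1 := 0) hX hR le_rfl le_rfl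
    le_rfl le_rfl (fun H h1 h2 => absurd h2 (not_le.2 h1)) (fun H h1 h2 => absurd h2 (not_le.2 h1))
  refine h.trans (le_of_eq ?_)
  congr 1
  rw [zero_div, add_zero, Real.one_rpow]
  ring

lemma RF_W {R : ℝ} {Ω W : ℝ → ℝ≥0∞}
    (hW : ∀ X, 0 < X → ∀ a ∈ Set.Ico X (2 * X), Ω (Real.log a) ≤ W X) :
    RF R Ω ≤ ∫⁻ X in Set.Ioi (0 : ℝ), ENNReal.ofReal (X ^ (-4 : ℤ)) * (W X * BI R X) := by
  unfold RF
  refine setLIntegral_mono' measurableSet_Ioi fun X hX => ?_
  have hX0 : 0 < X := hX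
  refine mul_le_mul_right ?_ _
  unfold BI
  have hm : Measurable fun H : ℝ => ENNReal.ofReal ((1 + H / X) ^ (-R)) * Ul X H :=
    (Measurable.pow (by fun_prop) (by fun_prop) : Measurable fun H : ℝ =>
      (1 + H / X) ^ (-R)).ennreal_ofReal.mul (Ul_meas.comp (measurable_const.prodMk measurable_id))
  rw [← lintegral_const_mul _ hm]
  refine lintegral_mono fun H => ?_
  have h1 : ∫⁻ a in Set.Ico X (2 * X), Ω (Real.log a) * ENNReal.ofReal (dP a H ^ 2) ≤
      W X * Ul X H := by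
    unfold Ul
    have hm2 : Measurable fun a : ℝ => ENNReal.ofReal (dP a H ^ 2) :=
      ((dP_meas.comp (measurable_id.prodMk measurable_const)).pow_const 2).ennreal_ofReal
    rw [← lintegral_const_mul _ hm2]
    exact setLIntegral_mono' measurableSet_Ico fun a ha => mul_le_mul_left (hW X hX0 a ha) _
  calc ENNReal.ofReal ((1 + H / X) ^ (-R)) *
      ∫⁻ a in Set.Ico X (2 * X), Ω (Real.log a) * ENNReal.ofReal (dP a H ^ 2) ≤
      ENNReal.ofReal ((1 + H / X) ^ (-R)) * (W X * Ul X H) := mul_le_mul_right h1 _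
    _ = W X * (ENNReal.ofReal ((1 + H / X) ^ (-R)) * Ul X H) := by ring

lemma chv {T : ℝ} (hT : 1 < T) {f : ℝ → ℝ} (hf : Continuous f) (a b : ℝ) :
    ∫ x in (T ^ a)..(T ^ b), f (Real.log x / Real.log T) * x⁻¹ =
      Real.log T * ∫ α in a..b, f α := by
  have hT0 : 0 < T := by linarith
  have hL : 0 < Real.log T := Real.log_pos hT
  have hpos : ∀ x ∈ Set.uIcc (T ^ a) (T ^ b), 0 < x := by
    intro x hx
    have h1 : 0 < min (T ^ a) (T ^ b) := lt_min (by positivity) (by positivity)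
    exact h1.trans_le hx.1
  have h1 := intervalIntegral.integral_comp_mul_deriv (a := T ^ a) (b := T ^ b)
    (f := fun x => Real.log x / Real.log T) (f' := fun x => x⁻¹ / Real.log T) (g := f)
    (fun x hx => (Real.hasDerivAt_log (hpos x hx).ne').div_const _)
    (ContinuousOn.div_const (ContinuousOn.inv₀ continuousOn_id fun x hx => (hpos x hx).ne') _) hf
  have e1 : Real.log (T ^ a) / Real.log T = a := by
    rw [Real.log_rpow hT0]
    field_simp
  have e2 : Real.log (T ^ b) / Real.log T = b := by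
    rw [Real.log_rpow hT0]
    field_simp
  simp only [Function.comp_apply, e1, e2] at h1
  rw [← h1, ← intervalIntegral.integral_const_mul]
  refine intervalIntegral.integral_congr fun x _ => ?_
  show f (Real.log x / Real.log T) * x⁻¹ =
    Real.log T * (f (Real.log x / Real.log T) * (x⁻¹ / Real.log T))
  field_simp

lemma piece {T a b β R : ℝ} (hT : 1 < T) (hab : a ≤ b) (hβ : 0 ≤ β) {f : ℝ → ℝ}
    (hf : Continuous f) (hf0 : ∀ x, 0 ≤ f x) {B : ℝ → ℝ≥0∞}
    (hB : ∀ X, T ^ a ≤ X → X ≤ T ^ b →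
      B X ≤ ENNReal.ofReal (β * (Real.log T * X ^ 3 / R ^ 2))) :
    ∫⁻ X in Set.Ioc (T ^ a) (T ^ b), ENNReal.ofReal (X ^ (-4 : ℤ)) *
      (ENNReal.ofReal (f (Real.log X / Real.log T)) * B X) ≤
    ENNReal.ofReal (Real.log T ^ 2 / R ^ 2 * (β * ∫ α in a..b, f α)) := by
  have hT0 : 0 < T := by linarith
  have hL : 0 < Real.log T := Real.log_pos hT
  have hTa : T ^ a ≤ T ^ b := Real.rpow_le_rpow_of_exponent_le hT.le hab
  have hTa0 : 0 < T ^ a := by positivity
  have h1 : ∫⁻ X in Set.Ioc (T ^ a) (T ^ b), ENNReal.ofReal (X ^ (-4 : ℤ)) *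
      (ENNReal.ofReal (f (Real.log X / Real.log T)) * B X) ≤
      ∫⁻ X in Set.Ioc (T ^ a) (T ^ b), ENNReal.ofReal (Real.log T / R ^ 2 * β *
        (f (Real.log X / Real.log T) * X⁻¹)) := by
    refine setLIntegral_mono' measurableSet_Ioc fun X hX => ?_
    have hX0 : 0 < X := hTa0.trans hX.1
    refine (mul_le_mul_right (mul_le_mul_right (hB X hX.1.le hX.2) _) _).trans (le_of_eq ?_)
    rw [← ENNReal.ofReal_mul (hf0 _), ← ENNReal.ofReal_mul (by positivity)]
    congr 1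
    have e1 : X ^ (-4 : ℤ) = 1 / X ^ 4 := by
      rw [zpow_neg, one_div]
      norm_cast
    rw [e1]
    field_simp
  refine h1.trans (le_of_eq ?_)
  have hc : ContinuousOn (fun X : ℝ => Real.log T / R ^ 2 * β *
      (f (Real.log X / Real.log T) * X⁻¹)) (Set.Icc (T ^ a) (T ^ b)) := by
    have h2 : ContinuousOn (fun X : ℝ => Real.log X) (Set.Icc (T ^ a) (T ^ b)) :=
      Real.continuousOn_log.mono fun x hx => (hTa0.trans_le hx.1).ne'
    have h3 : ContinuousOn (fun X : ℝ => X⁻¹) (Set.Icc (T ^ a) (T ^ b)) :=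
      ContinuousOn.inv₀ continuousOn_id fun x hx => (hTa0.trans_le hx.1).ne'
    exact continuousOn_const.mul ((hf.comp_continuousOn (h2.div_const _)).mul h3)
  have hi := (hc.integrableOn_Icc (μ := volume)).mono_set (Set.Ioc_subset_Icc_self)
  rw [← ofReal_integral_eq_lintegral_ofReal hi, ← intervalIntegral.integral_of_le hTa,
    intervalIntegral.integral_const_mul, chv hT hf]
  · congr 1
    ring
  · refine (ae_restrict_iff' measurableSet_Ioc).2 (Eventually.of_forall fun X hX => ?_)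
    have hX0 : 0 < X := hTa0.trans hX.1
    have := hf0 (Real.log X / Real.log T)
    show 0 ≤ Real.log T / R ^ 2 * β * (f (Real.log X / Real.log T) * X⁻¹)
    positivity

lemma low_piece {T R q : ℝ} (_ : 1 < T) (hR : 3 < R) (hq : 0 ≤ q) :
    ∫⁻ X in Set.Ioc 0 (T ^ (1 / 4 : ℝ)), ENNReal.ofReal (X ^ (-4 : ℤ)) *
      (ENNReal.ofReal q * BI R X) ≤
    ENNReal.ofReal (q * (4 * cC ^ 2) / (R - 3) * T ^ (1 / 4 : ℝ)) := by
  have hR3 : 0 < R - 3 := by linarith
  have h1 : ∫⁻ X in Set.Ioc 0 (T ^ (1 / 4 : ℝ)), ENNReal.ofReal (X ^ (-4 : ℤ)) *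
      (ENNReal.ofReal q * BI R X) ≤
      ∫⁻ _ in Set.Ioc 0 (T ^ (1 / 4 : ℝ)), ENNReal.ofReal (q * (4 * cC ^ 2) / (R - 3)) := by
    refine setLIntegral_mono' measurableSet_Ioc fun X hX => ?_
    have hX0 : 0 < X := hX.1
    refine (mul_le_mul_right (mul_le_mul_right (BI_crude hX0 hR) _) _).trans (le_of_eq ?_)
    rw [← ENNReal.ofReal_mul hq, ← ENNReal.ofReal_mul (by positivity)]
    congr 1
    have e1 : X ^ (-4 : ℤ) = 1 / X ^ 4 := by
      rw [zpow_neg, one_div]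
      norm_cast
    rw [e1]
    field_simp
  refine h1.trans (le_of_eq ?_)
  rw [setLIntegral_const, Real.volume_Ioc, sub_zero, ← ENNReal.ofReal_mul (by positivity)]

lemma high_piece {A R q : ℝ} (hA : 1 ≤ A) (hR : 3 < R) (hq : 0 ≤ q) :
    ∫⁻ X in Set.Ioi A, ENNReal.ofReal (X ^ (-4 : ℤ)) *
      (ENNReal.ofReal (q * X ^ (-3 : ℝ)) * BI R X) ≤
    ENNReal.ofReal (q * (4 * cC ^ 2) / (R - 3) * A ^ (-2 : ℝ)) := by
  have hR3 : 0 < R - 3 := by linarith
  have hA0 : 0 < A := by linarith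
  have h1 : ∫⁻ X in Set.Ioi A, ENNReal.ofReal (X ^ (-4 : ℤ)) *
      (ENNReal.ofReal (q * X ^ (-3 : ℝ)) * BI R X) ≤
      ∫⁻ X in Set.Ioi A, ENNReal.ofReal (q * (4 * cC ^ 2) / (R - 3) * X ^ (-3 : ℝ)) := by
    refine setLIntegral_mono' measurableSet_Ioi fun X hX => ?_
    have hX0 : 0 < X := hA0.trans hX
    refine (mul_le_mul_right (mul_le_mul_right (BI_crude hX0 hR) _) _).trans (le_of_eq ?_)
    rw [← ENNReal.ofReal_mul (by positivity), ← ENNReal.ofReal_mul (by positivity)]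
    congr 1
    have e1 : X ^ (-4 : ℤ) = 1 / X ^ 4 := by
      rw [zpow_neg, one_div]
      norm_cast
    rw [e1]
    field_simp
  refine h1.trans ?_
  have hi := integrableOn_Ioi_rpow_of_lt (a := (-3 : ℝ)) (by norm_num) hA0
  rw [← ofReal_integral_eq_lintegral_ofReal (hi.const_mul _), integral_const_mul,
    integral_Ioi_rpow_of_lt (by norm_num) hA0]
  · refine ENNReal.ofReal_le_ofReal ?_
    have h2 : 0 < A ^ (-2 : ℝ) := by positivity
    have e : -A ^ ((-3 : ℝ) + 1) / (-3 + 1) = A ^ (-2 : ℝ) / 2 := by norm_num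
    rw [e]
    have h3 : 0 ≤ q * (4 * cC ^ 2) / (R - 3) := by positivity
    nlinarith
  · refine (ae_restrict_iff' measurableSet_Ioi).2 (Eventually.of_forall fun X hX => ?_)
    have hX0 : 0 < X := hA0.trans hX
    show 0 ≤ q * (4 * cC ^ 2) / (R - 3) * X ^ (-3 : ℝ)
    positivity

/-- the four ranges -/
lemma RF_four {T R κ ε C q1 q2 : ℝ} (hT : 1 < T) (hR : 3 < R) (hε : 0 < ε) (hκ : ε ≤ κ)
    (hC : 0 ≤ C) (hq1 : 0 ≤ q1) (hq2 : 0 ≤ q2) {f : ℝ → ℝ} (hf : Continuous f)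
    (hf0 : ∀ x, 0 ≤ f x) {Ω : ℝ → ℝ≥0∞}
    (h1 : ∀ X, 0 < X → X ≤ T ^ (1 / 4 : ℝ) → ∀ a ∈ Set.Ico X (2 * X),
      Ω (Real.log a) ≤ ENNReal.ofReal q1)
    (h2 : ∀ X, T ^ (1 / 4 : ℝ) < X → X ≤ T ^ (κ + 1) → ∀ a ∈ Set.Ico X (2 * X),
      Ω (Real.log a) ≤ ENNReal.ofReal (f (Real.log X / Real.log T)))
    (h3 : ∀ X, T ^ (κ + 1) < X → ∀ a ∈ Set.Ico X (2 * X),
      Ω (Real.log a) ≤ ENNReal.ofReal (q2 * X ^ (-3 : ℝ)))
    (hB1 : ∀ X, T ^ (1 / 4 : ℝ) ≤ X → X ≤ T ^ (κ + 1) →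
      BI R X ≤ ENNReal.ofReal (C * (Real.log T * X ^ 3 / R ^ 2)))
    (hB2 : ∀ X, T ^ (1 + ε) ≤ X → X ≤ T ^ (κ + 1) →
      BI R X ≤ ENNReal.ofReal ((1 + 3 * ε) * (Real.log T * X ^ 3 / R ^ 2))) :
    RF R Ω ≤ ENNReal.ofReal (q1 * (4 * cC ^ 2) / (R - 3) * T ^ (1 / 4 : ℝ) +
      Real.log T ^ 2 / R ^ 2 * (C * ∫ α in (1 / 4 : ℝ)..(1 + ε), f α) +
      Real.log T ^ 2 / R ^ 2 * ((1 + 3 * ε) * ∫ α in (1 + ε)..(κ + 1), f α) +
      q2 * (4 * cC ^ 2) / (R - 3) * (T ^ (κ + 1)) ^ (-2 : ℝ)) := by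
  classical
  have hT0 : 0 < T := by linarith
  have hR3 : 0 < R - 3 := by linarith
  obtain ⟨W, hW⟩ : ∃ W : ℝ → ℝ≥0∞, W = fun X => if X ≤ T ^ (1 / 4 : ℝ) then ENNReal.ofReal q1
    else if X ≤ T ^ (κ + 1) then ENNReal.ofReal (f (Real.log X / Real.log T))
    else ENNReal.ofReal (q2 * X ^ (-3 : ℝ)) := ⟨_, rfl⟩
  have e12 : T ^ (1 / 4 : ℝ) ≤ T ^ (1 + ε) :=
    Real.rpow_le_rpow_of_exponent_le hT.le (by linarith)
  have e23 : T ^ (1 + ε) ≤ T ^ (κ + 1) :=
    Real.rpow_le_rpow_of_exponent_le hT.le (by linarith)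
  have e01 : 0 < T ^ (1 / 4 : ℝ) := by positivity
  have hA : 1 ≤ T ^ (κ + 1) := Real.one_le_rpow hT.le (by linarith)
  have hRF := RF_W (R := R) (Ω := Ω) (W := W) (fun X hX a ha => by
    rw [hW]
    show _ ≤ if X ≤ T ^ (1 / 4 : ℝ) then _ else _
    split_ifs with i1 i2
    · exact h1 X hX i1 a ha
    · exact h2 X (not_le.1 i1) i2 a ha
    · exact h3 X (not_le.1 i2) a ha)
  refine hRF.trans ?_
  have hsplit : Set.Ioi (0 : ℝ) ⊆ (Set.Ioc 0 (T ^ (1 / 4 : ℝ)) ∪
      Set.Ioc (T ^ (1 / 4 : ℝ)) (T ^ (1 + ε))) ∪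
      (Set.Ioc (T ^ (1 + ε)) (T ^ (κ + 1)) ∪ Set.Ioi (T ^ (κ + 1))) := by
    intro x hx
    have hx0 : 0 < x := hx
    by_cases j1 : x ≤ T ^ (1 / 4 : ℝ)
    · exact Or.inl (Or.inl ⟨hx0, j1⟩)
    · by_cases j2 : x ≤ T ^ (1 + ε)
      · exact Or.inl (Or.inr ⟨not_le.1 j1, j2⟩)
      · by_cases j3 : x ≤ T ^ (κ + 1)
        · exact Or.inr (Or.inl ⟨not_le.1 j2, j3⟩)
        · exact Or.inr (Or.inr (not_le.1 j3))
  obtain ⟨G, hG⟩ : ∃ G : ℝ → ℝ≥0∞, G = fun X => ENNReal.ofReal (X ^ (-4 : ℤ)) * (W X * BI R X) :=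
    ⟨_, rfl⟩
  have hL2 : 0 ≤ Real.log T ^ 2 / R ^ 2 := by positivity
  have hint : ∀ a b : ℝ, a ≤ b → 0 ≤ ∫ α in a..b, f α := fun a b hab =>
    intervalIntegral.integral_nonneg hab fun x _ => hf0 x
  have hs : ∫⁻ X in Set.Ioi (0 : ℝ), G X ≤ ((∫⁻ X in Set.Ioc 0 (T ^ (1 / 4 : ℝ)), G X) +
      ∫⁻ X in Set.Ioc (T ^ (1 / 4 : ℝ)) (T ^ (1 + ε)), G X) +
      ((∫⁻ X in Set.Ioc (T ^ (1 + ε)) (T ^ (κ + 1)), G X) +
        ∫⁻ X in Set.Ioi (T ^ (κ + 1)), G X) := by
    refine (lintegral_mono_set hsplit).trans ?_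
    refine (lintegral_union_le _ _ _).trans ?_
    exact add_le_add (lintegral_union_le _ _ _) (lintegral_union_le _ _ _)
  have g1 : ∫⁻ X in Set.Ioc 0 (T ^ (1 / 4 : ℝ)), G X ≤
      ENNReal.ofReal (q1 * (4 * cC ^ 2) / (R - 3) * T ^ (1 / 4 : ℝ)) := by
    refine le_trans (le_of_eq ?_) (low_piece hT hR hq1)
    refine setLIntegral_congr_fun measurableSet_Ioc fun X hX => ?_
    rw [hG, hW]
    simp only [if_pos hX.2]
  have g2 : ∫⁻ X in Set.Ioc (T ^ (1 / 4 : ℝ)) (T ^ (1 + ε)), G X ≤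
      ENNReal.ofReal (Real.log T ^ 2 / R ^ 2 * (C * ∫ α in (1 / 4 : ℝ)..(1 + ε), f α)) := by
    refine le_trans (le_of_eq ?_) (piece (a := 1 / 4) (b := 1 + ε) (B := BI R) hT (by linarith) hC
      hf hf0 fun X hX1 hX2 => hB1 X hX1 (hX2.trans e23))
    refine setLIntegral_congr_fun measurableSet_Ioc fun X hX => ?_
    rw [hG, hW]
    simp only [if_neg (not_le.2 hX.1), if_pos (hX.2.trans e23)]
  have g3 : ∫⁻ X in Set.Ioc (T ^ (1 + ε)) (T ^ (κ + 1)), G X ≤
      ENNReal.ofReal (Real.log T ^ 2 / R ^ 2 * ((1 + 3 * ε) * ∫ α in (1 + ε)..(κ + 1), f α)) := by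
    refine le_trans (le_of_eq ?_) (piece (a := 1 + ε) (b := κ + 1) (B := BI R) hT (by linarith)
      (by linarith) hf hf0 fun X hX1 hX2 => hB2 X hX1 hX2)
    refine setLIntegral_congr_fun measurableSet_Ioc fun X hX => ?_
    rw [hG, hW]
    simp only [if_neg (not_le.2 (e12.trans_lt hX.1)), if_pos hX.2]
  have g4 : ∫⁻ X in Set.Ioi (T ^ (κ + 1)), G X ≤
      ENNReal.ofReal (q2 * (4 * cC ^ 2) / (R - 3) * (T ^ (κ + 1)) ^ (-2 : ℝ)) := by
    refine le_trans (le_of_eq ?_) (high_piece hA hR hq2)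
    refine setLIntegral_congr_fun measurableSet_Ioi fun X hX => ?_
    rw [hG, hW]
    have hX' : T ^ (κ + 1) < X := hX
    simp only [if_neg (not_le.2 ((e12.trans e23).trans_lt hX')), if_neg (not_le.2 hX')]
  have hG' : ∫⁻ X in Set.Ioi (0 : ℝ), ENNReal.ofReal (X ^ (-4 : ℤ)) * (W X * BI R X) =
      ∫⁻ X in Set.Ioi (0 : ℝ), G X := by rw [hG]
  rw [hG']
  refine (hs.trans (add_le_add (add_le_add g1 g2) (add_le_add g3 g4))).trans (le_of_eq ?_)
  have i1 := hint (1 / 4) (1 + ε) (by linarith)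
  have i2 := hint (1 + ε) (κ + 1) (by linarith)
  rw [← ENNReal.ofReal_add (by positivity) (by positivity),
    ← ENNReal.ofReal_add (by positivity) (by positivity),
    ← ENNReal.ofReal_add (by positivity) (by positivity)]
  congr 1
  ring

/-- the weights used -/
structure WK (κ M D : ℝ) (K : ℝ → ℝ) : Prop where
  nonneg : ∀ α, 0 ≤ K α
  bound : ∀ α, K α ≤ M
  lip : ∀ α β, |K α - K β| ≤ D * |α - β|
  supp : ∀ α, 0 < α → K α ≠ 0 → 1 / 2 ≤ α ∧ α ≤ κ

lemma WK.cont {κ M D : ℝ} {K : ℝ → ℝ} (h : WK κ M D K) : Continuous K := by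
  have hD : 0 ≤ D := by
    have h1 := h.lip 1 0
    have h2 := abs_nonneg (K 1 - K 0)
    simp at h1
    linarith
  have : LipschitzWith D.toNNReal K := by
    refine LipschitzWith.of_dist_le_mul fun x y => ?_
    rw [Real.dist_eq, Real.dist_eq, Real.coe_toNNReal _ hD]
    exact h.lip x y
  exact this.continuous

/-- the superposition used -/
noncomputable def kT (K : ℝ → ℝ) (T u : ℝ) : ℝ≥0∞ := ENNReal.ofReal (K (u / Real.log T))

lemma kT_meas {κ M D : ℝ} {K : ℝ → ℝ} (h : WK κ M D K) (T : ℝ) : Measurable (kT K T) := by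
  unfold kT
  exact (h.cont.comp (by fun_prop : Continuous fun u : ℝ => u / Real.log T)).measurable.ennreal_ofReal

lemma gauss_lint {b : ℝ} (hb : 0 < b) (v : ℝ) :
    ∫⁻ u, ENNReal.ofReal (Real.exp (-b * (u - v) ^ 2)) = ENNReal.ofReal (Real.sqrt (π / b)) := by
  have h1 : Integrable fun u : ℝ => Real.exp (-b * (u - v) ^ 2) :=
    (integrable_exp_neg_mul_sq hb).comp_sub_right v
  rw [← ofReal_integral_eq_lintegral_ofReal h1 (Eventually.of_forall fun u => (Real.exp_pos _).le),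
    integral_sub_right_eq_self (fun u : ℝ => Real.exp (-b * u ^ 2)) v, integral_gaussian]

lemma Om0_le_Om1 (k : ℝ → ℝ≥0∞) (v : ℝ) : Om0 k v ≤ Om1 k v := by
  unfold Om0 Om1
  refine lintegral_mono fun u => mul_le_mul_right (ENNReal.ofReal_le_ofReal ?_) _
  have h1 : Real.exp (-(u - v) ^ 2) ≤ Real.exp (-(u - v) ^ 2 / 2) :=
    Real.exp_le_exp.2 (by nlinarith [sq_nonneg (u - v)])
  have h2 := Real.exp_pos (-(u - v) ^ 2 / 2)
  linarith

/-- the crude bound, with a gain from the distance to the support -/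
lemma Om1_gain {κ M D T v E : ℝ} {K : ℝ → ℝ} (h : WK κ M D K) (hT : 1 < T) (hM : 0 ≤ M)
    (hE : ∀ u, Real.log T / 2 ≤ u → u ≤ κ * Real.log T → 4 * E ≤ (u - v) ^ 2) :
    Om1 (kT K T) v ≤ ENNReal.ofReal (4 * M * Real.sqrt (4 * π) * Real.exp (-E)) := by
  have hL : 0 < Real.log T := Real.log_pos hT
  unfold Om1
  have h1 : ∫⁻ u in Set.Ioi (0 : ℝ), kT K T u * ENNReal.ofReal (4 * Real.exp (-(u - v) ^ 2 / 2)) ≤
      ∫⁻ u in Set.Ioi (0 : ℝ), ENNReal.ofReal (4 * M * Real.exp (-E)) *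
        ENNReal.ofReal (Real.exp (-(1 / 4) * (u - v) ^ 2)) := by
    refine setLIntegral_mono' measurableSet_Ioi fun u hu => ?_
    have hu0 : 0 < u := hu
    unfold kT
    by_cases hK : K (u / Real.log T) = 0
    · rw [hK, ENNReal.ofReal_zero, zero_mul]
      exact zero_le
    · obtain ⟨k1, k2⟩ := h.supp _ (by positivity) hK
      rw [le_div_iff₀ hL] at k1
      rw [div_le_iff₀ hL] at k2
      have k3 := hE u (by linarith) k2
      rw [← ENNReal.ofReal_mul (h.nonneg _), ← ENNReal.ofReal_mul (by positivity)]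
      refine ENNReal.ofReal_le_ofReal ?_
      have k4 : Real.exp (-(u - v) ^ 2 / 2) ≤
          Real.exp (-E) * Real.exp (-(1 / 4) * (u - v) ^ 2) := by
        rw [← Real.exp_add]
        exact Real.exp_le_exp.2 (by linarith)
      have k5 := h.bound (u / Real.log T)
      calc K (u / Real.log T) * (4 * Real.exp (-(u - v) ^ 2 / 2)) ≤
          M * (4 * (Real.exp (-E) * Real.exp (-(1 / 4) * (u - v) ^ 2))) := by gcongr
        _ = _ := by ring
  refine h1.trans ?_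
  rw [lintegral_const_mul' _ _ ENNReal.ofReal_ne_top]
  refine (mul_le_mul_right (setLIntegral_le_lintegral _ _) _).trans (le_of_eq ?_)
  rw [gauss_lint (by norm_num), ← ENNReal.ofReal_mul (by positivity)]
  congr 1
  have e : π / (1 / 4) = 4 * π := by ring
  rw [e]
  ring

lemma Om1_low {κ M D T X a : ℝ} {K : ℝ → ℝ} (h : WK κ M D K) (hT : 1 < T) (hM : 0 ≤ M)
    (hT8 : 8 ≤ Real.log T) (hX : 0 < X) (hX1 : X ≤ T ^ (1 / 4 : ℝ)) (ha : a ∈ Set.Ico X (2 * X)) :
    Om1 (kT K T) (Real.log a) ≤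
      ENNReal.ofReal (4 * M * Real.sqrt (4 * π) * Real.exp (-(Real.log T ^ 2 / 256))) := by
  refine Om1_gain h hT hM fun u hu _ => ?_
  have ha0 : 0 < a := hX.trans_le ha.1
  have hT0 : 0 < T := by linarith
  have h1 : Real.log a ≤ Real.log T / 4 + 1 := by
    have h2 : Real.log a ≤ Real.log (2 * T ^ (1 / 4 : ℝ)) :=
      Real.log_le_log ha0 (ha.2.le.trans (by linarith))
    rw [Real.log_mul (by norm_num) (by positivity), Real.log_rpow hT0] at h2
    have h3 : Real.log 2 ≤ 1 := by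
      have := Real.log_two_lt_d9
      linarith
    linarith
  have h2 : Real.log T / 8 ≤ u - Real.log a := by linarith
  have h3 : (Real.log T / 8) ^ 2 ≤ (u - Real.log a) ^ 2 :=
    pow_le_pow_left₀ (by linarith) h2 2
  nlinarith

lemma Om1_high {κ M D T X a : ℝ} {K : ℝ → ℝ} (h : WK κ M D K) (hT : 1 < T) (hM : 0 ≤ M)
    (hκ : 0 ≤ κ) (hT8 : 12 * (κ + 1) ≤ Real.log T) (hX1 : T ^ (κ + 1) < X)
    (ha : a ∈ Set.Ico X (2 * X)) :
    Om1 (kT K T) (Real.log a) ≤
      ENNReal.ofReal (4 * M * Real.sqrt (4 * π) * X ^ (-3 : ℝ)) := by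
  have hT0 : 0 < T := by linarith
  have hX0 : 0 < X := lt_trans (by positivity) hX1
  have ha0 : 0 < a := hX0.trans_le ha.1
  have hL : 0 < Real.log T := Real.log_pos hT
  have h0 : (κ + 1) * Real.log T ≤ Real.log X := by
    have h2 := Real.log_le_log (by positivity) hX1.le
    rwa [Real.log_rpow hT0] at h2
  have h1 : Real.log X ≤ Real.log a := Real.log_le_log hX0 ha.1
  refine (Om1_gain (E := 3 * Real.log X) h hT hM fun u _ hu => ?_).trans (le_of_eq ?_)
  · -- distance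
    have h2 : Real.log X ≤ (κ + 1) * (Real.log X - κ * Real.log T) := by nlinarith
    have h3 : Real.log X - κ * Real.log T ≤ Real.log a - u := by linarith
    have h4 : Real.log T ≤ Real.log X - κ * Real.log T := by linarith
    have h5 : (Real.log X - κ * Real.log T) ^ 2 ≤ (u - Real.log a) ^ 2 := by
      have h6 := pow_le_pow_left₀ (by linarith) h3 2
      calc _ ≤ (Real.log a - u) ^ 2 := h6
        _ = _ := by ring
    have h7 : 12 * (κ + 1) * (Real.log X - κ * Real.log T) ≤ (Real.log X - κ * Real.log T) ^ 2 := by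
      rw [sq]
      exact mul_le_mul_of_nonneg_right (hT8.trans h4) (by linarith)
    nlinarith
  · congr 2
    rw [Real.rpow_def_of_pos hX0]
    congr 1
    ring

lemma Om1_main {κ M D T : ℝ} {K : ℝ → ℝ} (h : WK κ M D K) (hT : 1 < T) (hM : 0 ≤ M) (v : ℝ) :
    Om1 (kT K T) v ≤ ENNReal.ofReal (4 * M * Real.sqrt (4 * π)) := by
  have h1 := Om1_gain (E := 0) (v := v) h hT hM fun u _ _ => by rw [mul_zero]; positivity
  simpa using h1

lemma Om0_main {κ M D T X a : ℝ} {K : ℝ → ℝ} (h : WK κ M D K) (hT : 1 < T)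
    (hX : 0 < X) (ha : a ∈ Set.Ico X (2 * X)) :
    Om0 (kT K T) (Real.log a) ≤ ENNReal.ofReal (Real.sqrt π *
      (K (Real.log X / Real.log T) + 3 * D / Real.log T)) := by
  have hL : 0 < Real.log T := Real.log_pos hT
  have hD : 0 ≤ D := by
    have h1 := h.lip 1 0
    have h2 := abs_nonneg (K 1 - K 0)
    simp at h1
    linarith
  obtain ⟨L, hLe⟩ : ∃ L, L = Real.log T := ⟨_, rfl⟩
  rw [← hLe] at hL ⊢
  have ha0 : 0 < a := hX.trans_le ha.1
  obtain ⟨v, hv⟩ : ∃ v, v = Real.log a := ⟨_, rfl⟩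
  rw [← hv]
  unfold Om0 kT
  rw [← hLe]
  have h1 : ∫⁻ u in Set.Ioi (0 : ℝ), ENNReal.ofReal (K (u / L)) *
      ENNReal.ofReal (Real.exp (-(u - v) ^ 2)) ≤
      ∫⁻ u, (ENNReal.ofReal (K (v / L)) * ENNReal.ofReal (Real.exp (-1 * (u - v) ^ 2)) +
        ENNReal.ofReal (D / L) * ENNReal.ofReal (Real.exp (-(1 / 2) * (u - v) ^ 2))) := by
    refine (setLIntegral_le_lintegral _ _).trans (lintegral_mono fun u => ?_)
    rw [← ENNReal.ofReal_mul (h.nonneg _), ← ENNReal.ofReal_mul (h.nonneg _),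
      ← ENNReal.ofReal_mul (by positivity), ← ENNReal.ofReal_add
        (mul_nonneg (h.nonneg _) (Real.exp_pos _).le) (by positivity)]
    refine ENNReal.ofReal_le_ofReal ?_
    have h2 : K (u / L) ≤ K (v / L) + D / L * |u - v| := by
      have h3 := (abs_le.1 (h.lip (u / L) (v / L))).2
      have h4 : D * |u / L - v / L| = D / L * |u - v| := by
        rw [← sub_div, abs_div, abs_of_pos hL]
        ring
      linarith
    have h5 : |u - v| * Real.exp (-(u - v) ^ 2) ≤ Real.exp (-(1 / 2) * (u - v) ^ 2) := by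
      have h6 : |u - v| ≤ Real.exp ((u - v) ^ 2 / 2) := by
        have h7 := Real.add_one_le_exp ((u - v) ^ 2 / 2)
        nlinarith [sq_abs (u - v), sq_nonneg (|u - v| - 1)]
      calc |u - v| * Real.exp (-(u - v) ^ 2) ≤
          Real.exp ((u - v) ^ 2 / 2) * Real.exp (-(u - v) ^ 2) :=
            mul_le_mul_of_nonneg_right h6 (Real.exp_pos _).le
        _ = _ := by
            rw [← Real.exp_add]
            congr 1
            ring
    have e : -1 * (u - v) ^ 2 = -(u - v) ^ 2 := by ring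
    rw [e]
    calc K (u / L) * Real.exp (-(u - v) ^ 2) ≤
        (K (v / L) + D / L * |u - v|) * Real.exp (-(u - v) ^ 2) :=
          mul_le_mul_of_nonneg_right h2 (Real.exp_pos _).le
      _ = K (v / L) * Real.exp (-(u - v) ^ 2) + D / L * (|u - v| * Real.exp (-(u - v) ^ 2)) := by
          ring
      _ ≤ _ := by
          have h8 : 0 ≤ D / L := by positivity
          have := mul_le_mul_of_nonneg_left h5 h8
          linarith
  refine h1.trans ?_
  have hm : Measurable fun u : ℝ => ENNReal.ofReal (K (v / L)) *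
      ENNReal.ofReal (Real.exp (-1 * (u - v) ^ 2)) :=
    measurable_const.mul (by fun_prop : Measurable fun u : ℝ =>
      Real.exp (-1 * (u - v) ^ 2)).ennreal_ofReal
  rw [lintegral_add_left hm, lintegral_const_mul' _ _ ENNReal.ofReal_ne_top,
    lintegral_const_mul' _ _ ENNReal.ofReal_ne_top, gauss_lint one_pos, gauss_lint (by norm_num),
    ← ENNReal.ofReal_mul (h.nonneg _), ← ENNReal.ofReal_mul (by positivity),
    ← ENNReal.ofReal_add (mul_nonneg (h.nonneg _) (Real.sqrt_nonneg _)) (by positivity)]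
  refine ENNReal.ofReal_le_ofReal ?_
  have hs : 0 < Real.sqrt π := by positivity
  have e1 : Real.sqrt (π / 1) = Real.sqrt π := by rw [div_one]
  have e2 : Real.sqrt (π / (1 / 2)) ≤ 2 * Real.sqrt π := by
    rw [show π / (1 / 2) = 2 * π by ring, Real.sqrt_mul (by norm_num)]
    refine mul_le_mul_of_nonneg_right ?_ hs.le
    rw [Real.sqrt_le_left (by norm_num)]
    norm_num
  rw [e1]
  have h9 : K (v / L) ≤ K (Real.log X / L) + D / L := by
    have h3 := (abs_le.1 (h.lip (v / L) (Real.log X / L))).2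
    have h4 : |v / L - Real.log X / L| ≤ 1 / L := by
      rw [← sub_div, abs_div, abs_of_pos hL]
      refine div_le_div_of_nonneg_right ?_ hL.le
      have h5 : 0 ≤ v - Real.log X := by
        rw [hv]
        have := Real.log_le_log hX ha.1
        linarith
      rw [abs_of_nonneg h5, hv]
      have h6 : Real.log a ≤ Real.log (2 * X) := Real.log_le_log ha0 ha.2.le
      rw [Real.log_mul (by norm_num) hX.ne'] at h6
      have := Real.log_two_lt_d9
      linarith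
    have h5 : D * |v / L - Real.log X / L| ≤ D * (1 / L) := mul_le_mul_of_nonneg_left h4 hD
    have h6 : D * (1 / L) = D / L := by ring
    linarith
  have h10 : D / L * Real.sqrt (π / (1 / 2)) ≤ D / L * (2 * Real.sqrt π) :=
    mul_le_mul_of_nonneg_left e2 (by positivity)
  calc K (v / L) * Real.sqrt π + D / L * Real.sqrt (π / (1 / 2)) ≤
      (K (Real.log X / L) + D / L) * Real.sqrt π + D / L * (2 * Real.sqrt π) := by gcongr
    _ = _ := by ring

end Pool.Agent.H7.PS
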