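import Pool.Agent.H7.PS.Mix

/-! Bounds for the functional of the intervals of fixed length. -/

open MeasureTheory Filter Topology Real
open scoped ENNReal

namespace Pool.Agent.H7.PS

/-- the Chebyshev constant -/
noncomputable def cC : ℝ := Real.log 4 + 4

lemma cC_one : 1 ≤ cC := by
  unfold cC
  have : 0 ≤ Real.log 4 := Real.log_nonneg (by norm_num)
  linarith

lemma dP_abs {a H : ℝ} (ha : 0 ≤ a) (hH : 0 ≤ H) : |dP a H| ≤ cC * (a + H) := by
  unfold dP
  have h1 : Chebyshev.psi a ≤ Chebyshev.psi (a + H) := Chebyshev.psi_mono (by linarith)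
  have h2 : Chebyshev.psi (a + H) ≤ cC * (a + H) := Chebyshev.psi_le_const_mul_self (by linarith)
  have h3 : 0 ≤ Chebyshev.psi a := Chebyshev.psi_nonneg a
  have h4 := cC_one
  rw [abs_le]
  constructor
  · nlinarith
  · linarith

/-- the mean square over a dyadic interval -/
noncomputable def Ul (X H : ℝ) : ℝ≥0∞ := ∫⁻ a in Set.Ico X (2 * X), ENNReal.ofReal (dP a H ^ 2)

lemma Ul_meas : Measurable fun p : ℝ × ℝ => Ul p.1 p.2 := by
  have m1 : Measurable fun q : (ℝ × ℝ) × ℝ => q.1.1 := measurable_fst.comp measurable_fst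
  have m2 : Measurable fun q : (ℝ × ℝ) × ℝ => q.2 := measurable_snd
  have m3 : Measurable fun q : (ℝ × ℝ) × ℝ => q.1.2 := measurable_snd.comp measurable_fst
  have hset : MeasurableSet {q : (ℝ × ℝ) × ℝ | q.2 ∈ Set.Ico q.1.1 (2 * q.1.1)} :=
    (measurableSet_le m1 m2).inter (measurableSet_lt m2 (m1.const_mul 2))
  have h1 : Measurable ({q : (ℝ × ℝ) × ℝ | q.2 ∈ Set.Ico q.1.1 (2 * q.1.1)}.indicator
        (fun q => ENNReal.ofReal (dP q.2 q.1.2 ^ 2))) :=
    Measurable.indicator ((dP_meas.comp (m2.prodMk m3)).pow_const 2).ennreal_ofReal hset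
  have h2 := h1.lintegral_prod_right' (ν := (volume : Measure ℝ))
  have e : (fun p : ℝ × ℝ => Ul p.1 p.2) = fun p : ℝ × ℝ => ∫⁻ a,
      {q : (ℝ × ℝ) × ℝ | q.2 ∈ Set.Ico q.1.1 (2 * q.1.1)}.indicator
        (fun q => ENNReal.ofReal (dP q.2 q.1.2 ^ 2)) (p, a) := by
    funext p
    unfold Ul
    rw [← lintegral_indicator measurableSet_Ico]
    rfl
  rw [e]
  exact h2

lemma Ul_crude {X H : ℝ} (hX : 0 < X) (hH : 0 < H) :
    Ul X H ≤ ENNReal.ofReal (4 * cC ^ 2 * (X * (X + H) ^ 2)) := by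
  unfold Ul
  have h1 : ∫⁻ a in Set.Ico X (2 * X), ENNReal.ofReal (dP a H ^ 2) ≤
      ∫⁻ _ in Set.Ico X (2 * X), ENNReal.ofReal (4 * cC ^ 2 * (X + H) ^ 2) := by
    refine setLIntegral_mono' measurableSet_Ico fun a ha => ENNReal.ofReal_le_ofReal ?_
    have h2 := dP_abs (a := a) (H := H) (hX.le.trans ha.1) hH.le
    have h3 := cC_one
    have h4 : |dP a H| ≤ cC * (2 * (X + H)) := by
      refine h2.trans ?_
      have := ha.2
      gcongr
      linarith
    rw [← sq_abs]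
    calc |dP a H| ^ 2 ≤ (cC * (2 * (X + H))) ^ 2 := by gcongr
      _ = _ := by ring
  refine h1.trans (le_of_eq ?_)
  rw [lintegral_const, Measure.restrict_apply_univ, Real.volume_Ico,
    ← ENNReal.ofReal_mul (by positivity)]
  congr 1
  ring

/-! ### the weight -/

lemma pw_int {X R : ℝ} (hX : 0 < X) (hR : 1 < R) {H2 : ℝ} (hH2 : 0 ≤ H2) :
    IntegrableOn (fun H => (1 + H / X) ^ (-R)) (Set.Ioi H2) ∧
    ∫ H in Set.Ioi H2, (1 + H / X) ^ (-R) = X / (R - 1) * (1 + H2 / X) ^ (1 - R) := by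
  have hb : 0 < 1 + H2 / X := by positivity
  have h1 := integrableOn_Ioi_rpow_of_lt (show -R < -1 by linarith) hb
  have h2 := integral_Ioi_rpow_of_lt (show -R < -1 by linarith) hb
  have hd : ∀ x ∈ Set.Ici H2, HasDerivAt (fun H => -(X / (R - 1) * (1 + H / X) ^ (1 - R)))
      ((1 + x / X) ^ (-R)) x := by
    intro x hx
    have hx0 : 0 ≤ x := hH2.trans hx
    have h3 : HasDerivAt (fun H : ℝ => 1 + H / X) (1 / X) x := by
      simpa using ((hasDerivAt_id x).div_const X).const_add 1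
    have h4 := h3.rpow_const (p := 1 - R) (Or.inl (by positivity))
    have h5 := (h4.const_mul (X / (R - 1))).neg
    refine h5.congr_deriv ?_
    have h6 : R - 1 ≠ 0 := by linarith
    have h7 : (1 : ℝ) - R - 1 = -R := by ring
    rw [h7]
    field_simp
    ring
  have hlim : Tendsto (fun H => -(X / (R - 1) * (1 + H / X) ^ (1 - R))) atTop (𝓝 0) := by
    have h3 : Tendsto (fun H : ℝ => 1 + H / X) atTop atTop :=
      tendsto_atTop_add_const_left _ _ (tendsto_id.atTop_div_const hX)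
    have h4 : Tendsto (fun y : ℝ => y ^ (-(R - 1))) atTop (𝓝 0) :=
      tendsto_rpow_neg_atTop (by linarith)
    have h5 := ((h4.comp h3).const_mul (X / (R - 1))).neg
    rw [mul_zero, neg_zero] at h5
    refine h5.congr fun H => ?_
    show -(X / (R - 1) * (1 + H / X) ^ (-(R - 1))) = _
    rw [show -(R - 1) = 1 - R by ring]
  have hpos : ∀ x ∈ Set.Ioi H2, 0 ≤ (1 + x / X) ^ (-R) := fun x hx => by
    have : 0 < x := lt_of_le_of_lt hH2 hx
    positivity
  have hint := integrableOn_Ioi_deriv_of_nonneg' hd hpos hlim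
  refine ⟨hint, ?_⟩
  rw [integral_Ioi_of_hasDerivAt_of_tendsto' hd hint hlim]
  ring

/-- the crude tail -/
lemma tail_lint {X R H2 : ℝ} (hX : 0 < X) (hR : 3 < R) (hH2 : 0 ≤ H2) :
    ∫⁻ H in Set.Ioi H2, ENNReal.ofReal ((1 + H / X) ^ (-R)) * Ul X H ≤
      ENNReal.ofReal (4 * cC ^ 2 * (X ^ 4 / (R - 3) * (1 + H2 / X) ^ (3 - R))) := by
  have h1 : ∀ H ∈ Set.Ioi H2, ENNReal.ofReal ((1 + H / X) ^ (-R)) * Ul X H ≤
      ENNReal.ofReal (4 * cC ^ 2 * X ^ 3 * (1 + H / X) ^ (-(R - 2))) := by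
    intro H hH
    have hH0 : 0 < H := lt_of_le_of_lt hH2 hH
    refine (mul_le_mul_right (Ul_crude hX hH0) _).trans ?_
    rw [← ENNReal.ofReal_mul (by positivity)]
    refine ENNReal.ofReal_le_ofReal (le_of_eq ?_)
    have hb : 0 < 1 + H / X := by positivity
    have h2 : (1 + H / X) ^ (-(R - 2)) = (1 + H / X) ^ (-R) * (1 + H / X) ^ 2 := by
      rw [← Real.rpow_natCast, ← Real.rpow_add hb]
      congr 1
      push_cast
      ring
    rw [h2]
    field_simp
  refine (setLIntegral_mono' measurableSet_Ioi h1).trans ?_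
  obtain ⟨i1, i2⟩ := pw_int (R := R - 2) hX (by linarith) hH2
  have h3 : ∫ H in Set.Ioi H2, 4 * cC ^ 2 * X ^ 3 * (1 + H / X) ^ (-(R - 2)) =
      4 * cC ^ 2 * (X ^ 4 / (R - 3) * (1 + H2 / X) ^ (3 - R)) := by
    rw [integral_const_mul, i2]
    rw [show R - 2 - 1 = R - 3 by ring, show 1 - (R - 2) = 3 - R by ring]
    ring
  rw [← ofReal_integral_eq_lintegral_ofReal (i1.const_mul _), h3]
  rw [Filter.EventuallyLE, ae_restrict_iff' measurableSet_Ioi]
  refine Eventually.of_forall fun H hH => ?_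
  have hH0 : 0 < H := lt_of_le_of_lt hH2 hH
  show 0 ≤ _
  positivity

/-- the main range -/
lemma main_lint {X R : ℝ} (hX : 0 < X) (hR : 3 < R) :
    ∫⁻ H in Set.Ioi (0 : ℝ), ENNReal.ofReal ((1 + H / X) ^ (-R)) * ENNReal.ofReal H =
      ENNReal.ofReal (X ^ 2 / ((R - 1) * (R - 2))) := by
  obtain ⟨i1, e1⟩ := pw_int (R := R) hX (by linarith) le_rfl
  obtain ⟨i2, e2⟩ := pw_int (R := R - 1) hX (by linarith) le_rfl
  have h1 : ∀ H ∈ Set.Ioi (0 : ℝ), ENNReal.ofReal ((1 + H / X) ^ (-R)) * ENNReal.ofReal H =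
      ENNReal.ofReal (X * ((1 + H / X) ^ (-(R - 1)) - (1 + H / X) ^ (-R))) := by
    intro H hH
    have hH0 : 0 < H := hH
    have hb : 0 < 1 + H / X := by positivity
    rw [← ENNReal.ofReal_mul (by positivity)]
    congr 1
    have h2 : (1 + H / X) ^ (-(R - 1)) = (1 + H / X) ^ (-R) * (1 + H / X) := by
      rw [← Real.rpow_add_one hb.ne']
      congr 1
      ring
    rw [h2]
    field_simp
    ring
  rw [setLIntegral_congr_fun measurableSet_Ioi h1, ← ofReal_integral_eq_lintegral_ofReal]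
  · rw [integral_const_mul, integral_sub i2 i1, e1, e2]
    congr 1
    simp only [zero_div, add_zero, Real.one_rpow, mul_one]
    have h3 : R - 1 ≠ 0 := by linarith
    have h4 : R - 2 ≠ 0 := by linarith
    have h5 : R - 1 - 1 ≠ 0 := by
      rw [show R - 1 - 1 = R - 2 by ring]
      exact h4
    field_simp
    ring
  · exact (i2.sub i1).const_mul _
  · rw [Filter.EventuallyLE, ae_restrict_iff' measurableSet_Ioi]
    refine Eventually.of_forall fun H hH => ?_
    have hH0 : 0 < H := hH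
    have hb : 1 ≤ 1 + H / X := by
      have : 0 < H / X := by positivity
      linarith
    show 0 ≤ X * ((1 + H / X) ^ (-(R - 1)) - (1 + H / X) ^ (-R))
    refine mul_nonneg hX.le (sub_nonneg.2 ?_)
    exact Real.rpow_le_rpow_of_exponent_le hb (by linarith)

/-- **the general bound** -/
theorem B_gen {X R H1 H2 M0 M1 : ℝ} (hX : 0 < X) (hR : 3 < R) (hH1 : 0 ≤ H1) (hH12 : H1 ≤ H2)
    (hM0 : 0 ≤ M0) (hM1 : 0 ≤ M1)
    (hA : ∀ H, 0 < H → H ≤ H1 → Ul X H ≤ ENNReal.ofReal (M0 * H))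
    (hB : ∀ H, H1 < H → H ≤ H2 → Ul X H ≤ ENNReal.ofReal (M1 * H)) :
    ∫⁻ H in Set.Ioi (0 : ℝ), ENNReal.ofReal ((1 + H / X) ^ (-R)) * Ul X H ≤
      ENNReal.ofReal (M0 * H1 ^ 2 + M1 * (X ^ 2 / ((R - 1) * (R - 2))) +
        4 * cC ^ 2 * (X ^ 4 / (R - 3) * (1 + H2 / X) ^ (3 - R))) := by
  have hH2 : 0 ≤ H2 := hH1.trans hH12
  have e1 : Set.Ioi (0 : ℝ) = Set.Ioc 0 H1 ∪ (Set.Ioc H1 H2 ∪ Set.Ioi H2) := by
    rw [Set.Ioc_union_Ioi_eq_Ioi hH12, Set.Ioc_union_Ioi_eq_Ioi hH1]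
  have hc : 0 < (R - 1) * (R - 2) := mul_pos (by linarith) (by linarith)
  have hR3 : 0 < R - 3 := by linarith
  rw [ENNReal.ofReal_add (by positivity) (by positivity), ENNReal.ofReal_add (by positivity)
    (by positivity), add_assoc]
  rw [e1]
  refine (lintegral_union_le _ _ _).trans (add_le_add ?_ ((lintegral_union_le _ _ _).trans
    (add_le_add ?_ ?_)))
  · have h1 : ∫⁻ H in Set.Ioc 0 H1, ENNReal.ofReal ((1 + H / X) ^ (-R)) * Ul X H ≤
        ∫⁻ _ in Set.Ioc 0 H1, ENNReal.ofReal (M0 * H1) := by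
      refine setLIntegral_mono' measurableSet_Ioc fun H hH => ?_
      have hH0 : 0 < H := hH.1
      have h2 : (1 + H / X) ^ (-R) ≤ 1 := by
        refine Real.rpow_le_one_of_one_le_of_nonpos ?_ (by linarith)
        have : 0 < H / X := by positivity
        linarith
      calc ENNReal.ofReal ((1 + H / X) ^ (-R)) * Ul X H ≤ 1 * ENNReal.ofReal (M0 * H) := by
            refine mul_le_mul' ?_ (hA H hH.1 hH.2)
            rw [← ENNReal.ofReal_one]
            exact ENNReal.ofReal_le_ofReal h2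
        _ ≤ ENNReal.ofReal (M0 * H1) := by
            rw [one_mul]
            exact ENNReal.ofReal_le_ofReal (mul_le_mul_of_nonneg_left hH.2 hM0)
    refine h1.trans (le_of_eq ?_)
    rw [lintegral_const, Measure.restrict_apply_univ, Real.volume_Ioc,
      ← ENNReal.ofReal_mul (by positivity)]
    congr 1
    ring
  · calc ∫⁻ H in Set.Ioc H1 H2, ENNReal.ofReal ((1 + H / X) ^ (-R)) * Ul X H ≤
          ∫⁻ H in Set.Ioc H1 H2, ENNReal.ofReal M1 *
            (ENNReal.ofReal ((1 + H / X) ^ (-R)) * ENNReal.ofReal H) := by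
          refine setLIntegral_mono' measurableSet_Ioc fun H hH => ?_
          refine (mul_le_mul_right (hB H hH.1 hH.2) _).trans (le_of_eq ?_)
          rw [ENNReal.ofReal_mul hM1]
          ring
      _ ≤ ∫⁻ H in Set.Ioi (0 : ℝ), ENNReal.ofReal M1 *
            (ENNReal.ofReal ((1 + H / X) ^ (-R)) * ENNReal.ofReal H) :=
          lintegral_mono_set fun H hH => lt_of_le_of_lt hH1 hH.1
      _ = _ := by
          rw [lintegral_const_mul' _ _ ENNReal.ofReal_ne_top, main_lint hX hR,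
            ← ENNReal.ofReal_mul hM1]
  · exact tail_lint hX hR hH2

end Pool.Agent.H7.PS
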