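import Pool.Agent.H7.PS.Prm

/-! The quadratic functional of the primes. -/

open MeasureTheory Filter Topology Real
open scoped ENNReal

namespace Pool.Agent.H7.PS

/-- the discrepancy of the primes in `(e ^ v, e ^ (v + δ)]` -/
noncomputable def dn (v δ : ℝ) : ℝ :=
  Chebyshev.psi (Real.exp (v + δ)) - Chebyshev.psi (Real.exp v) - (Real.exp (v + δ) - Real.exp v)

lemma dn_meas : Measurable fun p : ℝ × ℝ => dn p.1 p.2 := by
  unfold dn
  have hψ : Measurable Chebyshev.psi := Chebyshev.psi_mono.measurable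
  refine Measurable.sub (Measurable.sub ?_ ?_) (Measurable.sub ?_ ?_)
  · exact hψ.comp (by fun_prop)
  · exact hψ.comp (by fun_prop)
  · fun_prop
  · fun_prop

/-- the local quadratic density -/
noncomputable def qd (p : ℝ × ℝ) : ℝ≥0∞ := ENNReal.ofReal (Real.exp (-p.1) * dn p.1 p.2 ^ 2)

lemma qd_meas : Measurable qd := by
  unfold qd
  refine Measurable.ennreal_ofReal ?_
  exact Measurable.mul (by fun_prop) (dn_meas.pow_const 2)

/-- the quadratic functional -/
noncomputable def JF (S : ℝ) (Ω : ℝ → ℝ≥0∞) : ℝ≥0∞ :=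
  ∫⁻ δ in Set.Ioi (0 : ℝ), ENNReal.ofReal (Real.exp (-S * δ)) * ∫⁻ v, Ω v * qd (v, δ)

/-- the Cauchy-Schwarz inequality on an interval -/
lemma cs_lint {s : Set ℝ} {f : ℝ → ℝ} (hf : IntegrableOn f s) :
    ENNReal.ofReal ((∫ x in s, f x) ^ 2) ≤
      volume s * ∫⁻ x in s, ENNReal.ofReal (f x ^ 2) := by
  have h1 : ENNReal.ofReal ((∫ x in s, f x) ^ 2) = ‖∫ x in s, f x‖ₑ ^ 2 := by
    rw [← ofReal_norm, ← ENNReal.ofReal_pow (norm_nonneg _), Real.norm_eq_abs, sq_abs]
  have h2 : ‖∫ x in s, f x‖ₑ ≤ ∫⁻ x in s, ‖f x‖ₑ := enorm_integral_le_lintegral_enorm _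
  have hm : AEMeasurable (fun x => ‖f x‖ₑ) (volume.restrict s) := hf.1.enorm
  have h3 := ENNReal.lintegral_mul_le_Lp_mul_Lq (volume.restrict s) Real.HolderConjugate.two_two
    (f := fun _ => 1) aemeasurable_const hm
  simp only [Pi.mul_apply, one_mul, ENNReal.one_rpow, lintegral_const,
    Measure.restrict_apply_univ] at h3
  rw [h1]
  refine (pow_le_pow_left' (h2.trans h3) 2).trans (le_of_eq ?_)
  rw [mul_pow, ← ENNReal.rpow_natCast, ← ENNReal.rpow_natCast, ← ENNReal.rpow_mul,
    ← ENNReal.rpow_mul]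
  norm_num
  congr 1
  refine lintegral_congr fun x => ?_
  rw [← ofReal_norm, ← ENNReal.ofReal_pow (norm_nonneg _), Real.norm_eq_abs, sq_abs]

/-- the pointwise bound of the window -/
lemma win_le (u v : ℝ) {δ η : ℝ} (hδ : 0 < δ) (hη : 0 < η) :
    ENNReal.ofReal ((bm (mu rho1 u) δ v - bm (mu rho2 u) δ v) ^ 2) ≤
      ENNReal.ofReal (1 + η) * (ENNReal.ofReal (Real.exp (-(u - v) ^ 2)) * qd (v, δ)) +
      ENNReal.ofReal (1 + 1 / η) * (ENNReal.ofReal δ * ∫⁻ r in Set.Ioc 0 δ,
        ENNReal.ofReal (4 * Real.exp (-(u - (v + r)) ^ 2 / 2)) * qd (v + r, δ - r)) := by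
  obtain ⟨hi, he⟩ := bm_sub u v δ
  set b : ℝ := ∫ w in Set.Ioc v (v + δ), gf' u w * dN w (v + δ) with hb
  have hdn : dN v (v + δ) = dn v δ := dN_eq (by linarith)
  rw [he, hdn]
  have hyoung : (gf u v * dn v δ + b) ^ 2 ≤ (1 + η) * (gf u v * dn v δ) ^ 2 +
      (1 + 1 / η) * b ^ 2 := by
    have h1 : 0 ≤ (Real.sqrt η * (gf u v * dn v δ) - (1 / Real.sqrt η) * b) ^ 2 := sq_nonneg _
    have hs : Real.sqrt η ^ 2 = η := Real.sq_sqrt hη.le
    have hs0 : 0 < Real.sqrt η := Real.sqrt_pos.2 hη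
    have h2 : (Real.sqrt η * (gf u v * dn v δ) - (1 / Real.sqrt η) * b) ^ 2 =
        η * (gf u v * dn v δ) ^ 2 + 1 / η * b ^ 2 - 2 * (gf u v * dn v δ) * b := by
      have h3 : (1 / Real.sqrt η) ^ 2 = 1 / η := by rw [div_pow, one_pow, hs]
      calc _ = Real.sqrt η ^ 2 * (gf u v * dn v δ) ^ 2 + (1 / Real.sqrt η) ^ 2 * b ^ 2 -
            2 * (Real.sqrt η * (1 / Real.sqrt η)) * ((gf u v * dn v δ) * b) := by ring
        _ = _ := by
            rw [hs, h3, mul_one_div_cancel hs0.ne']
            ring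
    rw [h2] at h1
    nlinarith
  refine (ENNReal.ofReal_le_ofReal hyoung).trans ?_
  rw [ENNReal.ofReal_add (by positivity) (by positivity), ENNReal.ofReal_mul (by positivity),
    ENNReal.ofReal_mul (by positivity)]
  refine add_le_add ?_ ?_
  · refine mul_le_mul_right (le_of_eq ?_) _
    unfold qd
    rw [← ENNReal.ofReal_mul (by positivity), mul_pow, gf_sq]
    congr 1
    ring
  · refine mul_le_mul_right ?_ _
    have h1 := cs_lint hi
    rw [← hb, Real.volume_Ioc, add_sub_cancel_left] at h1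
    refine h1.trans ?_
    refine mul_le_mul_right ?_ _
    -- shift
    have h2 : ∫⁻ w in Set.Ioc v (v + δ), ENNReal.ofReal ((gf' u w * dN w (v + δ)) ^ 2) =
        ∫⁻ r in Set.Ioc 0 δ, ENNReal.ofReal ((gf' u (v + r) * dN (v + r) (v + δ)) ^ 2) := by
      rw [← lintegral_indicator measurableSet_Ioc, ← lintegral_indicator measurableSet_Ioc,
        ← lintegral_add_left_eq_self _ v]
      refine lintegral_congr fun r => ?_
      by_cases hr : r ∈ Set.Ioc 0 δ
      · rw [Set.indicator_of_mem hr, Set.indicator_of_mem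
          (show v + r ∈ Set.Ioc v (v + δ) from ⟨by linarith [hr.1], by linarith [hr.2]⟩)]
      · rw [Set.indicator_of_notMem hr, Set.indicator_of_notMem
          (show v + r ∉ Set.Ioc v (v + δ) from
            fun h => hr ⟨by linarith [h.1], by linarith [h.2]⟩)]
    rw [h2]
    refine setLIntegral_mono' measurableSet_Ioc fun r hr => ?_
    have h3 : dN (v + r) (v + δ) = dn (v + r) (δ - r) := by
      rw [dN_eq (by linarith [hr.2])]
      unfold dn
      rw [show v + r + (δ - r) = v + δ by ring]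
    rw [h3]
    unfold qd
    rw [← ENNReal.ofReal_mul (by positivity)]
    refine ENNReal.ofReal_le_ofReal ?_
    rw [mul_pow]
    have h4 := mul_le_mul_of_nonneg_right (gf'_sq u (v + r)) (sq_nonneg (dn (v + r) (δ - r)))
    refine h4.trans (le_of_eq ?_)
    show _ = 4 * Real.exp (-(u - (v + r)) ^ 2 / 2) * (Real.exp (-(v + r)) * dn (v + r) (δ - r) ^ 2)
    ring

/-- the second moment of the exponential -/
lemma exp_mom {S s : ℝ} (hS : 0 < S) (hs : 0 ≤ s) :
    ∫⁻ δ in Set.Ioi s, ENNReal.ofReal (S ^ 2 * δ * Real.exp (-S * δ)) ≤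
      ENNReal.ofReal (2 * Real.exp (-(S / 2) * s)) := by
  have hd : ∀ x ∈ Set.Ici s, HasDerivAt (fun δ => -((1 + S * δ) * Real.exp (-S * δ)))
      (S ^ 2 * x * Real.exp (-S * x)) x := by
    intro x _
    have h1 : HasDerivAt (fun δ : ℝ => 1 + S * δ) S x := by
      simpa using ((hasDerivAt_id x).const_mul S).const_add 1
    have h2 : HasDerivAt (fun δ : ℝ => Real.exp (-S * δ)) (Real.exp (-S * x) * (-S)) x := by
      refine HasDerivAt.exp ?_
      have := (hasDerivAt_id x).const_mul (-S)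
      rwa [mul_one] at this
    have h3 := (h1.mul h2).neg
    refine h3.congr_deriv ?_
    ring
  have hlim : Tendsto (fun δ => -((1 + S * δ) * Real.exp (-S * δ))) atTop (𝓝 0) := by
    have h1 : Tendsto (fun x : ℝ => x * Real.exp (-x)) atTop (𝓝 0) := by
      have := Real.tendsto_pow_mul_exp_neg_atTop_nhds_zero 1
      simpa using this
    have h2 : Tendsto (fun x : ℝ => Real.exp (-x)) atTop (𝓝 0) :=
      Real.tendsto_exp_neg_atTop_nhds_zero
    have h3 : Tendsto (fun x : ℝ => -(Real.exp (-x) + x * Real.exp (-x))) atTop (𝓝 (-(0 + 0))) :=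
      (h2.add h1).neg
    have h4 : Tendsto (fun δ : ℝ => S * δ) atTop atTop := tendsto_id.const_mul_atTop hS
    have h5 := h3.comp h4
    rw [add_zero, neg_zero] at h5
    refine h5.congr fun δ => ?_
    show -(Real.exp (-(S * δ)) + S * δ * Real.exp (-(S * δ))) = _
    rw [show -(S * δ) = -S * δ by ring]
    ring
  have hpos : ∀ x ∈ Set.Ioi s, 0 ≤ S ^ 2 * x * Real.exp (-S * x) := fun x hx => by
    have : 0 < x := lt_of_le_of_lt hs hx
    positivity
  have hint := integrableOn_Ioi_deriv_of_nonneg' hd hpos hlim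
  have hval := integral_Ioi_of_hasDerivAt_of_tendsto' hd hint hlim
  rw [← ofReal_integral_eq_lintegral_ofReal hint
    ((ae_restrict_iff' measurableSet_Ioi).2 (Eventually.of_forall hpos)), hval]
  refine ENNReal.ofReal_le_ofReal ?_
  have h1 : 1 + S * s ≤ 2 * Real.exp (S / 2 * s) := by
    have := Real.add_one_le_exp (S / 2 * s)
    linarith
  have h2 : Real.exp (-(S / 2) * s) = Real.exp (S / 2 * s) * Real.exp (-S * s) := by
    rw [← Real.exp_add]
    congr 1
    ring
  rw [h2]
  have := mul_le_mul_of_nonneg_right h1 (Real.exp_pos (-S * s)).le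
  linarith

/-- **the mean square of the transform of the primes** -/
theorem mean_le (u : ℝ) {S η : ℝ} (hS : 0 < S) (hη : 0 < η) :
    ∫⁻ t, ENNReal.ofReal (2 * S / (S ^ 2 + t ^ 2)) *
      ‖charFun (mu rho1 u) t - charFun (mu rho2 u) t‖ₑ ^ 2 ≤
      ENNReal.ofReal (2 * π) * (ENNReal.ofReal ((1 + η) * S ^ 2) *
        JF S (fun v => ENNReal.ofReal (Real.exp (-(u - v) ^ 2))) +
        ENNReal.ofReal (2 * (1 + 1 / η)) *
          JF (S / 2) (fun v => ENNReal.ofReal (4 * Real.exp (-(u - v) ^ 2 / 2)))) := by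
  refine (parseval (mu rho1 u) (mu rho2 u) hS).trans ?_
  refine mul_le_mul_right ?_ _
  obtain ⟨Φ, hΦ⟩ : ∃ Φ : ℝ → ℝ → ℝ≥0∞, Φ = fun w s =>
    ENNReal.ofReal (4 * Real.exp (-(u - w) ^ 2 / 2)) * qd (w, s) := ⟨_, rfl⟩
  have hΦ' : ∀ w s, ENNReal.ofReal (4 * Real.exp (-(u - w) ^ 2 / 2)) * qd (w, s) = Φ w s := by
    intro w s
    rw [hΦ]
  have hΦm : Measurable (Function.uncurry Φ) := by
    simp only [hΦ, Function.uncurry_def]
    exact (Continuous.measurable (by fun_prop)).ennreal_ofReal.mul qd_meas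
  have hq1 : ∀ δ : ℝ, Measurable fun v => ENNReal.ofReal (Real.exp (-(u - v) ^ 2)) * qd (v, δ) :=
    fun δ => (Continuous.measurable (by fun_prop)).ennreal_ofReal.mul
      (qd_meas.comp (measurable_id.prodMk measurable_const))
  obtain ⟨Ψ, hΨ⟩ : ∃ Ψ : ℝ → ℝ≥0∞, Ψ = fun s => ∫⁻ w, Φ w s := ⟨_, rfl⟩
  have hΨ' : ∀ s, ∫⁻ w, Φ w s = Ψ s := by
    intro s
    rw [hΨ]
  have hΨm : Measurable Ψ := by
    rw [hΨ]
    exact Measurable.lintegral_prod_left' hΦm
  -- the inner integrals
  have hin : ∀ δ : ℝ, 0 < δ → ∫⁻ v, ∫⁻ r in Set.Ioc 0 δ, Φ (v + r) (δ - r) ≤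
      ∫⁻ s in Set.Ioi (0 : ℝ), (Set.Iic δ).indicator Ψ s := by
    intro δ hδ
    rw [lintegral_lintegral_swap]
    · have h1 : ∀ r : ℝ, ∫⁻ v, Φ (v + r) (δ - r) = Ψ (δ - r) := fun r => by
        rw [← hΨ']
        exact lintegral_add_right_eq_self (μ := volume) (fun v => Φ v (δ - r)) r
      simp_rw [h1]
      have h2 : ∫⁻ r in Set.Ioc 0 δ, Ψ (δ - r) = ∫⁻ s in Set.Ico 0 δ, Ψ s := by
        rw [← lintegral_indicator measurableSet_Ioc, ← lintegral_indicator measurableSet_Ico]
        refine Eq.trans ?_ (lintegral_sub_left_eq_self ((Set.Ico 0 δ).indicator Ψ) δ)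
        refine lintegral_congr fun r => ?_
        by_cases hr : r ∈ Set.Ioc 0 δ
        · rw [Set.indicator_of_mem hr, Set.indicator_of_mem
            (show δ - r ∈ Set.Ico 0 δ from ⟨by linarith [hr.2], by linarith [hr.1]⟩)]
        · rw [Set.indicator_of_notMem hr, Set.indicator_of_notMem
            (show δ - r ∉ Set.Ico 0 δ from fun h => hr ⟨by linarith [h.2], by linarith [h.1]⟩)]
      rw [h2, setLIntegral_congr Ico_ae_eq_Ioc, ← lintegral_indicator measurableSet_Ioc,
        ← lintegral_indicator measurableSet_Ioi]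
      refine lintegral_mono fun s => ?_
      by_cases hs : s ∈ Set.Ioc 0 δ
      · rw [Set.indicator_of_mem hs, Set.indicator_of_mem (show s ∈ Set.Ioi (0 : ℝ) from hs.1),
          Set.indicator_of_mem (show s ∈ Set.Iic δ from hs.2)]
      · rw [Set.indicator_of_notMem hs]
        exact zero_le
    · have : Measurable fun p : ℝ × ℝ => Φ (p.1 + p.2) (δ - p.2) :=
        hΦm.comp ((measurable_fst.add measurable_snd).prodMk (measurable_const.sub measurable_snd))
      exact this.aemeasurable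
  calc ∫⁻ δ in Set.Ioi (0 : ℝ), ENNReal.ofReal (S ^ 2 * Real.exp (-S * δ)) *
        ∫⁻ v, ENNReal.ofReal ((bm (mu rho1 u) δ v - bm (mu rho2 u) δ v) ^ 2) ≤
      ∫⁻ δ in Set.Ioi (0 : ℝ), (ENNReal.ofReal ((1 + η) * S ^ 2) *
        (ENNReal.ofReal (Real.exp (-S * δ)) * ∫⁻ v, ENNReal.ofReal (Real.exp (-(u - v) ^ 2)) *
          qd (v, δ)) + ENNReal.ofReal (1 + 1 / η) *
          (ENNReal.ofReal (S ^ 2 * δ * Real.exp (-S * δ)) *
            ∫⁻ s in Set.Ioi (0 : ℝ), (Set.Iic δ).indicator Ψ s)) := by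
        refine setLIntegral_mono' measurableSet_Ioi fun δ hδ => ?_
        have hδ0 : 0 < δ := hδ
        have h1 : ∫⁻ v, ENNReal.ofReal ((bm (mu rho1 u) δ v - bm (mu rho2 u) δ v) ^ 2) ≤
            ENNReal.ofReal (1 + η) * (∫⁻ v, ENNReal.ofReal (Real.exp (-(u - v) ^ 2)) *
              qd (v, δ)) + ENNReal.ofReal (1 + 1 / η) * (ENNReal.ofReal δ *
              ∫⁻ s in Set.Ioi (0 : ℝ), (Set.Iic δ).indicator Ψ s) := by
          refine (lintegral_mono fun v => win_le u v hδ0 hη).trans ?_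
          simp_rw [hΦ']
          rw [lintegral_add_left ((hq1 δ).const_mul _), lintegral_const_mul _ (hq1 δ),
            lintegral_const_mul' _ _ ENNReal.ofReal_ne_top,
            lintegral_const_mul' _ _ ENNReal.ofReal_ne_top]
          exact add_le_add le_rfl (mul_le_mul_right (mul_le_mul_right (hin δ hδ0) _) _)
        refine (mul_le_mul_right h1 _).trans (le_of_eq ?_)
        have e1 : ENNReal.ofReal (S ^ 2 * Real.exp (-S * δ)) =
            ENNReal.ofReal (S ^ 2) * ENNReal.ofReal (Real.exp (-S * δ)) :=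
          ENNReal.ofReal_mul (by positivity)
        have e2 : ENNReal.ofReal ((1 + η) * S ^ 2) =
            ENNReal.ofReal (1 + η) * ENNReal.ofReal (S ^ 2) := ENNReal.ofReal_mul (by positivity)
        have e3 : ENNReal.ofReal (S ^ 2 * δ * Real.exp (-S * δ)) =
            ENNReal.ofReal (S ^ 2) * ENNReal.ofReal δ * ENNReal.ofReal (Real.exp (-S * δ)) := by
          rw [ENNReal.ofReal_mul (by positivity), ENNReal.ofReal_mul (by positivity)]
        rw [e1, e2, e3]
        ring
    _ = ENNReal.ofReal ((1 + η) * S ^ 2) *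
        JF S (fun v => ENNReal.ofReal (Real.exp (-(u - v) ^ 2))) +
        ENNReal.ofReal (1 + 1 / η) * ∫⁻ δ in Set.Ioi (0 : ℝ),
          ENNReal.ofReal (S ^ 2 * δ * Real.exp (-S * δ)) *
            ∫⁻ s in Set.Ioi (0 : ℝ), (Set.Iic δ).indicator Ψ s := by
        have hm1 : Measurable fun δ : ℝ => ENNReal.ofReal (Real.exp (-S * δ)) *
            ∫⁻ v, ENNReal.ofReal (Real.exp (-(u - v) ^ 2)) * qd (v, δ) := by
          refine Measurable.mul (Continuous.measurable (by fun_prop)).ennreal_ofReal ?_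
          refine Measurable.lintegral_prod_left' (f := fun p : ℝ × ℝ =>
            ENNReal.ofReal (Real.exp (-(u - p.1) ^ 2)) * qd p) ?_
          exact (Continuous.measurable (by fun_prop)).ennreal_ofReal.mul qd_meas
        rw [lintegral_add_left (hm1.const_mul _), lintegral_const_mul _ hm1,
          lintegral_const_mul' _ _ ENNReal.ofReal_ne_top]
        rfl
    _ ≤ _ := by
        refine add_le_add le_rfl ?_
        have hc : ENNReal.ofReal (2 * (1 + 1 / η)) = ENNReal.ofReal (1 + 1 / η) *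
            ENNReal.ofReal 2 := by
          rw [mul_comm 2, ENNReal.ofReal_mul (by positivity)]
        rw [hc, mul_assoc]
        refine mul_le_mul_right ?_ _
        -- swap
        have h1 : ∫⁻ δ in Set.Ioi (0 : ℝ), ENNReal.ofReal (S ^ 2 * δ * Real.exp (-S * δ)) *
            ∫⁻ s in Set.Ioi (0 : ℝ), (Set.Iic δ).indicator Ψ s =
            ∫⁻ δ in Set.Ioi (0 : ℝ), ∫⁻ s in Set.Ioi (0 : ℝ),
              ENNReal.ofReal (S ^ 2 * δ * Real.exp (-S * δ)) * (Set.Iic δ).indicator Ψ s := by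
          refine lintegral_congr fun δ => ?_
          rw [lintegral_const_mul' _ _ ENNReal.ofReal_ne_top]
        have hset : MeasurableSet {p : ℝ × ℝ | p.2 ≤ p.1} :=
          measurableSet_le measurable_snd measurable_fst
        have hjm : Measurable fun p : ℝ × ℝ => ENNReal.ofReal (S ^ 2 * p.1 * Real.exp (-S * p.1)) *
            (Set.Iic p.1).indicator Ψ p.2 := by
          refine Measurable.mul (Continuous.measurable (by fun_prop)).ennreal_ofReal ?_
          have : (fun p : ℝ × ℝ => (Set.Iic p.1).indicator Ψ p.2) =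
              {p : ℝ × ℝ | p.2 ≤ p.1}.indicator fun p => Ψ p.2 := by
            funext p
            by_cases hp : p.2 ≤ p.1
            · rw [Set.indicator_of_mem (show p.2 ∈ Set.Iic p.1 from hp),
                Set.indicator_of_mem (show p ∈ {p : ℝ × ℝ | p.2 ≤ p.1} from hp)]
            · rw [Set.indicator_of_notMem (show p.2 ∉ Set.Iic p.1 from hp),
                Set.indicator_of_notMem (show p ∉ {p : ℝ × ℝ | p.2 ≤ p.1} from hp)]
          rw [this]
          exact (hΨm.comp measurable_snd).indicator hset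
        rw [h1, lintegral_lintegral_swap hjm.aemeasurable]
        have h2 : ENNReal.ofReal 2 * JF (S / 2)
            (fun v => ENNReal.ofReal (4 * Real.exp (-(u - v) ^ 2 / 2))) =
            ∫⁻ s in Set.Ioi (0 : ℝ), ENNReal.ofReal (2 * Real.exp (-(S / 2) * s)) * Ψ s := by
          unfold JF
          rw [← lintegral_const_mul' _ _ ENNReal.ofReal_ne_top]
          refine lintegral_congr fun s => ?_
          simp_rw [hΦ']
          rw [hΨ', ENNReal.ofReal_mul (by positivity), mul_assoc]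
        rw [h2]
        refine setLIntegral_mono' measurableSet_Ioi fun s hs => ?_
        have hs0 : 0 < s := hs
        have h3 : ∫⁻ δ in Set.Ioi (0 : ℝ), ENNReal.ofReal (S ^ 2 * δ * Real.exp (-S * δ)) *
            (Set.Iic δ).indicator Ψ s =
            (∫⁻ δ in Set.Ici s, ENNReal.ofReal (S ^ 2 * δ * Real.exp (-S * δ))) * Ψ s := by
          rw [← lintegral_mul_const _ (Continuous.measurable (by fun_prop)).ennreal_ofReal,
            ← lintegral_indicator measurableSet_Ioi, ← lintegral_indicator measurableSet_Ici]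
          refine lintegral_congr fun δ => ?_
          by_cases hδ : s ≤ δ
          · rw [Set.indicator_of_mem (show δ ∈ Set.Ioi (0 : ℝ) from lt_of_lt_of_le hs0 hδ),
              Set.indicator_of_mem (show s ∈ Set.Iic δ from hδ),
              Set.indicator_of_mem (show δ ∈ Set.Ici s from hδ)]
          · rw [Set.indicator_of_notMem (show δ ∉ Set.Ici s from hδ)]
            by_cases hδ0 : δ ∈ Set.Ioi (0 : ℝ)
            · rw [Set.indicator_of_mem hδ0, Set.indicator_of_notMem (show s ∉ Set.Iic δ from hδ),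
                mul_zero]
            · rw [Set.indicator_of_notMem hδ0]
        rw [h3, setLIntegral_congr Ioi_ae_eq_Ici.symm]
        exact mul_le_mul_left (exp_mom hS hs0.le) _

end Pool.Agent.H7.PS
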