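import Pool.Agent.H7.PS.Lim6
import Pool.Graph.R_pool_sql_team_seeded_2aa45f1a.Results.MP_2a816b_nt.SparseScales

/-! From the mean squares of the primes in short intervals to the functional used in the proof. -/

open MeasureTheory Filter Topology Real
open scoped ENNReal

namespace Pool.Agent.H7.PS

open Pool.Agent.Results.MP_2a816b_nt.SparseScales (V)

lemma psiS_sub {a H : ℝ} (ha : 0 ≤ a) (hH : 0 ≤ H) (hn : ∀ n : ℕ, a ≠ n) :
    Pool.Agent.Q32.Si.psiS (a + H / 2) H = Chebyshev.psi (a + H) - Chebyshev.psi a := by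
  obtain ⟨N, hN⟩ := exists_nat_gt (a + H / 2 + H / 2)
  rw [Pool.Agent.Q32.Si.psiS_eq hN]
  have e : (Finset.range N).filter (fun n : ℕ => a + H / 2 - H / 2 ≤ n ∧
      (n : ℝ) ≤ a + H / 2 + H / 2) = Finset.Ioc ⌊a⌋₊ ⌊a + H⌋₊ := by
    ext n
    simp only [Finset.mem_filter, Finset.mem_range, Finset.mem_Ioc]
    rw [Nat.floor_lt ha, Nat.le_floor_iff (by linarith)]
    constructor
    · rintro ⟨_, h1, h2⟩
      exact ⟨lt_of_le_of_ne (by linarith) (hn n), by linarith⟩
    · rintro ⟨h1, h2⟩
      refine ⟨?_, by linarith, by linarith⟩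
      have : (n : ℝ) < N := by linarith
      exact_mod_cast this
  rw [e]
  unfold Chebyshev.psi
  have := Finset.sum_Ioc_consecutive (fun n => ArithmeticFunction.vonMangoldt n)
    (Nat.zero_le ⌊a⌋₊) (Nat.floor_mono (show a ≤ a + H by linarith))
  linarith

lemma ae_ne : ∀ᵐ a : ℝ, ∀ n : ℕ, a ≠ n := by
  rw [ae_all_iff]
  intro n
  rw [ae_iff]
  simp

lemma V_eq {X H : ℝ} (hX : 0 < X) (hH : 0 ≤ H) (hHX : H ≤ X) :
    X * V X H = ∫ a in (X - H / 2)..(2 * X - H / 2), dP a H ^ 2 := by
  have h1 : ∫ x in X..2 * X, |Pool.Agent.Results.MP_2a816b_nt.SparseScales.psi x H - H| ^ 2 =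
      ∫ a in (X - H / 2)..(2 * X - H / 2),
        |Pool.Agent.Results.MP_2a816b_nt.SparseScales.psi (a + H / 2) H - H| ^ 2 := by
    rw [intervalIntegral.integral_comp_add_right
      (fun x => |Pool.Agent.Results.MP_2a816b_nt.SparseScales.psi x H - H| ^ 2) (H / 2)]
    rw [sub_add_cancel, sub_add_cancel]
  unfold V
  rw [h1, ← mul_assoc, mul_one_div_cancel hX.ne', one_mul]
  refine intervalIntegral.integral_congr_ae ?_
  filter_upwards [ae_ne] with a ha ha2
  rw [Set.uIoc_of_le (by linarith)] at ha2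
  have h2 := psiS_sub (a := a) (H := H) (by linarith [ha2.1]) hH ha
  have h3 : Pool.Agent.Results.MP_2a816b_nt.SparseScales.psi (a + H / 2) H =
      Chebyshev.psi (a + H) - Chebyshev.psi a := h2
  rw [h3, sq_abs]
  rfl

lemma dP_int {a b H : ℝ} (ha : 0 ≤ a) (hab : a ≤ b) (hH : 0 ≤ H) :
    IntegrableOn (fun x => dP x H ^ 2) (Set.Icc a b) := by
  have hm : Measurable fun x : ℝ => dP x H ^ 2 :=
    (dP_meas.comp (measurable_id.prodMk measurable_const)).pow_const 2
  refine Measure.integrableOn_of_bounded (M := (cC * (b + H)) ^ 2) (by simp)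
    hm.aestronglyMeasurable ?_
  rw [ae_restrict_iff' measurableSet_Icc]
  refine Eventually.of_forall fun x hx => ?_
  have h1 := dP_abs (a := x) (H := H) (ha.trans hx.1) hH
  have h2 := cC_one
  rw [Real.norm_eq_abs, abs_of_nonneg (sq_nonneg _), ← sq_abs]
  have h3 : cC * (x + H) ≤ cC * (b + H) := by
    have := hx.2
    gcongr
  exact pow_le_pow_left₀ (abs_nonneg _) (h1.trans h3) 2

lemma lint_int {a b H : ℝ} (ha : 0 ≤ a) (hab : a ≤ b) (hH : 0 ≤ H) :
    ∫⁻ x in Set.Icc a b, ENNReal.ofReal (dP x H ^ 2) =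
      ENNReal.ofReal (∫ x in a..b, dP x H ^ 2) := by
  rw [intervalIntegral.integral_of_le hab, ← integral_Icc_eq_integral_Ioc,
    ofReal_integral_eq_lintegral_ofReal (dP_int ha hab hH)]
  exact Eventually.of_forall fun x => sq_nonneg _

lemma Ul_le_V {X H : ℝ} (hX : 0 < X) (hH : 0 ≤ H) (hHX : H ≤ X) :
    Ul X H ≤ ENNReal.ofReal ((X + H / 2) * V (X + H / 2) H) := by
  rw [V_eq (by linarith) hH (by linarith)]
  have e1 : X + H / 2 - H / 2 = X := by ring
  have e2 : 2 * (X + H / 2) - H / 2 = 2 * X + H / 2 := by ring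
  rw [e1, e2, ← lint_int hX.le (by linarith) hH]
  unfold Ul
  exact lintegral_mono_set fun x hx => ⟨hx.1, by linarith [hx.2]⟩

lemma V_ge_Ul {X H : ℝ} (hX : 0 < X) (hH : 0 ≤ H) (hHX : H ≤ X) :
    Ul (X - H / 4) H ≤ ENNReal.ofReal (X * V X H) := by
  rw [V_eq hX hH hHX, ← lint_int (by linarith) (by linarith) hH]
  unfold Ul
  exact lintegral_mono_set fun x hx => ⟨by linarith [hx.1], by linarith [hx.2]⟩

lemma psi_int (a b : ℝ) : IntervalIntegrable Chebyshev.psi volume a b :=
  Chebyshev.psi_mono.intervalIntegrable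

/-- the short intervals of length at most one -/
lemma short_one {X H : ℝ} (hX : 2 ≤ X) (hH : 0 < H) (hH1 : H ≤ 1) :
    Ul X H ≤ ENNReal.ofReal ((9 * cC + 2) * (X * H * Real.log X)) := by
  have hX0 : 0 < X := by linarith
  have hc := cC_one
  have hl2 : 1 / 2 ≤ Real.log X := by
    have h1 : Real.log 2 ≤ Real.log X := Real.log_le_log (by norm_num) hX
    have := Real.log_two_gt_d9
    linarith
  have hl3 : Real.log (2 * X + 1) ≤ 3 * Real.log X := by
    have h1 : 2 * X + 1 ≤ X ^ 3 := by nlinarith [mul_self_nonneg (X - 2), mul_nonneg (by linarith : 0 ≤ X - 2) (mul_self_nonneg X)]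
    calc Real.log (2 * X + 1) ≤ Real.log (X ^ 3) := Real.log_le_log (by linarith) h1
      _ = 3 * Real.log X := by
          rw [Real.log_pow]
          norm_num
  have hg : ∀ a, X ≤ a → a ≤ 2 * X → dP a H ^ 2 ≤
      3 * Real.log X * (Chebyshev.psi (a + H) - Chebyshev.psi a) + H := by
    intro a ha1 ha2
    have ha0 : 0 ≤ a := by linarith
    have hmono : 0 ≤ Chebyshev.psi (a + H) - Chebyshev.psi a :=
      sub_nonneg.2 (Chebyshev.psi_mono (by linarith))
    have h1 : Chebyshev.psi (a + H) - Chebyshev.psi a ≤ Real.log (2 * X + 1) := by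
      have h2 : Chebyshev.psi (a + H) ≤ Chebyshev.psi (⌊a⌋₊ + 1 : ℕ) := by
        rw [Chebyshev.psi_eq_psi_coe_floor]
        refine Chebyshev.psi_mono ?_
        have h3 : ⌊a + H⌋₊ ≤ ⌊a⌋₊ + 1 := by
          calc ⌊a + H⌋₊ ≤ ⌊a + 1⌋₊ := Nat.floor_mono (by linarith)
            _ = ⌊a⌋₊ + 1 := Nat.floor_add_one ha0
        exact_mod_cast h3
      have h4 : Chebyshev.psi (⌊a⌋₊ + 1 : ℕ) = Chebyshev.psi a +
          ArithmeticFunction.vonMangoldt (⌊a⌋₊ + 1) := by
        rw [Chebyshev.psi_eq_psi_coe_floor a]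
        unfold Chebyshev.psi
        rw [Nat.floor_natCast, Nat.floor_natCast, Finset.sum_Ioc_succ_top (Nat.zero_le _)]
      have h5 : ArithmeticFunction.vonMangoldt (⌊a⌋₊ + 1) ≤ Real.log (2 * X + 1) := by
        refine ArithmeticFunction.vonMangoldt_le_log.trans ?_
        refine Real.log_le_log (by positivity) ?_
        push_cast
        have := Nat.floor_le ha0
        linarith
      linarith
    unfold dP
    set g := Chebyshev.psi (a + H) - Chebyshev.psi a with hgd
    have h6 : g * g ≤ 3 * Real.log X * g := mul_le_mul_of_nonneg_right (h1.trans hl3) hmono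
    have h7 : H * H ≤ H := by nlinarith
    have h8 : 0 ≤ g * H := by positivity
    nlinarith
  have hi1 : ∀ a b c : ℝ, IntervalIntegrable (fun x => Chebyshev.psi (x + c)) volume a b := by
    intro a b c
    have : Monotone fun x => Chebyshev.psi (x + c) := fun x y hxy =>
      Chebyshev.psi_mono (by linarith)
    exact this.intervalIntegrable
  have h9 : ∫ a in X..(2 * X), (Chebyshev.psi (a + H) - Chebyshev.psi a) ≤ H * (cC * (3 * X)) := by
    rw [intervalIntegral.integral_sub (hi1 _ _ _) (psi_int _ _),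
      intervalIntegral.integral_comp_add_right Chebyshev.psi H]
    have h10 : ∫ x in (X + H)..(2 * X + H), Chebyshev.psi x =
        (∫ x in (X + H)..(2 * X), Chebyshev.psi x) + ∫ x in (2 * X)..(2 * X + H), Chebyshev.psi x :=
      (intervalIntegral.integral_add_adjacent_intervals (psi_int _ _) (psi_int _ _)).symm
    have h11 : ∫ x in X..(2 * X), Chebyshev.psi x =
        (∫ x in X..(X + H), Chebyshev.psi x) + ∫ x in (X + H)..(2 * X), Chebyshev.psi x :=
      (intervalIntegral.integral_add_adjacent_intervals (psi_int _ _) (psi_int _ _)).symm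
    have h12 : 0 ≤ ∫ x in X..(X + H), Chebyshev.psi x :=
      intervalIntegral.integral_nonneg (by linarith) fun x _ => Chebyshev.psi_nonneg x
    have h13 : ∫ x in (2 * X)..(2 * X + H), Chebyshev.psi x ≤
        ∫ _ in (2 * X)..(2 * X + H), cC * (3 * X) := by
      refine intervalIntegral.integral_mono_on (by linarith) (psi_int _ _) (by simp) fun x hx => ?_
      have h14 : Chebyshev.psi x ≤ cC * x := Chebyshev.psi_le_const_mul_self (by linarith [hx.1])
      have h15 : cC * x ≤ cC * (3 * X) := by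
        have := hx.2
        gcongr
        linarith
      linarith
    rw [intervalIntegral.integral_const, smul_eq_mul] at h13
    have h16 : (2 * X + H - 2 * X) * (cC * (3 * X)) = H * (cC * (3 * X)) := by ring
    linarith
  have h17 : Ul X H ≤ ∫⁻ x in Set.Icc X (2 * X), ENNReal.ofReal (dP x H ^ 2) :=
    lintegral_mono_set Set.Ico_subset_Icc_self
  refine h17.trans ?_
  rw [lint_int hX0.le (by linarith) hH.le]
  refine ENNReal.ofReal_le_ofReal ?_
  have h18 : ∫ x in X..(2 * X), dP x H ^ 2 ≤ ∫ x in X..(2 * X),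
      (3 * Real.log X * (Chebyshev.psi (x + H) - Chebyshev.psi x) + H) := by
    refine intervalIntegral.integral_mono_on (by linarith) ?_ ?_ fun x hx => hg x hx.1 hx.2
    · rw [intervalIntegrable_iff_integrableOn_Icc_of_le (by linarith)]
      exact dP_int hX0.le (by linarith) hH.le
    · exact (((hi1 _ _ _).sub (psi_int _ _)).const_mul _).add (by simp)
  refine h18.trans ?_
  rw [intervalIntegral.integral_add (((hi1 _ _ _).sub (psi_int _ _)).const_mul _) (by simp),
    intervalIntegral.integral_const_mul, intervalIntegral.integral_const, smul_eq_mul]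
  have h19 := mul_le_mul_of_nonneg_left h9 (show 0 ≤ 3 * Real.log X by linarith)
  have h20 : (2 * X - X) * H ≤ 2 * (X * H * Real.log X) := by
    have : 0 ≤ X * H := by positivity
    nlinarith
  have h21 : 3 * Real.log X * (H * (cC * (3 * X))) = 9 * cC * (X * H * Real.log X) := by ring
  linarith

end Pool.Agent.H7.PS
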