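import Pool.Agent.H7.PS.Hyp

/-! The hypotheses for the mean squares. -/

open MeasureTheory Filter Topology Real
open scoped ENNReal

namespace Pool.Agent.H7.PS

open Pool.Agent.Results.MP_2a816b_nt.SparseScales (V)

/-- the hypotheses for the mean squares -/
structure HypV : Prop where
  sharp : ∀ ε : ℝ, 0 < ε → ∀ᶠ X : ℝ in atTop, ∀ H : ℝ, X ^ ε ≤ H → H ≤ X ^ (1 - ε) →
    V X H ≤ (1 + ε) * (H * Real.log (X / H))
  rough : ∃ δ C : ℝ, 0 < δ ∧ ∀ᶠ X : ℝ in atTop, ∀ H : ℝ, 1 ≤ H → H ≤ X ^ δ →
    V X H ≤ C * (H * Real.log X)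

theorem HypV.RH (h : HypV) : RiemannHypothesis := by
  refine Pool.Agent.Results.MP_2a816b_nt.SparseScales.result.2.2.1 fun ε hε => ?_
  refine Eventually.frequently ?_
  have t1 : Tendsto (fun X : ℝ => (1 + ε) * (Real.log X / X ^ ε)) atTop (𝓝 ((1 + ε) * 0)) :=
    ((isLittleO_log_rpow_atTop hε).tendsto_div_nhds_zero).const_mul _
  rw [mul_zero] at t1
  filter_upwards [h.sharp ε hε, (tendsto_order.1 t1).2 1 one_pos, eventually_ge_atTop 1]
    with X h1 h2 hX H hH1 hH2
  have hX0 : 0 < X := by linarith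
  have hXe : 1 ≤ X ^ ε := Real.one_le_rpow hX hε.le
  have hH : 1 < H := hXe.trans_lt hH1
  refine (h1 H hH1.le hH2.le).trans ?_
  have h3 : Real.log (X / H) ≤ Real.log X := by
    refine Real.log_le_log (by positivity) ?_
    rw [div_le_iff₀ (by linarith)]
    nlinarith
  have h4 : (1 + ε) * Real.log X ≤ X ^ ε := by
    rw [← mul_div_assoc, div_lt_one (by positivity)] at h2
    exact h2.le
  calc (1 + ε) * (H * Real.log (X / H)) ≤ (1 + ε) * (H * Real.log X) := by gcongr
    _ = ((1 + ε) * Real.log X) * H := by ring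
    _ ≤ _ := by gcongr

theorem HypV.toU (h : HypV) : HypU where
  sharp := by
    intro ε κ hε hε1 hκ
    have hε' : 0 < ε / (4 * κ) := by positivity
    have hε4 : ε / (4 * κ) ≤ ε / 4 := by
      rw [div_le_div_iff₀ (by positivity) (by norm_num)]
      nlinarith
    obtain ⟨X0, hX0⟩ := (h.sharp _ hε').exists_forall_of_atTop
    have t1 : Tendsto (fun T : ℝ => (1 + T ^ (-(3 / 4) : ℝ) / 2) * (1 + ε / 4) *
        (Real.log 2 / Real.log T + (1 + ε / 4))) atTop
        (𝓝 ((1 + 0 / 2) * (1 + ε / 4) * (0 + (1 + ε / 4)))) := by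
      refine Tendsto.mul (Tendsto.mul_const _ ?_) (Tendsto.add_const _ ?_)
      · exact ((tendsto_rpow_neg_atTop (by norm_num)).div_const 2).const_add 1
      · exact tendsto_const_nhds.div_atTop Real.tendsto_log_atTop
    have t2 := (tendsto_order.1 t1).2 (1 + 2 * ε) (by nlinarith)
    filter_upwards [t2, eventually_ge_atTop X0, eventually_ge_atTop 3]
      with T ht hTX hT X H hX1 hX2 hH1 hH2
    have hT0 : 0 < T := by linarith
    have hT1 : 1 < T := by linarith
    have hL : 0 < Real.log T := Real.log_pos hT1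
    have hTX1 : T ≤ X := by
      calc T = T ^ (1 : ℝ) := (Real.rpow_one T).symm
        _ ≤ T ^ (1 + ε) := Real.rpow_le_rpow_of_exponent_le hT1.le (by linarith)
        _ ≤ X := hX1
    have hXp : 0 < X := by linarith
    have hHp : 0 < H := lt_of_lt_of_le (by positivity) hH1
    have hHX34 : H ≤ X * T ^ (-(3 / 4) : ℝ) := hH2.trans (mul_le_mul_of_nonneg_left
      (Real.rpow_le_rpow_of_exponent_le hT1.le (by linarith)) hXp.le)
    have hT34 : T ^ (-(3 / 4) : ℝ) ≤ 1 :=
      Real.rpow_le_one_of_one_le_of_nonpos hT1.le (by norm_num)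
    have hHX : H ≤ X := hHX34.trans (mul_le_of_le_one_right hXp.le hT34)
    have hu := Ul_le_V hXp hHp.le hHX
    obtain ⟨X', hX'⟩ : ∃ X', X' = X + H / 2 := ⟨_, rfl⟩
    rw [← hX'] at hu
    have hX'p : 0 < X' := by rw [hX']; positivity
    have hpow : X' ^ (ε / (4 * κ)) ≤ T ^ (ε / 2) := by
      have h1 : X' ≤ T ^ (2 * κ) := by
        have h2 : X' ≤ 2 * X := by linarith
        have h3 : 2 * X ≤ T * T ^ κ := mul_le_mul (by linarith) hX2 hXp.le hT0.le
        have h4 : T * T ^ κ ≤ T ^ (2 * κ) := by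
          rw [← Real.rpow_one_add' hT0.le (by linarith)]
          exact Real.rpow_le_rpow_of_exponent_le hT1.le (by linarith)
        linarith
      calc X' ^ (ε / (4 * κ)) ≤ (T ^ (2 * κ)) ^ (ε / (4 * κ)) :=
            Real.rpow_le_rpow hX'p.le h1 hε'.le
        _ = T ^ (ε / 2) := by
            rw [← Real.rpow_mul hT0.le]
            congr 1
            field_simp
            ring
    have hlow : X' ^ (ε / (4 * κ)) ≤ H := by
      refine hpow.trans (le_trans ?_ hH1)
      calc T ^ (ε / 2) ≤ T ^ ((1 + ε) + (-1 - ε / 4)) :=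
            Real.rpow_le_rpow_of_exponent_le hT1.le (by linarith)
        _ = T ^ (1 + ε) * T ^ (-1 - ε / 4) := Real.rpow_add hT0 _ _
        _ ≤ _ := mul_le_mul_of_nonneg_right hX1 (by positivity)
    have hhigh : H ≤ X' ^ (1 - ε / (4 * κ)) := by
      rw [Real.rpow_sub hX'p, Real.rpow_one, le_div_iff₀ (by positivity)]
      calc H * X' ^ (ε / (4 * κ)) ≤ (X * T ^ (-(3 / 4) : ℝ)) * T ^ (ε / 2) := by gcongr
        _ = X * (T ^ (-(3 / 4) : ℝ) * T ^ (ε / 2)) := by ring
        _ = X * T ^ (-(3 / 4) + ε / 2 : ℝ) := by rw [Real.rpow_add hT0]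
        _ ≤ X * 1 := by
            refine mul_le_mul_of_nonneg_left ?_ hXp.le
            exact Real.rpow_le_one_of_one_le_of_nonpos hT1.le (by linarith)
        _ ≤ X' := by linarith
    have hV := hX0 X' (hTX.trans (by linarith)) H hlow hhigh
    refine hu.trans (ENNReal.ofReal_le_ofReal ?_)
    have hlog : Real.log (X' / H) ≤ Real.log 2 + (1 + ε / 4) * Real.log T := by
      have h1 : X' / H ≤ 2 * T ^ (1 + ε / 4) := by
        have h2 : X ≤ T ^ (1 + ε / 4) * H := by
          have h3 : X * (T ^ (-1 - ε / 4) * T ^ (1 + ε / 4)) = X := by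
            rw [← Real.rpow_add hT0, show -1 - ε / 4 + (1 + ε / 4) = 0 by ring, Real.rpow_zero,
              mul_one]
          calc X = (X * T ^ (-1 - ε / 4)) * T ^ (1 + ε / 4) := by rw [mul_assoc, h3]
            _ ≤ H * T ^ (1 + ε / 4) := by gcongr
            _ = _ := mul_comm _ _
        have h4 : 1 ≤ T ^ (1 + ε / 4) := Real.one_le_rpow hT1.le (by positivity)
        rw [div_le_iff₀ hHp, hX']
        nlinarith
      have h5 := Real.log_le_log (by positivity) h1
      rw [Real.log_mul (by norm_num) (by positivity), Real.log_rpow hT0] at h5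
      exact h5
    have hX'2 : X' ≤ X * (1 + T ^ (-(3 / 4) : ℝ) / 2) := by
      rw [hX']
      nlinarith
    have h6 : 0 ≤ H * Real.log (X' / H) := by
      refine mul_nonneg hHp.le (Real.log_nonneg ?_)
      rw [le_div_iff₀ hHp]
      linarith
    calc X' * V X' H ≤ X' * ((1 + ε / (4 * κ)) * (H * Real.log (X' / H))) := by gcongr
      _ ≤ (X * (1 + T ^ (-(3 / 4) : ℝ) / 2)) * ((1 + ε / 4) *
          (H * (Real.log 2 + (1 + ε / 4) * Real.log T))) := by gcongr
      _ = ((1 + T ^ (-(3 / 4) : ℝ) / 2) * (1 + ε / 4) *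
        (Real.log 2 / Real.log T + (1 + ε / 4))) * (X * H * Real.log T) := by
          field_simp
      _ ≤ _ := by
          refine mul_le_mul_of_nonneg_right ht.le (by positivity)
  rough := by
    intro κ hκ
    obtain ⟨δ, C, hδ, hr⟩ := h.rough
    set ε : ℝ := min δ (1 / (8 * κ)) with hε
    have hε0 : 0 < ε := lt_min hδ (by positivity)
    have hεδ : ε ≤ δ := min_le_left _ _
    have hεκ : ε * (8 * κ) ≤ 1 := by
      have : ε ≤ 1 / (8 * κ) := min_le_right _ _
      rwa [le_div_iff₀ (by positivity)] at this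
    have hε1 : ε ≤ 1 := by nlinarith
    obtain ⟨X0, hX0⟩ := ((h.sharp _ hε0).and hr).exists_forall_of_atTop
    have hcC := cC_one
    refine ⟨4 * κ * (|C| + 2) + (9 * cC + 2) * κ, by positivity, ?_⟩
    have tq : ∀ᶠ T : ℝ in atTop, X0 ≤ T ^ (1 / 4 : ℝ) :=
      (tendsto_rpow_atTop (by norm_num)).eventually_ge_atTop X0
    have tq2 : ∀ᶠ T : ℝ in atTop, 2 ≤ T ^ (1 / 4 : ℝ) :=
      (tendsto_rpow_atTop (by norm_num)).eventually_ge_atTop 2
    filter_upwards [tq, tq2, eventually_ge_atTop 3] with T hTX hT2 hT X H hX1 hX2 hH0 hH2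
    have hT0 : 0 < T := by linarith
    have hT1 : 1 < T := by linarith
    have hL : 0 < Real.log T := Real.log_pos hT1
    have hX2' : 2 ≤ X := hT2.trans hX1
    have hXp : 0 < X := by linarith
    have hlX : Real.log X ≤ κ * Real.log T := by
      have := Real.log_le_log hXp hX2
      rwa [Real.log_rpow hT0] at this
    have hmain : 0 ≤ X * H * Real.log T := by positivity
    rcases lt_or_ge H 1 with hH1 | hH1
    · refine (short_one hX2' hH0 hH1.le).trans (ENNReal.ofReal_le_ofReal ?_)
      have h1 : X * H * Real.log X ≤ κ * (X * H * Real.log T) := by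
        have := mul_le_mul_of_nonneg_left hlX (show 0 ≤ X * H by positivity)
        linarith
      have h2 : 0 ≤ 4 * κ * (|C| + 2) * (X * H * Real.log T) := by positivity
      have h3 := mul_le_mul_of_nonneg_left h1 (show 0 ≤ 9 * cC + 2 by linarith)
      linarith
    · have hTh : T ^ (-1 / 2 : ℝ) ≤ 1 :=
        Real.rpow_le_one_of_one_le_of_nonpos hT1.le (by norm_num)
      have hHX : H ≤ X := hH2.trans (mul_le_of_le_one_right hXp.le hTh)
      have hu := Ul_le_V hXp hH0.le hHX
      obtain ⟨X', hX'⟩ : ∃ X', X' = X + H / 2 := ⟨_, rfl⟩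
      rw [← hX'] at hu
      have hXX' : X ≤ X' := by rw [hX']; linarith
      have hX'2 : X' ≤ 2 * X := by rw [hX']; linarith
      have hX'p : 0 < X' := by linarith
      have hX'1 : 1 ≤ X' := by linarith
      have hXX0 : X0 ≤ X' := (hTX.trans hX1).trans hXX'
      have hlog : Real.log X' ≤ 2 * κ * Real.log T := by
        have h1 : Real.log X' ≤ Real.log (2 * X) := Real.log_le_log hX'p hX'2
        rw [Real.log_mul (by norm_num) hXp.ne'] at h1
        have h2 : Real.log 2 ≤ Real.log T := Real.log_le_log (by norm_num) (by linarith)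
        have h3 : Real.log T ≤ κ * Real.log T := by nlinarith
        linarith
      have hlog0 : 0 ≤ Real.log X' := Real.log_nonneg hX'1
      have hVb : V X' H ≤ (|C| + 2) * (H * Real.log X') := by
        have h0 : 0 ≤ H * Real.log X' := by positivity
        rcases le_or_gt H (X' ^ δ) with hc | hc
        · refine ((hX0 X' hXX0).2 H hH1 hc).trans ?_
          refine mul_le_mul_of_nonneg_right ?_ h0
          linarith [le_abs_self C]
        · have h1 : X' ^ ε ≤ H :=
            (Real.rpow_le_rpow_of_exponent_le hX'1 hεδ).trans hc.le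
          have h2 : H ≤ X' ^ (1 - ε) := by
            rw [Real.rpow_sub hX'p, Real.rpow_one, le_div_iff₀ (by positivity)]
            have h3 : X' ≤ T ^ (2 * κ) := by
              have h3 : 2 * X ≤ T * T ^ κ := mul_le_mul (by linarith) hX2 hXp.le hT0.le
              have h4 : T * T ^ κ ≤ T ^ (2 * κ) := by
                rw [← Real.rpow_one_add' hT0.le (by linarith)]
                exact Real.rpow_le_rpow_of_exponent_le hT1.le (by linarith)
              linarith
            have h5 : X' ^ ε ≤ T ^ (1 / 4 : ℝ) := by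
              calc X' ^ ε ≤ (T ^ (2 * κ)) ^ ε := Real.rpow_le_rpow hX'p.le h3 hε0.le
                _ = T ^ (2 * κ * ε) := by rw [← Real.rpow_mul hT0.le]
                _ ≤ T ^ (1 / 4 : ℝ) := Real.rpow_le_rpow_of_exponent_le hT1.le (by linarith)
            calc H * X' ^ ε ≤ (X * T ^ (-1 / 2 : ℝ)) * T ^ (1 / 4 : ℝ) := by gcongr
              _ = X * (T ^ (-1 / 2 : ℝ) * T ^ (1 / 4 : ℝ)) := by ring
              _ = X * T ^ (-1 / 2 + 1 / 4 : ℝ) := by rw [Real.rpow_add hT0]
              _ ≤ X * 1 := by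
                  refine mul_le_mul_of_nonneg_left ?_ hXp.le
                  exact Real.rpow_le_one_of_one_le_of_nonpos hT1.le (by norm_num)
              _ ≤ X' := by linarith
          refine ((hX0 X' hXX0).1 H h1 h2).trans ?_
          have h6 : Real.log (X' / H) ≤ Real.log X' := by
            refine Real.log_le_log (by positivity) ?_
            rw [div_le_iff₀ hH0]
            nlinarith
          calc (1 + ε) * (H * Real.log (X' / H)) ≤ (1 + ε) * (H * Real.log X') := by gcongr
            _ ≤ (|C| + 2) * (H * Real.log X') := by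
                refine mul_le_mul_of_nonneg_right ?_ h0
                linarith [abs_nonneg C]
      refine hu.trans (ENNReal.ofReal_le_ofReal ?_)
      calc X' * V X' H ≤ X' * ((|C| + 2) * (H * Real.log X')) := by gcongr
        _ ≤ (2 * X) * ((|C| + 2) * (H * (2 * κ * Real.log T))) := by gcongr
        _ = 4 * κ * (|C| + 2) * (X * H * Real.log T) := by ring
        _ ≤ _ := by
            refine mul_le_mul_of_nonneg_right ?_ hmain
            have : 0 ≤ (9 * cC + 2) * κ := by positivity
            linarith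

end Pool.Agent.H7.PS
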