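import Mathlib

/-! Uniqueness for the mixture kernels. -/

open MeasureTheory Filter Topology Real
open scoped ContDiff

namespace Pool.Agent.H7.PS

/-- the mixture kernel -/
noncomputable def kc (c τ : ℝ) : ℝ := τ / (c ^ 2 + τ ^ 2) - τ / ((2 * c) ^ 2 + τ ^ 2)

lemma kc_eq {c : ℝ} (hc : 0 < c) (τ : ℝ) :
    kc c τ = 3 * c ^ 2 * τ / ((c ^ 2 + τ ^ 2) * ((2 * c) ^ 2 + τ ^ 2)) := by
  unfold kc
  have h1 : 0 < c ^ 2 + τ ^ 2 := by positivity
  have h2 : 0 < (2 * c) ^ 2 + τ ^ 2 := by positivity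
  field_simp
  ring

lemma kc_nonneg {c : ℝ} (hc : 0 < c) {τ : ℝ} (hτ : 0 ≤ τ) : 0 ≤ kc c τ := by
  rw [kc_eq hc]
  positivity

lemma den_cont {a : ℝ} (ha : 0 < a) : Continuous fun τ : ℝ => τ / (a ^ 2 + τ ^ 2) := by
  refine continuous_id.div (by fun_prop) fun τ => ?_
  have : 0 < a ^ 2 + τ ^ 2 := by positivity
  exact this.ne'

lemma kc_cont {c : ℝ} (hc : 0 < c) : Continuous (kc c) :=
  (den_cont hc).sub (den_cont (by positivity))

lemma diff_eq {a b : ℝ} (ha : 0 < a) (hb : 0 < b) (τ : ℝ) :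
    τ / (a ^ 2 + τ ^ 2) - τ / (b ^ 2 + τ ^ 2) =
      (b ^ 2 - a ^ 2) * τ / ((a ^ 2 + τ ^ 2) * (b ^ 2 + τ ^ 2)) := by
  have h1 : 0 < a ^ 2 + τ ^ 2 := by positivity
  have h2 : 0 < b ^ 2 + τ ^ 2 := by positivity
  field_simp
  ring

lemma inv_int {b : ℝ} (hb : 0 < b) : IntegrableOn (fun τ : ℝ => 1 / (b ^ 2 + τ ^ 2)) (Set.Ioi 0) ∧
    ∫ τ in Set.Ioi (0 : ℝ), 1 / (b ^ 2 + τ ^ 2) = π / 2 / b := by
  have e : (fun τ : ℝ => 1 / (b ^ 2 + τ ^ 2)) = fun τ : ℝ => b⁻¹ ^ 2 * (1 + (b⁻¹ * τ) ^ 2)⁻¹ := by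
    funext τ
    have h1 : 0 < b ^ 2 + τ ^ 2 := by positivity
    field_simp
  have hb' : 0 < b⁻¹ := inv_pos.2 hb
  constructor
  · rw [e]
    refine Integrable.const_mul ?_ _
    refine (integrable_inv_one_add_sq.comp_mul_left' hb'.ne').integrableOn
  · rw [e, integral_const_mul]
    have h := integral_comp_mul_left_Ioi (fun x : ℝ => (1 + x ^ 2)⁻¹) 0 hb'
    rw [mul_zero, integral_Ioi_inv_one_add_sq, Real.arctan_zero, sub_zero, smul_eq_mul, inv_inv] at h
    rw [h]
    field_simp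

variable {h : ℝ → ℝ} {C : ℝ}

lemma diff_bound (hC : ∀ τ, 0 < τ → |h τ| ≤ C * τ) {a b : ℝ} (ha : 0 < a) (hb : 0 < b) {τ : ℝ}
    (hτ : 0 < τ) : |(τ / (a ^ 2 + τ ^ 2) - τ / (b ^ 2 + τ ^ 2)) * h τ| ≤
      C * |b ^ 2 - a ^ 2| * (1 / (b ^ 2 + τ ^ 2)) := by
  have h1 : 0 < a ^ 2 + τ ^ 2 := by positivity
  have h2 : 0 < b ^ 2 + τ ^ 2 := by positivity
  have hC0 : 0 ≤ C := by
    have := (abs_nonneg _).trans (hC 1 one_pos)
    simpa using this
  rw [diff_eq ha hb, abs_mul, abs_div, abs_mul, abs_of_pos hτ, abs_of_pos (mul_pos h1 h2)]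
  calc |b ^ 2 - a ^ 2| * τ / ((a ^ 2 + τ ^ 2) * (b ^ 2 + τ ^ 2)) * |h τ| ≤
      |b ^ 2 - a ^ 2| * τ / ((a ^ 2 + τ ^ 2) * (b ^ 2 + τ ^ 2)) * (C * τ) := by
        gcongr
        exact hC τ hτ
    _ = C * |b ^ 2 - a ^ 2| * (τ ^ 2 / (a ^ 2 + τ ^ 2)) * (1 / (b ^ 2 + τ ^ 2)) := by
        field_simp
    _ ≤ C * |b ^ 2 - a ^ 2| * 1 * (1 / (b ^ 2 + τ ^ 2)) := by
        gcongr
        rw [div_le_one h1]
        nlinarith [sq_nonneg a]
    _ = _ := by rw [mul_one]

lemma diff_int (hm : Measurable h) (hC : ∀ τ, 0 < τ → |h τ| ≤ C * τ) {a b : ℝ} (ha : 0 < a)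
    (hb : 0 < b) : IntegrableOn (fun τ => (τ / (a ^ 2 + τ ^ 2) - τ / (b ^ 2 + τ ^ 2)) * h τ)
      (Set.Ioi 0) := by
  refine Integrable.mono' ((inv_int hb).1.const_mul (C * |b ^ 2 - a ^ 2|))
    ((((den_cont ha).sub (den_cont hb)).measurable.mul hm).aestronglyMeasurable) ?_
  rw [ae_restrict_iff' measurableSet_Ioi]
  exact Eventually.of_forall fun τ hτ => diff_bound hC ha hb hτ

/-- the difference functional -/
noncomputable def Ps (h : ℝ → ℝ) (a b : ℝ) : ℝ :=
  ∫ τ in Set.Ioi (0 : ℝ), (τ / (a ^ 2 + τ ^ 2) - τ / (b ^ 2 + τ ^ 2)) * h τ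

lemma Ps_add (hm : Measurable h) (hC : ∀ τ, 0 < τ → |h τ| ≤ C * τ) {a b d : ℝ} (ha : 0 < a)
    (hb : 0 < b) (hd : 0 < d) : Ps h a b + Ps h b d = Ps h a d := by
  unfold Ps
  rw [← integral_add (diff_int hm hC ha hb) (diff_int hm hC hb hd)]
  refine integral_congr_ae (Eventually.of_forall fun τ => ?_)
  show _ + _ = _
  ring

lemma Ps_swap (a b : ℝ) : Ps h a b = -Ps h b a := by
  unfold Ps
  rw [← integral_neg]
  refine integral_congr_ae (Eventually.of_forall fun τ => ?_)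
  show _ = -_
  ring

lemma Ps_zero (hm : Measurable h) (hC : ∀ τ, 0 < τ → |h τ| ≤ C * τ)
    (hz : ∀ c, 0 < c → ∫ τ in Set.Ioi (0 : ℝ), kc c τ * h τ = 0) {a b : ℝ} (ha : 0 < a)
    (hb : 0 < b) : Ps h a b = 0 := by
  have hC0 : 0 ≤ C := by
    have := (abs_nonneg _).trans (hC 1 one_pos)
    simpa using this
  have h1 : ∀ a b : ℝ, 0 < a → 0 < b → Ps h a b = Ps h (a / 2) (b / 2) := by
    intro a b ha hb
    have e1 : Ps h (a / 2) a = 0 := by
      have := hz (a / 2) (by positivity)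
      unfold kc at this
      rw [show 2 * (a / 2) = a by ring] at this
      exact this
    have e2 : Ps h (b / 2) b = 0 := by
      have := hz (b / 2) (by positivity)
      unfold kc at this
      rw [show 2 * (b / 2) = b by ring] at this
      exact this
    have e3 := Ps_add hm hC (a := a) (b := a / 2) (d := b / 2) ha (by positivity) (by positivity)
    have e4 := Ps_add hm hC (a := a) (b := b / 2) (d := b) ha (by positivity) hb
    rw [← e4, ← e3, e2, Ps_swap, e1]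
    ring
  have h2 : ∀ n : ℕ, Ps h a b = Ps h (a / 2 ^ n) (b / 2 ^ n) := by
    intro n
    induction n with
    | zero => simp
    | succ n ih =>
      rw [ih, h1 _ _ (by positivity) (by positivity)]
      congr 1 <;> (rw [pow_succ]; field_simp)
  have h3 : ∀ n : ℕ, |Ps h a b| ≤ (C * |b ^ 2 - a ^ 2| * (π / 2 / b)) * (1 / 2) ^ n := by
    intro n
    rw [h2 n]
    have ha' : 0 < a / 2 ^ n := by positivity
    have hb' : 0 < b / 2 ^ n := by positivity
    unfold Ps
    have h4 := norm_integral_le_of_norm_le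
      ((inv_int hb').1.const_mul (C * |(b / 2 ^ n) ^ 2 - (a / 2 ^ n) ^ 2|))
      (f := fun τ => (τ / ((a / 2 ^ n) ^ 2 + τ ^ 2) - τ / ((b / 2 ^ n) ^ 2 + τ ^ 2)) * h τ) (by
        rw [ae_restrict_iff' measurableSet_Ioi]
        exact Eventually.of_forall fun τ hτ => diff_bound hC ha' hb' hτ)
    rw [Real.norm_eq_abs, integral_const_mul, (inv_int hb').2] at h4
    refine h4.trans (le_of_eq ?_)
    have e : (b / 2 ^ n) ^ 2 - (a / 2 ^ n) ^ 2 = (b ^ 2 - a ^ 2) / (2 ^ n) ^ 2 := by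
      rw [div_pow, div_pow]
      ring
    rw [e, abs_div, abs_of_pos (by positivity : (0 : ℝ) < (2 ^ n) ^ 2), one_div, inv_pow]
    field_simp
  have h4 : Tendsto (fun n : ℕ => (C * |b ^ 2 - a ^ 2| * (π / 2 / b)) * (1 / 2) ^ n) atTop
      (𝓝 ((C * |b ^ 2 - a ^ 2| * (π / 2 / b)) * 0)) :=
    (tendsto_pow_atTop_nhds_zero_of_lt_one (by norm_num) (by norm_num)).const_mul _
  rw [mul_zero] at h4
  have h5 := ge_of_tendsto' h4 h3
  exact abs_eq_zero.1 (le_antisymm h5 (abs_nonneg _))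

/-- the compactified variable -/
noncomputable def xv (τ : ℝ) : ℝ := 1 / (1 + τ ^ 2)

lemma xv_pos (τ : ℝ) : 0 < xv τ := by unfold xv; positivity

lemma xv_le (τ : ℝ) : xv τ ≤ 1 := by
  unfold xv
  rw [div_le_one (by positivity)]
  nlinarith [sq_nonneg τ]

lemma xv_cont : Continuous xv := by
  unfold xv
  refine continuous_const.div (by fun_prop) fun τ => ?_
  have : 0 < 1 + τ ^ 2 := by positivity
  exact this.ne'

lemma w_int (hm : Measurable h) (hC : ∀ τ, 0 < τ → |h τ| ≤ C * τ) {q : ℝ → ℝ}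
    (hq : Measurable q) {M : ℝ} (hM : ∀ τ, 0 < τ → |q τ| ≤ M) :
    IntegrableOn (fun τ => τ * h τ * xv τ ^ 2 * q τ) (Set.Ioi 0) := by
  have hC0 : 0 ≤ C := by
    have := (abs_nonneg _).trans (hC 1 one_pos)
    simpa using this
  refine Integrable.mono' ((integrable_inv_one_add_sq.integrableOn (s := Set.Ioi 0)).const_mul
    (C * M)) (((measurable_id.mul hm).mul (xv_cont.measurable.pow_const 2)).mul
      hq).aestronglyMeasurable ?_
  rw [ae_restrict_iff' measurableSet_Ioi]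
  refine Eventually.of_forall fun τ hτ => ?_
  have hτ0 : 0 < τ := hτ
  rw [Real.norm_eq_abs, abs_mul, abs_mul, abs_mul, abs_of_pos hτ0, abs_of_pos (by
    have := xv_pos τ; positivity : 0 < xv τ ^ 2)]
  have h1 := hC τ hτ0
  have h2 := hM τ hτ0
  have h3 : τ ^ 2 * xv τ ^ 2 ≤ (1 + τ ^ 2)⁻¹ := by
    unfold xv
    rw [div_pow, one_pow, ← mul_div_assoc, mul_one, div_le_iff₀ (by positivity), inv_mul_eq_div,
      le_div_iff₀ (by positivity)]
    nlinarith [sq_nonneg τ]
  have hM0 : 0 ≤ M := (abs_nonneg _).trans h2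
  calc τ * |h τ| * xv τ ^ 2 * |q τ| ≤ τ * (C * τ) * xv τ ^ 2 * M := by
        have := xv_pos τ
        gcongr
    _ = C * M * (τ ^ 2 * xv τ ^ 2) := by ring
    _ ≤ C * M * (1 + τ ^ 2)⁻¹ := mul_le_mul_of_nonneg_left h3 (by positivity)

lemma moments (hm : Measurable h) (hC : ∀ τ, 0 < τ → |h τ| ≤ C * τ)
    (hz : ∀ c, 0 < c → ∫ τ in Set.Ioi (0 : ℝ), kc c τ * h τ = 0) (k : ℕ) :
    (∀ z, 0 < z → ∫ τ in Set.Ioi (0 : ℝ), τ * h τ * xv τ ^ 2 * (xv τ ^ k / (1 + z * xv τ)) = 0) ∧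
      ∫ τ in Set.Ioi (0 : ℝ), τ * h τ * xv τ ^ 2 * xv τ ^ k = 0 := by
  have hmeas : ∀ (k : ℕ) (z : ℝ), Measurable fun τ : ℝ => xv τ ^ k / (1 + z * xv τ) := fun k z =>
    (xv_cont.measurable.pow_const k).div (measurable_const.add
      (measurable_const.mul xv_cont.measurable))
  have hb1 : ∀ (k : ℕ) (z : ℝ), 0 < z → ∀ τ, 0 < τ → |xv τ ^ k / (1 + z * xv τ)| ≤ 1 := by
    intro k z hz τ _
    have h1 := xv_pos τ
    rw [abs_of_pos (by positivity), div_le_one (by positivity)]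
    have h2 : xv τ ^ k ≤ 1 := pow_le_one₀ h1.le (xv_le τ)
    nlinarith [mul_pos hz h1]
  have hb2 : ∀ (k : ℕ) (τ : ℝ), 0 < τ → |xv τ ^ k| ≤ 1 := by
    intro k τ _
    have h1 := xv_pos τ
    rw [abs_of_pos (by positivity)]
    exact pow_le_one₀ h1.le (xv_le τ)
  -- passage to the limit
  have hlim : ∀ k : ℕ, (∀ z, 0 < z → ∫ τ in Set.Ioi (0 : ℝ),
      τ * h τ * xv τ ^ 2 * (xv τ ^ k / (1 + z * xv τ)) = 0) →
      ∫ τ in Set.Ioi (0 : ℝ), τ * h τ * xv τ ^ 2 * xv τ ^ k = 0 := by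
    intro k hk
    have h1 : Tendsto (fun n : ℕ => ∫ τ in Set.Ioi (0 : ℝ),
        τ * h τ * xv τ ^ 2 * (xv τ ^ k / (1 + (1 / ((n : ℝ) + 1)) * xv τ))) atTop
        (𝓝 (∫ τ in Set.Ioi (0 : ℝ), τ * h τ * xv τ ^ 2 * xv τ ^ k)) := by
      refine tendsto_integral_of_dominated_convergence
        (fun τ => |τ * h τ * xv τ ^ 2 * 1|) (fun n => ?_) ?_ (fun n => ?_) ?_
      · exact (((measurable_id.mul hm).mul (xv_cont.measurable.pow_const 2)).mul
          (hmeas k _)).aestronglyMeasurable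
      · exact (w_int hm hC (q := fun _ => 1) measurable_const (M := 1)
          (fun τ _ => by simp)).abs
      · rw [ae_restrict_iff' measurableSet_Ioi]
        refine Eventually.of_forall fun τ hτ => ?_
        rw [Real.norm_eq_abs, abs_mul, abs_mul (τ * h τ * xv τ ^ 2) 1]
        refine mul_le_mul_of_nonneg_left ?_ (abs_nonneg _)
        rw [abs_one]
        exact hb1 k _ (by positivity) τ hτ
      · rw [ae_restrict_iff' measurableSet_Ioi]
        refine Eventually.of_forall fun τ _ => ?_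
        have h2 : Tendsto (fun n : ℕ => 1 + (1 / ((n : ℝ) + 1)) * xv τ) atTop
            (𝓝 (1 + 0 * xv τ)) :=
          (tendsto_one_div_add_atTop_nhds_zero_nat.mul_const _).const_add _
        have h3 : Tendsto (fun n : ℕ => xv τ ^ k / (1 + (1 / ((n : ℝ) + 1)) * xv τ)) atTop
            (𝓝 (xv τ ^ k / (1 + 0 * xv τ))) := tendsto_const_nhds.div h2 (by simp)
        rw [zero_mul, add_zero, div_one] at h3
        exact h3.const_mul _
    have h2 : ∀ n : ℕ, ∫ τ in Set.Ioi (0 : ℝ),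
        τ * h τ * xv τ ^ 2 * (xv τ ^ k / (1 + (1 / ((n : ℝ) + 1)) * xv τ)) = 0 := fun n =>
      hk _ (by positivity)
    simp_rw [h2] at h1
    exact (tendsto_nhds_unique h1 tendsto_const_nhds)
  induction k with
  | zero =>
    have h0 : ∀ z, 0 < z → ∫ τ in Set.Ioi (0 : ℝ),
        τ * h τ * xv τ ^ 2 * (xv τ ^ 0 / (1 + z * xv τ)) = 0 := by
      intro z hz0
      have ha : 0 < Real.sqrt (1 + z) := Real.sqrt_pos.2 (by linarith)
      have h1 := Ps_zero hm hC hz (a := Real.sqrt (1 + z)) (b := 1) ha one_pos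
      unfold Ps at h1
      have h2 : ∀ τ : ℝ, (τ / (Real.sqrt (1 + z) ^ 2 + τ ^ 2) - τ / (1 ^ 2 + τ ^ 2)) * h τ =
          (-z) * (τ * h τ * xv τ ^ 2 * (xv τ ^ 0 / (1 + z * xv τ))) := by
        intro τ
        rw [Real.sq_sqrt (by linarith)]
        unfold xv
        have h3 : 0 < 1 + z + τ ^ 2 := by positivity
        have h4 : 0 < 1 + τ ^ 2 := by positivity
        have h5 : 1 + z * (1 / (1 + τ ^ 2)) = (1 + z + τ ^ 2) / (1 + τ ^ 2) := by
          field_simp
          ring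
        rw [h5]
        field_simp
        ring
      simp_rw [h2] at h1
      rw [integral_const_mul] at h1
      rcases mul_eq_zero.1 h1 with h3 | h3
      · linarith
      · exact h3
    exact ⟨h0, hlim 0 h0⟩
  | succ k ih =>
    obtain ⟨ih1, ih2⟩ := ih
    have h0 : ∀ z, 0 < z → ∫ τ in Set.Ioi (0 : ℝ),
        τ * h τ * xv τ ^ 2 * (xv τ ^ (k + 1) / (1 + z * xv τ)) = 0 := by
      intro z hz0
      have h2 : ∀ τ : ℝ, τ * h τ * xv τ ^ 2 * (xv τ ^ (k + 1) / (1 + z * xv τ)) =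
          z⁻¹ * (τ * h τ * xv τ ^ 2 * xv τ ^ k -
            τ * h τ * xv τ ^ 2 * (xv τ ^ k / (1 + z * xv τ))) := by
        intro τ
        have h1 := xv_pos τ
        have h3 : 0 < 1 + z * xv τ := by positivity
        field_simp
        ring
      simp_rw [h2]
      rw [integral_const_mul, integral_sub, ih1 z hz0, ih2]
      · simp
      · exact w_int hm hC (xv_cont.measurable.pow_const k) (M := 1) (hb2 k)
      · exact w_int hm hC (hmeas k z) (M := 1) (hb1 k z hz0)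
    exact ⟨h0, hlim _ h0⟩

lemma cont_zero (hm : Measurable h) (hC : ∀ τ, 0 < τ → |h τ| ≤ C * τ)
    (hz : ∀ c, 0 < c → ∫ τ in Set.Ioi (0 : ℝ), kc c τ * h τ = 0) {q : ℝ → ℝ}
    (hq : Continuous q) : ∫ τ in Set.Ioi (0 : ℝ), τ * h τ * xv τ ^ 2 * q (xv τ) = 0 := by
  have hcomp : ∀ {q : ℝ → ℝ}, Continuous q → ∃ M, ∀ τ : ℝ, 0 < τ → |q (xv τ)| ≤ M := by
    intro q hq
    obtain ⟨M, hM⟩ := isCompact_Icc.exists_bound_of_continuousOn (f := q) (s := Set.Icc 0 1)
      hq.continuousOn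
    exact ⟨M, fun τ _ => hM _ ⟨(xv_pos τ).le, xv_le τ⟩⟩
  have hint : ∀ {q : ℝ → ℝ}, Continuous q →
      IntegrableOn (fun τ => τ * h τ * xv τ ^ 2 * q (xv τ)) (Set.Ioi 0) := by
    intro q hq
    obtain ⟨M, hM⟩ := hcomp hq
    exact w_int hm hC (hq.measurable.comp xv_cont.measurable) hM
  have hw := w_int hm hC (q := fun _ => 1) measurable_const (M := 1) (fun τ _ => by simp)
  set W : ℝ := ∫ τ in Set.Ioi (0 : ℝ), |τ * h τ * xv τ ^ 2 * 1| with hW
  have hW0 : 0 ≤ W := integral_nonneg fun _ => abs_nonneg _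
  have hpoly : ∀ p : Polynomial ℝ, ∫ τ in Set.Ioi (0 : ℝ),
      τ * h τ * xv τ ^ 2 * p.eval (xv τ) = 0 := by
    intro p
    simp_rw [Polynomial.eval_eq_sum_range, Finset.mul_sum]
    rw [integral_finsetSum]
    · refine Finset.sum_eq_zero fun i _ => ?_
      have h1 : ∀ τ : ℝ, τ * h τ * xv τ ^ 2 * (p.coeff i * xv τ ^ i) =
          p.coeff i * (τ * h τ * xv τ ^ 2 * xv τ ^ i) := fun τ => by ring
      simp_rw [h1]
      rw [integral_const_mul, (moments hm hC hz i).2, mul_zero]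
    · intro i _
      exact hint (q := fun x => p.coeff i * x ^ i) (by fun_prop)
  refine abs_eq_zero.1 (le_antisymm ?_ (abs_nonneg _))
  refine le_of_forall_pos_le_add fun ε hε => ?_
  rw [zero_add]
  obtain ⟨p, hp⟩ := exists_polynomial_near_of_continuousOn 0 1 q hq.continuousOn (ε / (W + 1))
    (by positivity)
  have h1 : ∫ τ in Set.Ioi (0 : ℝ), τ * h τ * xv τ ^ 2 * q (xv τ) =
      ∫ τ in Set.Ioi (0 : ℝ), τ * h τ * xv τ ^ 2 * (q (xv τ) - p.eval (xv τ)) := by
    have h2 := integral_sub (hint hq) (hint (q := fun x => p.eval x) p.continuous)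
    rw [hpoly p, sub_zero] at h2
    rw [← h2]
    refine integral_congr_ae (Eventually.of_forall fun τ => ?_)
    show _ - _ = _
    ring
  rw [h1]
  have h3 := norm_integral_le_of_norm_le (hw.abs.const_mul (ε / (W + 1)))
    (f := fun τ => τ * h τ * xv τ ^ 2 * (q (xv τ) - p.eval (xv τ))) (by
      refine Eventually.of_forall fun τ => ?_
      rw [Real.norm_eq_abs, abs_mul, mul_one, mul_comm]
      refine mul_le_mul_of_nonneg_right ?_ (abs_nonneg _)
      rw [abs_sub_comm]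
      exact (hp _ ⟨(xv_pos τ).le, xv_le τ⟩).le)
  rw [Real.norm_eq_abs, integral_const_mul, ← hW] at h3
  refine h3.trans ?_
  rw [div_mul_eq_mul_div, div_le_iff₀ (by positivity)]
  nlinarith

/-- **uniqueness** -/
theorem kc_unique (hm : Measurable h) (hC : ∀ τ, 0 < τ → |h τ| ≤ C * τ)
    (hz : ∀ c, 0 < c → ∫ τ in Set.Ioi (0 : ℝ), kc c τ * h τ = 0) :
    ∀ᵐ τ : ℝ, τ ∈ Set.Ioi (0 : ℝ) → h τ = 0 := by
  have key : ∀ᵐ τ : ℝ, τ ∈ Set.Ioi (0 : ℝ) → τ * h τ * xv τ ^ 2 = 0 := by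
    refine isOpen_Ioi.ae_eq_zero_of_integral_contDiff_smul_eq_zero ?_ fun g hg hgc hgs => ?_
    · have := (w_int hm hC (q := fun _ => 1) measurable_const (M := 1)
        (fun τ _ => by simp)).locallyIntegrableOn
      simpa using this
    · obtain ⟨R0, hR0⟩ := hgc.isCompact.isBounded.subset_closedBall 0
      set R : ℝ := |R0| + 1 with hR
      have hRpos : 0 < R := by rw [hR]; positivity
      have hgR : ∀ τ, R ≤ τ → g τ = 0 := by
        intro τ hτ
        by_contra hne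
        have h1 : τ ∈ tsupport g := subset_tsupport _ hne
        have h2 := hR0 h1
        rw [Metric.mem_closedBall, Real.dist_eq, sub_zero] at h2
        have h3 := le_abs_self τ
        have h4 := le_abs_self R0
        rw [hR] at hτ
        linarith
      have hg0 : ∀ τ, τ ≤ 0 → g τ = 0 := by
        intro τ hτ
        by_contra hne
        have h1 := hgs (subset_tsupport _ hne)
        exact absurd (Set.mem_Ioi.1 h1) (not_lt.2 hτ)
      set δ : ℝ := xv R with hδ
      have hδ0 : 0 < δ := xv_pos R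
      set q : ℝ → ℝ := fun x => g (Real.sqrt (1 / max x δ - 1)) with hq
      have hqc : Continuous q := by
        refine hg.continuous.comp (Real.continuous_sqrt.comp ?_)
        refine (continuous_const.div (continuous_id.max continuous_const) fun x => ?_).sub
          continuous_const
        exact (lt_of_lt_of_le hδ0 (le_max_right _ _)).ne'
      have h1 := cont_zero hm hC hz hqc
      have hqg : ∀ τ, 0 < τ → q (xv τ) = g τ := by
        intro τ hτ
        simp only [hq]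
        rcases le_total δ (xv τ) with h2 | h2
        · rw [max_eq_left h2]
          congr 1
          unfold xv
          have : 1 / (1 / (1 + τ ^ 2)) - 1 = τ ^ 2 := by
            field_simp
            ring
          rw [this, Real.sqrt_sq hτ.le]
        · rw [max_eq_right h2]
          have h3 : R ≤ τ := by
            rw [hδ] at h2
            unfold xv at h2
            rw [div_le_div_iff₀ (by positivity) (by positivity)] at h2
            have h4 : R ^ 2 ≤ τ ^ 2 := by linarith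
            exact (sq_le_sq₀ hRpos.le hτ.le).1 h4
          rw [hgR τ h3, hδ]
          have h4 : Real.sqrt (1 / xv R - 1) = R := by
            unfold xv
            have : 1 / (1 / (1 + R ^ 2)) - 1 = R ^ 2 := by
              field_simp
              ring
            rw [this, Real.sqrt_sq hRpos.le]
          rw [h4]
          exact hgR R le_rfl
      have h2 : ∫ τ : ℝ, g τ • (τ * h τ * xv τ ^ 2) =
          ∫ τ in Set.Ioi (0 : ℝ), g τ • (τ * h τ * xv τ ^ 2) := by
        symm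
        refine setIntegral_eq_integral_of_forall_compl_eq_zero fun τ hτ => ?_
        rw [Set.mem_Ioi, not_lt] at hτ
        rw [hg0 τ hτ, zero_smul]
      refine h2.trans (Eq.trans ?_ h1)
      refine setIntegral_congr_fun measurableSet_Ioi fun τ hτ => ?_
      show g τ • (τ * h τ * xv τ ^ 2) = τ * h τ * xv τ ^ 2 * q (xv τ)
      rw [hqg τ hτ, smul_eq_mul]
      ring
  filter_upwards [key] with τ hτ hτ0
  have h1 := hτ hτ0
  have h2 : 0 < τ := hτ0
  have h3 := xv_pos τ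
  rcases mul_eq_zero.1 h1 with h4 | h4
  · rcases mul_eq_zero.1 h4 with h5 | h5
    · linarith
    · exact h5
  · exact absurd h4 (by positivity)

/-- monotone version -/
theorem kc_unique_mono {B : ℝ → ℝ} (hB : Monotone B) {C a : ℝ} (hC : ∀ τ, 0 < τ → |B τ| ≤ C * τ)
    (hz : ∀ c, 0 < c → ∫ τ in Set.Ioi (0 : ℝ), kc c τ * B τ =
      a * ∫ τ in Set.Ioi (0 : ℝ), kc c τ * τ) {τ : ℝ} (hτ : 0 < τ) : B τ = a * τ := by
  have hm : Measurable fun τ => B τ - a * τ := hB.measurable.sub (by fun_prop)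
  have hC2 : ∀ τ, 0 < τ → |B τ - a * τ| ≤ (C + |a|) * τ := by
    intro τ hτ
    refine (abs_sub _ _).trans ?_
    rw [abs_mul, abs_of_pos hτ]
    have := hC τ hτ
    linarith
  have hi1 : ∀ c, 0 < c → IntegrableOn (fun τ => kc c τ * B τ) (Set.Ioi 0) := fun c hc =>
    diff_int hB.measurable hC hc (by positivity)
  have hi2 : ∀ c, 0 < c → IntegrableOn (fun τ => kc c τ * τ) (Set.Ioi 0) := fun c hc =>
    diff_int measurable_id (C := 1) (fun τ hτ => by rw [id, abs_of_pos hτ, one_mul]) hc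
      (by positivity)
  have h1 := kc_unique hm hC2 (fun c hc => by
    have h2 : ∀ τ, kc c τ * (B τ - a * τ) = kc c τ * B τ - a * (kc c τ * τ) := fun τ => by ring
    simp_rw [h2]
    rw [integral_sub (hi1 c hc) ((hi2 c hc).const_mul a), integral_const_mul, hz c hc, sub_self])
  have h2 : ∀ᵐ τ : ℝ, τ ∈ Set.Ioi (0 : ℝ) → B τ = a * τ := by
    filter_upwards [h1] with τ hτ hτ0
    linarith [hτ hτ0]
  have hdense : Dense {τ : ℝ | τ ∈ Set.Ioi (0 : ℝ) → B τ = a * τ} := by
    refine Measure.dense_of_ae (μ := volume) h2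
  refine le_antisymm ?_ ?_
  · refine le_of_forall_pos_le_add fun ε hε => ?_
    obtain ⟨σ, hσ1, hσ2⟩ := hdense.exists_between
      (show τ < τ + ε / (|a| + 1) by have : 0 < ε / (|a| + 1) := by positivity
                                     linarith)
    have h3 := hσ1 (Set.mem_Ioi.2 (hτ.trans hσ2.1))
    have h4 := hB hσ2.1.le
    have h5 : a * σ ≤ a * τ + ε := by
      have h6 : a * (σ - τ) ≤ |a| * (ε / (|a| + 1)) := by
        refine (le_abs_self _).trans ?_
        rw [abs_mul, abs_of_pos (by linarith [hσ2.1] : 0 < σ - τ)]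
        exact mul_le_mul_of_nonneg_left (by linarith [hσ2.2]) (abs_nonneg _)
      have h7 : |a| * (ε / (|a| + 1)) ≤ ε := by
        rw [← mul_div_assoc, div_le_iff₀ (by positivity)]
        nlinarith [abs_nonneg a]
      linarith
    linarith
  · refine le_of_forall_pos_le_add fun ε hε => ?_
    obtain ⟨σ, hσ1, hσ2⟩ := hdense.exists_between
      (show max (τ / 2) (τ - ε / (|a| + 1)) < τ by
        have : 0 < ε / (|a| + 1) := by positivity
        exact max_lt (by linarith) (by linarith))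
    have hσ0 : 0 < σ := lt_trans (by positivity) ((le_max_left _ _).trans_lt hσ2.1)
    have hσ3 : τ - ε / (|a| + 1) < σ := (le_max_right _ _).trans_lt hσ2.1
    have h3 := hσ1 (Set.mem_Ioi.2 hσ0)
    have h4 := hB hσ2.2.le
    have h5 : a * τ ≤ a * σ + ε := by
      have h6 : a * (τ - σ) ≤ |a| * (ε / (|a| + 1)) := by
        refine (le_abs_self _).trans ?_
        rw [abs_mul, abs_of_pos (by linarith [hσ2.2] : 0 < τ - σ)]
        exact mul_le_mul_of_nonneg_left (by linarith) (abs_nonneg _)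
      have h7 : |a| * (ε / (|a| + 1)) ≤ ε := by
        rw [← mul_div_assoc, div_le_iff₀ (by positivity)]
        nlinarith [abs_nonneg a]
      linarith
    linarith

/-- the mass of the kernel -/
lemma kc_mass {c : ℝ} (hc : 0 < c) :
    ∫ τ in Set.Ioi (0 : ℝ), kc c τ * τ = π / 2 * c := by
  have h1 := inv_int hc
  have h2 := inv_int (b := 2 * c) (by positivity)
  have e : ∀ τ : ℝ, kc c τ * τ = (2 * c) ^ 2 * (1 / ((2 * c) ^ 2 + τ ^ 2)) -
      c ^ 2 * (1 / (c ^ 2 + τ ^ 2)) := by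
    intro τ
    unfold kc
    have h3 : 0 < c ^ 2 + τ ^ 2 := by positivity
    have h4 : 0 < (2 * c) ^ 2 + τ ^ 2 := by positivity
    field_simp
    ring
  simp_rw [e]
  rw [integral_sub (h2.1.const_mul _) (h1.1.const_mul _), integral_const_mul, integral_const_mul,
    h1.2, h2.2]
  field_simp
  ring

end Pool.Agent.H7.PS
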