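import Pool.Agent.H7.PS.Reg
import Pool.Agent.H7.PS.Uniq

/-! The mixture of the truncated mean squares over the heights. -/

open MeasureTheory Filter Topology Real
open scoped ENNReal

namespace Pool.Agent.H7.PS

instance rho1_sf : SFinite rho1 := by
  unfold rho1
  infer_instance

instance rho2_sf : SFinite rho2 := by
  unfold rho2
  infer_instance

/-- the transform of the discrepancy of the primes -/
noncomputable def ph (u t : ℝ) : ℂ := charFun (mu rho1 u) t - charFun (mu rho2 u) t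

lemma charFun_meas (ρ : Measure ℝ) [SFinite ρ] :
    Measurable fun p : ℝ × ℝ => charFun (mu ρ p.1) p.2 := by
  simp_rw [charFun_apply_real, mu_integral]
  have h : StronglyMeasurable fun q : (ℝ × ℝ) × ℝ =>
      (gf q.1.1 q.2 : ℂ) * Complex.exp (q.1.2 * q.2 * Complex.I) := by
    apply Continuous.stronglyMeasurable
    have h1 : Continuous fun q : (ℝ × ℝ) × ℝ => gf q.1.1 q.2 :=
      gf_cont2.comp (f := fun q : (ℝ × ℝ) × ℝ => (q.1.1, q.2)) (by fun_prop)
    exact (Complex.continuous_ofReal.comp h1).mul (by fun_prop)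
  exact h.integral_prod_right'.measurable

lemma ph_meas : Measurable fun p : ℝ × ℝ => ph p.1 p.2 :=
  (charFun_meas rho1).sub (charFun_meas rho2)

lemma ph_neg (u t : ℝ) : ‖ph u (-t)‖ₑ = ‖ph u t‖ₑ := by
  unfold ph
  rw [charFun_neg, charFun_neg, ← map_sub, ← ofReal_norm, RCLike.norm_conj, ofReal_norm]

lemma half_line {f : ℝ → ℝ≥0∞} (he : ∀ t, f (-t) = f t) :
    2 * ∫⁻ t in Set.Ioi (0 : ℝ), f t ≤ ∫⁻ t, f t := by
  have h1 : ∫⁻ t in Set.Ioi (0 : ℝ), f t = ∫⁻ t in Set.Iio (0 : ℝ), f t := by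
    have h2 := (Measure.measurePreserving_neg (volume : Measure ℝ)).setLIntegral_comp_preimage_emb
      (MeasurableEquiv.neg ℝ).measurableEmbedding f (Set.Iio (0 : ℝ))
    rw [← h2]
    have h3 : (Neg.neg ⁻¹' Set.Iio (0 : ℝ)) = Set.Ioi (0 : ℝ) := by
      ext x
      simp
    rw [h3]
    exact lintegral_congr fun t => (he t).symm
  have h2 : Disjoint (Set.Iio (0 : ℝ)) (Set.Ioi 0) := by
    rw [Set.disjoint_left]
    intro x hx hx'
    exact absurd (Set.mem_Iio.1 hx) (not_lt.2 (Set.mem_Ioi.1 hx').le)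
  have h3 : 2 * ∫⁻ t in Set.Ioi (0 : ℝ), f t = ∫⁻ t in Set.Iio (0 : ℝ) ∪ Set.Ioi 0, f t := by
    rw [lintegral_union measurableSet_Ioi h2, two_mul, ← h1]
  rw [h3]
  exact setLIntegral_le_lintegral _ _

lemma kc_tail {c x : ℝ} (hc : 0 < c) (hx : 0 ≤ x) :
    ∫⁻ τ in Set.Ioi x, ENNReal.ofReal (kc c τ) =
      ENNReal.ofReal (1 / 2 * Real.log ((4 * c ^ 2 + x ^ 2) / (c ^ 2 + x ^ 2))) := by
  obtain ⟨g, hg⟩ : ∃ g : ℝ → ℝ, g = fun τ => 1 / 2 * Real.log (c ^ 2 + τ ^ 2) -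
      1 / 2 * Real.log ((2 * c) ^ 2 + τ ^ 2) := ⟨_, rfl⟩
  have hd : ∀ τ ∈ Set.Ici x, HasDerivAt g (kc c τ) τ := by
    intro τ _
    rw [hg]
    have h1 : HasDerivAt (fun τ : ℝ => c ^ 2 + τ ^ 2) (2 * τ) τ := by
      simpa using ((hasDerivAt_pow 2 τ).const_add (c ^ 2))
    have h2 : HasDerivAt (fun τ : ℝ => (2 * c) ^ 2 + τ ^ 2) (2 * τ) τ := by
      simpa using ((hasDerivAt_pow 2 τ).const_add ((2 * c) ^ 2))
    have h3 := ((h1.log (by positivity)).const_mul (1 / 2)).sub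
      ((h2.log (by positivity)).const_mul (1 / 2))
    refine h3.congr_deriv ?_
    unfold kc
    ring
  have hpos : ∀ τ ∈ Set.Ioi x, 0 ≤ kc c τ := fun τ hτ =>
    kc_nonneg hc (hx.trans (le_of_lt (Set.mem_Ioi.1 hτ)))
  have hlim : Tendsto g atTop (𝓝 0) := by
    have h1 : Tendsto (fun τ : ℝ => 1 / 2 * Real.log ((c ^ 2 + τ ^ 2) / ((2 * c) ^ 2 + τ ^ 2)))
        atTop (𝓝 (1 / 2 * Real.log 1)) := by
      refine Tendsto.const_mul _ (Tendsto.log ?_ one_ne_zero)
      have h2 : Tendsto (fun τ : ℝ => 1 - 3 * c ^ 2 / ((2 * c) ^ 2 + τ ^ 2)) atTop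
          (𝓝 (1 - 0)) := by
        refine Tendsto.const_sub _ (Tendsto.const_div_atTop ?_ _)
        exact tendsto_atTop_add_const_left _ _ (tendsto_pow_atTop two_ne_zero)
      rw [sub_zero] at h2
      refine h2.congr fun τ => ?_
      have h3 : (2 * c) ^ 2 + τ ^ 2 ≠ 0 := by positivity
      field_simp
      ring
    rw [Real.log_one, mul_zero] at h1
    refine h1.congr fun τ => ?_
    rw [hg, Real.log_div (by positivity) (by positivity)]
    ring
  have hint := integrableOn_Ioi_deriv_of_nonneg' hd hpos hlim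
  have h1 := integral_Ioi_of_hasDerivAt_of_nonneg' hd hpos hlim
  rw [← ofReal_integral_eq_lintegral_ofReal hint
    ((ae_restrict_iff' measurableSet_Ioi).2 (Eventually.of_forall hpos)), h1, hg]
  congr 1
  rw [Real.log_div (by positivity) (by positivity)]
  have e : 4 * c ^ 2 + x ^ 2 = (2 * c) ^ 2 + x ^ 2 := by ring
  rw [e]
  ring

lemma y_lint {R : ℝ} (hR : 0 < R) (t : ℝ) :
    ∫⁻ y in Set.Ioc (1 / 2 : ℝ) 1, ENNReal.ofReal (R / (2 * y ^ 2)) *
      ENNReal.ofReal (2 * (R / y) / ((R / y) ^ 2 + t ^ 2)) =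
      ENNReal.ofReal (1 / 2 * Real.log ((4 * R ^ 2 + t ^ 2) / (R ^ 2 + t ^ 2))) := by
  obtain ⟨g, hg⟩ : ∃ g : ℝ → ℝ, g = fun y => 1 / y - t ^ 2 * y / (R ^ 2 + t ^ 2 * y ^ 2) :=
    ⟨_, rfl⟩
  have hgc : ContinuousOn g (Set.Icc (1 / 2 : ℝ) 1) := by
    rw [hg]
    refine ContinuousOn.sub (ContinuousOn.div (by fun_prop) (by fun_prop) fun y hy => ?_)
      (ContinuousOn.div (by fun_prop) (by fun_prop) fun y hy => ?_)
    · have := hy.1
      positivity
    · positivity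
  have hgi : IntegrableOn g (Set.Ioc (1 / 2 : ℝ) 1) :=
    (hgc.integrableOn_Icc).mono_set Set.Ioc_subset_Icc_self
  have hform : ∀ y ∈ Set.Ioc (1 / 2 : ℝ) 1, ENNReal.ofReal (R / (2 * y ^ 2)) *
      ENNReal.ofReal (2 * (R / y) / ((R / y) ^ 2 + t ^ 2)) = ENNReal.ofReal (g y) := by
    intro y hy
    have hy0 : 0 < y := by linarith [hy.1]
    rw [← ENNReal.ofReal_mul (by positivity), hg]
    congr 1
    have h1 : R ^ 2 + t ^ 2 * y ^ 2 ≠ 0 := by positivity
    have h2 : (R / y) ^ 2 + t ^ 2 = (R ^ 2 + t ^ 2 * y ^ 2) / y ^ 2 := by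
      field_simp
    rw [h2]
    field_simp
    ring
  have hpos : ∀ y ∈ Set.Ioc (1 / 2 : ℝ) 1, 0 ≤ g y := by
    intro y hy
    have hy0 : 0 < y := by linarith [hy.1]
    rw [hg]
    have e : 1 / y - t ^ 2 * y / (R ^ 2 + t ^ 2 * y ^ 2) = R ^ 2 / (y * (R ^ 2 + t ^ 2 * y ^ 2)) := by
      have h1 : R ^ 2 + t ^ 2 * y ^ 2 ≠ 0 := by positivity
      field_simp
      ring
    show 0 ≤ 1 / y - t ^ 2 * y / (R ^ 2 + t ^ 2 * y ^ 2)
    rw [e]
    positivity
  rw [setLIntegral_congr_fun measurableSet_Ioc hform,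
    ← ofReal_integral_eq_lintegral_ofReal hgi
      ((ae_restrict_iff' measurableSet_Ioc).2 (Eventually.of_forall hpos)),
    ← intervalIntegral.integral_of_le (by norm_num)]
  congr 1
  have hd : ∀ y ∈ Set.uIcc (1 / 2 : ℝ) 1, HasDerivAt
      (fun y => Real.log y - 1 / 2 * Real.log (R ^ 2 + t ^ 2 * y ^ 2)) (g y) y := by
    intro y hy
    rw [Set.uIcc_of_le (by norm_num)] at hy
    have hy0 : 0 < y := by linarith [hy.1]
    have h2 : HasDerivAt (fun y : ℝ => R ^ 2 + t ^ 2 * y ^ 2) (t ^ 2 * (2 * y)) y := by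
      simpa using (((hasDerivAt_pow 2 y).const_mul (t ^ 2)).const_add (R ^ 2))
    have h3 := (Real.hasDerivAt_log hy0.ne').sub ((h2.log (by positivity)).const_mul (1 / 2))
    refine h3.congr_deriv ?_
    rw [hg]
    have h4 : R ^ 2 + t ^ 2 * y ^ 2 ≠ 0 := by positivity
    field_simp
  rw [intervalIntegral.integral_eq_sub_of_hasDerivAt hd
    ((intervalIntegrable_iff_integrableOn_Ioc_of_le (by norm_num)).2 hgi)]
  have e1 : 4 * R ^ 2 + t ^ 2 = 2 ^ 2 * (R ^ 2 + t ^ 2 * (1 / 2) ^ 2) := by ring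
  have e2 : Real.log ((4 * R ^ 2 + t ^ 2) / (R ^ 2 + t ^ 2)) = 2 * Real.log 2 +
      Real.log (R ^ 2 + t ^ 2 * (1 / 2) ^ 2) - Real.log (R ^ 2 + t ^ 2) := by
    rw [e1, Real.log_div (by positivity) (by positivity), Real.log_mul (by norm_num)
      (by positivity), Real.log_pow]
    push_cast
    ring
  have e3 : Real.log (1 / 2 : ℝ) = -Real.log 2 := by rw [one_div, Real.log_inv]
  rw [e2, e3, Real.log_one]
  ring_nf

/-- exchange of the mixtures -/
lemma tau_mix {c T : ℝ} (hc : 0 < c) (hT : 0 < T) {f : ℝ → ℝ≥0∞} (hf : Measurable f) :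
    ∫⁻ τ in Set.Ioi (0 : ℝ), ENNReal.ofReal (kc c τ) * ∫⁻ t in Set.Ioc 0 (τ * T), f t =
      ∫⁻ y in Set.Ioc (1 / 2 : ℝ) 1, ENNReal.ofReal (c * T / (2 * y ^ 2)) *
        ∫⁻ t in Set.Ioi (0 : ℝ), ENNReal.ofReal (2 * (c * T / y) / ((c * T / y) ^ 2 + t ^ 2)) *
          f t := by
  have hR : 0 < c * T := mul_pos hc hT
  have hkm : Measurable fun τ : ℝ => ENNReal.ofReal (kc c τ) :=
    (kc_cont hc).measurable.ennreal_ofReal
  have hset : MeasurableSet {p : ℝ × ℝ | p.2 ≤ p.1 * T} :=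
    measurableSet_le measurable_snd (measurable_fst.mul_const T)
  have hF : Measurable ({p : ℝ × ℝ | p.2 ≤ p.1 * T}.indicator
      (fun p => ENNReal.ofReal (kc c p.1) * f p.2)) :=
    ((hkm.comp measurable_fst).mul (hf.comp measurable_snd)).indicator hset
  have h1 : ∫⁻ τ in Set.Ioi (0 : ℝ), ENNReal.ofReal (kc c τ) * ∫⁻ t in Set.Ioc 0 (τ * T), f t =
      ∫⁻ τ in Set.Ioi (0 : ℝ), ∫⁻ t in Set.Ioi (0 : ℝ), {p : ℝ × ℝ | p.2 ≤ p.1 * T}.indicator
      (fun p => ENNReal.ofReal (kc c p.1) * f p.2) (τ, t) := by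
    refine setLIntegral_congr_fun measurableSet_Ioi fun τ _ => ?_
    show ENNReal.ofReal (kc c τ) * ∫⁻ t in Set.Ioc 0 (τ * T), f t = _
    rw [← lintegral_const_mul' _ _ ENNReal.ofReal_ne_top, ← lintegral_indicator measurableSet_Ioc,
      ← lintegral_indicator measurableSet_Ioi]
    refine lintegral_congr fun t => ?_
    by_cases h0 : 0 < t
    · rw [Set.indicator_of_mem (Set.mem_Ioi.2 h0)]
      by_cases h2 : t ≤ τ * T
      · rw [Set.indicator_of_mem (show t ∈ Set.Ioc 0 (τ * T) from ⟨h0, h2⟩),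
          Set.indicator_of_mem (show (τ, t) ∈ {p : ℝ × ℝ | p.2 ≤ p.1 * T} from h2)]
      · rw [Set.indicator_of_notMem (fun h => h2 h.2), Set.indicator_of_notMem
          (show (τ, t) ∉ {p : ℝ × ℝ | p.2 ≤ p.1 * T} from h2)]
    · rw [Set.indicator_of_notMem (s := Set.Ioi (0 : ℝ)) h0,
        Set.indicator_of_notMem (fun h => h0 h.1)]
  rw [h1, lintegral_lintegral_swap]
  swap
  · exact hF.aemeasurable
  have h2 : ∀ t ∈ Set.Ioi (0 : ℝ), ∫⁻ τ in Set.Ioi (0 : ℝ), {p : ℝ × ℝ | p.2 ≤ p.1 * T}.indicator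
      (fun p => ENNReal.ofReal (kc c p.1) * f p.2) (τ, t) =
      ∫⁻ y in Set.Ioc (1 / 2 : ℝ) 1, ENNReal.ofReal (c * T / (2 * y ^ 2)) *
        ENNReal.ofReal (2 * (c * T / y) / ((c * T / y) ^ 2 + t ^ 2)) * f t := by
    intro t ht
    have ht0 : 0 < t := ht
    have hx : 0 < t / T := by positivity
    have h3 : ∫⁻ τ in Set.Ioi (0 : ℝ), {p : ℝ × ℝ | p.2 ≤ p.1 * T}.indicator
        (fun p => ENNReal.ofReal (kc c p.1) * f p.2) (τ, t) =
        ∫⁻ τ in Set.Ioi (t / T), ENNReal.ofReal (kc c τ) * f t := by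
      rw [setLIntegral_congr (Ioi_ae_eq_Ici (a := t / T)), ← lintegral_indicator measurableSet_Ici,
        ← lintegral_indicator measurableSet_Ioi]
      refine lintegral_congr fun τ => ?_
      by_cases h2 : t ≤ τ * T
      · have h4 : t / T ≤ τ := by rwa [div_le_iff₀ hT]
        rw [Set.indicator_of_mem (show τ ∈ Set.Ioi (0 : ℝ) from hx.trans_le h4),
          Set.indicator_of_mem (show τ ∈ Set.Ici (t / T) from h4),
          Set.indicator_of_mem (show (τ, t) ∈ {p : ℝ × ℝ | p.2 ≤ p.1 * T} from h2)]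
      · have h4 : ¬ t / T ≤ τ := by rwa [div_le_iff₀ hT]
        rw [Set.indicator_of_notMem (s := Set.Ici (t / T)) h4]
        by_cases h5 : τ ∈ Set.Ioi (0 : ℝ)
        · rw [Set.indicator_of_mem h5, Set.indicator_of_notMem
            (show (τ, t) ∉ {p : ℝ × ℝ | p.2 ≤ p.1 * T} from h2)]
        · rw [Set.indicator_of_notMem h5]
    rw [h3, lintegral_mul_const _ hkm, kc_tail hc hx.le]
    have hm1 : Measurable fun y : ℝ => ENNReal.ofReal (c * T / (2 * y ^ 2)) *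
        ENNReal.ofReal (2 * (c * T / y) / ((c * T / y) ^ 2 + t ^ 2)) :=
      (by fun_prop : Measurable fun y : ℝ => c * T / (2 * y ^ 2)).ennreal_ofReal.mul
        (by fun_prop : Measurable fun y : ℝ =>
          2 * (c * T / y) / ((c * T / y) ^ 2 + t ^ 2)).ennreal_ofReal
    rw [lintegral_mul_const _ hm1, y_lint hR]
    congr 3
    field_simp
  rw [setLIntegral_congr_fun measurableSet_Ioi h2, lintegral_lintegral_swap]
  · refine setLIntegral_congr_fun measurableSet_Ioc fun y _ => ?_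
    show ∫⁻ t in Set.Ioi (0 : ℝ), _ = _
    rw [← lintegral_const_mul' _ _ ENNReal.ofReal_ne_top]
    exact lintegral_congr fun t => by ring
  · have hm1 : Measurable fun p : ℝ × ℝ => ENNReal.ofReal (c * T / (2 * p.2 ^ 2)) *
        ENNReal.ofReal (2 * (c * T / p.2) / ((c * T / p.2) ^ 2 + p.1 ^ 2)) * f p.1 :=
      ((by fun_prop : Measurable fun p : ℝ × ℝ => c * T / (2 * p.2 ^ 2)).ennreal_ofReal.mul
        (by fun_prop : Measurable fun p : ℝ × ℝ =>
          2 * (c * T / p.2) / ((c * T / p.2) ^ 2 + p.1 ^ 2)).ennreal_ofReal).mul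
        (hf.comp measurable_fst)
    exact hm1.aemeasurable

/-- superposition in the functional -/
lemma JF_lin (S : ℝ) {k : ℝ → ℝ≥0∞} (hk : Measurable k) {w : ℝ → ℝ → ℝ≥0∞}
    (hw : Measurable fun p : ℝ × ℝ => w p.1 p.2) :
    ∫⁻ u in Set.Ioi (0 : ℝ), k u * JF S (w u) =
      JF S (fun v => ∫⁻ u in Set.Ioi (0 : ℝ), k u * w u v) := by
  unfold JF
  have hq := qd_meas
  have e1 : ∀ u, k u * ∫⁻ δ in Set.Ioi (0 : ℝ), ENNReal.ofReal (Real.exp (-S * δ)) *
      ∫⁻ v, w u v * qd (v, δ) = ∫⁻ δ in Set.Ioi (0 : ℝ), ∫⁻ v,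
        ENNReal.ofReal (Real.exp (-S * δ)) * (k u * w u v * qd (v, δ)) := by
    intro u
    have m0 : Measurable fun δ : ℝ => ENNReal.ofReal (Real.exp (-S * δ)) * ∫⁻ v, w u v * qd (v, δ) := by
      refine Measurable.mul (by fun_prop : Measurable fun δ : ℝ =>
        Real.exp (-S * δ)).ennreal_ofReal ?_
      have m1 : Measurable fun p : ℝ × ℝ => w u p.2 * qd (p.2, p.1) :=
        (hw.comp (measurable_const.prodMk measurable_snd)).mul (hq.comp (by fun_prop))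
      exact m1.lintegral_prod_right'
    rw [← lintegral_const_mul _ m0]
    refine lintegral_congr fun δ => ?_
    have m1 : Measurable fun v : ℝ => w u v * qd (v, δ) :=
      (hw.comp (measurable_const.prodMk measurable_id)).mul (hq.comp (by fun_prop))
    rw [lintegral_const_mul _ (by
      have : Measurable fun v : ℝ => k u * w u v * qd (v, δ) :=
        (measurable_const.mul (hw.comp (measurable_const.prodMk measurable_id))).mul
          (hq.comp (by fun_prop))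
      exact this)]
    rw [show (fun v => k u * w u v * qd (v, δ)) = fun v => k u * (w u v * qd (v, δ)) from by
      funext v; ring]
    rw [lintegral_const_mul _ m1]
    ring
  simp_rw [e1]
  have hm : Measurable fun p : ℝ × ℝ × ℝ => ENNReal.ofReal (Real.exp (-S * p.2.1)) *
      (k p.1 * w p.1 p.2.2 * qd (p.2.2, p.2.1)) := by
    refine Measurable.mul (by fun_prop : Measurable fun p : ℝ × ℝ × ℝ =>
        Real.exp (-S * p.2.1)).ennreal_ofReal ?_
    refine Measurable.mul (Measurable.mul (hk.comp measurable_fst) ?_) (hq.comp (by fun_prop))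
    exact hw.comp (by fun_prop : Measurable fun p : ℝ × ℝ × ℝ => (p.1, p.2.2))
  rw [lintegral_lintegral_swap]
  · refine lintegral_congr fun δ => ?_
    rw [lintegral_lintegral_swap]
    · rw [← lintegral_const_mul']
      · refine lintegral_congr fun v => ?_
        rw [← lintegral_mul_const]
        · rw [← lintegral_const_mul']
          exact ENNReal.ofReal_ne_top
        · exact hk.mul (hw.comp (measurable_id.prodMk measurable_const))
      · exact ENNReal.ofReal_ne_top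
    · exact (hm.comp (by fun_prop : Measurable fun q : ℝ × ℝ => (q.1, δ, q.2))).aemeasurable
  · have : Measurable fun q : ℝ × ℝ => ∫⁻ v, ENNReal.ofReal (Real.exp (-S * q.2)) *
        (k q.1 * w q.1 v * qd (v, q.2)) := by
      refine Measurable.lintegral_prod_right' (f := fun r : (ℝ × ℝ) × ℝ =>
        ENNReal.ofReal (Real.exp (-S * r.1.2)) * (k r.1.1 * w r.1.1 r.2 * qd (r.2, r.1.2))) ?_
      exact hm.comp (by fun_prop : Measurable fun r : (ℝ × ℝ) × ℝ => (r.1.1, r.1.2, r.2))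
    exact this.aemeasurable

/-- the Gaussian superpositions -/
noncomputable def Om0 (k : ℝ → ℝ≥0∞) (v : ℝ) : ℝ≥0∞ :=
  ∫⁻ u in Set.Ioi (0 : ℝ), k u * ENNReal.ofReal (Real.exp (-(u - v) ^ 2))

noncomputable def Om1 (k : ℝ → ℝ≥0∞) (v : ℝ) : ℝ≥0∞ :=
  ∫⁻ u in Set.Ioi (0 : ℝ), k u * ENNReal.ofReal (4 * Real.exp (-(u - v) ^ 2 / 2))

lemma Om0_meas {k : ℝ → ℝ≥0∞} (hk : Measurable k) : Measurable (Om0 k) := by
  unfold Om0
  have m1 : Measurable fun p : ℝ × ℝ => k p.2 * ENNReal.ofReal (Real.exp (-(p.2 - p.1) ^ 2)) :=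
    (hk.comp measurable_snd).mul (by fun_prop : Measurable fun p : ℝ × ℝ =>
      Real.exp (-(p.2 - p.1) ^ 2)).ennreal_ofReal
  exact m1.lintegral_prod_right'

lemma Om1_meas {k : ℝ → ℝ≥0∞} (hk : Measurable k) : Measurable (Om1 k) := by
  unfold Om1
  have m1 : Measurable fun p : ℝ × ℝ => k p.2 *
      ENNReal.ofReal (4 * Real.exp (-(p.2 - p.1) ^ 2 / 2)) :=
    (hk.comp measurable_snd).mul (by fun_prop : Measurable fun p : ℝ × ℝ =>
      4 * Real.exp (-(p.2 - p.1) ^ 2 / 2)).ennreal_ofReal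
  exact m1.lintegral_prod_right'

/-- the weights -/
noncomputable def w0 (u v : ℝ) : ℝ≥0∞ := ENNReal.ofReal (Real.exp (-(u - v) ^ 2))

noncomputable def w1 (u v : ℝ) : ℝ≥0∞ := ENNReal.ofReal (4 * Real.exp (-(u - v) ^ 2 / 2))

lemma w0_meas : Measurable fun p : ℝ × ℝ => w0 p.1 p.2 :=
  (by fun_prop : Measurable fun p : ℝ × ℝ => Real.exp (-(p.1 - p.2) ^ 2)).ennreal_ofReal

lemma w1_meas : Measurable fun p : ℝ × ℝ => w1 p.1 p.2 :=
  (by fun_prop : Measurable fun p : ℝ × ℝ =>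
    4 * Real.exp (-(p.1 - p.2) ^ 2 / 2)).ennreal_ofReal

lemma JF_meas (S' : ℝ) {w : ℝ → ℝ → ℝ≥0∞} (hw : Measurable fun p : ℝ × ℝ => w p.1 p.2) :
    Measurable fun u => JF S' (w u) := by
  unfold JF
  have a1 : Measurable fun p : ℝ × ℝ × ℝ => w p.1 p.2.2 * qd (p.2.2, p.2.1) :=
    (hw.comp (by fun_prop : Measurable fun p : ℝ × ℝ × ℝ => (p.1, p.2.2))).mul
      (qd_meas.comp (by fun_prop))
  have a2 : Measurable fun q : ℝ × ℝ => ∫⁻ v, w q.1 v * qd (v, q.2) := by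
    refine Measurable.lintegral_prod_right' (f := fun r : (ℝ × ℝ) × ℝ =>
      w r.1.1 r.2 * qd (r.2, r.1.2)) ?_
    exact a1.comp (by fun_prop : Measurable fun r : (ℝ × ℝ) × ℝ => (r.1.1, r.1.2, r.2))
  have a3 : Measurable fun q : ℝ × ℝ => ENNReal.ofReal (Real.exp (-S' * q.2)) *
      ∫⁻ v, w q.1 v * qd (v, q.2) :=
    (by fun_prop : Measurable fun q : ℝ × ℝ => Real.exp (-S' * q.2)).ennreal_ofReal.mul a2
  exact a3.lintegral_prod_right'

lemma JF_meas2 (R : ℝ) {Ω : ℝ → ℝ≥0∞} (hΩ : Measurable Ω) :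
    Measurable fun y : ℝ => JF (R / y) Ω := by
  unfold JF
  have a1 : Measurable fun p : ℝ × ℝ => Ω p.2 * qd (p.2, p.1) :=
    (hΩ.comp measurable_snd).mul (qd_meas.comp (by fun_prop))
  have a2 : Measurable fun δ : ℝ => ∫⁻ v, Ω v * qd (v, δ) :=
    Measurable.lintegral_prod_right' (f := fun p : ℝ × ℝ => Ω p.2 * qd (p.2, p.1)) a1
  have a3 : Measurable fun q : ℝ × ℝ => ENNReal.ofReal (Real.exp (-(R / q.1) * q.2)) *
      ∫⁻ v, Ω v * qd (v, q.2) :=
    (by fun_prop : Measurable fun q : ℝ × ℝ =>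
      Real.exp (-(R / q.1) * q.2)).ennreal_ofReal.mul (a2.comp measurable_snd)
  exact a3.lintegral_prod_right'

lemma ker_in {S η : ℝ} {k : ℝ → ℝ≥0∞} (hk : Measurable k) {P : ℝ × ℝ → ℝ≥0∞}
    (hP : Measurable P)
    (hb : ∀ u, ∫⁻ t in Set.Ioi (0 : ℝ), ENNReal.ofReal (2 * S / (S ^ 2 + t ^ 2)) * P (u, t) ≤
      ENNReal.ofReal π * (ENNReal.ofReal ((1 + η) * S ^ 2) * JF S (w0 u) +
        ENNReal.ofReal (2 * (1 + 1 / η)) * JF (S / 2) (w1 u))) :
    ∫⁻ t in Set.Ioi (0 : ℝ), ENNReal.ofReal (2 * S / (S ^ 2 + t ^ 2)) *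
        ∫⁻ u in Set.Ioi (0 : ℝ), k u * P (u, t) ≤
      ENNReal.ofReal π * (ENNReal.ofReal ((1 + η) * S ^ 2) * JF S (Om0 k) +
        ENNReal.ofReal (2 * (1 + 1 / η)) * JF (S / 2) (Om1 k)) := by
  have hkk : Measurable fun t : ℝ => ENNReal.ofReal (2 * S / (S ^ 2 + t ^ 2)) :=
    (by fun_prop : Measurable fun t : ℝ => 2 * S / (S ^ 2 + t ^ 2)).ennreal_ofReal
  have h1 : ∫⁻ t in Set.Ioi (0 : ℝ), ENNReal.ofReal (2 * S / (S ^ 2 + t ^ 2)) *
      ∫⁻ u in Set.Ioi (0 : ℝ), k u * P (u, t) =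
      ∫⁻ u in Set.Ioi (0 : ℝ), k u * ∫⁻ t in Set.Ioi (0 : ℝ),
        ENNReal.ofReal (2 * S / (S ^ 2 + t ^ 2)) * P (u, t) := by
    have h2 : ∀ t : ℝ, ENNReal.ofReal (2 * S / (S ^ 2 + t ^ 2)) *
        ∫⁻ u in Set.Ioi (0 : ℝ), k u * P (u, t) = ∫⁻ u in Set.Ioi (0 : ℝ), k u *
          (ENNReal.ofReal (2 * S / (S ^ 2 + t ^ 2)) * P (u, t)) := by
      intro t
      rw [← lintegral_const_mul' _ _ ENNReal.ofReal_ne_top]
      exact lintegral_congr fun u => by ring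
    simp_rw [h2]
    rw [lintegral_lintegral_swap]
    · refine lintegral_congr fun u => ?_
      rw [lintegral_const_mul]
      exact hkk.mul (hP.comp (measurable_const.prodMk measurable_id))
    · have m1 : Measurable fun p : ℝ × ℝ => k p.2 *
          (ENNReal.ofReal (2 * S / (S ^ 2 + p.1 ^ 2)) * P (p.2, p.1)) :=
        (hk.comp measurable_snd).mul ((hkk.comp measurable_fst).mul
          (hP.comp (measurable_snd.prodMk measurable_fst)))
      exact m1.aemeasurable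
  rw [h1]
  refine (lintegral_mono fun u => mul_le_mul_right (hb u) (k u)).trans (le_of_eq ?_)
  have j0 := JF_lin S hk w0_meas
  have j1 := JF_lin (S / 2) hk w1_meas
  have e3 : ∀ u, k u * (ENNReal.ofReal π * (ENNReal.ofReal ((1 + η) * S ^ 2) * JF S (w0 u) +
      ENNReal.ofReal (2 * (1 + 1 / η)) * JF (S / 2) (w1 u))) =
      (ENNReal.ofReal π * ENNReal.ofReal ((1 + η) * S ^ 2)) * (k u * JF S (w0 u)) +
      (ENNReal.ofReal π * ENNReal.ofReal (2 * (1 + 1 / η))) * (k u * JF (S / 2) (w1 u)) := by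
    intro u
    ring
  have e4 : (fun v => ∫⁻ u in Set.Ioi (0 : ℝ), k u * w0 u v) = Om0 k := rfl
  have e5 : (fun v => ∫⁻ u in Set.Ioi (0 : ℝ), k u * w1 u v) = Om1 k := rfl
  rw [e4] at j0
  rw [e5] at j1
  have hm0 : Measurable fun u => ENNReal.ofReal π * ENNReal.ofReal ((1 + η) * S ^ 2) *
      (k u * JF S (w0 u)) := by
    refine Measurable.const_mul ?_ _
    exact hk.mul (JF_meas S w0_meas)
  rw [lintegral_congr e3, lintegral_add_left hm0, lintegral_const_mul' _ _ (by finiteness),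
    lintegral_const_mul' _ _ (by finiteness), j0, j1]
  ring

lemma ker_out {R η : ℝ} (hR : 0 < R) (hη : 0 < η) {k : ℝ → ℝ≥0∞} (hk : Measurable k)
    {G : ℝ → ℝ≥0∞}
    (hG : ∀ y, 0 < y → G y ≤ ENNReal.ofReal π * (ENNReal.ofReal ((1 + η) * (R / y) ^ 2) *
      JF (R / y) (Om0 k) + ENNReal.ofReal (2 * (1 + 1 / η)) * JF (R / y / 2) (Om1 k))) :
    ∫⁻ y in Set.Ioc (1 / 2 : ℝ) 1, ENNReal.ofReal (R / (2 * y ^ 2)) * G y ≤
    ENNReal.ofReal (π / 2 * (1 + η) * R ^ 3) * RF R (Om0 k) +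
      ENNReal.ofReal (π * (1 + 1 / η) * R) * RF (R / 2) (Om1 k) := by
  have hout : ∫⁻ y in Set.Ioc (1 / 2 : ℝ) 1, ENNReal.ofReal (R / (2 * y ^ 2)) * G y ≤
      ∫⁻ y in Set.Ioc (1 / 2 : ℝ) 1, (ENNReal.ofReal (π / 2 * (1 + η) * R ^ 3) *
        (ENNReal.ofReal (y ^ (-4 : ℤ)) * JF (R / y) (Om0 k)) +
        ENNReal.ofReal (π * (1 + 1 / η) * R) *
          (ENNReal.ofReal (y ^ (-4 : ℤ)) * JF (R / 2 / y) (Om1 k))) := by
    refine setLIntegral_mono' measurableSet_Ioc fun y hy => ?_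
    have hy0 : 0 < y := by linarith [hy.1]
    refine (mul_le_mul_right (hG y hy0) _).trans ?_
    have e0 : R / y / 2 = R / 2 / y := by ring
    rw [e0]
    have e1 : ENNReal.ofReal (R / (2 * y ^ 2)) * (ENNReal.ofReal π *
        (ENNReal.ofReal ((1 + η) * (R / y) ^ 2) * JF (R / y) (Om0 k) +
        ENNReal.ofReal (2 * (1 + 1 / η)) * JF (R / 2 / y) (Om1 k))) =
        (ENNReal.ofReal (R / (2 * y ^ 2)) * ENNReal.ofReal π *
          ENNReal.ofReal ((1 + η) * (R / y) ^ 2)) * JF (R / y) (Om0 k) +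
        (ENNReal.ofReal (R / (2 * y ^ 2)) * ENNReal.ofReal π *
          ENNReal.ofReal (2 * (1 + 1 / η))) * JF (R / 2 / y) (Om1 k) := by ring
    rw [e1, ← mul_assoc, ← mul_assoc]
    have hpi := Real.pi_pos
    have hyz : y ^ (-4 : ℤ) = 1 / y ^ 4 := by
      rw [zpow_neg, one_div]
      norm_cast
    refine add_le_add (mul_le_mul_left (le_of_eq ?_) _) (mul_le_mul_left ?_ _)
    · rw [← ENNReal.ofReal_mul (by positivity), ← ENNReal.ofReal_mul (by positivity),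
        ← ENNReal.ofReal_mul (by positivity), hyz]
      congr 1
      field_simp
    · rw [← ENNReal.ofReal_mul (by positivity), ← ENNReal.ofReal_mul (by positivity),
        ← ENNReal.ofReal_mul (by positivity), hyz]
      refine ENNReal.ofReal_le_ofReal ?_
      have e2 : R / (2 * y ^ 2) * π * (2 * (1 + 1 / η)) = π * (1 + 1 / η) * R * (1 / y ^ 2) := by
        field_simp
      rw [e2]
      refine mul_le_mul_of_nonneg_left ?_ (by positivity)
      refine one_div_le_one_div_of_le (by positivity) ?_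
      exact pow_le_pow_of_le_one hy0.le hy.2 (by norm_num)
  refine hout.trans ?_
  have hJm2 : Measurable fun y : ℝ => ENNReal.ofReal (π / 2 * (1 + η) * R ^ 3) *
        (ENNReal.ofReal (y ^ (-4 : ℤ)) * JF (R / y) (Om0 k)) :=
    Measurable.mul measurable_const (Measurable.mul
      (measurable_id.pow_const (-4 : ℤ)).ennreal_ofReal (JF_meas2 R (Om0_meas hk)))
  rw [lintegral_add_left hJm2, lintegral_const_mul' _ _ ENNReal.ofReal_ne_top,
    lintegral_const_mul' _ _ ENNReal.ofReal_ne_top]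
  exact add_le_add (mul_le_mul_right (mix_le hR.le (Om0_meas hk)) _)
    (mul_le_mul_right (mix_le (by positivity) (Om1_meas hk)) _)

/-- the squared transform -/
noncomputable def PH (p : ℝ × ℝ) : ℝ≥0∞ := ‖ph p.1 p.2‖ₑ ^ 2

lemma PH_meas : Measurable PH := by
  unfold PH
  exact ph_meas.enorm.pow_const 2

lemma PH_bound {S η : ℝ} (hS : 0 < S) (hη : 0 < η) (u : ℝ) :
    ∫⁻ t in Set.Ioi (0 : ℝ), ENNReal.ofReal (2 * S / (S ^ 2 + t ^ 2)) * PH (u, t) ≤
      ENNReal.ofReal π * (ENNReal.ofReal ((1 + η) * S ^ 2) * JF S (w0 u) +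
        ENNReal.ofReal (2 * (1 + 1 / η)) * JF (S / 2) (w1 u)) := by
  have h4 := half_line (f := fun t => ENNReal.ofReal (2 * S / (S ^ 2 + t ^ 2)) * PH (u, t))
    (fun t => by
      show ENNReal.ofReal (2 * S / (S ^ 2 + (-t) ^ 2)) * PH (u, -t) = _
      unfold PH
      rw [ph_neg, neg_sq])
  have h5 := h4.trans (mean_le u hS hη)
  have e2 : ENNReal.ofReal (2 * π) = 2 * ENNReal.ofReal π := by
    rw [ENNReal.ofReal_mul (by norm_num), ENNReal.ofReal_ofNat]
  rw [e2, mul_assoc] at h5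
  exact (ENNReal.mul_le_mul_iff_right (by norm_num) (by norm_num)).1 h5

/-- **the mixture of the truncated mean squares** -/
theorem ker_main {c T η : ℝ} (hc : 0 < c) (hT : 0 < T) (hη : 0 < η) {k : ℝ → ℝ≥0∞}
    (hk : Measurable k) :
    ∫⁻ τ in Set.Ioi (0 : ℝ), ENNReal.ofReal (kc c τ) * ∫⁻ t in Set.Ioc 0 (τ * T),
      ∫⁻ u in Set.Ioi (0 : ℝ), k u * PH (u, t) ≤
    ENNReal.ofReal (π / 2 * (1 + η) * (c * T) ^ 3) * RF (c * T) (Om0 k) +
      ENNReal.ofReal (π * (1 + 1 / η) * (c * T)) * RF (c * T / 2) (Om1 k) := by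
  have hR : 0 < c * T := mul_pos hc hT
  have hf : Measurable fun t : ℝ => ∫⁻ u in Set.Ioi (0 : ℝ), k u * PH (u, t) := by
    have m1 : Measurable fun p : ℝ × ℝ => k p.2 * PH (p.2, p.1) :=
      (hk.comp measurable_snd).mul (PH_meas.comp (measurable_snd.prodMk measurable_fst))
    exact m1.lintegral_prod_right'
  rw [tau_mix hc hT hf]
  refine ker_out hR hη hk fun y hy => ?_
  exact ker_in hk PH_meas fun u => PH_bound (by positivity) hη u

end Pool.Agent.H7.PS
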