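import Pool.Agent.H7.PS.Lim1

/-! Montgomery's theorem for the heights `τ T`. -/

open MeasureTheory Filter Topology Real
open scoped ENNReal ContDiff

namespace Pool.Agent.H7.PS

open H370 TH803TW Pool.Agent.Y744 Pool.Agent.Y744.ANC Pool.Agent.H7.FF
open Pool.Agent.Results.MP_103a5c_nt.BohrSetPairs

variable {κ : ℝ} {K : ℝ → ℝ}

lemma ct_mvt (hK : TK κ K) : ∃ D, 0 ≤ D ∧ ∀ y ρ : ℝ, 1 / 2 ≤ ρ →
    |ct K (ρ * y) - ct K y| ≤ D * |ρ - 1| / (1 + y ^ 2) := by
  obtain ⟨D, hD0, hD⟩ := dct_decay 2 hK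
  refine ⟨16 * D, by positivity, fun y ρ hρ => ?_⟩
  have h1 : ∀ t ∈ Set.Ici (1 / 2 : ℝ), HasDerivWithinAt (fun t => ct K (t * y))
      (dct K (t * y) * y) (Set.Ici (1 / 2)) t := by
    intro t _
    have h2 : HasDerivAt (fun t : ℝ => t * y) y t := by
      simpa using (hasDerivAt_id t).mul_const y
    exact ((ct_deriv hK (t * y)).comp t h2).hasDerivWithinAt
  have h2 : ∀ t ∈ Set.Ici (1 / 2 : ℝ), ‖dct K (t * y) * y‖ ≤ 16 * D / (1 + y ^ 2) := by
    intro t ht
    have ht2 : (1 / 2 : ℝ) ≤ t := ht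
    rw [norm_mul, Real.norm_eq_abs, Real.norm_eq_abs]
    have h3 := hD (t * y)
    have h4 : (1 + y ^ 2) / 4 ≤ 1 + (t * y) ^ 2 := by
      have h5 : y ^ 2 * (1 / 4) ≤ y ^ 2 * t ^ 2 :=
        mul_le_mul_of_nonneg_left (by nlinarith) (sq_nonneg y)
      nlinarith
    have h5 : D / (1 + (t * y) ^ 2) ^ 2 ≤ D / ((1 + y ^ 2) / 4) ^ 2 := by
      gcongr
    have h6 : |y| ≤ 1 + y ^ 2 := by
      nlinarith [sq_abs y, sq_nonneg (|y| - 1), abs_nonneg y]
    calc |dct K (t * y)| * |y| ≤ D / ((1 + y ^ 2) / 4) ^ 2 * (1 + y ^ 2) := by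
          refine mul_le_mul (h3.trans h5) h6 (abs_nonneg _) (by positivity)
      _ = 16 * D / (1 + y ^ 2) := by
          field_simp
          ring
  have h3 := Convex.norm_image_sub_le_of_norm_hasDerivWithin_le h1 h2 (convex_Ici (1 / 2))
    (show (1 : ℝ) ∈ Set.Ici (1 / 2 : ℝ) by rw [Set.mem_Ici]; norm_num)
    (show ρ ∈ Set.Ici (1 / 2 : ℝ) from hρ)
  rw [Real.norm_eq_abs, Real.norm_eq_abs, one_mul] at h3
  refine h3.trans (le_of_eq ?_)
  ring

theorem NTf_ct (hK : TK κ K) (hκ0 : 0 < κ) (hκ : κ < 1) : NTf K ((κ + 1) / 2) (ct K) where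
  test := by
    have hr : ∀ y, r K y = ct K y := fun y => (ct_eq_r (fun x hx => hK.supp x (hκ.trans hx)) y).symm
    refine ⟨hK.cont, hK.even, fun x hx => hK.supp x (by linarith), ?_⟩
    obtain ⟨D, hD0, hD⟩ := hK.decay 1
    exact ⟨D, fun x => by rw [hr]; simpa using hD x⟩
  κ0 := by linarith
  κ1 := by linarith
  eq := fun y => (ct_eq_r (fun x hx => hK.supp x (hκ.trans hx)) y).symm
  even := TK.ct_neg K
  scale := by
    obtain ⟨D, hD0, hD⟩ := ct_mvt hK
    refine ⟨D, hD0, fun y s hs => ?_⟩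
    have h := hD y s (by linarith)
    rwa [abs_of_nonneg (by linarith : 0 ≤ s - 1)] at h

lemma half_int (hK : TK κ K) (hκ : κ ≤ 1) : ∫ α, K α * min |α| 1 =
    2 * ∫ α in (0 : ℝ)..1, α * K α := by
  have hc : Continuous fun α : ℝ => K α * min |α| 1 := hK.cont.mul mn_cont
  have h1 : ∫ α, K α * min |α| 1 = ∫ α in (-1 : ℝ)..1, K α * min |α| 1 := by
    rw [intervalIntegral.integral_of_le (by norm_num), ← integral_Icc_eq_integral_Ioc]
    symm
    refine setIntegral_eq_integral_of_forall_compl_eq_zero fun x hx => ?_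
    rw [hK.supp x, zero_mul]
    by_contra hcon
    push Not at hcon
    exact hx (abs_le.1 (hcon.trans hκ))
  rw [h1, ← intervalIntegral.integral_add_adjacent_intervals (a := -1) (b := 0) (c := 1)
    (hc.intervalIntegrable _ _) (hc.intervalIntegrable _ _)]
  have h3 : ∫ α in (-1 : ℝ)..0, K α * min |α| 1 = ∫ α in (0 : ℝ)..1, K α * min |α| 1 := by
    have := intervalIntegral.integral_comp_neg (a := 0) (b := 1)
      (fun α : ℝ => K α * min |α| 1)
    rw [neg_zero] at this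
    rw [← this]
    refine intervalIntegral.integral_congr fun α _ => ?_
    show K (-α) * min |(-α)| 1 = K α * min |α| 1
    rw [abs_neg, hK.even]
  have h4 : ∫ α in (0 : ℝ)..1, K α * min |α| 1 = ∫ α in (0 : ℝ)..1, α * K α := by
    refine intervalIntegral.integral_congr fun α hα => ?_
    rw [Set.uIcc_of_le (by norm_num)] at hα
    show K α * min |α| 1 = α * K α
    rw [abs_of_nonneg hα.1, min_eq_left hα.2]
    ring
  rw [h3, h4]
  ring

lemma mont_ct (hK : TK κ K) (hκ : κ < 1) : mont K = Lam AG K := by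
  rw [Lam_AG hK, half_int hK hκ.le]
  unfold mont
  have : ∫ α in (0 : ℝ)..1, α * K α = ∫ α in (0 : ℝ)..1, α * K α := rfl
  ring_nf

/-- change of the scale -/
lemma scale_change (RH : RiemannHypothesis) (hK : TK κ K) {τ : ℝ} (hτ : 0 < τ) :
    Tendsto (fun T => (Xf T)⁻¹ * (Q2 (ct K) (τ * T) (Real.log T) -
      Q2 (ct K) (τ * T) (Real.log (τ * T)))) atTop (𝓝 0) := by
  obtain ⟨C, B0, V0, hC, hB0, hV0, hblk, hloc⟩ := PP_bound RH
  obtain ⟨D, hD0, hD⟩ := ct_mvt hK
  have hpi := Real.pi_pos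
  have t1 : Tendsto (fun T : ℝ => 3200 * D * (2 * π) * ((2 * C + 1) * τ) *
      |Real.log T / Real.log (τ * T) - 1|) atTop
      (𝓝 (3200 * D * (2 * π) * ((2 * C + 1) * τ) * |1 - 1|)) := by
    refine Tendsto.const_mul _ (Tendsto.abs (Tendsto.sub_const ?_ 1))
    have h1 : Tendsto (fun T : ℝ => 1 - Real.log τ / Real.log (τ * T)) atTop (𝓝 (1 - 0)) := by
      refine Tendsto.const_sub _ (tendsto_const_nhds.div_atTop ?_)
      exact Real.tendsto_log_atTop.comp (tendsto_id.const_mul_atTop hτ)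
    rw [sub_zero] at h1
    refine h1.congr' ?_
    filter_upwards [eventually_gt_atTop (1 / τ), eventually_gt_atTop 0] with T hT hT0
    rw [div_lt_iff₀ hτ] at hT
    have h2 : 0 < Real.log (τ * T) := Real.log_pos (by linarith)
    have h3 : Real.log (τ * T) = Real.log τ + Real.log T := Real.log_mul hτ.ne' hT0.ne'
    rw [eq_div_iff h2.ne', sub_mul, div_mul_cancel₀ _ h2.ne', one_mul, h3]
    ring
  rw [sub_self, abs_zero, mul_zero] at t1
  refine squeeze_zero_norm' ?_ t1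
  filter_upwards [log_ratio hτ, eventually_ge_atTop (V0 / τ), eventually_ge_atTop (B0 / τ),
    eventually_ge_atTop (Real.exp 1)] with T hlr hT0 hTB hTe
  obtain ⟨l1, l2, l3⟩ := hlr
  rw [div_le_iff₀ hτ] at hT0 hTB
  have hT1 : 1 < T := lt_of_lt_of_le (Real.one_lt_exp_iff.2 one_pos) hTe
  have hTpos : 0 < T := by linarith
  have hL : 1 ≤ Real.log T := by
    rw [Real.le_log_iff_exp_le hTpos]
    exact hTe
  have hX := Xf_pos hT1
  obtain ⟨V, hV⟩ : ∃ V, V = τ * T := ⟨_, rfl⟩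
  have hVV0 : V0 ≤ V := by linarith
  have hVB : B0 ≤ V := by linarith
  rw [← hV] at l1 l2 l3 ⊢
  have hlV : 0 < Real.log V := by linarith
  obtain ⟨ρ, hρ⟩ : ∃ ρ, ρ = Real.log T / Real.log V := ⟨_, rfl⟩
  have hρ1 : 1 / 2 ≤ ρ := by
    rw [hρ, div_le_div_iff₀ (by norm_num) hlV]
    linarith
  rw [← hρ, Real.norm_eq_abs, abs_mul, abs_of_pos (inv_pos.2 hX), inv_mul_le_iff₀ hX]
  have e1 : Q2 (ct K) V (Real.log T) - Q2 (ct K) V (Real.log V) =
      QS (Zt V) (Zt V) mz (fun s => s.im) (fun y => ct K (ρ * y) - ct K y) (Real.log V) := by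
    unfold Q2 QS
    rw [← Finset.sum_sub_distrib]
    refine Finset.sum_congr rfl fun s _ => ?_
    rw [← Finset.sum_sub_distrib]
    refine Finset.sum_congr rfl fun s' _ => ?_
    have e2 : (s.im - s'.im) * Real.log T / (2 * Real.pi) =
        ρ * ((s.im - s'.im) * Real.log V / (2 * Real.pi)) := by
      rw [hρ]
      field_simp
    rw [← mul_sub]
    show mz s * mz s' * (ct K ((s.im - s'.im) * Real.log T / (2 * Real.pi)) -
      ct K ((s.im - s'.im) * Real.log V / (2 * Real.pi))) = _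
    rw [e2]
  rw [e1]
  have h1 := QS_le_abs (x := fun s : ℂ => s.im) (Zt V) (Zt V) mz_nonneg
    (fun y => ct K (ρ * y) - ct K y) (Real.log V)
  have h2 := QS_abs_bound (x := fun s : ℂ => s.im) (Zt V) (Zt V) mz_nonneg
    (f := fun y => ct K (ρ * y) - ct K y) (K := D * |ρ - 1|) (fun y => hD y ρ hρ1)
    (Λ := Real.log V) hlV one_pos
  have h3 := hloc V hVV0 (Real.log V) le_rfl
  have h6 : B0 + C * (V * Real.log V) ≤ (2 * C + 1) * (V * Real.log T) := by
    have a1 : V * Real.log V ≤ V * (2 * Real.log T) :=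
      mul_le_mul_of_nonneg_left l3 (by linarith)
    have a2 : B0 ≤ V * Real.log T := by nlinarith
    nlinarith
  have hDρ : 0 ≤ D * |ρ - 1| := by positivity
  refine h1.trans (h2.trans ?_)
  calc 1600 * (D * |ρ - 1|) * (1 * PP1 (Zt V) mz (fun s => s.im) (Real.log V) +
      1 / 1 * PP1 (Zt V) mz (fun s => s.im) (Real.log V)) ≤
      1600 * (D * |ρ - 1|) * (2 * ((2 * C + 1) * (V * Real.log T))) := by
        refine mul_le_mul_of_nonneg_left ?_ (by positivity)
        linarith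
    _ = Xf T * (3200 * D * (2 * π) * ((2 * C + 1) * τ) * |ρ - 1|) := by
        rw [hV]
        unfold Xf
        field_simp
        ring

/-- Montgomery's theorem for the heights `τ T` -/
theorem mont_tau (RH : RiemannHypothesis) (hK : TK κ K) (hκ0 : 0 < κ) (hκ : κ < 1) {τ : ℝ}
    (hτ : 0 < τ) : Tendsto (fun T => (Xf T)⁻¹ * Q2 (ct K) (τ * T) (Real.log T)) atTop
      (𝓝 (τ * Lam AG K)) := by
  have h1 := (mont_lim RH (NTf_ct hK hκ0 hκ)).comp (tendsto_id.const_mul_atTop hτ)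
  rw [mont_ct hK hκ] at h1
  have h2 := ((Xf_ratio hτ).mul h1).add (scale_change RH hK hτ)
  rw [add_zero] at h2
  refine h2.congr' ?_
  filter_upwards [eventually_gt_atTop (1 : ℝ), eventually_gt_atTop (1 / τ)] with T hT hTτ
  rw [div_lt_iff₀ hτ] at hTτ
  have hX := Xf_pos hT
  have hX2 := Xf_pos (V := τ * T) (by linarith)
  show Xf (τ * T) / Xf T * (Q2 (ct K) (τ * T) (Real.log (τ * T)) / Xf (τ * T)) +
    (Xf T)⁻¹ * (Q2 (ct K) (τ * T) (Real.log T) - Q2 (ct K) (τ * T) (Real.log (τ * T))) = _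
  field_simp
  ring

end Pool.Agent.H7.PS
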