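import Pool.Agent.H7.PS.Lim2

/-! The limits of the counting functions along an ultrafilter. -/

open MeasureTheory Filter Topology Real
open scoped ENNReal ContDiff

namespace Pool.Agent.H7.PS

open H370 TH803TW Pool.Agent.Y744 Pool.Agent.Y744.ANC Pool.Agent.H7.FF
open Pool.Agent.Results.MP_103a5c_nt.BohrSetPairs

variable {κ : ℝ} {K : ℝ → ℝ}

/-- the limits of the counting functions -/
structure LD (g : Ultrafilter ℝ) (B : ℝ → ℝ → ℝ) (C0 : ℝ) : Prop where
  pos : 0 ≤ C0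
  mono1 : ∀ τ, Monotone (B τ)
  mono2 : ∀ y, Monotone fun τ => B τ y
  bd : ∀ τ y, 0 < τ → |B τ y| ≤ C0 * τ * (1 + y ^ 2)
  neg : ∀ τ y, y < 0 → B τ y = 0
  zero : ∀ τ y, τ ≤ 0 → B τ y = 0
  diag : ∀ τ y, 0 < τ → 0 ≤ y → τ ≤ B τ y
  lim : ∀ τ y, Tendsto (fun T => BB T τ y) (g : Filter ℝ) (𝓝 (B τ y))

theorem exists_LD (RH : RiemannHypothesis) (g : Ultrafilter ℝ) (hgt : (g : Filter ℝ) ≤ atTop) :
    ∃ B C0, LD g B C0 := by
  obtain ⟨C0, hC0, hb⟩ := BB_bound RH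
  have h1 : ∀ᶠ T : ℝ in (g : Filter ℝ), 1 < T := hgt (eventually_gt_atTop 1)
  have hex : ∀ τ y, ∃ L, Tendsto (fun T => BB T τ y) (g : Filter ℝ) (𝓝 L) := by
    intro τ y
    rcases le_or_gt τ 0 with hτ | hτ
    · refine ⟨0, Tendsto.congr' ?_ tendsto_const_nhds⟩
      filter_upwards [h1] with T hT
      rw [BB_zero (by linarith) hτ]
    · have h2 : ((g.map fun T => BB T τ y : Ultrafilter ℝ) : Filter ℝ) ≤
          𝓟 (Set.Icc 0 (C0 * τ * (1 + y ^ 2))) := by
        rw [le_principal_iff]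
        have h3 : ∀ᶠ T in (g : Filter ℝ), BB T τ y ∈ Set.Icc 0 (C0 * τ * (1 + y ^ 2)) := by
          filter_upwards [h1, hgt (hb τ hτ)] with T hT hT2
          exact ⟨BB_nonneg hT _ _, hT2 y⟩
        exact h3
      obtain ⟨L, _, hL⟩ := isCompact_Icc.ultrafilter_le_nhds _ h2
      exact ⟨L, hL⟩
  choose B hlim using hex
  refine ⟨B, C0, hC0, ?_, ?_, ?_, ?_, ?_, ?_, hlim⟩
  · intro τ a b hab
    refine le_of_tendsto_of_tendsto (hlim τ a) (hlim τ b) ?_
    filter_upwards [h1] with T hT using BB_mono hT τ hab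
  · intro y a b hab
    refine le_of_tendsto_of_tendsto (hlim a y) (hlim b y) ?_
    filter_upwards [h1] with T hT using BB_mono2 hT y hab
  · intro τ y hτ
    refine le_of_tendsto (hlim τ y).abs ?_
    filter_upwards [h1, hgt (hb τ hτ)] with T hT hT2
    rw [abs_of_nonneg (BB_nonneg hT _ _)]
    exact hT2 y
  · intro τ y hy
    refine tendsto_nhds_unique (hlim τ y) (Tendsto.congr' ?_ tendsto_const_nhds)
    filter_upwards with T
    rw [BB_neg T τ y hy]
  · intro τ y hτ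
    refine tendsto_nhds_unique (hlim τ y) (Tendsto.congr' ?_ tendsto_const_nhds)
    filter_upwards [h1] with T hT
    rw [BB_zero (by linarith) hτ]
  · intro τ y hτ hy
    refine le_of_forall_pos_le_add fun ε hε => ?_
    have h5 : ∀ᶠ T : ℝ in (g : Filter ℝ), τ - ε ≤ BB T τ y := by
      filter_upwards [hgt (BB_diag hτ hε)] with T hT using hT y hy
    have := ge_of_tendsto (hlim τ y) h5
    linarith

variable {g : Ultrafilter ℝ} {B : ℝ → ℝ → ℝ} {C0 : ℝ}

/-- the right continuous version -/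
noncomputable def Br (B : ℝ → ℝ → ℝ) (τ y : ℝ) : ℝ := Function.rightLim (B τ) y

lemma Br_mono1 (h : LD g B C0) (τ : ℝ) : Monotone (Br B τ) := (h.mono1 τ).rightLim

lemma Br_le (h : LD g B C0) (τ y : ℝ) : B τ y ≤ Br B τ y := (h.mono1 τ).le_rightLim le_rfl

lemma Br_tendsto (h : LD g B C0) (τ y : ℝ) : Tendsto (B τ) (𝓝[>] y) (𝓝 (Br B τ y)) :=
  (h.mono1 τ).tendsto_rightLim y

lemma Br_mono2 (h : LD g B C0) (y : ℝ) : Monotone fun τ => Br B τ y := by
  intro a b hab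
  exact le_of_tendsto_of_tendsto' (Br_tendsto h a y) (Br_tendsto h b y)
    fun x => h.mono2 x hab

lemma Br_bd (h : LD g B C0) {τ : ℝ} (hτ : 0 < τ) (y : ℝ) :
    |Br B τ y| ≤ C0 * τ * (1 + y ^ 2) := by
  have hc : Tendsto (fun x : ℝ => C0 * τ * (1 + x ^ 2)) (𝓝[>] y) (𝓝 (C0 * τ * (1 + y ^ 2))) :=
    ((by fun_prop : Continuous fun x : ℝ => C0 * τ * (1 + x ^ 2)).tendsto y).mono_left
      nhdsWithin_le_nhds
  exact le_of_tendsto_of_tendsto' (Br_tendsto h τ y).abs hc fun x => h.bd τ x hτ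

lemma Br_neg (h : LD g B C0) (τ : ℝ) {y : ℝ} (hy : y < 0) : Br B τ y = 0 := by
  refine tendsto_nhds_unique (Br_tendsto h τ y) (Tendsto.congr' ?_ tendsto_const_nhds)
  filter_upwards [nhdsWithin_le_nhds (Iio_mem_nhds hy)] with x hx
  rw [h.neg τ x hx]

lemma Br_zero (h : LD g B C0) {τ : ℝ} (hτ : τ ≤ 0) (y : ℝ) : Br B τ y = 0 := by
  refine tendsto_nhds_unique (Br_tendsto h τ y) (Tendsto.congr' ?_ tendsto_const_nhds)
  filter_upwards with x
  rw [h.zero τ x hτ]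

lemma Br_diag (h : LD g B C0) {τ : ℝ} (hτ : 0 < τ) {y : ℝ} (hy : 0 ≤ y) : τ ≤ Br B τ y :=
  (h.diag τ y hτ hy).trans (Br_le h τ y)

lemma Br_nonneg (h : LD g B C0) (τ y : ℝ) : 0 ≤ Br B τ y := by
  rcases lt_or_ge y 0 with hy | hy
  · rw [Br_neg h τ hy]
  · rcases le_or_gt τ 0 with hτ | hτ
    · rw [Br_zero h hτ]
    · exact hτ.le.trans (Br_diag h hτ hy)

/-- joint measurability -/
lemma Br_meas (h : LD g B C0) : Measurable fun p : ℝ × ℝ => Br B p.1 p.2 := by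
  have hH : ∀ n : ℕ, Measurable fun q : ℝ × ℤ => B q.1 ((q.2 + 1) / (n + 1)) := fun n =>
    measurable_from_prod_countable_left (f := fun q : ℝ × ℤ => B q.1 ((q.2 + 1) / (n + 1)))
      fun k => by
        have := (h.mono2 (((k : ℝ) + 1) / ((n : ℝ) + 1))).measurable
        exact this
  have hF : ∀ n : ℕ, Measurable fun p : ℝ × ℝ =>
      B p.1 (((⌊((n : ℝ) + 1) * p.2⌋ : ℤ) + 1) / (n + 1)) := fun n =>
    (hH n).comp (measurable_fst.prodMk
      ((Int.measurable_floor (R := ℝ)).comp (measurable_snd.const_mul ((n : ℝ) + 1))))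
  refine measurable_of_tendsto_metrizable hF ?_
  rw [tendsto_pi_nhds]
  rintro ⟨τ, y⟩
  refine (Br_tendsto h τ y).comp ?_
  rw [tendsto_nhdsWithin_iff]
  have hn : ∀ n : ℕ, (0 : ℝ) < n + 1 := fun n => by positivity
  constructor
  · have h1 : Tendsto (fun n : ℕ => y + 1 / ((n : ℝ) + 1)) atTop (𝓝 (y + 0)) :=
      tendsto_one_div_add_atTop_nhds_zero_nat.const_add y
    rw [add_zero] at h1
    refine tendsto_of_tendsto_of_tendsto_of_le_of_le tendsto_const_nhds h1 (fun n => ?_)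
      (fun n => ?_)
    · show y ≤ ((⌊((n : ℝ) + 1) * y⌋ : ℤ) + 1) / (n + 1)
      rw [le_div_iff₀ (hn n)]
      have := Int.lt_floor_add_one (((n : ℝ) + 1) * y)
      linarith
    · show ((⌊((n : ℝ) + 1) * y⌋ : ℤ) + 1 : ℝ) / (n + 1) ≤ y + 1 / ((n : ℝ) + 1)
      have e : (y + 1 / ((n : ℝ) + 1)) * ((n : ℝ) + 1) = ((n : ℝ) + 1) * y + 1 := by
        have := (hn n).ne'
        field_simp
      rw [div_le_iff₀ (hn n), e]
      have := Int.floor_le (((n : ℝ) + 1) * y)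
      linarith
  · refine Eventually.of_forall fun n => ?_
    show y < ((⌊((n : ℝ) + 1) * y⌋ : ℤ) + 1) / (n + 1)
    rw [lt_div_iff₀ (hn n)]
    have := Int.lt_floor_add_one (((n : ℝ) + 1) * y)
    linarith

lemma Br_ae (h : LD g B C0) (τ : ℝ) : Br B τ =ᵐ[volume] B τ := by
  have h1 := (h.mono1 τ).countable_not_continuousAt
  have h2 : ∀ᵐ x : ℝ, x ∉ {x | ¬ContinuousAt (B τ) x} := h1.ae_notMem volume
  filter_upwards [h2] with x hx
  have h3 : ContinuousAt (B τ) x := by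
    by_contra hcon
    exact hx hcon
  exact tendsto_nhds_unique (Br_tendsto h τ x) (h3.tendsto.mono_left nhdsWithin_le_nhds)

lemma Lam_Br (h : LD g B C0) (τ : ℝ) (K : ℝ → ℝ) : Lam (Br B τ) K = Lam (B τ) K := by
  unfold Lam
  congr 1
  refine integral_congr_ae ?_
  filter_upwards [Br_ae h τ] with x hx
  rw [hx]

/-- the limits of the smooth pair sums -/
lemma Lam_lim (RH : RiemannHypothesis) (hgt : (g : Filter ℝ) ≤ atTop) (h : LD g B C0)
    (hK : TK κ K) {τ : ℝ} (hτ : 0 < τ) :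
    Tendsto (fun T => (Xf T)⁻¹ * Q2 (ct K) (τ * T) (Real.log T)) (g : Filter ℝ)
      (𝓝 (Lam (Br B τ) K)) := by
  rw [Lam_Br h]
  obtain ⟨C1, hC1, hb⟩ := BB_bound RH
  obtain ⟨T1, hT1⟩ := ((hb τ hτ).and (eventually_gt_atTop 1)).exists_forall_of_atTop
  obtain ⟨D, hD0, hD⟩ := dct_decay 2 hK
  have h1 := (lim_gen (A := fun T => BB T τ) (T0 := T1) (C := C1 * τ)
    (fun T hT => BB_mono (hT1 T hT).2 τ) (fun T hT y => by
      rw [abs_of_nonneg (BB_nonneg (hT1 T hT).2 τ y)]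
      exact (hT1 T hT).1 y) (dct_cont hK).measurable hD hgt (h.mono1 τ)
    (fun y => h.lim τ y)).neg
  refine h1.congr fun T => ?_
  rw [← Lam_BB hK]
  rfl

/-- Montgomery's theorem in the limit -/
lemma Lam_mont (RH : RiemannHypothesis) (hgt : (g : Filter ℝ) ≤ atTop) (h : LD g B C0)
    (hK : TK κ K) (hκ0 : 0 < κ) (hκ : κ < 1) {τ : ℝ} (hτ : 0 < τ) :
    Lam (Br B τ) K = τ * Lam AG K :=
  tendsto_nhds_unique (Lam_lim RH hgt h hK hτ) ((mont_tau RH hK hκ0 hκ hτ).mono_left hgt)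

/-- the lower bound from the diagonal -/
lemma Lam_low (RH : RiemannHypothesis) (hgt : (g : Filter ℝ) ≤ atTop) (h : LD g B C0)
    (hK : TK κ K) (hpos : ∀ y, 0 ≤ ct K y) {τ : ℝ} (hτ : 0 < τ) :
    τ * ct K 0 ≤ Lam (Br B τ) K := by
  refine le_of_forall_pos_le_add fun ε hε => ?_
  have hε2 : 0 < ε / (ct K 0 + 1) := by
    have := hpos 0
    positivity
  have h1 : ∀ᶠ T in (g : Filter ℝ), τ * ct K 0 - ε ≤
      (Xf T)⁻¹ * Q2 (ct K) (τ * T) (Real.log T) := by
    filter_upwards [hgt (BB_diag hτ hε2), hgt (eventually_gt_atTop 1)] with T h2 h3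
    have h4 := Lam_BB_ge hK hpos h3 τ
    rw [Lam_BB hK] at h4
    refine le_trans ?_ h4
    have h5 := mul_le_mul_of_nonneg_left (h2 0 le_rfl) (hpos 0)
    have h6 : ct K 0 * (ε / (ct K 0 + 1)) ≤ ε := by
      have h7 : 0 < ct K 0 + 1 := by
        have := hpos 0
        linarith
      rw [← mul_div_assoc, div_le_iff₀ h7]
      nlinarith [hpos 0]
    nlinarith
  have := ge_of_tendsto (Lam_lim RH hgt h hK hτ) h1
  linarith

lemma Lam_bd (h : LD g B C0) (hK : TK κ K) : ∃ D, 0 ≤ D ∧ ∀ τ, 0 < τ →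
    |Lam (Br B τ) K| ≤ D * τ := by
  obtain ⟨D, hD0, hD⟩ := dct_decay 2 hK
  refine ⟨C0 * D * π, by have := h.pos; have := Real.pi_pos; positivity, fun τ hτ => ?_⟩
  unfold Lam
  rw [abs_neg]
  refine (abs_integral_le_integral_abs).trans ?_
  have hC0 := h.pos
  calc ∫ y, |Br B τ y * dct K y| ≤ ∫ y, C0 * τ * D * (1 + y ^ 2)⁻¹ := by
        refine integral_mono_of_nonneg (Eventually.of_forall fun y => abs_nonneg _)
          (integrable_inv_one_add_sq.const_mul _) (Eventually.of_forall fun y => ?_)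
        show |Br B τ y * dct K y| ≤ C0 * τ * D * (1 + y ^ 2)⁻¹
        rw [abs_mul]
        calc |Br B τ y| * |dct K y| ≤ (C0 * τ * (1 + y ^ 2)) * (D / (1 + y ^ 2) ^ 2) :=
              mul_le_mul (Br_bd h hτ y) (hD y) (abs_nonneg _) (by positivity)
          _ = _ := by
              field_simp
    _ = C0 * D * π * τ := by
        rw [integral_const_mul, integral_univ_inv_one_add_sq]
        ring

end Pool.Agent.H7.PS
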