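import Pool.Agent.H7.PS.Lim3

/-! The mixture of the limit functionals, the upper bound. -/

open MeasureTheory Filter Topology Real
open scoped ENNReal ContDiff

namespace Pool.Agent.H7.PS

open H370 TH803TW Pool.Agent.Y744 Pool.Agent.Y744.ANC Pool.Agent.H7.FF
open Pool.Agent.Results.MP_103a5c_nt.BohrSetPairs

variable {κ : ℝ} {K : ℝ → ℝ} {g : Ultrafilter ℝ} {B : ℝ → ℝ → ℝ} {C0 : ℝ}

lemma TK_WK (hK : TK κ K) (hpos : ∀ x, 0 ≤ K x) (h0 : ∀ x, 0 < x → x < 1 / 2 → K x = 0) :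
    ∃ M D, 0 ≤ M ∧ WK κ M D K := by
  obtain ⟨M, hM⟩ := hK.hcs.exists_bound_of_continuous hK.cont
  obtain ⟨D, hD⟩ := ContDiff.lipschitzWith_of_hasCompactSupport hK.hcs hK.smooth (by simp)
  refine ⟨M, D, (norm_nonneg _).trans (hM 0), hpos, fun α => (le_abs_self _).trans (hM α),
    fun α β => ?_, fun α hα hne => ⟨?_, ?_⟩⟩
  · have := hD.dist_le_mul α β
    rwa [Real.dist_eq, Real.dist_eq] at this
  · by_contra hcon
    exact hne (h0 α hα (by linarith))
  · by_contra hcon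
    refine hne (hK.supp α ?_)
    rw [abs_of_pos hα]
    linarith

lemma Zu_mono {T : ℝ} (hT : 0 < T) : Monotone (Zu K T) := by
  intro a b hab
  unfold Zu
  refine lintegral_mono_set fun t ht => ⟨ht.1, ht.2.trans ?_⟩
  exact mul_le_mul_of_nonneg_right hab hT.le

lemma cz_mul {T : ℝ} (hT : 1 < T) (x : ℝ) :
    cz T * (π * Real.sqrt π / 2 * (x * T * Real.log T ^ 2)) = π * x := by
  have hl := Real.log_pos hT
  have hT0 : 0 < T := by linarith
  have hpi : 0 < Real.sqrt π := Real.sqrt_pos.2 Real.pi_pos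
  unfold cz
  field_simp

lemma cz_pos {T : ℝ} (hT : 1 < T) : 0 < cz T := by
  have hl := Real.log_pos hT
  have hT0 : 0 < T := by linarith
  have hpi : 0 < Real.sqrt π := Real.sqrt_pos.2 Real.pi_pos
  unfold cz
  positivity

lemma z_bd (hU : HypU) (hκ : 1 ≤ κ) (hK : TK κ K) (hpos : ∀ x, 0 ≤ K x)
    (h0 : ∀ x, 0 < x → x < 1 / 2 → K x = 0) {R : ℝ} (hR : 0 < R) : ∃ C1 : ℝ, 0 ≤ C1 ∧
    ∀ᶠ T : ℝ in atTop, ENNReal.ofReal (cz T) * Zu K T R ≤ ENNReal.ofReal C1 := by
  obtain ⟨M, D, hM, hW⟩ := TK_WK hK hpos h0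
  obtain ⟨C, hC, hp⟩ := prime_upper hU hκ
  have hI1 : 0 ≤ ∫ α in (0 : ℝ)..κ, K α :=
    intervalIntegral.integral_nonneg (by linarith) fun x _ => hpos x
  have hI2 : 0 ≤ ∫ α in (0 : ℝ)..(1 + 1), K α :=
    intervalIntegral.integral_nonneg (by norm_num) fun x _ => hpos x
  set I : ℝ := (∫ α in (0 : ℝ)..κ, K α) + C * (∫ α in (0 : ℝ)..(1 + 1), K α) + 1 with hI
  have hI0 : 0 ≤ I := by positivity
  set m : ℝ := 3 * R / ((1 + (R + 1) ^ 2) * (4 + (R + 1) ^ 2)) with hm
  have hm0 : 0 < m := by positivity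
  have hk : ∀ τ, R < τ → τ ≤ R + 1 → m ≤ kc 1 τ := by
    intro τ h1 h2
    have hτ : 0 < τ := hR.trans h1
    rw [kc_eq one_pos, hm]
    rw [div_le_div_iff₀ (by positivity) (by positivity)]
    have h3 : (1 ^ 2 + τ ^ 2) * ((2 * 1) ^ 2 + τ ^ 2) ≤ (1 + (R + 1) ^ 2) * (4 + (R + 1) ^ 2) := by
      have : τ ^ 2 ≤ (R + 1) ^ 2 := by nlinarith
      refine mul_le_mul (by linarith) (by linarith) (by positivity) (by positivity)
    calc 3 * R * ((1 ^ 2 + τ ^ 2) * ((2 * 1) ^ 2 + τ ^ 2)) ≤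
        3 * τ * ((1 + (R + 1) ^ 2) * (4 + (R + 1) ^ 2)) :=
          mul_le_mul (by linarith) h3 (by positivity) (by positivity)
      _ = _ := by ring
  refine ⟨π * I / m, by have := Real.pi_pos; positivity, ?_⟩
  filter_upwards [hp K M D hM hW 1 one_pos 1 one_pos, eventually_gt_atTop 1] with T h1 hT
  have hT0 : 0 < T := by linarith
  have h2 : ENNReal.ofReal m * Zu K T R ≤
      ∫⁻ τ in Set.Ioi (0 : ℝ), ENNReal.ofReal (kc 1 τ) * Zu K T τ := by
    calc ENNReal.ofReal m * Zu K T R = ∫⁻ _ in Set.Ioc R (R + 1),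
        ENNReal.ofReal m * Zu K T R := by
          rw [lintegral_const, Measure.restrict_apply MeasurableSet.univ, Set.univ_inter,
            Real.volume_Ioc]
          simp
      _ ≤ ∫⁻ τ in Set.Ioc R (R + 1), ENNReal.ofReal (kc 1 τ) * Zu K T τ := by
          refine setLIntegral_mono' measurableSet_Ioc fun τ hτ => ?_
          exact mul_le_mul' (ENNReal.ofReal_le_ofReal (hk τ hτ.1 hτ.2)) (Zu_mono hT0 hτ.1.le)
      _ ≤ _ := lintegral_mono_set fun τ hτ => Set.mem_Ioi.2 (hR.trans hτ.1)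
  have h3 := h2.trans h1
  rw [← hI] at h3
  have h4 : ENNReal.ofReal m * (ENNReal.ofReal (cz T) * Zu K T R) ≤
      ENNReal.ofReal m * ENNReal.ofReal (π * I / m) := by
    calc ENNReal.ofReal m * (ENNReal.ofReal (cz T) * Zu K T R) =
        ENNReal.ofReal (cz T) * (ENNReal.ofReal m * Zu K T R) := by ring
      _ ≤ ENNReal.ofReal (cz T) * ENNReal.ofReal (π * Real.sqrt π / 2 *
        (1 * T * Real.log T ^ 2) * I) := by gcongr
      _ = ENNReal.ofReal m * ENNReal.ofReal (π * I / m) := by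
          rw [← ENNReal.ofReal_mul (cz_pos hT).le, ← ENNReal.ofReal_mul hm0.le, ← mul_assoc,
            cz_mul hT, mul_one]
          congr 1
          field_simp
  have hm1 : ENNReal.ofReal m ≠ 0 := by
    rw [Ne, ENNReal.ofReal_eq_zero]
    linarith
  exact (ENNReal.mul_le_mul_iff_right hm1 ENNReal.ofReal_ne_top).1 h4

/-- the upper bound for the mixture, truncated -/
lemma mix_trunc (RH : RiemannHypothesis) (hgt : (g : Filter ℝ) ≤ atTop) (h : LD g B C0)
    (hU : HypU) (hκ : 1 ≤ κ) : ∃ C : ℝ, 0 ≤ C ∧ ∀ K : ℝ → ℝ, TK κ K → (∀ x, 0 ≤ K x) →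
    (∀ x, 0 < x → x < 1 / 2 → K x = 0) → ∀ c : ℝ, 0 < c → ∀ δ : ℝ, 0 < δ → ∀ R : ℝ, 0 < R →
    ∫ τ in (0 : ℝ)..R, kc c τ * Lam (Br B τ) K ≤
      π * c * ((∫ α in (0 : ℝ)..κ, K α) + C * (∫ α in (0 : ℝ)..(1 + δ), K α) + δ) := by
  obtain ⟨C, hC, hp⟩ := prime_upper hU hκ
  refine ⟨C, hC, fun K hK hpos h0 c hc δ hδ R hR => ?_⟩
  obtain ⟨M, D, hM, hW⟩ := TK_WK hK hpos h0
  obtain ⟨C1, hC1, hz⟩ := z_bd hU hκ hK hpos h0 hR
  obtain ⟨T1, hT1⟩ := (hz.and (eventually_gt_atTop 1)).exists_forall_of_atTop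
  have hIa : 0 ≤ ∫ α in (0 : ℝ)..κ, K α :=
    intervalIntegral.integral_nonneg (by linarith) fun x _ => hpos x
  have hIb : 0 ≤ ∫ α in (0 : ℝ)..(1 + δ), K α :=
    intervalIntegral.integral_nonneg (by linarith) fun x _ => hpos x
  set I : ℝ := (∫ α in (0 : ℝ)..κ, K α) + C * (∫ α in (0 : ℝ)..(1 + δ), K α) + δ with hI
  have hI0 : 0 ≤ I := by positivity
  set z : ℝ → ℝ → ℝ := fun T τ => (ENNReal.ofReal (cz T) * Zu K T τ).toReal with hzdef
  have hfin : ∀ T, T1 ≤ T → ∀ τ, τ ≤ R → ENNReal.ofReal (cz T) * Zu K T τ ≤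
      ENNReal.ofReal C1 := by
    intro T hT τ hτ
    have := (hT1 T hT).2
    exact (mul_le_mul_right (Zu_mono (by linarith) hτ) _).trans (hT1 T hT).1
  have hzz : ∀ T, T1 ≤ T → ∀ τ, τ ≤ R → ENNReal.ofReal (z T τ) =
      ENNReal.ofReal (cz T) * Zu K T τ := by
    intro T hT τ hτ
    simp only [hzdef]
    rw [ENNReal.ofReal_toReal (ne_top_of_le_ne_top ENNReal.ofReal_ne_top (hfin T hT τ hτ))]
  have hz0 : ∀ T τ, 0 ≤ z T τ := fun T τ => ENNReal.toReal_nonneg
  have hzm : ∀ T, T1 ≤ T → ∀ a b, a ≤ b → b ≤ R → z T a ≤ z T b := by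
    intro T hT a b hab hb
    have := (hT1 T hT).2
    refine ENNReal.toReal_mono (ne_top_of_le_ne_top ENNReal.ofReal_ne_top (hfin T hT b hb)) ?_
    exact mul_le_mul_right (Zu_mono (by linarith) hab) _
  have hzC : ∀ T, T1 ≤ T → ∀ τ, τ ≤ R → z T τ ≤ C1 := by
    intro T hT τ hτ
    exact ENNReal.toReal_le_of_le_ofReal hC1 (hfin T hT τ hτ)
  set A : ℝ → ℝ → ℝ := fun T τ => z T (min τ R) with hA
  have hAm : ∀ T, T1 ≤ T → Monotone (A T) := fun T hT a b hab =>
    hzm T hT _ _ (min_le_min_right R hab) (min_le_right _ _)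
  have hAb : ∀ T, T1 ≤ T → ∀ y, |A T y| ≤ C1 * (1 + y ^ 2) := by
    intro T hT y
    rw [abs_of_nonneg (hz0 _ _)]
    have h1 := hzC T hT (min y R) (min_le_right _ _)
    show z T (min y R) ≤ _
    nlinarith [sq_nonneg y]
  -- the limit
  have hex : ∀ y, ∃ L, Tendsto (fun T => A T y) (g : Filter ℝ) (𝓝 L) := by
    intro y
    have h2 : ((g.map fun T => A T y : Ultrafilter ℝ) : Filter ℝ) ≤ 𝓟 (Set.Icc 0 C1) := by
      rw [le_principal_iff]
      have h3 : ∀ᶠ T in (g : Filter ℝ), A T y ∈ Set.Icc 0 C1 := by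
        filter_upwards [hgt (eventually_ge_atTop T1)] with T hT
        exact ⟨hz0 _ _, hzC T hT _ (min_le_right _ _)⟩
      exact h3
    obtain ⟨L, _, hL⟩ := isCompact_Icc.ultrafilter_le_nhds _ h2
    exact ⟨L, hL⟩
  choose A' hA'l using hex
  have hA'm : Monotone A' := by
    intro a b hab
    refine le_of_tendsto_of_tendsto (hA'l a) (hA'l b) ?_
    filter_upwards [hgt (eventually_ge_atTop T1)] with T hT using hAm T hT hab
  -- comparison with the pair sums
  have hLA : ∀ τ, 0 < τ → τ ≤ R → Lam (Br B τ) K ≤ A' τ := by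
    intro τ hτ hτR
    have h1 : ∀ ε : ℝ, 0 < ε → Lam (Br B τ) K ≤ (1 + ε) * A' τ + ε := by
      intro ε hε
      refine le_of_tendsto_of_tendsto (Lam_lim RH hgt h hK hτ)
        (((hA'l τ).const_mul (1 + ε)).add_const ε) ?_
      filter_upwards [hgt (zero_lower RH hK (by linarith) hpos h0 hτ hε),
        hgt (eventually_ge_atTop T1)] with T h2 hT
      rw [← hzz T hT τ hτR, ← ENNReal.ofReal_mul (by positivity),
        ← ENNReal.ofReal_add (by have := hz0 T τ; positivity) hε.le] at h2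
      have h3 := (ENNReal.ofReal_le_ofReal_iff (by have := hz0 T τ; positivity)).1 h2
      show _ ≤ (1 + ε) * z T (min τ R) + ε
      rw [min_eq_left hτR]
      exact h3
    have h2 : Tendsto (fun ε : ℝ => (1 + ε) * A' τ + ε) (𝓝[>] 0) (𝓝 ((1 + 0) * A' τ + 0)) :=
      ((by fun_prop : Continuous fun ε : ℝ => (1 + ε) * A' τ + ε).tendsto 0).mono_left
        nhdsWithin_le_nhds
    rw [show (1 + 0) * A' τ + 0 = A' τ by ring] at h2
    exact ge_of_tendsto h2 (eventually_mem_nhdsWithin.mono fun ε hε => h1 ε hε)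
  -- the truncated kernel
  set w : ℝ → ℝ := (Set.Ioc 0 R).indicator (kc c) with hw
  have hwm : Measurable w := (kc_cont hc).measurable.indicator measurableSet_Ioc
  obtain ⟨Mk, hMk⟩ := (isCompact_Icc (a := (0 : ℝ)) (b := R)).exists_bound_of_continuousOn
    (kc_cont hc).continuousOn
  have hMk0 : 0 ≤ Mk := (norm_nonneg _).trans (hMk 0 ⟨le_rfl, hR.le⟩)
  have hwd : ∀ y, |w y| ≤ (Mk * (1 + R ^ 2) ^ 2) / (1 + y ^ 2) ^ 2 := by
    intro y
    by_cases hy : y ∈ Set.Ioc 0 R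
    · rw [hw, Set.indicator_of_mem hy]
      have h1 := hMk y ⟨hy.1.le, hy.2⟩
      rw [Real.norm_eq_abs] at h1
      rw [le_div_iff₀ (by positivity)]
      have h2 : y ^ 2 ≤ R ^ 2 := by nlinarith [hy.1, hy.2]
      gcongr
    · rw [hw, Set.indicator_of_notMem hy, abs_zero]
      positivity
  have hlim := lim_gen hAm hAb hwm hwd hgt hA'm hA'l
  have hup : ∀ᶠ T in (g : Filter ℝ), ∫ y, A T y * w y ≤ π * c * I := by
    filter_upwards [hgt (hp K M D hM hW c hc δ hδ), hgt (eventually_ge_atTop T1)] with T h1 hT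
    have hT1' := (hT1 T hT).2
    have e1 : ∫ y, A T y * w y = ∫ y in Set.Ioc 0 R, z T y * kc c y := by
      rw [← integral_indicator measurableSet_Ioc]
      refine integral_congr_ae (Eventually.of_forall fun y => ?_)
      show A T y * w y = (Set.Ioc 0 R).indicator (fun y => z T y * kc c y) y
      by_cases hy : y ∈ Set.Ioc 0 R
      · rw [hw, Set.indicator_of_mem hy, Set.indicator_of_mem hy]
        show z T (min y R) * _ = _
        rw [min_eq_left hy.2]
      · rw [hw, Set.indicator_of_notMem hy, Set.indicator_of_notMem hy, mul_zero]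
    rw [e1]
    have hnn : 0 ≤ᵐ[volume.restrict (Set.Ioc 0 R)] fun y => z T y * kc c y := by
      rw [EventuallyLE, ae_restrict_iff' measurableSet_Ioc]
      exact Eventually.of_forall fun y hy => mul_nonneg (hz0 _ _) (kc_nonneg hc hy.1.le)
    have hmeas : AEStronglyMeasurable (fun y => z T y * kc c y)
        (volume.restrict (Set.Ioc 0 R)) := by
      have h3 : Measurable fun y => A T y * kc c y :=
        (hAm T hT).measurable.mul (kc_cont hc).measurable
      refine h3.aestronglyMeasurable.congr ?_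
      rw [EventuallyEq, ae_restrict_iff' measurableSet_Ioc]
      refine Eventually.of_forall fun y hy => ?_
      show z T (min y R) * _ = _
      rw [min_eq_left hy.2]
    rw [integral_eq_lintegral_of_nonneg_ae hnn hmeas]
    refine ENNReal.toReal_le_of_le_ofReal (by have := Real.pi_pos; positivity) ?_
    calc ∫⁻ y in Set.Ioc 0 R, ENNReal.ofReal (z T y * kc c y) =
        ∫⁻ y in Set.Ioc 0 R, ENNReal.ofReal (cz T) * (ENNReal.ofReal (kc c y) * Zu K T y) := by
          refine setLIntegral_congr_fun measurableSet_Ioc fun y hy => ?_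
          show ENNReal.ofReal (z T y * kc c y) = _
          rw [ENNReal.ofReal_mul (hz0 _ _), hzz T hT y hy.2]
          ring
      _ ≤ ∫⁻ y in Set.Ioi 0, ENNReal.ofReal (cz T) * (ENNReal.ofReal (kc c y) * Zu K T y) :=
          lintegral_mono_set Set.Ioc_subset_Ioi_self
      _ = ENNReal.ofReal (cz T) * ∫⁻ y in Set.Ioi 0, ENNReal.ofReal (kc c y) * Zu K T y := by
          rw [lintegral_const_mul' _ _ ENNReal.ofReal_ne_top]
      _ ≤ ENNReal.ofReal (cz T) * ENNReal.ofReal (π * Real.sqrt π / 2 *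
          (c * T * Real.log T ^ 2) * I) := by gcongr
      _ = ENNReal.ofReal (π * c * I) := by
          rw [← ENNReal.ofReal_mul (cz_pos hT1').le, ← mul_assoc, cz_mul hT1']
  have h5 := le_of_tendsto hlim hup
  refine le_trans ?_ h5
  have e2 : ∫ y, A' y * w y = ∫ y in (0 : ℝ)..R, kc c y * A' y := by
    rw [intervalIntegral.integral_of_le hR.le, ← integral_indicator measurableSet_Ioc]
    refine integral_congr_ae (Eventually.of_forall fun y => ?_)
    show A' y * w y = (Set.Ioc 0 R).indicator (fun y => kc c y * A' y) y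
    by_cases hy : y ∈ Set.Ioc 0 R
    · rw [hw, Set.indicator_of_mem hy, Set.indicator_of_mem hy, mul_comm]
    · rw [hw, Set.indicator_of_notMem hy, Set.indicator_of_notMem hy, mul_zero]
  rw [e2]
  have hLm : Measurable fun τ => Lam (Br B τ) K := by
    unfold Lam
    refine Measurable.neg ?_
    have h6 : StronglyMeasurable fun p : ℝ × ℝ => Br B p.1 p.2 * dct K p.2 :=
      ((Br_meas h).mul ((dct_cont hK).measurable.comp measurable_snd)).stronglyMeasurable
    exact h6.integral_prod_right.measurable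
  obtain ⟨DL, hDL0, hDL⟩ := Lam_bd h hK
  have hLint : IntegrableOn (fun τ => kc c τ * Lam (Br B τ) K) (Set.Ioi 0) :=
    diff_int hLm hDL hc (by positivity)
  have hA'int : IntervalIntegrable A' volume 0 R := hA'm.intervalIntegrable
  refine intervalIntegral.integral_mono_on_of_le_Ioo hR.le ?_ ?_ fun τ hτ => ?_
  · rw [intervalIntegrable_iff_integrableOn_Ioc_of_le hR.le]
    exact hLint.mono_set Set.Ioc_subset_Ioi_self
  · exact hA'int.continuousOn_mul (kc_cont hc).continuousOn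
  · exact mul_le_mul_of_nonneg_left (hLA τ hτ.1 hτ.2.le) (kc_nonneg hc hτ.1.le)

lemma Lam_meas (h : LD g B C0) (hK : TK κ K) : Measurable fun τ => Lam (Br B τ) K := by
  unfold Lam
  refine Measurable.neg ?_
  have h6 : StronglyMeasurable fun p : ℝ × ℝ => Br B p.1 p.2 * dct K p.2 :=
    ((Br_meas h).mul ((dct_cont hK).measurable.comp measurable_snd)).stronglyMeasurable
  exact h6.integral_prod_right.measurable

lemma Lam_kint (h : LD g B C0) (hK : TK κ K) {c : ℝ} (hc : 0 < c) :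
    IntegrableOn (fun τ => kc c τ * Lam (Br B τ) K) (Set.Ioi 0) := by
  obtain ⟨DL, hDL0, hDL⟩ := Lam_bd h hK
  exact diff_int (Lam_meas h hK) hDL hc (by positivity)

/-- **the upper bound for the mixture** -/
theorem mix_upper (RH : RiemannHypothesis) (hgt : (g : Filter ℝ) ≤ atTop) (h : LD g B C0)
    (hU : HypU) (hκ : 1 ≤ κ) : ∃ C : ℝ, 0 ≤ C ∧ ∀ K : ℝ → ℝ, TK κ K → (∀ x, 0 ≤ K x) →
    (∀ x, 0 < x → x < 1 / 2 → K x = 0) → ∀ c : ℝ, 0 < c →
    ∫ τ in Set.Ioi (0 : ℝ), kc c τ * Lam (Br B τ) K ≤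
      π * c * ((∫ α in (0 : ℝ)..κ, K α) + C * ∫ α in (0 : ℝ)..1, K α) := by
  obtain ⟨C, hC, hp⟩ := mix_trunc RH hgt h hU hκ
  refine ⟨C, hC, fun K hK hpos h0 c hc => ?_⟩
  have h1 : ∀ δ : ℝ, 0 < δ → ∫ τ in Set.Ioi (0 : ℝ), kc c τ * Lam (Br B τ) K ≤
      π * c * ((∫ α in (0 : ℝ)..κ, K α) + C * (∫ α in (0 : ℝ)..(1 + δ), K α) + δ) := by
    intro δ hδ
    refine le_of_tendsto (intervalIntegral_tendsto_integral_Ioi 0 (Lam_kint h hK hc)
      tendsto_id) ?_
    filter_upwards [eventually_gt_atTop 0] with R hR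
    exact hp K hK hpos h0 c hc δ hδ R hR
  have hcont : Continuous fun δ : ℝ => ∫ α in (0 : ℝ)..(1 + δ), K α :=
    (intervalIntegral.continuous_primitive (fun a b => hK.cont.intervalIntegrable a b) 0).comp (by fun_prop)
  have h2 : Tendsto (fun δ : ℝ => π * c * ((∫ α in (0 : ℝ)..κ, K α) +
      C * (∫ α in (0 : ℝ)..(1 + δ), K α) + δ)) (𝓝[>] 0)
      (𝓝 (π * c * ((∫ α in (0 : ℝ)..κ, K α) + C * (∫ α in (0 : ℝ)..(1 + 0), K α) + 0))) := by
    have hc2 : Continuous fun δ : ℝ => π * c * ((∫ α in (0 : ℝ)..κ, K α) +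
      C * (∫ α in (0 : ℝ)..(1 + δ), K α) + δ) :=
      continuous_const.mul (((continuous_const.add (continuous_const.mul hcont))).add
        continuous_id)
    exact (hc2.tendsto 0).mono_left nhdsWithin_le_nhds
  rw [add_zero, add_zero] at h2
  exact ge_of_tendsto h2 (eventually_mem_nhdsWithin.mono fun δ hδ => h1 δ hδ)

end Pool.Agent.H7.PS
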