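import Pool.Agent.H7.PS.Lim4
import Pool.Agent.H7.FF.Scl

/-! The mixture is the limit predicted by the pair correlation conjecture. -/

open MeasureTheory Filter Topology Real
open scoped ENNReal ContDiff

namespace Pool.Agent.H7.PS

open H370 TH803TW Pool.Agent.Y744 Pool.Agent.Y744.ANC Pool.Agent.H7.FF
open Pool.Agent.Results.MP_103a5c_nt.BohrSetPairs

variable {κ : ℝ} {K : ℝ → ℝ} {g : Ultrafilter ℝ} {B : ℝ → ℝ → ℝ} {C0 : ℝ} {c : ℝ}

/-- the mixture -/
noncomputable def Bm (B : ℝ → ℝ → ℝ) (c y : ℝ) : ℝ :=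
  ∫ τ in Set.Ioi (0 : ℝ), kc c τ * Br B τ y

lemma kci (hc : 0 < c) : IntegrableOn (fun τ => kc c τ * τ) (Set.Ioi 0) :=
  diff_int measurable_id (C := 1) (fun τ hτ => by rw [id, abs_of_pos hτ, one_mul]) hc
    (by positivity)

lemma Bm_int (h : LD g B C0) (hc : 0 < c) (y : ℝ) :
    IntegrableOn (fun τ => kc c τ * Br B τ y) (Set.Ioi 0) :=
  diff_int (Br_mono2 h y).measurable (C := C0 * (1 + y ^ 2))
    (fun τ hτ => (Br_bd h hτ y).trans (le_of_eq (by ring))) hc (by positivity)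

lemma Bm_mono (h : LD g B C0) (hc : 0 < c) : Monotone (Bm B c) := fun a b hab => by
  refine setIntegral_mono_on (Bm_int h hc a) (Bm_int h hc b) measurableSet_Ioi fun τ hτ => ?_
  exact mul_le_mul_of_nonneg_left (Br_mono1 h τ hab) (kc_nonneg hc (le_of_lt hτ))

lemma Bm_bd (h : LD g B C0) (hc : 0 < c) (y : ℝ) : |Bm B c y| ≤ (π / 2 * c * C0) * (1 + y ^ 2) := by
  unfold Bm
  refine (abs_integral_le_integral_abs).trans ?_
  calc ∫ τ in Set.Ioi (0 : ℝ), |kc c τ * Br B τ y| ≤
      ∫ τ in Set.Ioi (0 : ℝ), (C0 * (1 + y ^ 2)) * (kc c τ * τ) := by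
        refine setIntegral_mono_on (Bm_int h hc y).abs ((kci hc).const_mul _)
          measurableSet_Ioi fun τ hτ => ?_
        rw [abs_mul, abs_of_nonneg (kc_nonneg hc (le_of_lt hτ))]
        have h1 := mul_le_mul_of_nonneg_left (Br_bd h hτ y) (kc_nonneg hc (le_of_lt hτ))
        linarith
    _ = _ := by
        rw [integral_const_mul, kc_mass hc]
        ring

lemma Bm_neg (h : LD g B C0) {y : ℝ} (hy : y < 0) : Bm B c y = 0 := by
  unfold Bm
  have : ∀ τ, kc c τ * Br B τ y = 0 := fun τ => by rw [Br_neg h τ hy, mul_zero]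
  simp_rw [this]
  simp

lemma Bm_ge (h : LD g B C0) (hc : 0 < c) {y : ℝ} (hy : 0 ≤ y) : π / 2 * c ≤ Bm B c y := by
  rw [← kc_mass hc]
  exact setIntegral_mono_on (kci hc) (Bm_int h hc y) measurableSet_Ioi fun τ hτ =>
    mul_le_mul_of_nonneg_left (Br_diag h hτ hy) (kc_nonneg hc (le_of_lt hτ))

lemma Lam_Bm (h : LD g B C0) (hK : TK κ K) (hc : 0 < c) :
    Lam (Bm B c) K = ∫ τ in Set.Ioi (0 : ℝ), kc c τ * Lam (Br B τ) K := by
  have hint : Integrable (Function.uncurry fun y τ : ℝ => kc c τ * Br B τ y * dct K y)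
      (volume.prod (volume.restrict (Set.Ioi 0))) := by
    obtain ⟨D, hD0, hD⟩ := dct_decay 2 hK
    have hm1 : Measurable fun p : ℝ × ℝ => Br B p.2 p.1 :=
      (Br_meas h).comp (measurable_snd.prodMk measurable_fst)
    have hm2 : Measurable fun p : ℝ × ℝ => kc c p.2 * Br B p.2 p.1 * dct K p.1 :=
      (((kc_cont hc).measurable.comp measurable_snd).mul hm1).mul
        ((dct_cont hK).measurable.comp measurable_fst)
    refine ((integrable_inv_one_add_sq.const_mul (C0 * D)).mul_prod (kci hc).norm).mono'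
      hm2.aestronglyMeasurable (Eventually.of_forall fun p => ?_)
    obtain ⟨y, τ⟩ := p
    show ‖kc c τ * Br B τ y * dct K y‖ ≤ C0 * D * (1 + y ^ 2)⁻¹ * ‖kc c τ * τ‖
    have hC0 := h.pos
    rcases le_or_gt τ 0 with hτ | hτ
    · rw [Br_zero h hτ, mul_zero, zero_mul, norm_zero]
      positivity
    · rw [norm_mul, norm_mul, norm_mul, Real.norm_eq_abs, Real.norm_eq_abs, Real.norm_eq_abs,
        Real.norm_eq_abs, abs_of_pos hτ]
      calc |kc c τ| * |Br B τ y| * |dct K y| ≤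
          |kc c τ| * (C0 * τ * (1 + y ^ 2)) * (D / (1 + y ^ 2) ^ 2) :=
            mul_le_mul (mul_le_mul_of_nonneg_left (Br_bd h hτ y) (abs_nonneg _)) (hD y)
              (abs_nonneg _) (by positivity)
        _ = _ := by field_simp
  unfold Lam Bm
  have e1 : ∀ y, (∫ τ in Set.Ioi (0 : ℝ), kc c τ * Br B τ y) * dct K y =
      ∫ τ in Set.Ioi (0 : ℝ), kc c τ * Br B τ y * dct K y := fun y => by
    rw [integral_mul_const]
  simp_rw [e1]
  rw [integral_integral_swap hint, ← integral_neg]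
  refine integral_congr_ae (Eventually.of_forall fun τ => ?_)
  show -∫ y, kc c τ * Br B τ y * dct K y = kc c τ * -∫ y, Br B τ y * dct K y
  rw [mul_neg, neg_inj, ← integral_const_mul]
  refine integral_congr_ae (Eventually.of_forall fun y => ?_)
  show _ = _
  ring

/-- the discrepancy -/
noncomputable def Dc (B : ℝ → ℝ → ℝ) (c : ℝ) (K : ℝ → ℝ) : ℝ :=
  Lam (Bm B c) K - π / 2 * c * Lam AG K

lemma Dc_sub (h : LD g B C0) (hc : 0 < c) (hK : TK κ K) {K' : ℝ → ℝ} (hK' : TK κ K') :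
    Dc B c (fun α => K α - K' α) = Dc B c K - Dc B c K' := by
  unfold Dc
  rw [Lam_sub (Bm_mono h hc).measurable (Bm_bd h hc) hK hK', Lam_sub AG_meas AG_bound hK hK']
  ring

lemma Dc_smul (K : ℝ → ℝ) (a : ℝ) : Dc B c (fun α => a * K α) = a * Dc B c K := by
  unfold Dc
  rw [Lam_smul, Lam_smul]
  ring

lemma Dc_mont (RH : RiemannHypothesis) (hgt : (g : Filter ℝ) ≤ atTop) (h : LD g B C0)
    (hc : 0 < c) (hK : TK κ K) (hκ0 : 0 < κ) (hκ : κ < 1) : Dc B c K = 0 := by
  unfold Dc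
  rw [Lam_Bm h hK hc, ← kc_mass hc, ← integral_mul_const, sub_eq_zero]
  refine setIntegral_congr_fun measurableSet_Ioi fun τ hτ => ?_
  show kc c τ * Lam (Br B τ) K = kc c τ * τ * Lam AG K
  rw [Lam_mont RH hgt h hK hκ0 hκ hτ]
  ring

/-- the cutoff -/
noncomputable def chi (η α : ℝ) : ℝ :=
  Real.smoothTransition (((1 - η) ^ 2 - α ^ 2) / ((1 - η) ^ 2 - (1 - 2 * η) ^ 2))

lemma chi_den {η : ℝ} (hη : 0 < η) (hη1 : η < 1 / 4) : 0 < (1 - η) ^ 2 - (1 - 2 * η) ^ 2 := by
  nlinarith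

lemma chi_smooth (η : ℝ) : ContDiff ℝ ∞ (chi η) := by
  unfold chi
  exact Real.smoothTransition.contDiff.comp
    ((contDiff_const.sub (contDiff_id.pow 2)).div_const _)

lemma chi_nonneg (η α : ℝ) : 0 ≤ chi η α := Real.smoothTransition.nonneg _

lemma chi_le (η α : ℝ) : chi η α ≤ 1 := Real.smoothTransition.le_one _

lemma chi_one {η α : ℝ} (hη : 0 < η) (hη1 : η < 1 / 4) (hα : |α| ≤ 1 - 2 * η) : chi η α = 1 := by
  refine Real.smoothTransition.one_of_one_le ?_
  rw [le_div_iff₀ (chi_den hη hη1), one_mul]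
  have : α ^ 2 ≤ (1 - 2 * η) ^ 2 := by
    rw [← sq_abs]
    exact pow_le_pow_left₀ (abs_nonneg _) hα 2
  linarith

lemma chi_zero {η α : ℝ} (hη : 0 < η) (hη1 : η < 1 / 4) (hα : 1 - η ≤ |α|) : chi η α = 0 := by
  refine Real.smoothTransition.zero_of_nonpos ?_
  refine div_nonpos_of_nonpos_of_nonneg ?_ (chi_den hη hη1).le
  have : (1 - η) ^ 2 ≤ α ^ 2 := by
    rw [← sq_abs α]
    exact pow_le_pow_left₀ (by linarith) hα 2
  linarith

lemma TK_chi (hK : TK κ K) (η : ℝ) : TK κ fun α => K α * chi η α where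
  smooth := hK.smooth.mul (chi_smooth η)
  even := fun x => by
    show K (-x) * chi η (-x) = K x * chi η x
    rw [hK.even]
    unfold chi
    rw [neg_sq]
  supp := fun x hx => by
    show K x * chi η x = 0
    rw [hK.supp x hx, zero_mul]

lemma TK_chi' (hK : TK κ K) {η : ℝ} (hη : 0 < η) (hη1 : η < 1 / 4) :
    TK (1 - η) fun α => K α * chi η α where
  smooth := (TK_chi hK η).smooth
  even := (TK_chi hK η).even
  supp := fun x hx => by
    show K x * chi η x = 0
    rw [chi_zero hη hη1 hx.le, mul_zero]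

lemma half0 (hK : TK κ K) (hκ : 0 ≤ κ) : ∫ α in (0 : ℝ)..κ, K α = (∫ α, K α) / 2 := by
  have h1 : ∫ α, K |α| = 2 * ∫ α in Set.Ioi (0 : ℝ), K α := integral_comp_abs
  have h2 : ∫ α, K |α| = ∫ α, K α := by
    refine integral_congr_ae (Eventually.of_forall fun α => ?_)
    show K |α| = K α
    rcases abs_choice α with h | h
    · rw [h]
    · rw [h, hK.even]
  have h3 : ∫ α in Set.Ioi (0 : ℝ), K α = ∫ α in (0 : ℝ)..κ, K α := by
    rw [intervalIntegral.integral_of_le hκ]
    refine setIntegral_eq_of_subset_of_forall_sdiff_eq_zero measurableSet_Ioi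
      Set.Ioc_subset_Ioi_self fun x hx => ?_
    refine hK.supp x ?_
    have h4 : 0 < x := hx.1
    rw [abs_of_pos h4]
    by_contra hcon
    exact hx.2 ⟨h4, not_lt.1 hcon⟩
  rw [h2, h3] at h1
  linarith

/-- the discrepancy is at most zero -/
lemma Dc_nonpos (RH : RiemannHypothesis) (hgt : (g : Filter ℝ) ≤ atTop) (h : LD g B C0)
    (hU : HypU) (hκ : 1 ≤ κ) (hc : 0 < c) (hK : TK κ K) (hpos : ∀ x, 0 ≤ K x) :
    Dc B c K ≤ 0 := by
  obtain ⟨C, hC, hup⟩ := mix_upper RH hgt h hU hκ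
  obtain ⟨M, hM⟩ := hK.hcs.exists_bound_of_continuous hK.cont
  have hM0 : 0 ≤ M := (norm_nonneg _).trans (hM 0)
  have hpi := Real.pi_pos
  have key : ∀ η : ℝ, 0 < η → η < 1 / 4 → Dc B c K ≤ π * c * (1 + C) * (2 * M) * η := by
    intro η hη hη1
    have hK1 := TK_chi' hK hη hη1
    have hK1' := TK_chi hK η
    have hz := Dc_mont RH hgt h hc hK1 (by linarith) (by linarith)
    have hK2 := TK_sub hK hK1'
    set K2 : ℝ → ℝ := fun α => K α - K α * chi η α with hK2d
    have e : Dc B c K2 = Dc B c K := by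
      rw [hK2d, Dc_sub h hc hK hK1', hz, sub_zero]
    have hK2e : ∀ α, K2 α = K α * (1 - chi η α) := fun α => by
      simp only [hK2d]
      ring
    have hp2 : ∀ x, 0 ≤ K2 x := fun x => by
      rw [hK2e]
      exact mul_nonneg (hpos x) (by linarith [chi_le η x])
    have hM2 : ∀ x, K2 x ≤ M := fun x => by
      rw [hK2e]
      have h1 := hM x
      rw [Real.norm_eq_abs, abs_of_nonneg (hpos x)] at h1
      have := chi_nonneg η x
      nlinarith [hpos x]
    have hz2 : ∀ x, |x| ≤ 1 - 2 * η → K2 x = 0 := fun x hx => by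
      rw [hK2e, chi_one hη hη1 hx, sub_self, mul_zero]
    have h0 : ∀ x, 0 < x → x < 1 / 2 → K2 x = 0 := fun x hx hx2 =>
      hz2 x (by rw [abs_of_pos hx]; linarith)
    have h1 := hup K2 hK2 hp2 h0 c hc
    rw [← Lam_Bm h hK2 hc, half0 hK2 (by linarith)] at h1
    have h2 : ∫ α in (0 : ℝ)..1, K2 α ≤ 2 * M * η := by
      have h3 : IntervalIntegrable K2 volume 0 (1 - 2 * η) := hK2.cont.intervalIntegrable _ _
      have h4 : IntervalIntegrable K2 volume (1 - 2 * η) 1 := hK2.cont.intervalIntegrable _ _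
      rw [← intervalIntegral.integral_add_adjacent_intervals h3 h4]
      have h5 : ∫ α in (0 : ℝ)..(1 - 2 * η), K2 α = 0 := by
        rw [intervalIntegral.integral_congr (g := fun _ => (0 : ℝ))]
        · simp
        · intro x hx
          rw [Set.uIcc_of_le (by linarith)] at hx
          exact hz2 x (by rw [abs_of_nonneg hx.1]; exact hx.2)
      have h6 : ∫ α in (1 - 2 * η)..1, K2 α ≤ ∫ _ in (1 - 2 * η)..1, M :=
        intervalIntegral.integral_mono_on (by linarith) h4 (by simp) fun x _ => hM2 x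
      rw [intervalIntegral.integral_const, smul_eq_mul] at h6
      rw [h5, zero_add]
      linarith
    have h7 : ∫ α, K2 α * (1 - min |α| 1) ≤ 4 * M * η := by
      have hcm : Continuous fun α : ℝ => K2 α * (1 - min |α| 1) := by
        have := hK2.cont
        fun_prop
      have h8 : ∫ α, K2 α * (1 - min |α| 1) = ∫ α in Set.Icc (-1 : ℝ) 1,
          K2 α * (1 - min |α| 1) := by
        symm
        refine setIntegral_eq_integral_of_forall_compl_eq_zero fun x hx => ?_
        have h9 : 1 ≤ |x| := by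
          by_contra hcon
          push Not at hcon
          exact hx (abs_le.1 hcon.le)
        rw [min_eq_right h9, sub_self, mul_zero]
      rw [h8]
      calc ∫ α in Set.Icc (-1 : ℝ) 1, K2 α * (1 - min |α| 1) ≤
          ∫ _ in Set.Icc (-1 : ℝ) 1, M * (2 * η) := by
            refine setIntegral_mono_on hcm.continuousOn.integrableOn_Icc
              continuousOn_const.integrableOn_Icc measurableSet_Icc fun x hx => ?_
            rcases le_or_gt |x| (1 - 2 * η) with hx2 | hx2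
            · rw [hz2 x hx2, zero_mul]
              positivity
            · have h9 : |x| ≤ 1 := abs_le.2 hx
              rw [min_eq_left h9]
              exact mul_le_mul (hM2 x) (by linarith) (by linarith) hM0
        _ = 4 * M * η := by
            rw [setIntegral_const]
            simp
            ring
    have h10 : Lam AG K2 = ∫ α, K2 α * min |α| 1 := by
      rw [Lam_AG hK2, hz2 0 (by simp; linarith), zero_add]
    have h11 : ∫ α, K2 α * (1 - min |α| 1) = (∫ α, K2 α) - Lam AG K2 := by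
      rw [h10, ← integral_sub hK2.integrable]
      · refine integral_congr_ae (Eventually.of_forall fun α => ?_)
        show _ = _
        ring
      · refine (hK2.cont.mul mn_cont).integrable_of_hasCompactSupport ?_
        exact hK2.hcs.mul_right
    rw [← e]
    unfold Dc
    rw [h11] at h7
    have h12 : π * c * ((∫ α, K2 α) / 2 + C * ∫ α in (0 : ℝ)..1, K2 α) ≤
        π * c * ((Lam AG K2 + 4 * M * η) / 2 + C * (2 * M * η)) := by
      have := mul_le_mul_of_nonneg_left h2 hC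
      refine mul_le_mul_of_nonneg_left ?_ (by positivity)
      linarith
    have h13 : π * c * ((Lam AG K2 + 4 * M * η) / 2 + C * (2 * M * η)) =
        π / 2 * c * Lam AG K2 + π * c * (1 + C) * (2 * M) * η := by ring
    linarith
  have hlim : Tendsto (fun η : ℝ => π * c * (1 + C) * (2 * M) * η) (𝓝[>] 0)
      (𝓝 (π * c * (1 + C) * (2 * M) * 0)) :=
    ((by fun_prop : Continuous fun η : ℝ => π * c * (1 + C) * (2 * M) * η).tendsto 0).mono_left
      nhdsWithin_le_nhds
  rw [mul_zero] at hlim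
  refine ge_of_tendsto hlim ?_
  filter_upwards [eventually_mem_nhdsWithin, nhdsWithin_le_nhds (Iio_mem_nhds
    (show (0 : ℝ) < 1 / 4 by norm_num))] with η hη hη1
  exact key η hη hη1

/-- the discrepancy at long test functions -/
lemma Dc_str (RH : RiemannHypothesis) (hgt : (g : Filter ℝ) ≤ atTop) (h : LD g B C0)
    (hc : 0 < c) {φ0 : ℝ → ℝ} (hφ : TK κ φ0) (hp : ∀ x, 0 ≤ ct φ0 x) :
    ∃ M : ℝ, ∀ s : ℝ, 0 < s → -(M / s ^ 2) ≤ Dc B c (str φ0 s) := by
  refine ⟨π / 2 * c * (π ^ 2 / 3 * ∫ v, ct φ0 v * v ^ 2), fun s hs => ?_⟩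
  have hpi := Real.pi_pos
  have hS := str_TK hφ hs
  have hSp : ∀ y, 0 ≤ ct (str φ0 s) y := fun y => by
    rw [str_ct φ0 hs]
    exact mul_nonneg hs.le (hp _)
  have h1 : π / 2 * c * ct (str φ0 s) 0 ≤ Lam (Bm B c) (str φ0 s) := by
    rw [Lam_Bm h hS hc, ← kc_mass hc, ← integral_mul_const]
    refine setIntegral_mono_on ((kci hc).mul_const _) (Lam_kint h hS hc) measurableSet_Ioi
      fun τ hτ => ?_
    rw [mul_assoc]
    exact mul_le_mul_of_nonneg_left (Lam_low RH hgt h hS hSp hτ) (kc_nonneg hc (le_of_lt hτ))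
  obtain ⟨D, hD0, hD⟩ := hφ.decay 2
  have hi : Integrable fun v => ct φ0 v * v ^ 2 := by
    refine (integrable_inv_one_add_sq.const_mul D).mono'
      (hφ.ct_cont.mul (continuous_id.pow 2)).aestronglyMeasurable (Eventually.of_forall fun y => ?_)
    rw [Real.norm_eq_abs, abs_mul, abs_of_nonneg (sq_nonneg y)]
    have h2 : 0 < 1 + y ^ 2 := by positivity
    calc |ct φ0 y| * y ^ 2 ≤ (D / (1 + y ^ 2) ^ 2) * (1 + y ^ 2) :=
          mul_le_mul (hD y) (by linarith) (by positivity) (by positivity)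
      _ = D * (1 + y ^ 2)⁻¹ := by field_simp
  have h2 : Lam AG (str φ0 s) ≤ ct (str φ0 s) 0 + π ^ 2 / 3 * (∫ v, ct φ0 v * v ^ 2) / s ^ 2 := by
    rw [Lam_AG0 hS]
    have h3 : ∫ y, ct (str φ0 s) y * gd y ≤ ∫ y, π ^ 2 / 3 * (s⁻¹ * (ct φ0 (s * y) * (s * y) ^ 2)) := by
      refine integral_mono_of_nonneg (Eventually.of_forall fun y => mul_nonneg (hSp y)
        (gd_nonneg y)) ((hi.comp_mul_left' hs.ne').const_mul s⁻¹ |>.const_mul _)
        (Eventually.of_forall fun y => ?_)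
      show ct (str φ0 s) y * gd y ≤ π ^ 2 / 3 * (s⁻¹ * (ct φ0 (s * y) * (s * y) ^ 2))
      calc ct (str φ0 s) y * gd y ≤ ct (str φ0 s) y * (π ^ 2 / 3 * y ^ 2) :=
            mul_le_mul_of_nonneg_left (gd_sq y) (hSp y)
        _ = _ := by
            rw [str_ct φ0 hs]
            field_simp
    have h4 : ∫ y, π ^ 2 / 3 * (s⁻¹ * (ct φ0 (s * y) * (s * y) ^ 2)) =
        π ^ 2 / 3 * (∫ v, ct φ0 v * v ^ 2) / s ^ 2 := by
      rw [integral_const_mul, integral_const_mul]
      have h5 := Measure.integral_comp_mul_left (fun v => ct φ0 v * v ^ 2) s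
      rw [h5, smul_eq_mul, abs_of_pos (inv_pos.2 hs)]
      field_simp
    linarith
  unfold Dc
  have h5 : π / 2 * c * Lam AG (str φ0 s) ≤ π / 2 * c * (ct (str φ0 s) 0 +
      π ^ 2 / 3 * (∫ v, ct φ0 v * v ^ 2) / s ^ 2) := mul_le_mul_of_nonneg_left h2 (by positivity)
  have h6 : π / 2 * c * (ct (str φ0 s) 0 + π ^ 2 / 3 * (∫ v, ct φ0 v * v ^ 2) / s ^ 2) =
      π / 2 * c * ct (str φ0 s) 0 + π / 2 * c * (π ^ 2 / 3 * ∫ v, ct φ0 v * v ^ 2) / s ^ 2 := by
    ring
  linarith

/-- the discrepancy vanishes -/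
theorem Dc_zero (RH : RiemannHypothesis) (hgt : (g : Filter ℝ) ≤ atTop) (h : LD g B C0)
    (hU : HypU) (hc : 0 < c) (hK : TK κ K) : Dc B c K = 0 := by
  obtain ⟨φ0, hφ, hφp, hφ1, hφ2, _⟩ := exists_pos2 (κ := 1) one_pos
  obtain ⟨Mp, hMp⟩ := Dc_str RH hgt h hc hφ hφ2
  obtain ⟨δ, hδ, hδ2⟩ := Metric.eventually_nhds_iff.1
    ((hφ.cont.continuousAt (x := 0)).eventually_const_lt (show φ0 0 / 2 < φ0 0 by linarith))
  -- a long test function dominates
  have hdom : ∀ (κ : ℝ) (K : ℝ → ℝ) (M : ℝ), TK κ K → (∀ x, |K x| ≤ M) → ∀ s : ℝ, 1 ≤ s →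
      |κ| / δ < s → ∀ x, |K x| ≤ 2 * M / φ0 0 * str φ0 s x := by
    intro κ K M hK hM s hs1 hs x
    have hs0 : 0 < s := by linarith
    have hM0 : 0 ≤ M := (abs_nonneg _).trans (hM 0)
    rw [str_val φ0 hs0]
    rcases lt_or_ge κ |x| with hx | hx
    · rw [hK.supp x hx, abs_zero]
      have := hφp (s⁻¹ * x)
      positivity
    · have h1 : φ0 0 / 2 < φ0 (s⁻¹ * x) := by
        refine hδ2 ?_
        rw [Real.dist_eq, sub_zero, abs_mul, abs_of_pos (inv_pos.2 hs0), inv_mul_lt_iff₀ hs0]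
        rw [div_lt_iff₀ hδ] at hs
        exact (hx.trans (le_abs_self κ)).trans_lt hs
      calc |K x| ≤ M := hM x
        _ = 2 * M / φ0 0 * (φ0 0 / 2) := by field_simp
        _ ≤ _ := mul_le_mul_of_nonneg_left h1.le (by positivity)
  have hsmall : ∀ (κ : ℝ) (K : ℝ → ℝ), TK κ K → (∀ x, 0 ≤ K x) → Dc B c K = 0 := by
    intro κ K hK hpos
    refine le_antisymm (Dc_nonpos RH hgt h hU (le_max_right κ 1) hc
      (hK.mono (le_max_left κ 1)) hpos) ?_
    obtain ⟨M, hM⟩ := hK.hcs.exists_bound_of_continuous hK.cont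
    have hM0 : 0 ≤ M := (norm_nonneg _).trans (hM 0)
    have h1 : ∀ s : ℝ, 1 ≤ s → |κ| / δ < s → -(2 * M / φ0 0 * Mp / s ^ 2) ≤ Dc B c K := by
      intro s hs1 hs
      have hs0 : 0 < s := by linarith
      have h2 := hdom κ K M hK hM s hs1 hs
      have hA : TK (max (s * 1) κ) fun x => 2 * M / φ0 0 * str φ0 s x :=
        TK_smul ((str_TK hφ hs0).mono (le_max_left _ _)) _
      have hK' := hK.mono (le_max_right (s * 1) κ)
      have h3 := Dc_nonpos RH hgt h hU (κ := max (s * 1) κ) (by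
        rw [mul_one]
        exact hs1.trans (le_max_left _ _)) hc (TK_sub hA hK') (fun x => by
          have := h2 x
          rw [abs_of_nonneg (hpos x)] at this
          linarith)
      rw [Dc_sub h hc hA hK', Dc_smul] at h3
      have h4 := mul_le_mul_of_nonneg_left (hMp s hs0) (show 0 ≤ 2 * M / φ0 0 by positivity)
      have h5 : 2 * M / φ0 0 * -(Mp / s ^ 2) = -(2 * M / φ0 0 * Mp / s ^ 2) := by ring
      linarith
    have h6 : Tendsto (fun s : ℝ => -(2 * M / φ0 0 * Mp / s ^ 2)) atTop (𝓝 (-0)) :=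
      (tendsto_const_nhds.div_atTop (tendsto_pow_atTop two_ne_zero)).neg
    rw [neg_zero] at h6
    refine le_of_tendsto h6 ?_
    filter_upwards [eventually_ge_atTop 1, eventually_gt_atTop (|κ| / δ)] with s hs1 hs
    exact h1 s hs1 hs
  obtain ⟨M, hM⟩ := hK.hcs.exists_bound_of_continuous hK.cont
  have hM0 : 0 ≤ M := (norm_nonneg _).trans (hM 0)
  obtain ⟨s, hs1, hs⟩ : ∃ s : ℝ, 1 ≤ s ∧ |κ| / δ < s :=
    ⟨max 1 (|κ| / δ + 1), le_max_left _ _, lt_of_lt_of_le (by linarith) (le_max_right _ _)⟩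
  have hs0 : 0 < s := by linarith
  have h2 := hdom κ K M hK hM s hs1 hs
  have hA : TK (max (s * 1) κ) fun x => 2 * M / φ0 0 * str φ0 s x :=
    TK_smul ((str_TK hφ hs0).mono (le_max_left _ _)) _
  have hK' := hK.mono (le_max_right (s * 1) κ)
  have h3 := hsmall _ _ hA (fun x => (abs_nonneg _).trans (h2 x))
  have h4 := hsmall _ _ (TK_sub hA hK') (fun x => by
    have := (le_abs_self _).trans (h2 x)
    linarith)
  rw [Dc_sub h hc hA hK', h3] at h4
  linarith

end Pool.Agent.H7.PS
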