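import Pool.Agent.H7.PS.Lim5

/-! The pair correlation conjecture from the upper bounds on the side of the primes. -/

open MeasureTheory Filter Topology Real
open scoped ENNReal ContDiff

namespace Pool.Agent.H7.PS

open H370 TH803TW Pool.Agent.Y744 Pool.Agent.Y744.ANC Pool.Agent.H7.FF
open Pool.Agent.Results.MP_103a5c_nt.BohrSetPairs

variable {κ : ℝ} {K : ℝ → ℝ} {g : Ultrafilter ℝ} {B : ℝ → ℝ → ℝ} {C0 : ℝ} {c : ℝ}

/-- equality of the functionals determines the counting function -/
theorem rigid_eq {A' : ℝ → ℝ} (hA' : Monotone A') (hneg : ∀ y, y < 0 → A' y = 0)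
    (hb : ∀ y, |A' y| ≤ C0 * (1 + y ^ 2)) (h0 : 1 ≤ A' 0)
    (hD : ∀ κ K, TK κ K → Lam A' K = Lam AG K) (x : ℝ) : A' x = AG x := by
  have hEm := dE_meas hA'
  have hEb := dE_bound hb
  have hC0 : 0 ≤ C0 := by
    have := (abs_nonneg _).trans (hb 0)
    simpa using this
  set H : ℝ → ℝ := fun y => y * dE A' y with hH
  have hHm : Measurable H := measurable_id.mul hEm
  have hHe : ∀ y, H (-y) = H y := by
    intro y
    simp only [hH]
    rw [dE_odd]
    ring
  have hHb : ∀ y, |H y| ≤ (2 * C0 + 4) * (1 + y ^ 2) ^ 2 := by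
    intro y
    simp only [hH]
    rw [abs_mul]
    calc |y| * |dE A' y| ≤ (1 + y ^ 2) * ((2 * C0 + 4) * (1 + y ^ 2)) :=
          mul_le_mul (abs_le_one_add_sq y) (hEb y) (abs_nonneg _) (by positivity)
      _ = (2 * C0 + 4) * (1 + y ^ 2) ^ 2 := by ring
  have hHi : ∀ κ K, TK κ K → Integrable fun y => H y * ct K y := by
    intro κ K hK
    obtain ⟨D, hD0, hD⟩ := hK.decay 3
    refine (integrable_inv_one_add_sq.const_mul ((2 * C0 + 4) * D)).mono'
      (hHm.mul hK.ct_cont.measurable).aestronglyMeasurable (Eventually.of_forall fun y => ?_)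
    rw [Real.norm_eq_abs, abs_mul]
    have h1 : 0 < 1 + y ^ 2 := by positivity
    calc |H y| * |ct K y| ≤ ((2 * C0 + 4) * (1 + y ^ 2) ^ 2) * (D / (1 + y ^ 2) ^ 3) :=
          mul_le_mul (hHb y) (hD y) (abs_nonneg _) (by positivity)
      _ = (2 * C0 + 4) * D * (1 + y ^ 2)⁻¹ := by field_simp
  have hHz : ∀ κ K, 0 < κ → TK κ K → ∫ y, H y * ct K y = 0 := by
    intro κ K hκ hK
    have h1 := Lam_K2 hκ hK hA' hb hneg
    rw [hD κ (K2 K) (K2_TK hκ hK), sub_self] at h1
    simp only [hH]
    linarith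
  obtain ⟨R, hR, _, _, hRp, hR0⟩ := exists_pos2 (κ := 1) one_pos
  have key : ∀ ε : ℝ, 0 < ε → ∀ᵐ y, H y * ct R (ε * y) = 0 := by
    intro ε hε
    have h1 := hR.dil hε
    set Rε : ℝ → ℝ := fun α => ε⁻¹ * R (ε⁻¹ * α) with hRε
    have hct : ∀ y, ct Rε y = ct R (ε * y) := fun y => TK.ct_dil R hε y
    refine even_zero (h := fun y => H y * ct R (ε * y)) ?_ ?_ ?_ ?_
    · exact hHm.mul (hR.ct_cont.comp (by fun_prop)).measurable
    · refine (hHi _ _ h1).congr (Eventually.of_forall fun y => ?_)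
      show H y * ct Rε y = H y * ct R (ε * y)
      rw [hct]
    · intro y
      show H (-y) * ct R (ε * (-y)) = H y * ct R (ε * y)
      rw [hHe, mul_neg, TK.ct_neg]
    · intro s
      set s' : ℝ := s / (2 * π) with hs'
      have hpi := Real.pi_pos
      have hss : 2 * π * s' = s := by
        rw [hs']
        field_simp
      have h2 := h1.modul s'
      set Ms : ℝ → ℝ := fun α => (Rε (α - s') + Rε (α + s')) / 2 with hMs
      have hcM : ∀ y, ct Ms y = Real.cos (s * y) * ct Rε y := by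
        intro y
        rw [hMs, h1.ct_modul s' y, hss]
      have h3 := hHz _ _ (by positivity) h2
      rw [← h3]
      refine integral_congr_ae (Eventually.of_forall fun y => ?_)
      show H y * ct R (ε * y) * Real.cos (s * y) = H y * ct Ms y
      rw [hcM, hct]
      ring
  obtain ⟨δ, hδ, hδ2⟩ := Metric.eventually_nhds_iff.1
    ((hR.ct_cont.continuousAt (x := 0)).eventually_const_lt hR0)
  have hall : ∀ᵐ y, ∀ n : ℕ, H y * ct R (1 / ((n : ℝ) + 1) * y) = 0 := by
    rw [ae_all_iff]
    intro n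
    exact key _ (by positivity)
  have hn0 : ∀ᵐ x : ℝ, x ≠ 0 := by
    rw [ae_iff]
    simp
  have hfin : ∀ᵐ y, dE A' y = 0 := by
    filter_upwards [hall, hn0] with y hy hy0
    obtain ⟨n, hn⟩ := exists_nat_gt (|y| / δ)
    have h1 := hy n
    have h2 : 0 < ct R (1 / ((n : ℝ) + 1) * y) := by
      refine hδ2 ?_
      rw [Real.dist_eq, sub_zero, abs_mul, abs_of_pos (by positivity), one_div,
        inv_mul_lt_iff₀ (by positivity)]
      rw [div_lt_iff₀ hδ] at hn
      linarith
    have h3 := (mul_eq_zero.1 h1).resolve_right h2.ne'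
    exact (mul_eq_zero.1 h3).resolve_left hy0
  exact limit_anchored hA' hneg hb h0 hfin x

lemma Bm_eq (RH : RiemannHypothesis) (hgt : (g : Filter ℝ) ≤ atTop) (h : LD g B C0)
    (hU : HypU) (hc : 0 < c) (y : ℝ) : Bm B c y = AG y * (π / 2 * c) := by
  have hpi := Real.pi_pos
  have hp : 0 < π / 2 * c := by positivity
  have h1 := rigid_eq (A' := fun y => (π / 2 * c)⁻¹ * Bm B c y) (C0 := C0)
    (fun a b hab => mul_le_mul_of_nonneg_left (Bm_mono h hc hab) (inv_nonneg.2 hp.le))
    (fun y hy => by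
      show (π / 2 * c)⁻¹ * Bm B c y = 0
      rw [Bm_neg h hy, mul_zero])
    (fun y => by
      show |(π / 2 * c)⁻¹ * Bm B c y| ≤ _
      rw [abs_mul, abs_of_pos (inv_pos.2 hp), inv_mul_le_iff₀ hp]
      refine (Bm_bd h hc y).trans (le_of_eq ?_)
      ring)
    (by
      show 1 ≤ (π / 2 * c)⁻¹ * Bm B c 0
      rw [← div_eq_inv_mul, one_le_div hp]
      exact Bm_ge h hc le_rfl)
    (fun κ K hK => by
      have h2 := Dc_zero RH hgt h hU hc hK
      unfold Dc at h2
      have h3 : Lam (fun y => (π / 2 * c)⁻¹ * Bm B c y) K = (π / 2 * c)⁻¹ * Lam (Bm B c) K := by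
        unfold Lam
        rw [mul_neg, ← integral_const_mul]
        congr 1
        refine integral_congr_ae (Eventually.of_forall fun y => ?_)
        show _ = _
        ring
      rw [h3, sub_eq_zero.1 h2, ← mul_assoc, inv_mul_cancel₀ hp.ne', one_mul]) y
  rw [← h1]
  field_simp

lemma Br_eq (RH : RiemannHypothesis) (hgt : (g : Filter ℝ) ≤ atTop) (h : LD g B C0)
    (hU : HypU) {τ : ℝ} (hτ : 0 < τ) (y : ℝ) : Br B τ y = AG y * τ := by
  refine kc_unique_mono (B := fun τ => Br B τ y) (Br_mono2 h y) (C := C0 * (1 + y ^ 2))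
    (fun τ hτ => (Br_bd h hτ y).trans (le_of_eq (by ring))) (fun c hc => ?_) hτ
  rw [kc_mass hc]
  exact Bm_eq RH hgt h hU hc y

lemma AG_zero : AG 0 = 1 := by
  unfold AG gp
  simp

lemma B_eq (RH : RiemannHypothesis) (hgt : (g : Filter ℝ) ≤ atTop) (h : LD g B C0)
    (hU : HypU) (y : ℝ) : B 1 y = AG y := by
  have h1 : B 1 y ≤ AG y := by
    have := Br_le h 1 y
    rwa [Br_eq RH hgt h hU one_pos, mul_one] at this
  rcases lt_trichotomy y 0 with hy | rfl | hy
  · rw [h.neg 1 y hy]
    unfold AG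
    rw [if_pos hy]
  · refine le_antisymm h1 ?_
    rw [AG_zero]
    exact h.diag 1 0 one_pos le_rfl
  · refine le_antisymm h1 ?_
    have h2 : ∀ x, x < y → AG x ≤ B 1 y := by
      intro x hx
      have h3 := (h.mono1 1).rightLim_le hx
      have h4 : Function.rightLim (B 1) x = AG x := by
        have := Br_eq RH hgt h hU one_pos x
        rwa [mul_one] at this
      rwa [h4] at h3
    have h5 : Tendsto AG (𝓝[<] y) (𝓝 (AG y)) := by
      have h6 : Tendsto (fun x => 1 + 2 * gp x) (𝓝[<] y) (𝓝 (1 + 2 * gp y)) := by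
        have hgc : Continuous gp := by
          unfold gp
          exact intervalIntegral.continuous_primitive
            (fun a b => gd_cont.intervalIntegrable a b) 0
        exact (continuous_const.add (continuous_const.mul hgc)).continuousAt.tendsto.mono_left
          nhdsWithin_le_nhds
      rw [AG_eq hy]
      refine h6.congr' ?_
      filter_upwards [nhdsWithin_le_nhds (Ioi_mem_nhds hy)] with x hx
      rw [AG_eq hx]
    exact le_of_tendsto h5 (eventually_mem_nhdsWithin.mono fun x hx => h2 x hx)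

/-- **the limits of the counting functions** -/
theorem Aa_limit (RH : RiemannHypothesis) (hU : HypU) (y : ℝ) :
    Tendsto (fun T => Aa T y) atTop (𝓝 (AG y)) := by
  rw [tendsto_iff_ultrafilter]
  intro g hg
  obtain ⟨B, C0, h⟩ := exists_LD RH g hg
  rw [← B_eq RH hg h hU y]
  have := h.lim 1 y
  refine this.congr fun T => ?_
  unfold BB Aa PC
  rw [one_mul]

end Pool.Agent.H7.PS
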