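import Pool.Agent.H7.PS.PU

/-! Upper bounds for modified mean squares, the weight living on `α > 1`. -/

open MeasureTheory Filter Topology Real
open scoped ENNReal

namespace Pool.Agent.H7.PS

/-- the majorant of the weight -/
noncomputable def WW (T p κ q1 q2 : ℝ) (f : ℝ → ℝ) (X : ℝ) : ℝ≥0∞ :=
  if X ≤ T ^ p then ENNReal.ofReal q1
  else if X ≤ T ^ (κ + 1) then ENNReal.ofReal (f (Real.log X / Real.log T))
  else ENNReal.ofReal (q2 * X ^ (-3 : ℝ))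

lemma RF_le_WW {T R p κ q1 q2 : ℝ} {f : ℝ → ℝ} {Ω : ℝ → ℝ≥0∞}
    (h1 : ∀ X, 0 < X → X ≤ T ^ p → ∀ a ∈ Set.Ico X (2 * X),
      Ω (Real.log a) ≤ ENNReal.ofReal q1)
    (h2 : ∀ X, 0 < X → T ^ p < X → X ≤ T ^ (κ + 1) → ∀ a ∈ Set.Ico X (2 * X),
      Ω (Real.log a) ≤ ENNReal.ofReal (f (Real.log X / Real.log T)))
    (h3 : ∀ X, 0 < X → T ^ (κ + 1) < X → ∀ a ∈ Set.Ico X (2 * X),
      Ω (Real.log a) ≤ ENNReal.ofReal (q2 * X ^ (-3 : ℝ))) :
    RF R Ω ≤ ∫⁻ X in Set.Ioi (0 : ℝ), ENNReal.ofReal (X ^ (-4 : ℤ)) *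
      (WW T p κ q1 q2 f X * BI R X) := by
  refine RF_W (R := R) (Ω := Ω) (W := WW T p κ q1 q2 f) fun X hX a ha => ?_
  unfold WW
  split_ifs with i1 i2
  · exact h1 X hX i1 a ha
  · exact h2 X hX (not_le.1 i1) i2 a ha
  · exact h3 X hX (not_le.1 i2) a ha

lemma low_piece' {T R q p : ℝ} (hT : 1 < T) (hR : 3 < R) (hq : 0 ≤ q) :
    ∫⁻ X in Set.Ioc 0 (T ^ p), ENNReal.ofReal (X ^ (-4 : ℤ)) *
      (ENNReal.ofReal q * BI R X) ≤
    ENNReal.ofReal (q * (4 * cC ^ 2) / (R - 3) * T ^ p) := by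
  have hR3 : 0 < R - 3 := by linarith
  have h1 : ∫⁻ X in Set.Ioc 0 (T ^ p), ENNReal.ofReal (X ^ (-4 : ℤ)) *
      (ENNReal.ofReal q * BI R X) ≤
      ∫⁻ _ in Set.Ioc 0 (T ^ p), ENNReal.ofReal (q * (4 * cC ^ 2) / (R - 3)) := by
    refine setLIntegral_mono' measurableSet_Ioc fun X hX => ?_
    have hX0 : 0 < X := hX.1
    refine (mul_le_mul_right (mul_le_mul_right (BI_crude hX0 hR) _) _).trans (le_of_eq ?_)
    rw [← ENNReal.ofReal_mul hq, ← ENNReal.ofReal_mul (by positivity)]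
    congr 1
    have e1 : X ^ (-4 : ℤ) = 1 / X ^ 4 := by
      rw [zpow_neg, one_div]
      norm_cast
    rw [e1]
    field_simp
  refine h1.trans (le_of_eq ?_)
  rw [setLIntegral_const, Real.volume_Ioc, sub_zero, ← ENNReal.ofReal_mul (by positivity)]

/-- the three ranges -/
lemma WW_three {T R p κ Cs q1 q2 : ℝ} (hT : 1 < T) (hR : 3 < R) (hp : p ≤ κ + 1)
    (hκ : 0 ≤ κ + 1) (hC : 0 ≤ Cs) (hq1 : 0 ≤ q1) (hq2 : 0 ≤ q2) {f : ℝ → ℝ} (hf : Continuous f)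
    (hf0 : ∀ x, 0 ≤ f x) {BJ : ℝ → ℝ≥0∞}
    (hlow : ∀ X, 0 < X → X ≤ T ^ p → BJ X ≤ BI R X)
    (hhigh : ∀ X, T ^ (κ + 1) < X → BJ X ≤ BI R X)
    (hmid : ∀ X, T ^ p ≤ X → X ≤ T ^ (κ + 1) →
      BJ X ≤ ENNReal.ofReal (Cs * (Real.log T * X ^ 3 / R ^ 2))) :
    ∫⁻ X in Set.Ioi (0 : ℝ), ENNReal.ofReal (X ^ (-4 : ℤ)) * (WW T p κ q1 q2 f X * BJ X) ≤
      ENNReal.ofReal (q1 * (4 * cC ^ 2) / (R - 3) * T ^ p +
      Real.log T ^ 2 / R ^ 2 * (Cs * ∫ α in p..(κ + 1), f α) +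
      q2 * (4 * cC ^ 2) / (R - 3) * (T ^ (κ + 1)) ^ (-2 : ℝ)) := by
  have hT0 : 0 < T := by linarith
  have hR3 : 0 < R - 3 := by linarith
  have e13 : T ^ p ≤ T ^ (κ + 1) := Real.rpow_le_rpow_of_exponent_le hT.le hp
  have e01 : 0 < T ^ p := by positivity
  have hA : 1 ≤ T ^ (κ + 1) := Real.one_le_rpow hT.le hκ
  have hsplit : Set.Ioi (0 : ℝ) ⊆ Set.Ioc 0 (T ^ p) ∪
      (Set.Ioc (T ^ p) (T ^ (κ + 1)) ∪ Set.Ioi (T ^ (κ + 1))) := by
    intro x hx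
    have hx0 : 0 < x := hx
    by_cases j1 : x ≤ T ^ p
    · exact Or.inl ⟨hx0, j1⟩
    · by_cases j3 : x ≤ T ^ (κ + 1)
      · exact Or.inr (Or.inl ⟨not_le.1 j1, j3⟩)
      · exact Or.inr (Or.inr (not_le.1 j3))
  obtain ⟨G, hG⟩ : ∃ G : ℝ → ℝ≥0∞, G = fun X => ENNReal.ofReal (X ^ (-4 : ℤ)) *
      (WW T p κ q1 q2 f X * BJ X) := ⟨_, rfl⟩
  have hL2 : 0 ≤ Real.log T ^ 2 / R ^ 2 := by positivity
  have hs : ∫⁻ X in Set.Ioi (0 : ℝ), G X ≤ (∫⁻ X in Set.Ioc 0 (T ^ p), G X) +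
      ((∫⁻ X in Set.Ioc (T ^ p) (T ^ (κ + 1)), G X) +
        ∫⁻ X in Set.Ioi (T ^ (κ + 1)), G X) := by
    refine (lintegral_mono_set hsplit).trans ?_
    refine (lintegral_union_le _ _ _).trans ?_
    exact add_le_add le_rfl (lintegral_union_le _ _ _)
  have g1 : ∫⁻ X in Set.Ioc 0 (T ^ p), G X ≤
      ENNReal.ofReal (q1 * (4 * cC ^ 2) / (R - 3) * T ^ p) := by
    refine le_trans ?_ (low_piece' hT hR hq1)
    refine setLIntegral_mono' measurableSet_Ioc fun X hX => ?_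
    rw [hG]
    simp only [WW, if_pos hX.2]
    exact mul_le_mul_right (mul_le_mul_right (hlow X hX.1 hX.2) _) _
  have g3 : ∫⁻ X in Set.Ioc (T ^ p) (T ^ (κ + 1)), G X ≤
      ENNReal.ofReal (Real.log T ^ 2 / R ^ 2 * (Cs * ∫ α in p..(κ + 1), f α)) := by
    refine le_trans (le_of_eq ?_) (piece (a := p) (b := κ + 1) (B := BJ) hT hp
      hC hf hf0 fun X hX1 hX2 => hmid X hX1 hX2)
    refine setLIntegral_congr_fun measurableSet_Ioc fun X hX => ?_
    rw [hG]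
    simp only [WW, if_neg (not_le.2 hX.1), if_pos hX.2]
  have g4 : ∫⁻ X in Set.Ioi (T ^ (κ + 1)), G X ≤
      ENNReal.ofReal (q2 * (4 * cC ^ 2) / (R - 3) * (T ^ (κ + 1)) ^ (-2 : ℝ)) := by
    refine le_trans ?_ (high_piece hA hR hq2)
    refine setLIntegral_mono' measurableSet_Ioi fun X hX => ?_
    rw [hG]
    have hX' : T ^ (κ + 1) < X := hX
    simp only [WW, if_neg (not_le.2 (e13.trans_lt hX')), if_neg (not_le.2 hX')]
    exact mul_le_mul_right (mul_le_mul_right (hhigh X hX') _) _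
  have hG' : ∫⁻ X in Set.Ioi (0 : ℝ), ENNReal.ofReal (X ^ (-4 : ℤ)) *
      (WW T p κ q1 q2 f X * BJ X) = ∫⁻ X in Set.Ioi (0 : ℝ), G X := by rw [hG]
  rw [hG']
  refine (hs.trans (add_le_add g1 (add_le_add g3 g4))).trans (le_of_eq ?_)
  have i2 : 0 ≤ ∫ α in p..(κ + 1), f α :=
    intervalIntegral.integral_nonneg hp fun x _ => hf0 x
  rw [← ENNReal.ofReal_add (by positivity) (by positivity),
    ← ENNReal.ofReal_add (by positivity) (by positivity)]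
  congr 1
  ring

/-- the general bound, for a modified mean square -/
theorem B_genU {X R H1 H2 M0 M1 : ℝ} (hX : 0 < X) (hR : 3 < R) (hH1 : 0 ≤ H1) (hH12 : H1 ≤ H2)
    (hM0 : 0 ≤ M0) (hM1 : 0 ≤ M1) {U : ℝ → ℝ≥0∞}
    (hA : ∀ H, 0 < H → H ≤ H1 → U H ≤ ENNReal.ofReal (M0 * H))
    (hB : ∀ H, H1 < H → H ≤ H2 → U H ≤ ENNReal.ofReal (M1 * H))
    (hC : ∀ H, H2 < H → U H ≤ Ul X H) :
    ∫⁻ H in Set.Ioi (0 : ℝ), ENNReal.ofReal ((1 + H / X) ^ (-R)) * U H ≤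
      ENNReal.ofReal (M0 * H1 ^ 2 + M1 * (X ^ 2 / ((R - 1) * (R - 2))) +
        4 * cC ^ 2 * (X ^ 4 / (R - 3) * (1 + H2 / X) ^ (3 - R))) := by
  have hH2 : 0 ≤ H2 := hH1.trans hH12
  have e1 : Set.Ioi (0 : ℝ) = Set.Ioc 0 H1 ∪ (Set.Ioc H1 H2 ∪ Set.Ioi H2) := by
    rw [Set.Ioc_union_Ioi_eq_Ioi hH12, Set.Ioc_union_Ioi_eq_Ioi hH1]
  have hc : 0 < (R - 1) * (R - 2) := mul_pos (by linarith) (by linarith)
  have hR3 : 0 < R - 3 := by linarith
  rw [ENNReal.ofReal_add (by positivity) (by positivity), ENNReal.ofReal_add (by positivity)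
    (by positivity), add_assoc]
  rw [e1]
  refine (lintegral_union_le _ _ _).trans (add_le_add ?_ ((lintegral_union_le _ _ _).trans
    (add_le_add ?_ ?_)))
  · have h1 : ∫⁻ H in Set.Ioc 0 H1, ENNReal.ofReal ((1 + H / X) ^ (-R)) * U H ≤
        ∫⁻ _ in Set.Ioc 0 H1, ENNReal.ofReal (M0 * H1) := by
      refine setLIntegral_mono' measurableSet_Ioc fun H hH => ?_
      have hH0 : 0 < H := hH.1
      have h2 : (1 + H / X) ^ (-R) ≤ 1 := by
        refine Real.rpow_le_one_of_one_le_of_nonpos ?_ (by linarith)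
        have : 0 < H / X := by positivity
        linarith
      calc ENNReal.ofReal ((1 + H / X) ^ (-R)) * U H ≤ 1 * ENNReal.ofReal (M0 * H) := by
            refine mul_le_mul' ?_ (hA H hH.1 hH.2)
            rw [← ENNReal.ofReal_one]
            exact ENNReal.ofReal_le_ofReal h2
        _ ≤ ENNReal.ofReal (M0 * H1) := by
            rw [one_mul]
            exact ENNReal.ofReal_le_ofReal (mul_le_mul_of_nonneg_left hH.2 hM0)
    refine h1.trans (le_of_eq ?_)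
    rw [lintegral_const, Measure.restrict_apply_univ, Real.volume_Ioc,
      ← ENNReal.ofReal_mul (by positivity)]
    congr 1
    ring
  · calc ∫⁻ H in Set.Ioc H1 H2, ENNReal.ofReal ((1 + H / X) ^ (-R)) * U H ≤
          ∫⁻ H in Set.Ioc H1 H2, ENNReal.ofReal M1 *
            (ENNReal.ofReal ((1 + H / X) ^ (-R)) * ENNReal.ofReal H) := by
          refine setLIntegral_mono' measurableSet_Ioc fun H hH => ?_
          refine (mul_le_mul_right (hB H hH.1 hH.2) _).trans (le_of_eq ?_)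
          rw [ENNReal.ofReal_mul hM1]
          ring
      _ ≤ ∫⁻ H in Set.Ioi (0 : ℝ), ENNReal.ofReal M1 *
            (ENNReal.ofReal ((1 + H / X) ^ (-R)) * ENNReal.ofReal H) :=
          lintegral_mono_set fun H hH => lt_of_le_of_lt hH1 hH.1
      _ = _ := by
          rw [lintegral_const_mul' _ _ ENNReal.ofReal_ne_top, main_lint hX hR,
            ← ENNReal.ofReal_mul hM1]
  · refine le_trans ?_ (tail_lint hX hR hH2)
    exact setLIntegral_mono' measurableSet_Ioi fun H hH => mul_le_mul_right (hC H hH) _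

/-- the sharp range, for a modified mean square -/
lemma B_U {A C ε κ c : ℝ} (hA : 0 ≤ A) (hC : 0 ≤ C) (hε : 0 < ε) (hε1 : ε ≤ 1) (hc : 0 < c) :
    ∀ᶠ T : ℝ in atTop, ∀ X : ℝ, T ^ (1 + ε) ≤ X → X ≤ T ^ κ → ∀ U : ℝ → ℝ≥0∞,
      (∀ H, 0 < H → H ≤ X * T ^ (-1 - ε / 4) →
        U H ≤ ENNReal.ofReal (C * T ^ (ε / 8) * (X * H * Real.log T))) →
      (∀ H, X * T ^ (-1 - ε / 4) < H → H ≤ X * T ^ (-1 + ε / 4) →
        U H ≤ ENNReal.ofReal ((A + 2 * ε) * (X * H * Real.log T))) →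
      (∀ H, X * T ^ (-1 + ε / 4) < H → U H ≤ Ul X H) →
      ∫⁻ H in Set.Ioi (0 : ℝ), ENNReal.ofReal ((1 + H / X) ^ (-(c * T))) * U H ≤
        ENNReal.ofReal ((A + 3 * ε) * (Real.log T * X ^ 3 / (c * T) ^ 2)) := by
  have t1 : Tendsto (fun T : ℝ => C * c ^ 2 * T ^ (-(3 * ε / 8)) + (A + 2 * ε) *
      ((c * T) ^ 2 / ((c * T - 1) * (c * T - 2))) + 4 * cC ^ 2 * c ^ 2 *
        (T ^ (κ + 2) * (1 + T ^ (-1 + ε / 4)) ^ (3 - c * T))) atTop
      (𝓝 (C * c ^ 2 * 0 + (A + 2 * ε) * 1 + 4 * cC ^ 2 * c ^ 2 * 0)) :=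
    (((tendsto_rpow_neg_atTop (by positivity)).const_mul _).add
      ((quot_tendsto hc).const_mul _)).add ((tail_tendsto _ hc (by positivity)
        (by linarith)).const_mul _)
  have t2 := (tendsto_order.1 t1).2 (A + 3 * ε) (by linarith)
  filter_upwards [t2, eventually_ge_atTop (Real.exp 1), eventually_ge_atTop (4 / c)]
    with T ht hT hTc X hX1 hX2 U hU1 hU2 hU3
  have hT1 : 1 < T := lt_of_lt_of_le (Real.one_lt_exp_iff.2 one_pos) hT
  have hT0 : 0 < T := by linarith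
  have hL : 1 ≤ Real.log T := by
    rw [Real.le_log_iff_exp_le hT0]
    exact hT
  have hX0 : 0 < X := lt_of_lt_of_le (by positivity) hX1
  have hcT : 4 ≤ c * T := by
    rw [div_le_iff₀ hc] at hTc
    linarith
  have hb := B_genU (X := X) (R := c * T) (H1 := X * T ^ (-1 - ε / 4)) (H2 := X * T ^ (-1 + ε / 4))
    (M0 := C * T ^ (ε / 8) * (X * Real.log T)) (M1 := (A + 2 * ε) * (X * Real.log T)) hX0
    (by linarith) (by positivity) (mul_le_mul_of_nonneg_left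
      (Real.rpow_le_rpow_of_exponent_le hT1.le (by linarith)) hX0.le) (by positivity)
    (by positivity) (U := U) (fun H hH0 hH1 => by
      refine (hU1 H hH0 hH1).trans (le_of_eq ?_)
      congr 1
      ring) (fun H hH1 hH2 => by
      refine (hU2 H hH1 hH2).trans (le_of_eq ?_)
      congr 1
      ring) hU3
  refine hb.trans (ENNReal.ofReal_le_ofReal ?_)
  have e1 : X * T ^ (-1 + ε / 4) / X = T ^ (-1 + ε / 4) := by field_simp
  rw [e1]
  have e2 : T ^ (ε / 8) * (X * T ^ (-1 - ε / 4)) ^ 2 = X ^ 2 * (T ^ (-(3 * ε / 8)) / T ^ 2) := by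
    have e3 : T ^ (-(3 * ε / 8)) / T ^ 2 = T ^ (ε / 8) * (T ^ (-1 - ε / 4)) ^ 2 := by
      rw [← Real.rpow_natCast (T ^ (-1 - ε / 4)), ← Real.rpow_mul hT0.le, ← Real.rpow_add hT0,
        ← Real.rpow_natCast T 2, ← Real.rpow_sub hT0]
      congr 1
      push_cast
      ring
    rw [e3, mul_pow]
    ring
  have hP : 0 < (c * T - 1) * (c * T - 2) := mul_pos (by linarith) (by linarith)
  have hq : X ^ 4 / (c * T - 3) ≤ X ^ 3 * T ^ κ * Real.log T := by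
    rw [div_le_iff₀ (by linarith)]
    have h1 : X ^ 4 = X ^ 3 * X := by ring
    rw [h1]
    have h2 : X ≤ T ^ κ * Real.log T * (c * T - 3) := by
      have h3 : 0 < T ^ κ := by positivity
      have h4 : 1 ≤ Real.log T * (c * T - 3) := by nlinarith
      calc X ≤ T ^ κ * 1 := by rw [mul_one]; exact hX2
        _ ≤ T ^ κ * (Real.log T * (c * T - 3)) := mul_le_mul_of_nonneg_left h4 h3.le
        _ = _ := by ring
    calc X ^ 3 * X ≤ X ^ 3 * (T ^ κ * Real.log T * (c * T - 3)) := by gcongr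
      _ = _ := by ring
  have hY : 0 ≤ (1 + T ^ (-1 + ε / 4)) ^ (3 - c * T) := by positivity
  have e4 : C * T ^ (ε / 8) * (X * Real.log T) * (X * T ^ (-1 - ε / 4)) ^ 2 =
      C * (X * Real.log T) * (X ^ 2 * (T ^ (-(3 * ε / 8)) / T ^ 2)) := by
    rw [← e2]
    ring
  rw [e4]
  calc C * (X * Real.log T) * (X ^ 2 * (T ^ (-(3 * ε / 8)) / T ^ 2)) +
        (A + 2 * ε) * (X * Real.log T) * (X ^ 2 / ((c * T - 1) * (c * T - 2))) +
        4 * cC ^ 2 * (X ^ 4 / (c * T - 3) * (1 + T ^ (-1 + ε / 4)) ^ (3 - c * T)) ≤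
      C * (X * Real.log T) * (X ^ 2 * (T ^ (-(3 * ε / 8)) / T ^ 2)) +
        (A + 2 * ε) * (X * Real.log T) * (X ^ 2 / ((c * T - 1) * (c * T - 2))) +
        4 * cC ^ 2 * (X ^ 3 * T ^ κ * Real.log T * (1 + T ^ (-1 + ε / 4)) ^ (3 - c * T)) := by
        gcongr
    _ = (C * c ^ 2 * T ^ (-(3 * ε / 8)) + (A + 2 * ε) *
      ((c * T) ^ 2 / ((c * T - 1) * (c * T - 2))) + 4 * cC ^ 2 * c ^ 2 *
        (T ^ (κ + 2) * (1 + T ^ (-1 + ε / 4)) ^ (3 - c * T))) *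
          (Real.log T * X ^ 3 / (c * T) ^ 2) := by
        have e3 : T ^ (κ + 2) = T ^ κ * T ^ 2 := by
          rw [Real.rpow_add hT0]
          norm_cast
        rw [e3]
        field_simp
    _ ≤ _ := by gcongr

/-- the weights living on `α ≥ s` -/
lemma Om1_gain' {κ M D T v E s : ℝ} {K : ℝ → ℝ} (h : WK κ M D K) (hT : 1 < T) (hM : 0 ≤ M)
    (hs : ∀ α, 0 < α → K α ≠ 0 → s ≤ α)
    (hE : ∀ u, s * Real.log T ≤ u → 4 * E ≤ (u - v) ^ 2) :
    Om1 (kT K T) v ≤ ENNReal.ofReal (4 * M * Real.sqrt (4 * π) * Real.exp (-E)) := by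
  have hL : 0 < Real.log T := Real.log_pos hT
  unfold Om1
  have h1 : ∫⁻ u in Set.Ioi (0 : ℝ), kT K T u * ENNReal.ofReal (4 * Real.exp (-(u - v) ^ 2 / 2)) ≤
      ∫⁻ u in Set.Ioi (0 : ℝ), ENNReal.ofReal (4 * M * Real.exp (-E)) *
        ENNReal.ofReal (Real.exp (-(1 / 4) * (u - v) ^ 2)) := by
    refine setLIntegral_mono' measurableSet_Ioi fun u hu => ?_
    have hu0 : 0 < u := hu
    unfold kT
    by_cases hK : K (u / Real.log T) = 0
    · rw [hK, ENNReal.ofReal_zero, zero_mul]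
      exact zero_le
    · have k1 := hs _ (by positivity) hK
      rw [le_div_iff₀ hL] at k1
      have k3 := hE u k1
      rw [← ENNReal.ofReal_mul (h.nonneg _), ← ENNReal.ofReal_mul (by positivity)]
      refine ENNReal.ofReal_le_ofReal ?_
      have k4 : Real.exp (-(u - v) ^ 2 / 2) ≤
          Real.exp (-E) * Real.exp (-(1 / 4) * (u - v) ^ 2) := by
        rw [← Real.exp_add]
        exact Real.exp_le_exp.2 (by linarith)
      have k5 := h.bound (u / Real.log T)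
      calc K (u / Real.log T) * (4 * Real.exp (-(u - v) ^ 2 / 2)) ≤
          M * (4 * (Real.exp (-E) * Real.exp (-(1 / 4) * (u - v) ^ 2))) := by gcongr
        _ = _ := by ring
  refine h1.trans ?_
  rw [lintegral_const_mul' _ _ ENNReal.ofReal_ne_top]
  refine (mul_le_mul_right (setLIntegral_le_lintegral _ _) _).trans (le_of_eq ?_)
  rw [gauss_lint (by norm_num), ← ENNReal.ofReal_mul (by positivity)]
  congr 1
  have e : π / (1 / 4) = 4 * π := by ring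
  rw [e]
  ring

lemma Om1_low' {κ M D T X a ε : ℝ} {K : ℝ → ℝ} (h : WK κ M D K) (hT : 1 < T) (hM : 0 ≤ M)
    (hε : 0 < ε) (hs : ∀ α, 0 < α → K α ≠ 0 → 1 + 2 * ε ≤ α)
    (hT8 : 2 / ε ≤ Real.log T) (hX : 0 < X) (hX1 : X ≤ T ^ (1 + ε)) (ha : a ∈ Set.Ico X (2 * X)) :
    Om1 (kT K T) (Real.log a) ≤
      ENNReal.ofReal (4 * M * Real.sqrt (4 * π) * Real.exp (-((ε * Real.log T) ^ 2 / 16))) := by
  refine Om1_gain' h hT hM hs fun u hu => ?_
  have ha0 : 0 < a := hX.trans_le ha.1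
  have hT0 : 0 < T := by linarith
  rw [div_le_iff₀ hε] at hT8
  have h1 : Real.log a ≤ (1 + ε) * Real.log T + 1 := by
    have h2 : Real.log a ≤ Real.log (2 * T ^ (1 + ε)) :=
      Real.log_le_log ha0 (ha.2.le.trans (by linarith))
    rw [Real.log_mul (by norm_num) (by positivity), Real.log_rpow hT0] at h2
    have h3 : Real.log 2 ≤ 1 := by
      have := Real.log_two_lt_d9
      linarith
    linarith
  have h2 : ε * Real.log T / 2 ≤ u - Real.log a := by linarith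
  have h3 : (ε * Real.log T / 2) ^ 2 ≤ (u - Real.log a) ^ 2 :=
    pow_le_pow_left₀ (by linarith) h2 2
  nlinarith

lemma low_tendsto' (ε r : ℝ) (hε : 0 < ε) : Tendsto (fun T : ℝ => T ^ r *
    Real.exp (-((ε * Real.log T) ^ 2 / 16))) atTop (𝓝 0) := by
  have h1 : Tendsto (fun L : ℝ => r * L - (ε * L) ^ 2 / 16) atTop atBot := by
    have h2 : Tendsto (fun L : ℝ => L * (ε ^ 2 / 16 * L - r)) atTop atTop := by
      refine tendsto_id.atTop_mul_atTop₀ ?_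
      exact tendsto_atTop_add_const_right _ _ (tendsto_id.const_mul_atTop (by positivity))
    refine (tendsto_neg_atTop_atBot.comp h2).congr fun L => ?_
    show -(L * (ε ^ 2 / 16 * L - r)) = _
    ring
  refine ((Real.tendsto_exp_atBot.comp h1).comp Real.tendsto_log_atTop).congr' ?_
  filter_upwards [eventually_gt_atTop 0] with T hT
  show Real.exp (r * Real.log T - (ε * Real.log T) ^ 2 / 16) = _
  rw [Real.rpow_def_of_pos hT, ← Real.exp_add]
  congr 1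
  ring

lemma tails_small' {c q κ δ ε : ℝ} (hc : 0 < c) (hq : 0 ≤ q) (hκ : 0 ≤ κ) (hδ : 0 < δ)
    (hε : 0 < ε) :
    ∀ᶠ T : ℝ in atTop, q * Real.exp (-((ε * Real.log T) ^ 2 / 16)) * (4 * cC ^ 2) / (c * T - 3) *
      T ^ (1 + ε) + q * (4 * cC ^ 2) / (c * T - 3) * (T ^ (κ + 1)) ^ (-2 : ℝ) ≤
      Real.log T ^ 2 / (c * T) ^ 2 * δ := by
  have t1 : Tendsto (fun T : ℝ => q * (4 * cC ^ 2) * (2 * c) * (T ^ (2 + ε) *
      Real.exp (-((ε * Real.log T) ^ 2 / 16)) + T ^ (-1 : ℝ))) atTop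
      (𝓝 (q * (4 * cC ^ 2) * (2 * c) * (0 + 0))) := by
    refine Tendsto.const_mul _ ((low_tendsto' ε (2 + ε) hε).add ?_)
    exact tendsto_rpow_neg_atTop one_pos
  have t2 := (tendsto_order.1 t1).2 δ (by simpa using hδ)
  filter_upwards [t2, eventually_ge_atTop (Real.exp 1), eventually_ge_atTop (6 / c)]
    with T ht hT hTc
  have hT1 : 1 < T := lt_of_lt_of_le (Real.one_lt_exp_iff.2 one_pos) hT
  have hT0 : 0 < T := by linarith
  have hL : 1 ≤ Real.log T := by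
    rw [Real.le_log_iff_exp_le hT0]
    exact hT
  have hcT : 6 ≤ c * T := by
    rw [div_le_iff₀ hc] at hTc
    linarith
  have hcT0 : 0 < c * T := by linarith
  have h1 : 1 / (c * T - 3) ≤ 2 * c * T * (Real.log T ^ 2 / (c * T) ^ 2) := by
    have h2 : 1 / (c * T - 3) ≤ 2 / (c * T) := by
      rw [div_le_div_iff₀ (by linarith) hcT0]
      linarith
    refine h2.trans ?_
    have h3 : 2 * c * T * (Real.log T ^ 2 / (c * T) ^ 2) = 2 / (c * T) * Real.log T ^ 2 := by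
      field_simp
    rw [h3]
    have h4 : 1 ≤ Real.log T ^ 2 := by nlinarith
    have h5 : 0 < 2 / (c * T) := by positivity
    nlinarith
  have h6 : (T ^ (κ + 1)) ^ (-2 : ℝ) ≤ T ^ (-2 : ℝ) := by
    rw [← Real.rpow_mul hT0.le]
    exact Real.rpow_le_rpow_of_exponent_le hT1.le (by linarith)
  have h7 : T * T ^ (-2 : ℝ) = T ^ (-1 : ℝ) := by
    rw [← Real.rpow_one_add' hT0.le (by norm_num)]
    norm_num
  have h8 : T * T ^ (1 + ε) = T ^ (2 + ε) := by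
    rw [← Real.rpow_one_add' hT0.le (by linarith)]
    congr 1
    ring
  have hE := Real.exp_pos (-((ε * Real.log T) ^ 2 / 16))
  have h9 : 0 ≤ 1 / (c * T - 3) := by
    have : 0 < c * T - 3 := by linarith
    positivity
  calc q * Real.exp (-((ε * Real.log T) ^ 2 / 16)) * (4 * cC ^ 2) / (c * T - 3) *
      T ^ (1 + ε) + q * (4 * cC ^ 2) / (c * T - 3) * (T ^ (κ + 1)) ^ (-2 : ℝ) =
      q * (4 * cC ^ 2) * (Real.exp (-((ε * Real.log T) ^ 2 / 16)) * T ^ (1 + ε) +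
        (T ^ (κ + 1)) ^ (-2 : ℝ)) * (1 / (c * T - 3)) := by ring
    _ ≤ q * (4 * cC ^ 2) * (Real.exp (-((ε * Real.log T) ^ 2 / 16)) * T ^ (1 + ε) +
        T ^ (-2 : ℝ)) * (2 * c * T * (Real.log T ^ 2 / (c * T) ^ 2)) := by gcongr
    _ = (q * (4 * cC ^ 2) * (2 * c) * ((T * T ^ (1 + ε)) *
      Real.exp (-((ε * Real.log T) ^ 2 / 16)) + T * T ^ (-2 : ℝ))) *
        (Real.log T ^ 2 / (c * T) ^ 2) := by ring
    _ = (q * (4 * cC ^ 2) * (2 * c) * (T ^ (2 + ε) *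
      Real.exp (-((ε * Real.log T) ^ 2 / 16)) + T ^ (-1 : ℝ))) *
        (Real.log T ^ 2 / (c * T) ^ 2) := by rw [h7, h8]
    _ ≤ δ * (Real.log T ^ 2 / (c * T) ^ 2) := by gcongr
    _ = _ := by ring

end Pool.Agent.H7.PS
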