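import Pool.Agent.H7.PS.Mean1

/-! Upper bounds for modified mean squares, the limit. -/

open MeasureTheory Filter Topology Real
open scoped ENNReal

namespace Pool.Agent.H7.PS

/-- the sharp upper bound with constant `A` -/
def SharpU (A ε κ : ℝ) : Prop := ∀ᶠ T : ℝ in atTop, ∀ X H : ℝ, T ^ (1 + ε) ≤ X →
    X ≤ T ^ κ → X * T ^ (-1 - ε / 4) ≤ H → H ≤ X * T ^ (-1 + ε / 4) →
    Ul X H ≤ ENNReal.ofReal ((A + 2 * ε) * (X * H * Real.log T))

/-- the weak upper bound for the shorter intervals -/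
def WeakU (C ε κ : ℝ) : Prop := ∀ᶠ T : ℝ in atTop, ∀ X H : ℝ, T ^ (1 + ε) ≤ X →
    X ≤ T ^ κ → 0 < H → H ≤ X * T ^ (-1 - ε / 4) →
    Ul X H ≤ ENNReal.ofReal (C * T ^ (ε / 8) * (X * H * Real.log T))

/-- the majorant used -/
noncomputable def Wm (T ε κ M D : ℝ) (K : ℝ → ℝ) (X : ℝ) : ℝ≥0∞ :=
  WW T (1 + ε) κ (4 * M * Real.sqrt (4 * π) * Real.exp (-((ε * Real.log T) ^ 2 / 16)))
    (4 * M * Real.sqrt (4 * π)) (fun α => Real.sqrt π * (K α + 3 * D / Real.log T)) X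

theorem upper_gen {A ε κ c M D : ℝ} {K : ℝ → ℝ} (hA : 0 ≤ A) (hε : 0 < ε)
    (hε1 : ε ≤ 1) (hκ : 1 ≤ κ) (hc : 0 < c) (hM : 0 ≤ M) (hK : WK κ M D K) {δ : ℝ} (hδ : 0 < δ) :
    ∀ᶠ T : ℝ in atTop, ∀ BJ : ℝ → ℝ≥0∞,
      (∀ X, 0 < X → X ≤ T ^ (1 + ε) → BJ X ≤ BI (c * T) X) →
      (∀ X, T ^ (κ + 1) < X → BJ X ≤ BI (c * T) X) →
      (∀ X, T ^ (1 + ε) ≤ X → X ≤ T ^ (κ + 1) →
        BJ X ≤ ENNReal.ofReal ((A + 3 * ε) * (Real.log T * X ^ 3 / (c * T) ^ 2))) →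
      ∫⁻ X in Set.Ioi (0 : ℝ), ENNReal.ofReal (X ^ (-4 : ℤ)) * (Wm T ε κ M D K X * BJ X) ≤
        ENNReal.ofReal (Real.sqrt π * (Real.log T ^ 2 / (c * T) ^ 2) *
          ((A + 3 * ε) * (∫ α in (0 : ℝ)..κ, K α) + δ)) := by
  have hD : 0 ≤ D := by
    have h1 := hK.lip 1 0
    have h2 := abs_nonneg (K 1 - K 0)
    simp at h1
    linarith
  have hspi : 0 < Real.sqrt π := by positivity
  have htail := tails_small' (q := 4 * M * Real.sqrt (4 * π)) (κ := κ) hc (by positivity)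
    (by linarith) (show 0 < Real.sqrt π * (δ / 2) by positivity) hε
  have t1 : Tendsto (fun T : ℝ => (A + 3 * ε) * (κ + 1) * (3 * D) / Real.log T)
      atTop (𝓝 0) := tendsto_const_nhds.div_atTop Real.tendsto_log_atTop
  have t2 := (tendsto_order.1 t1).2 (δ / 2) (by linarith)
  filter_upwards [htail, t2, eventually_gt_atTop 1, eventually_ge_atTop (4 / c)]
    with T ht ht2 hT1 hTc BJ hB1 hB2 hB3
  have hT0 : 0 < T := by linarith
  have hL : 0 < Real.log T := Real.log_pos hT1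
  have hcT : 4 ≤ c * T := by
    rw [div_le_iff₀ hc] at hTc
    linarith
  have hDL : 0 ≤ 3 * D / Real.log T := by positivity
  unfold Wm
  have key := WW_three (T := T) (R := c * T) (p := 1 + ε) (κ := κ) (Cs := A + 3 * ε)
    (q1 := 4 * M * Real.sqrt (4 * π) * Real.exp (-((ε * Real.log T) ^ 2 / 16)))
    (q2 := 4 * M * Real.sqrt (4 * π))
    (f := fun α => Real.sqrt π * (K α + 3 * D / Real.log T)) hT1 (by linarith)
    (by linarith) (by linarith) (by positivity) (by positivity) (by positivity)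
    (continuous_const.mul (hK.cont.add continuous_const))
    (fun x => mul_nonneg hspi.le (add_nonneg (hK.nonneg x) hDL)) hB1 hB2 hB3
  refine key.trans (ENNReal.ofReal_le_ofReal ?_)
  have hint : ∫ α in (1 + ε)..(κ + 1), Real.sqrt π * (K α + 3 * D / Real.log T) =
      Real.sqrt π * ((∫ α in (1 + ε)..(κ + 1), K α) +
        (κ + 1 - (1 + ε)) * (3 * D / Real.log T)) := by
    rw [intervalIntegral.integral_const_mul, intervalIntegral.integral_add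
      (hK.cont.intervalIntegrable _ _) (continuous_const.intervalIntegrable _ _),
      intervalIntegral.integral_const, smul_eq_mul]
  rw [hint]
  have i2 : ∫ α in (1 + ε)..(κ + 1), K α ≤ ∫ α in (0 : ℝ)..κ, K α :=
    supp_int hK (by linarith) (by linarith) (by linarith)
  obtain ⟨I, hI⟩ : ∃ I, I = ∫ α in (0 : ℝ)..κ, K α := ⟨_, rfl⟩
  rw [← hI] at i2 ⊢
  obtain ⟨Q, hQ⟩ : ∃ Q, Q = Real.log T ^ 2 / (c * T) ^ 2 := ⟨_, rfl⟩
  have hQ0 : 0 ≤ Q := by rw [hQ]; positivity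
  rw [← hQ] at ht ⊢
  obtain ⟨E, hE⟩ : ∃ E, E = 3 * D / Real.log T := ⟨_, rfl⟩
  rw [← hE] at hDL ⊢
  have ht3 : (A + 3 * ε) * (κ + 1) * E ≤ δ / 2 := by
    rw [hE]
    have : (A + 3 * ε) * (κ + 1) * (3 * D / Real.log T) =
        (A + 3 * ε) * (κ + 1) * (3 * D) / Real.log T := by ring
    rw [this]
    exact ht2.le
  have hA3 : 0 ≤ A + 3 * ε := by positivity
  have j3 : (A + 3 * ε) * (Real.sqrt π * ((∫ α in (1 + ε)..(κ + 1), K α) +
      (κ + 1 - (1 + ε)) * E)) ≤ Real.sqrt π * ((A + 3 * ε) * I + δ / 2) := by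
    have j4 : (∫ α in (1 + ε)..(κ + 1), K α) + (κ + 1 - (1 + ε)) * E ≤ I + (κ + 1) * E := by
      have : (κ + 1 - (1 + ε)) * E ≤ (κ + 1) * E := mul_le_mul_of_nonneg_right (by linarith) hDL
      linarith
    calc (A + 3 * ε) * (Real.sqrt π * ((∫ α in (1 + ε)..(κ + 1), K α) +
        (κ + 1 - (1 + ε)) * E)) ≤ (A + 3 * ε) * (Real.sqrt π * (I + (κ + 1) * E)) := by gcongr
      _ = Real.sqrt π * ((A + 3 * ε) * I + (A + 3 * ε) * (κ + 1) * E) := by ring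
      _ ≤ _ := by gcongr
  have j5 := mul_le_mul_of_nonneg_left j3 hQ0
  have e2 : Real.sqrt π * Q * ((A + 3 * ε) * I + δ) =
      Q * (Real.sqrt π * ((A + 3 * ε) * I + δ / 2)) + Q * (Real.sqrt π * (δ / 2)) := by ring
  rw [e2]
  linarith

theorem RF_le_Wm {ε κ c M D : ℝ} {K : ℝ → ℝ} (hε : 0 < ε) (hκ : 1 ≤ κ) (_hc : 0 < c)
    (hM : 0 ≤ M) (hK : WK κ M D K) (hs : ∀ α, 0 < α → K α ≠ 0 → 1 + 2 * ε ≤ α) :
    ∀ᶠ T : ℝ in atTop, RF (c * T) (Om0 (kT K T)) ≤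
      ∫⁻ X in Set.Ioi (0 : ℝ), ENNReal.ofReal (X ^ (-4 : ℤ)) *
        (Wm T ε κ M D K X * BI (c * T) X) := by
  filter_upwards [eventually_gt_atTop 1, Real.tendsto_log_atTop.eventually_ge_atTop (2 / ε),
    Real.tendsto_log_atTop.eventually_ge_atTop (12 * (κ + 1))] with T hT1 hLε hL12
  unfold Wm
  exact RF_le_WW (fun X hX hX1 a ha => (Om0_le_Om1 _ _).trans
      (Om1_low' hK hT1 hM hε hs hLε hX hX1 ha))
    (fun X hX _ _ a ha => Om0_main hK hT1 hX ha)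
    (fun X hX hX1 a ha => (Om0_le_Om1 _ _).trans
      (Om1_high hK hT1 hM (by linarith) hL12 hX1 ha))

/-- the bound for the integral over the lengths -/
theorem BI_sharp {A C ε κ c : ℝ} (hA : 0 ≤ A) (hC : 0 ≤ C) (hε : 0 < ε) (hε1 : ε ≤ 1)
    (hc : 0 < c) (h1 : SharpU A ε κ) (h2 : WeakU C ε κ) :
    ∀ᶠ T : ℝ in atTop, ∀ X : ℝ, T ^ (1 + ε) ≤ X → X ≤ T ^ κ →
      BI (c * T) X ≤ ENNReal.ofReal ((A + 3 * ε) * (Real.log T * X ^ 3 / (c * T) ^ 2)) := by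
  filter_upwards [B_U (κ := κ) hA hC hε hε1 hc, h1, h2] with T hT g1 g2 X hX1 hX2
  exact hT X hX1 hX2 (fun H => Ul X H) (fun H hH1 hH2 => g2 X H hX1 hX2 hH1 hH2)
    (fun H hH1 hH2 => g1 X H hX1 hX2 hH1.le hH2) fun H _ => le_rfl

/-- the secondary part -/
theorem PU1' {A C ε κ c M D : ℝ} {K : ℝ → ℝ} (hA : 0 ≤ A) (hC : 0 ≤ C) (hε : 0 < ε)
    (hε1 : ε ≤ 1) (hκ : 1 ≤ κ) (hc : 0 < c) (hM : 0 ≤ M) (hK : WK κ M D K)
    (hs : ∀ α, 0 < α → K α ≠ 0 → 1 + 2 * ε ≤ α) (h1 : SharpU A ε (κ + 1))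
    (h2 : WeakU C ε (κ + 1)) : ∃ C' : ℝ, 0 ≤ C' ∧ ∀ᶠ T : ℝ in atTop,
      RF (c * T / 2) (Om1 (kT K T)) ≤
        ENNReal.ofReal (C' * (Real.log T ^ 2 / (c * T) ^ 2)) := by
  have hc2 : 0 < c / 2 := by positivity
  have hsharp := BI_sharp hA hC hε hε1 hc2 h1 h2
  have htail := tails_small' (q := 4 * M * Real.sqrt (4 * π)) (κ := κ) hc2 (by positivity)
    (by linarith) one_pos hε
  obtain ⟨P, hP⟩ : ∃ P, P = 4 * M * Real.sqrt (4 * π) := ⟨_, rfl⟩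
  have hP0 : 0 ≤ P := by rw [hP]; positivity
  refine ⟨4 * ((A + 3 * ε) * (κ + 1) * P + 1), by positivity, ?_⟩
  filter_upwards [hsharp, htail, eventually_gt_atTop 1, eventually_ge_atTop (4 / (c / 2)),
    Real.tendsto_log_atTop.eventually_ge_atTop (2 / ε),
    Real.tendsto_log_atTop.eventually_ge_atTop (12 * (κ + 1))]
    with T hs2 ht hT1 hTc hLε hL12
  have hT0 : 0 < T := by linarith
  have hcT : 4 ≤ c / 2 * T := by
    rw [div_le_iff₀ hc2] at hTc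
    linarith
  have hLpos : 0 < Real.log T := Real.log_pos hT1
  rw [← hP] at ht
  have k1 := RF_le_WW (T := T) (R := c / 2 * T) (p := 1 + ε) (κ := κ)
    (q1 := P * Real.exp (-((ε * Real.log T) ^ 2 / 16))) (q2 := P) (f := fun _ => P)
    (Ω := Om1 (kT K T))
    (fun X hX hX1 a ha => by rw [hP]; exact Om1_low' hK hT1 hM hε hs hLε hX hX1 ha)
    (fun X hX _ _ a ha => by rw [hP]; exact Om1_main hK hT1 hM _)
    (fun X hX hX1 a ha => by rw [hP]; exact Om1_high hK hT1 hM (by linarith) hL12 hX1 ha)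
  have k2 := WW_three (T := T) (R := c / 2 * T) (p := 1 + ε) (κ := κ) (Cs := A + 3 * ε)
    (q1 := P * Real.exp (-((ε * Real.log T) ^ 2 / 16)))
    (q2 := P) (f := fun _ => P) hT1 (by linarith)
    (by linarith) (by linarith) (by positivity) (by positivity) hP0 continuous_const
    (fun x => hP0) (BJ := BI (c / 2 * T)) (fun X _ _ => le_rfl) (fun X _ => le_rfl) hs2
  have e0 : c * T / 2 = c / 2 * T := by ring
  rw [e0]
  refine (k1.trans k2).trans (ENNReal.ofReal_le_ofReal ?_)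
  rw [intervalIntegral.integral_const, smul_eq_mul]
  have eQ : Real.log T ^ 2 / (c / 2 * T) ^ 2 = 4 * (Real.log T ^ 2 / (c * T) ^ 2) := by
    field_simp
    ring
  rw [eQ] at ht ⊢
  obtain ⟨Q, hQ⟩ : ∃ Q, Q = Real.log T ^ 2 / (c * T) ^ 2 := ⟨_, rfl⟩
  have hQ0 : 0 ≤ Q := by rw [hQ]; positivity
  rw [← hQ] at ht ⊢
  have j2 : 4 * Q * ((A + 3 * ε) * ((κ + 1 - (1 + ε)) * P)) ≤
      4 * Q * ((A + 3 * ε) * (κ + 1) * P) := by
    refine mul_le_mul_of_nonneg_left ?_ (by positivity)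
    rw [mul_assoc (A + 3 * ε)]
    refine mul_le_mul_of_nonneg_left ?_ (by positivity)
    exact mul_le_mul_of_nonneg_right (by linarith) hP0
  linarith

/-- **the upper bound on the side of the primes, constant `A`** -/
theorem prime_upperA {A C ε κ c M D : ℝ} {K : ℝ → ℝ} (hA : 0 ≤ A) (hC : 0 ≤ C) (hε : 0 < ε)
    (hε1 : ε ≤ 1) (hκ : 1 ≤ κ) (hc : 0 < c) (hM : 0 ≤ M) (hK : WK κ M D K)
    (hs : ∀ α, 0 < α → K α ≠ 0 → 1 + 2 * ε ≤ α) (h1 : SharpU A ε (κ + 1))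
    (h2 : WeakU C ε (κ + 1)) {δ : ℝ} (hδ : 0 < δ) : ∀ᶠ T : ℝ in atTop,
      ∫⁻ τ in Set.Ioi (0 : ℝ), ENNReal.ofReal (kc c τ) * Zu K T τ ≤
      ENNReal.ofReal (π * Real.sqrt π / 2 * (c * T * Real.log T ^ 2) *
        ((A + 3 * ε) * (∫ α in (0 : ℝ)..κ, K α) + δ)) := by
  obtain ⟨C', hC', hsec⟩ := PU1' hA hC hε hε1 hκ hc hM hK hs h1 h2
  have hIK : 0 ≤ ∫ α in (0 : ℝ)..κ, K α :=
    intervalIntegral.integral_nonneg (by linarith) fun x _ => hK.nonneg x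
  obtain ⟨I1, hI1⟩ : ∃ I1, I1 = (A + 3 * ε) * (∫ α in (0 : ℝ)..κ, K α) := ⟨_, rfl⟩
  have hI10 : 0 ≤ I1 := by
    rw [hI1]
    positivity
  obtain ⟨η, hη, hη2⟩ : ∃ η : ℝ, 0 < η ∧ (1 + η) * (I1 + δ / 4) ≤ I1 + δ / 2 := by
    refine ⟨δ / 4 / (I1 + δ / 4), by positivity, le_of_eq ?_⟩
    have : I1 + δ / 4 ≠ 0 := by positivity
    field_simp
    ring
  have t1 : Tendsto (fun T : ℝ => π * (1 + 1 / η) * C' / (c * T) ^ 2) atTop (𝓝 0) := by
    refine tendsto_const_nhds.div_atTop ?_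
    exact (tendsto_pow_atTop two_ne_zero).comp (tendsto_id.const_mul_atTop hc)
  have t2 := (tendsto_order.1 t1).2 (π * Real.sqrt π / 2 * (δ / 2)) (by positivity)
  filter_upwards [upper_gen hA hε hε1 hκ hc hM hK (show 0 < δ / 4 by positivity),
    RF_le_Wm hε hκ hc hM hK hs, BI_sharp hA hC hε hε1 hc h1 h2, hsec, t2, eventually_gt_atTop 1]
    with T g1 g2 g3 g4 ht hT1
  have hT0 : 0 < T := by linarith
  have hcT : 0 < c * T := by positivity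
  have h0 := g2.trans (g1 (BI (c * T)) (fun X _ _ => le_rfl) (fun X _ => le_rfl) g3)
  have hm := ker_main (η := η) hc hT0 hη (kT_meas hK T)
  have hm' : ∫⁻ τ in Set.Ioi (0 : ℝ), ENNReal.ofReal (kc c τ) * Zu K T τ ≤
      ENNReal.ofReal (π / 2 * (1 + η) * (c * T) ^ 3) * RF (c * T) (Om0 (kT K T)) +
      ENNReal.ofReal (π * (1 + 1 / η) * (c * T)) * RF (c * T / 2) (Om1 (kT K T)) := hm
  refine hm'.trans ?_
  refine (add_le_add (mul_le_mul_right h0 _) (mul_le_mul_right g4 _)).trans ?_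
  rw [← hI1, ← ENNReal.ofReal_mul (by positivity), ← ENNReal.ofReal_mul (by positivity),
    ← ENNReal.ofReal_add (by positivity) (by positivity)]
  refine ENNReal.ofReal_le_ofReal ?_
  have k2 : π / 2 * (1 + η) * (c * T) ^ 3 * (Real.sqrt π * (Real.log T ^ 2 / (c * T) ^ 2) *
      (I1 + δ / 4)) ≤ π * Real.sqrt π / 2 * (c * T * Real.log T ^ 2) * (I1 + δ / 2) := by
    calc π / 2 * (1 + η) * (c * T) ^ 3 * (Real.sqrt π * (Real.log T ^ 2 / (c * T) ^ 2) *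
        (I1 + δ / 4)) = π * Real.sqrt π / 2 * (c * T * Real.log T ^ 2) *
          ((1 + η) * (I1 + δ / 4)) := by
          field_simp
      _ ≤ _ := by gcongr
  have k3 : π * (1 + 1 / η) * (c * T) * (C' * (Real.log T ^ 2 / (c * T) ^ 2)) ≤
      π * Real.sqrt π / 2 * (c * T * Real.log T ^ 2) * (δ / 2) := by
    have k4 : π * (1 + 1 / η) * (c * T) * (C' * (Real.log T ^ 2 / (c * T) ^ 2)) =
        (π * (1 + 1 / η) * C' / (c * T) ^ 2) * (c * T * Real.log T ^ 2) := by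
      field_simp
    rw [k4]
    have k5 : 0 ≤ c * T * Real.log T ^ 2 := by positivity
    calc (π * (1 + 1 / η) * C' / (c * T) ^ 2) * (c * T * Real.log T ^ 2) ≤
        (π * Real.sqrt π / 2 * (δ / 2)) * (c * T * Real.log T ^ 2) :=
          mul_le_mul_of_nonneg_right ht.le k5
      _ = _ := by ring
  calc _ ≤ π * Real.sqrt π / 2 * (c * T * Real.log T ^ 2) * (I1 + δ / 2) +
      π * Real.sqrt π / 2 * (c * T * Real.log T ^ 2) * (δ / 2) := add_le_add k2 k3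
    _ = _ := by ring

end Pool.Agent.H7.PS
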