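import Pool.Agent.H7.PS.Mean2
import Pool.Agent.H7.PS.Lim6

/-! The lower bound on the side of the primes. -/

open MeasureTheory Filter Topology Real
open scoped ENNReal ContDiff

namespace Pool.Agent.H7.PS

open H370 TH803TW Pool.Agent.Y744 Pool.Agent.Y744.ANC Pool.Agent.H7.FF
open Pool.Agent.Results.MP_103a5c_nt.BohrSetPairs

variable {κ : ℝ} {K : ℝ → ℝ} {g : Ultrafilter ℝ} {B : ℝ → ℝ → ℝ} {C0 : ℝ}

/-- the lower bound for the mixture, along an ultrafilter -/
lemma mix_lower_g (RH : RiemannHypothesis) (hgt : (g : Filter ℝ) ≤ atTop)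
    (hU : HypU) (hκ : 1 ≤ κ) (hK : TK κ K) (hpos : ∀ x, 0 ≤ K x)
    (h0 : ∀ x, 0 < x → x < 1 / 2 → K x = 0) {c : ℝ} (hc : 0 < c) {δ : ℝ} (hδ : 0 < δ) :
    ∀ᶠ T in (g : Filter ℝ), ENNReal.ofReal (π / 2 * c * Lam AG K - δ) ≤
      ENNReal.ofReal (cz T) * ∫⁻ τ in Set.Ioi (0 : ℝ), ENNReal.ofReal (kc c τ) * Zu K T τ := by
  obtain ⟨B, C0, h⟩ := exists_LD RH g hgt
  -- the choice of the truncation
  have hR1 := intervalIntegral_tendsto_integral_Ioi 0 (kci hc) tendsto_id
  rw [kc_mass hc] at hR1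
  have hR2 := (hR1.mul_const (Lam AG K))
  obtain ⟨R, hRlow, hR⟩ := (((tendsto_order.1 hR2).1 (π / 2 * c * Lam AG K - δ)
    (by linarith)).and (eventually_gt_atTop 0)).exists
  simp only [id] at hRlow
  obtain ⟨C1, hC1, hz⟩ := z_bd hU hκ hK hpos h0 hR
  obtain ⟨T1, hT1⟩ := (hz.and (eventually_gt_atTop 1)).exists_forall_of_atTop
  set z : ℝ → ℝ → ℝ := fun T τ => (ENNReal.ofReal (cz T) * Zu K T τ).toReal with hzdef
  have hfin : ∀ T, T1 ≤ T → ∀ τ, τ ≤ R → ENNReal.ofReal (cz T) * Zu K T τ ≤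
      ENNReal.ofReal C1 := by
    intro T hT τ hτ
    have := (hT1 T hT).2
    exact (mul_le_mul_right (Zu_mono (by linarith) hτ) _).trans (hT1 T hT).1
  have hzz : ∀ T, T1 ≤ T → ∀ τ, τ ≤ R → ENNReal.ofReal (z T τ) =
      ENNReal.ofReal (cz T) * Zu K T τ := by
    intro T hT τ hτ
    simp only [hzdef]
    rw [ENNReal.ofReal_toReal (ne_top_of_le_ne_top ENNReal.ofReal_ne_top (hfin T hT τ hτ))]
  have hz0 : ∀ T τ, 0 ≤ z T τ := fun T τ => ENNReal.toReal_nonneg
  have hzm : ∀ T, T1 ≤ T → ∀ a b, a ≤ b → b ≤ R → z T a ≤ z T b := by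
    intro T hT a b hab hb
    have := (hT1 T hT).2
    refine ENNReal.toReal_mono (ne_top_of_le_ne_top ENNReal.ofReal_ne_top (hfin T hT b hb)) ?_
    exact mul_le_mul_right (Zu_mono (by linarith) hab) _
  have hzC : ∀ T, T1 ≤ T → ∀ τ, τ ≤ R → z T τ ≤ C1 := by
    intro T hT τ hτ
    exact ENNReal.toReal_le_of_le_ofReal hC1 (hfin T hT τ hτ)
  set A : ℝ → ℝ → ℝ := fun T τ => z T (min τ R) with hA
  have hAm : ∀ T, T1 ≤ T → Monotone (A T) := fun T hT a b hab =>
    hzm T hT _ _ (min_le_min_right R hab) (min_le_right _ _)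
  have hAb : ∀ T, T1 ≤ T → ∀ y, |A T y| ≤ C1 * (1 + y ^ 2) := by
    intro T hT y
    rw [abs_of_nonneg (hz0 _ _)]
    have h1 := hzC T hT (min y R) (min_le_right _ _)
    show z T (min y R) ≤ _
    nlinarith [sq_nonneg y]
  -- the limit
  have hex : ∀ y, ∃ L, Tendsto (fun T => A T y) (g : Filter ℝ) (𝓝 L) := by
    intro y
    have h2 : ((g.map fun T => A T y : Ultrafilter ℝ) : Filter ℝ) ≤ 𝓟 (Set.Icc 0 C1) := by
      rw [le_principal_iff]
      have h3 : ∀ᶠ T in (g : Filter ℝ), A T y ∈ Set.Icc 0 C1 := by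
        filter_upwards [hgt (eventually_ge_atTop T1)] with T hT
        exact ⟨hz0 _ _, hzC T hT _ (min_le_right _ _)⟩
      exact h3
    obtain ⟨L, _, hL⟩ := isCompact_Icc.ultrafilter_le_nhds _ h2
    exact ⟨L, hL⟩
  choose A' hA'l using hex
  have hA'm : Monotone A' := by
    intro a b hab
    refine le_of_tendsto_of_tendsto (hA'l a) (hA'l b) ?_
    filter_upwards [hgt (eventually_ge_atTop T1)] with T hT using hAm T hT hab
  -- comparison with the pair sums
  have hLA : ∀ τ, 0 < τ → τ ≤ R → τ * Lam AG K ≤ A' τ := by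
    intro τ hτ hτR
    have hBr : Lam (Br B τ) K = τ * Lam AG K := by
      unfold Lam
      rw [mul_neg, ← integral_const_mul]
      congr 1
      refine integral_congr_ae (Eventually.of_forall fun y => ?_)
      show Br B τ y * dct K y = τ * (AG y * dct K y)
      rw [Br_eq RH hgt h hU hτ]
      ring
    rw [← hBr]
    have h1 : ∀ ε : ℝ, 0 < ε → Lam (Br B τ) K ≤ (1 + ε) * A' τ + ε := by
      intro ε hε
      refine le_of_tendsto_of_tendsto (Lam_lim RH hgt h hK hτ)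
        (((hA'l τ).const_mul (1 + ε)).add_const ε) ?_
      filter_upwards [hgt (zero_lower RH hK (by linarith) hpos h0 hτ hε),
        hgt (eventually_ge_atTop T1)] with T h2 hT
      rw [← hzz T hT τ hτR, ← ENNReal.ofReal_mul (by positivity),
        ← ENNReal.ofReal_add (by have := hz0 T τ; positivity) hε.le] at h2
      have h3 := (ENNReal.ofReal_le_ofReal_iff (by have := hz0 T τ; positivity)).1 h2
      show _ ≤ (1 + ε) * z T (min τ R) + ε
      rw [min_eq_left hτR]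
      exact h3
    have h2 : Tendsto (fun ε : ℝ => (1 + ε) * A' τ + ε) (𝓝[>] 0) (𝓝 ((1 + 0) * A' τ + 0)) :=
      ((by fun_prop : Continuous fun ε : ℝ => (1 + ε) * A' τ + ε).tendsto 0).mono_left
        nhdsWithin_le_nhds
    rw [show (1 + 0) * A' τ + 0 = A' τ by ring] at h2
    exact ge_of_tendsto h2 (eventually_mem_nhdsWithin.mono fun ε hε => h1 ε hε)
  -- the truncated kernel
  set w : ℝ → ℝ := (Set.Ioc 0 R).indicator (kc c) with hw
  have hwm : Measurable w := (kc_cont hc).measurable.indicator measurableSet_Ioc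
  obtain ⟨Mk, hMk⟩ := (isCompact_Icc (a := (0 : ℝ)) (b := R)).exists_bound_of_continuousOn
    (kc_cont hc).continuousOn
  have hMk0 : 0 ≤ Mk := (norm_nonneg _).trans (hMk 0 ⟨le_rfl, hR.le⟩)
  have hwd : ∀ y, |w y| ≤ (Mk * (1 + R ^ 2) ^ 2) / (1 + y ^ 2) ^ 2 := by
    intro y
    by_cases hy : y ∈ Set.Ioc 0 R
    · rw [hw, Set.indicator_of_mem hy]
      have h1 := hMk y ⟨hy.1.le, hy.2⟩
      rw [Real.norm_eq_abs] at h1
      rw [le_div_iff₀ (by positivity)]
      have h2 : y ^ 2 ≤ R ^ 2 := by nlinarith [hy.1, hy.2]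
      gcongr
    · rw [hw, Set.indicator_of_notMem hy, abs_zero]
      positivity
  have hlim := lim_gen hAm hAb hwm hwd hgt hA'm hA'l
  have e2 : ∫ y, A' y * w y = ∫ y in (0 : ℝ)..R, kc c y * A' y := by
    rw [intervalIntegral.integral_of_le hR.le, ← integral_indicator measurableSet_Ioc]
    refine integral_congr_ae (Eventually.of_forall fun y => ?_)
    show A' y * w y = (Set.Ioc 0 R).indicator (fun y => kc c y * A' y) y
    by_cases hy : y ∈ Set.Ioc 0 R
    · rw [hw, Set.indicator_of_mem hy, Set.indicator_of_mem hy, mul_comm]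
    · rw [hw, Set.indicator_of_notMem hy, Set.indicator_of_notMem hy, mul_zero]
  have hgap : π / 2 * c * Lam AG K - δ < ∫ y, A' y * w y := by
    refine hRlow.trans_le ?_
    rw [e2, ← intervalIntegral.integral_mul_const]
    have hA'int : IntervalIntegrable A' volume 0 R := hA'm.intervalIntegrable
    refine intervalIntegral.integral_mono_on_of_le_Ioo hR.le ?_ ?_ fun τ hτ => ?_
    · exact (((kc_cont hc).mul continuous_id).mul continuous_const).intervalIntegrable _ _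
    · exact hA'int.continuousOn_mul (kc_cont hc).continuousOn
    · rw [mul_assoc]
      exact mul_le_mul_of_nonneg_left (hLA τ hτ.1 hτ.2.le) (kc_nonneg hc hτ.1.le)
  filter_upwards [(tendsto_order.1 hlim).1 _ hgap, hgt (eventually_ge_atTop T1)] with T h1 hT
  have e1 : ∫ y, A T y * w y = ∫ y in Set.Ioc 0 R, z T y * kc c y := by
    rw [← integral_indicator measurableSet_Ioc]
    refine integral_congr_ae (Eventually.of_forall fun y => ?_)
    show A T y * w y = (Set.Ioc 0 R).indicator (fun y => z T y * kc c y) y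
    by_cases hy : y ∈ Set.Ioc 0 R
    · rw [hw, Set.indicator_of_mem hy, Set.indicator_of_mem hy]
      show z T (min y R) * _ = _
      rw [min_eq_left hy.2]
    · rw [hw, Set.indicator_of_notMem hy, Set.indicator_of_notMem hy, mul_zero]
  rw [e1] at h1
  refine (ENNReal.ofReal_le_ofReal h1.le).trans ?_
  have hnn : ∀ y ∈ Set.Ioc 0 R, 0 ≤ z T y * kc c y := fun y hy =>
    mul_nonneg (hz0 _ _) (kc_nonneg hc hy.1.le)
  have hn2 : ‖∫ y in Set.Ioc 0 R, z T y * kc c y‖ ≤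
      (∫⁻ y in Set.Ioc 0 R, ENNReal.ofReal ‖z T y * kc c y‖).toReal :=
    norm_integral_le_lintegral_norm _
  have hle : ∫⁻ y in Set.Ioc 0 R, ENNReal.ofReal ‖z T y * kc c y‖ ≤
      ENNReal.ofReal (cz T) * ∫⁻ y in Set.Ioi 0, ENNReal.ofReal (kc c y) * Zu K T y := by
    calc ∫⁻ y in Set.Ioc 0 R, ENNReal.ofReal ‖z T y * kc c y‖ =
        ∫⁻ y in Set.Ioc 0 R, ENNReal.ofReal (cz T) * (ENNReal.ofReal (kc c y) * Zu K T y) := by
          refine setLIntegral_congr_fun measurableSet_Ioc fun y hy => ?_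
          show ENNReal.ofReal ‖z T y * kc c y‖ = _
          rw [Real.norm_eq_abs, abs_of_nonneg (hnn y hy), ENNReal.ofReal_mul (hz0 _ _),
            hzz T hT y hy.2]
          ring
      _ ≤ ∫⁻ y in Set.Ioi 0, ENNReal.ofReal (cz T) * (ENNReal.ofReal (kc c y) * Zu K T y) :=
          lintegral_mono_set Set.Ioc_subset_Ioi_self
      _ = ENNReal.ofReal (cz T) * ∫⁻ y in Set.Ioi 0, ENNReal.ofReal (kc c y) * Zu K T y := by
          rw [lintegral_const_mul' _ _ ENNReal.ofReal_ne_top]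
  refine le_trans ?_ hle
  refine (ENNReal.ofReal_le_ofReal ((le_abs_self _).trans hn2)).trans ?_
  exact ENNReal.ofReal_toReal_le

/-- the lower bound for the mixture -/
theorem mix_lower (RH : RiemannHypothesis) (hU : HypU) (hκ : 1 ≤ κ) (hK : TK κ K)
    (hpos : ∀ x, 0 ≤ K x) (h0 : ∀ x, 0 < x → x < 1 / 2 → K x = 0) {c : ℝ} (hc : 0 < c) {δ : ℝ}
    (hδ : 0 < δ) :
    ∀ᶠ T : ℝ in atTop, ENNReal.ofReal (π / 2 * c * Lam AG K - δ) ≤
      ENNReal.ofReal (cz T) * ∫⁻ τ in Set.Ioi (0 : ℝ), ENNReal.ofReal (kc c τ) * Zu K T τ := by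
  refine mem_iff_ultrafilter.2 fun g hg => ?_
  exact mix_lower_g RH hg hU hκ hK hpos h0 hc hδ

lemma Lam_AG_far (hK : TK κ K) (hκ : 0 ≤ κ) (h0 : ∀ x, |x| ≤ 1 → K x = 0) :
    Lam AG K = 2 * ∫ α in (0 : ℝ)..κ, K α := by
  rw [Lam_AG hK, h0 0 (by simp), zero_add, half0 hK hκ]
  have : ∫ α, K α * min |α| 1 = ∫ α, K α := by
    refine integral_congr_ae (Eventually.of_forall fun α => ?_)
    show K α * min |α| 1 = K α
    rcases le_or_gt |α| 1 with h | h
    · rw [h0 α h, zero_mul]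
    · rw [min_eq_right h.le, mul_one]
  rw [this]
  ring

/-- the lower bound for the functional of the intervals of fixed length -/
theorem RF_lower (RH : RiemannHypothesis) (hU : HypU) (hκ : 1 ≤ κ) (hK : TK κ K)
    (hpos : ∀ x, 0 ≤ K x) (h0 : ∀ x, |x| ≤ 1 → K x = 0) {c : ℝ} (hc : 0 < c) {δ : ℝ}
    (hδ : 0 < δ) : ∀ᶠ T : ℝ in atTop, ENNReal.ofReal (Real.sqrt π *
      (Real.log T ^ 2 / (c * T) ^ 2) * ((∫ α in (0 : ℝ)..κ, K α) - δ)) ≤
      RF (c * T) (Om0 (kT K T)) := by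
  have h0' : ∀ x, 0 < x → x < 1 / 2 → K x = 0 := fun x hx hx2 =>
    h0 x (by rw [abs_of_pos hx]; linarith)
  obtain ⟨M, D, hM, hW⟩ := TK_WK hK hpos h0'
  obtain ⟨C', hC', hsec⟩ := PU1 hU hκ hM hW hc
  obtain ⟨I, hI⟩ : ∃ I, I = ∫ α in (0 : ℝ)..κ, K α := ⟨_, rfl⟩
  have hpi := Real.pi_pos
  have hI0 : 0 ≤ I := by
    rw [hI]
    exact intervalIntegral.integral_nonneg (by linarith) fun x _ => hpos x
  have hlow := mix_lower RH hU hκ hK hpos h0' hc (show 0 < π * c * (δ / 4) by positivity)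
  rw [Lam_AG_far hK (by linarith) h0, ← hI] at hlow
  rw [← hI]
  -- the choice of eta
  obtain ⟨η, hη, hη2⟩ : ∃ η : ℝ, 0 < η ∧ (1 + η) * (I - δ) ≤ I - δ / 2 := by
    rcases le_or_gt (I - δ) 0 with hcase | hcase
    · refine ⟨1, one_pos, ?_⟩
      linarith
    · refine ⟨δ / 2 / (I - δ), by positivity, le_of_eq ?_⟩
      have : I - δ ≠ 0 := hcase.ne'
      field_simp
      ring
  have t1 : Tendsto (fun T : ℝ => π * (1 + 1 / η) * C' / (c * T) ^ 2) atTop (𝓝 0) := by
    refine tendsto_const_nhds.div_atTop ?_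
    exact (tendsto_pow_atTop two_ne_zero).comp (tendsto_id.const_mul_atTop hc)
  have t2 := (tendsto_order.1 t1).2 (π * Real.sqrt π / 2 * (δ / 4)) (by positivity)
  filter_upwards [hlow, hsec, t2, eventually_gt_atTop 1] with T g1 g2 ht hT1
  have hT0 : 0 < T := by linarith
  have hcT : 0 < c * T := by positivity
  have hL : 0 < Real.log T := Real.log_pos hT1
  have hspi : 0 < Real.sqrt π := by positivity
  have hcz := cz_pos hT1
  have hm := ker_main (η := η) hc hT0 hη (kT_meas hW T)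
  have hm' : ∫⁻ τ in Set.Ioi (0 : ℝ), ENNReal.ofReal (kc c τ) * Zu K T τ ≤
      ENNReal.ofReal (π / 2 * (1 + η) * (c * T) ^ 3) * RF (c * T) (Om0 (kT K T)) +
      ENNReal.ofReal (π * (1 + 1 / η) * (c * T)) * RF (c * T / 2) (Om1 (kT K T)) := hm
  -- the secondary part
  have k3 : π * (1 + 1 / η) * (c * T) * (C' * (Real.log T ^ 2 / (c * T) ^ 2)) ≤
      π * Real.sqrt π / 2 * (c * T * Real.log T ^ 2) * (δ / 4) := by
    have k4 : π * (1 + 1 / η) * (c * T) * (C' * (Real.log T ^ 2 / (c * T) ^ 2)) =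
        (π * (1 + 1 / η) * C' / (c * T) ^ 2) * (c * T * Real.log T ^ 2) := by
      field_simp
    rw [k4]
    have k5 : 0 ≤ c * T * Real.log T ^ 2 := by positivity
    calc (π * (1 + 1 / η) * C' / (c * T) ^ 2) * (c * T * Real.log T ^ 2) ≤
        (π * Real.sqrt π / 2 * (δ / 4)) * (c * T * Real.log T ^ 2) :=
          mul_le_mul_of_nonneg_right ht.le k5
      _ = _ := by ring
  have k6 : ENNReal.ofReal (cz T) * (ENNReal.ofReal (π * (1 + 1 / η) * (c * T)) *
      RF (c * T / 2) (Om1 (kT K T))) ≤ ENNReal.ofReal (π * c * (δ / 4)) := by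
    calc ENNReal.ofReal (cz T) * (ENNReal.ofReal (π * (1 + 1 / η) * (c * T)) *
        RF (c * T / 2) (Om1 (kT K T))) ≤ ENNReal.ofReal (cz T) *
          (ENNReal.ofReal (π * (1 + 1 / η) * (c * T)) *
            ENNReal.ofReal (C' * (Real.log T ^ 2 / (c * T) ^ 2))) := by gcongr
      _ = ENNReal.ofReal (cz T * (π * (1 + 1 / η) * (c * T) *
            (C' * (Real.log T ^ 2 / (c * T) ^ 2)))) := by
          rw [← ENNReal.ofReal_mul (by positivity), ← ENNReal.ofReal_mul hcz.le]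
      _ ≤ ENNReal.ofReal (cz T * (π * Real.sqrt π / 2 * (c * T * Real.log T ^ 2) * (δ / 4))) :=
          ENNReal.ofReal_le_ofReal (mul_le_mul_of_nonneg_left k3 hcz.le)
      _ = ENNReal.ofReal (π * c * (δ / 4)) := by
          rw [← mul_assoc, cz_mul hT1]
  have k7 : ENNReal.ofReal (cz T) * ENNReal.ofReal (π / 2 * (1 + η) * (c * T) ^ 3) =
      ENNReal.ofReal (Real.sqrt π * c * (1 + η) * (c * T) ^ 2 / Real.log T ^ 2) := by
    rw [← ENNReal.ofReal_mul hcz.le]
    congr 1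
    unfold cz
    have : Real.sqrt π ^ 2 = π := Real.sq_sqrt hpi.le
    field_simp
    rw [this]
  have k8 : ENNReal.ofReal (π / 2 * c * (2 * I) - π * c * (δ / 4)) ≤
      ENNReal.ofReal (Real.sqrt π * c * (1 + η) * (c * T) ^ 2 / Real.log T ^ 2) *
        RF (c * T) (Om0 (kT K T)) + ENNReal.ofReal (π * c * (δ / 4)) := by
    refine g1.trans ?_
    calc ENNReal.ofReal (cz T) * ∫⁻ τ in Set.Ioi (0 : ℝ), ENNReal.ofReal (kc c τ) * Zu K T τ ≤
        ENNReal.ofReal (cz T) * (ENNReal.ofReal (π / 2 * (1 + η) * (c * T) ^ 3) *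
          RF (c * T) (Om0 (kT K T)) +
          ENNReal.ofReal (π * (1 + 1 / η) * (c * T)) * RF (c * T / 2) (Om1 (kT K T))) := by
          gcongr
      _ = ENNReal.ofReal (cz T) * ENNReal.ofReal (π / 2 * (1 + η) * (c * T) ^ 3) *
          RF (c * T) (Om0 (kT K T)) + ENNReal.ofReal (cz T) *
          (ENNReal.ofReal (π * (1 + 1 / η) * (c * T)) * RF (c * T / 2) (Om1 (kT K T))) := by
          ring
      _ ≤ _ := by
          rw [k7]
          exact add_le_add le_rfl k6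
  have k9 : ENNReal.ofReal (π * c * (I - δ / 2)) ≤
      ENNReal.ofReal (Real.sqrt π * c * (1 + η) * (c * T) ^ 2 / Real.log T ^ 2) *
        RF (c * T) (Om0 (kT K T)) := by
    have e1 : π * c * (I - δ / 2) = (π / 2 * c * (2 * I) - π * c * (δ / 4)) -
        π * c * (δ / 4) := by ring
    rw [e1, ENNReal.ofReal_sub _ (by positivity)]
    exact tsub_le_iff_right.2 k8
  have hfac : 0 < Real.sqrt π * c * (1 + η) * (c * T) ^ 2 / Real.log T ^ 2 := by positivity
  have k10 : ENNReal.ofReal (Real.sqrt π * c * (1 + η) * (c * T) ^ 2 / Real.log T ^ 2) *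
      ENNReal.ofReal (Real.sqrt π * (Real.log T ^ 2 / (c * T) ^ 2) * (I - δ)) ≤
      ENNReal.ofReal (Real.sqrt π * c * (1 + η) * (c * T) ^ 2 / Real.log T ^ 2) *
        RF (c * T) (Om0 (kT K T)) := by
    refine le_trans ?_ k9
    rw [← ENNReal.ofReal_mul hfac.le]
    refine ENNReal.ofReal_le_ofReal ?_
    have e2 : Real.sqrt π * c * (1 + η) * (c * T) ^ 2 / Real.log T ^ 2 *
        (Real.sqrt π * (Real.log T ^ 2 / (c * T) ^ 2) * (I - δ)) =
        π * c * ((1 + η) * (I - δ)) := by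
      have : Real.sqrt π ^ 2 = π := Real.sq_sqrt hpi.le
      field_simp
      rw [this]
      ring
    rw [e2]
    exact mul_le_mul_of_nonneg_left hη2 (by positivity)
  have hne : ENNReal.ofReal (Real.sqrt π * c * (1 + η) * (c * T) ^ 2 / Real.log T ^ 2) ≠ 0 := by
    rw [Ne, ENNReal.ofReal_eq_zero]
    linarith
  exact (ENNReal.mul_le_mul_iff_right hne ENNReal.ofReal_ne_top).1 k10

end Pool.Agent.H7.PS
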