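import Pool.Agent.H7.PS.Mean3

/-! The deficits. -/

open MeasureTheory Filter Topology Real
open scoped ENNReal ContDiff

namespace Pool.Agent.H7.PS

open H370 TH803TW Pool.Agent.Y744 Pool.Agent.Y744.ANC Pool.Agent.H7.FF
open Pool.Agent.Results.MP_103a5c_nt.BohrSetPairs

variable {κ : ℝ} {K : ℝ → ℝ}

lemma HypU.sharpU (h : HypU) {ε κ : ℝ} (hε : 0 < ε) (hε1 : ε ≤ 1) (hκ : 1 ≤ κ) :
    SharpU 1 ε κ := h.sharp ε κ hε hε1 hκ

lemma HypU.weakU (h : HypU) {ε κ : ℝ} (hε : 0 < ε) (hκ : 1 ≤ κ) :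
    ∃ C : ℝ, 0 ≤ C ∧ WeakU C ε κ := by
  obtain ⟨C, hC, hr⟩ := h.rough κ hκ
  refine ⟨C, hC, ?_⟩
  filter_upwards [hr, eventually_gt_atTop 1] with T h1 hT X H hX1 hX2 hH1 hH2
  have hT0 : 0 < T := by linarith
  have hL : 0 < Real.log T := Real.log_pos hT
  have hX0 : 0 < X := lt_of_lt_of_le (by positivity) hX1
  refine (h1 X H ((Real.rpow_le_rpow_of_exponent_le hT.le (by linarith)).trans hX1) hX2 hH1
    (hH2.trans (mul_le_mul_of_nonneg_left (Real.rpow_le_rpow_of_exponent_le hT.le (by linarith))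
      hX0.le))).trans (ENNReal.ofReal_le_ofReal ?_)
  have h2 : 1 ≤ T ^ (ε / 8) := Real.one_le_rpow hT.le (by positivity)
  have h3 : 0 ≤ X * H * Real.log T := by positivity
  calc C * (X * H * Real.log T) ≤ C * T ^ (ε / 8) * (X * H * Real.log T) := by
        refine mul_le_mul_of_nonneg_right ?_ h3
        nlinarith
    _ = _ := rfl

/-- the deficit -/
noncomputable def Dfc (ε T X H : ℝ) : ℝ≥0∞ :=
  ENNReal.ofReal ((1 + 2 * ε) * (X * H * Real.log T)) - Ul X H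

/-- the deficit, integrated over the lengths -/
noncomputable def Dfi (ε σ T X : ℝ) : ℝ≥0∞ :=
  ∫⁻ H in Set.Ioc (σ * X / T) (X / T), ENNReal.ofReal ((1 + H / X) ^ (-T)) * Dfc ε T X H

lemma BI_add {ε σ T X : ℝ} (hX : 0 < X) (hT : 0 < T) (hσ : 0 < σ) :
    BI T X + Dfi ε σ T X ≤ ∫⁻ H in Set.Ioi (0 : ℝ), ENNReal.ofReal ((1 + H / X) ^ (-T)) *
      (Ul X H + (Set.Ioc (σ * X / T) (X / T)).indicator (Dfc ε T X) H) := by
  have e : Dfi ε σ T X = ∫⁻ H in Set.Ioi (0 : ℝ), ENNReal.ofReal ((1 + H / X) ^ (-T)) *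
      (Set.Ioc (σ * X / T) (X / T)).indicator (Dfc ε T X) H := by
    unfold Dfi
    have hsub : Set.Ioc (σ * X / T) (X / T) ⊆ Set.Ioi 0 := fun H hH =>
      lt_of_le_of_lt (by positivity) hH.1
    have e1 : ∀ H, ENNReal.ofReal ((1 + H / X) ^ (-T)) *
      (Set.Ioc (σ * X / T) (X / T)).indicator (Dfc ε T X) H =
        (Set.Ioc (σ * X / T) (X / T)).indicator
          (fun H => ENNReal.ofReal ((1 + H / X) ^ (-T)) * Dfc ε T X H) H := by
      intro H
      by_cases hH : H ∈ Set.Ioc (σ * X / T) (X / T)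
      · rw [Set.indicator_of_mem hH, Set.indicator_of_mem hH]
      · rw [Set.indicator_of_notMem hH, Set.indicator_of_notMem hH, mul_zero]
    simp_rw [e1]
    rw [lintegral_indicator measurableSet_Ioc, Measure.restrict_restrict measurableSet_Ioc,
      Set.inter_eq_left.2 hsub]
  rw [e]
  unfold BI
  refine (le_lintegral_add _ _).trans (le_of_eq ?_)
  refine lintegral_congr fun H => ?_
  rw [mul_add]

/-- the deficits are small -/
theorem deficit (RH : RiemannHypothesis) (hU : HypU) (hκ : 1 ≤ κ) (hK : TK κ K)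
    (hpos : ∀ x, 0 ≤ K x) {ε : ℝ} (hε : 0 < ε) (hε1 : ε ≤ 1)
    (h0 : ∀ x, |x| < 1 + 2 * ε → K x = 0) {σ : ℝ} (hσ : 0 < σ) {δ : ℝ} (hδ : 0 < δ) :
    ∀ᶠ T : ℝ in atTop, ∫⁻ X in Set.Ioc (T ^ (1 + ε)) (T ^ (κ + 1)),
      ENNReal.ofReal (X ^ (-4 : ℤ)) * (ENNReal.ofReal (Real.sqrt π *
        K (Real.log X / Real.log T)) * Dfi ε σ T X) ≤
      ENNReal.ofReal (Real.sqrt π * (Real.log T ^ 2 / T ^ 2) *
        (3 * ε * (∫ α in (0 : ℝ)..κ, K α) + δ)) := by
  have h0' : ∀ x, 0 < x → x < 1 / 2 → K x = 0 := fun x hx hx2 =>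
    h0 x (by rw [abs_of_pos hx]; linarith)
  have h01 : ∀ x, |x| ≤ 1 → K x = 0 := fun x hx => h0 x (by linarith)
  have hs : ∀ α, 0 < α → K α ≠ 0 → 1 + 2 * ε ≤ α := by
    intro α hα hne
    by_contra hcon
    refine hne (h0 α ?_)
    rw [abs_of_pos hα]
    linarith
  obtain ⟨M, D, hM, hW⟩ := TK_WK hK hpos h0'
  obtain ⟨C, hC, hweak⟩ := hU.weakU (κ := κ + 1) hε (by linarith)
  have hsharp := hU.sharpU (κ := κ + 1) hε hε1 (by linarith)
  obtain ⟨I, hI⟩ : ∃ I, I = ∫ α in (0 : ℝ)..κ, K α := ⟨_, rfl⟩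
  have hgen := upper_gen (A := 1) zero_le_one hε hε1 hκ one_pos hM hW (half_pos hδ)
  have hRF := RF_le_Wm hε hκ one_pos hM hW hs
  have hlow := RF_lower RH hU hκ hK hpos h01 one_pos (half_pos hδ)
  have hBU := B_U (κ := κ + 1) zero_le_one hC hε hε1 one_pos
  rw [← hI] at hgen hlow ⊢
  simp only [one_mul] at hgen hRF hlow hBU
  have tσ : ∀ᶠ T : ℝ in atTop, T ^ (-(ε / 4)) < σ :=
    (tendsto_order.1 (tendsto_rpow_neg_atTop (by positivity : 0 < ε / 4))).2 σ hσ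
  filter_upwards [hgen, hRF, hlow, hBU, hsharp, hweak, tσ, eventually_gt_atTop 1]
    with T g1 g2 g3 g4 g5 g6 hTσ hT1
  have hT0 : 0 < T := by linarith
  have hL : 0 < Real.log T := Real.log_pos hT1
  obtain ⟨BJ, hBJ⟩ : ∃ BJ : ℝ → ℝ≥0∞, BJ = fun X => BI T X +
      (Set.Ioc (T ^ (1 + ε)) (T ^ (κ + 1))).indicator (Dfi ε σ T) X := ⟨_, rfl⟩
  have e14 : T ^ (1 + ε) ≤ T ^ (κ + 1) := Real.rpow_le_rpow_of_exponent_le hT1.le (by linarith)
  have hupper := g1 BJ (fun X hX hX1 => by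
      rw [hBJ]
      show BI T X + _ ≤ _
      rw [Set.indicator_of_notMem (fun hmem => absurd hmem.1 (not_lt.2 hX1)), add_zero])
    (fun X hX1 => by
      rw [hBJ]
      show BI T X + _ ≤ _
      rw [Set.indicator_of_notMem (fun hmem => absurd hmem.2 (not_le.2 hX1)), add_zero])
    (fun X hX1 hX2 => by
      have hX0 : 0 < X := lt_of_lt_of_le (by positivity) hX1
      rw [hBJ]
      show BI T X + _ ≤ _
      have hle : (Set.Ioc (T ^ (1 + ε)) (T ^ (κ + 1))).indicator (Dfi ε σ T) X ≤ Dfi ε σ T X := by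
        refine Set.indicator_le_self' (fun _ _ => zero_le) X
      refine (add_le_add le_rfl hle).trans ((BI_add hX0 hT0 hσ).trans ?_)
      have hG1 : X * T ^ (-1 - ε / 4) < σ * X / T := by
        have h1 : T ^ (-1 - ε / 4) = T ^ (-(ε / 4)) / T := by
          rw [show -1 - ε / 4 = -(ε / 4) - 1 by ring, Real.rpow_sub_one hT0.ne']
        rw [h1, ← mul_div_assoc]
        refine div_lt_div_of_pos_right ?_ hT0
        rw [mul_comm σ X]
        exact mul_lt_mul_of_pos_left hTσ hX0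
      have hG2 : X / T ≤ X * T ^ (-1 + ε / 4) := by
        have h1 : T ^ (-1 + ε / 4) = T ^ (ε / 4) / T := by
          rw [show -1 + ε / 4 = ε / 4 - 1 by ring, Real.rpow_sub_one hT0.ne']
        rw [h1, ← mul_div_assoc]
        refine div_le_div_of_nonneg_right ?_ hT0.le
        have : 1 ≤ T ^ (ε / 4) := Real.one_le_rpow hT1.le (by positivity)
        nlinarith
      refine g4 X hX1 hX2 _ (fun H hH1 hH2 => ?_) (fun H hH1 hH2 => ?_) (fun H hH1 => ?_)
      · rw [Set.indicator_of_notMem (fun hmem => absurd (hG1.trans hmem.1) (not_lt.2 hH2)),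
          add_zero]
        exact g6 X H hX1 hX2 hH1 hH2
      · by_cases hH : H ∈ Set.Ioc (σ * X / T) (X / T)
        · rw [Set.indicator_of_mem hH]
          unfold Dfc
          rw [add_tsub_cancel_of_le (g5 X H hX1 hX2 hH1.le hH2)]
        · rw [Set.indicator_of_notMem hH, add_zero]
          exact g5 X H hX1 hX2 hH1.le hH2
      · rw [Set.indicator_of_notMem (fun hmem => absurd (hmem.2.trans hG2) (not_le.2 hH1)),
          add_zero])
  -- the sum
  have hWm : ∀ X ∈ Set.Ioc (T ^ (1 + ε)) (T ^ (κ + 1)),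
      ENNReal.ofReal (Real.sqrt π * K (Real.log X / Real.log T)) ≤ Wm T ε κ M D K X := by
    intro X hX
    have hD : 0 ≤ D := by
      have h1 := hW.lip 1 0
      have h2 := abs_nonneg (K 1 - K 0)
      simp at h1
      linarith
    unfold Wm WW
    rw [if_neg (not_le.2 hX.1), if_pos hX.2]
    refine ENNReal.ofReal_le_ofReal ?_
    refine mul_le_mul_of_nonneg_left ?_ (Real.sqrt_nonneg _)
    have : 0 ≤ 3 * D / Real.log T := by positivity
    linarith
  have hsum : RF T (Om0 (kT K T)) + ∫⁻ X in Set.Ioc (T ^ (1 + ε)) (T ^ (κ + 1)),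
      ENNReal.ofReal (X ^ (-4 : ℤ)) * (ENNReal.ofReal (Real.sqrt π *
        K (Real.log X / Real.log T)) * Dfi ε σ T X) ≤
      ∫⁻ X in Set.Ioi (0 : ℝ), ENNReal.ofReal (X ^ (-4 : ℤ)) * (Wm T ε κ M D K X * BJ X) := by
    have h1 : ∫⁻ X in Set.Ioc (T ^ (1 + ε)) (T ^ (κ + 1)),
      ENNReal.ofReal (X ^ (-4 : ℤ)) * (ENNReal.ofReal (Real.sqrt π *
        K (Real.log X / Real.log T)) * Dfi ε σ T X) ≤ ∫⁻ X in Set.Ioi (0 : ℝ),
        ENNReal.ofReal (X ^ (-4 : ℤ)) * (Wm T ε κ M D K X *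
          (Set.Ioc (T ^ (1 + ε)) (T ^ (κ + 1))).indicator (Dfi ε σ T) X) := by
      have hsub : Set.Ioc (T ^ (1 + ε)) (T ^ (κ + 1)) ⊆ Set.Ioi 0 := fun X hX =>
        lt_trans (by positivity) hX.1
      refine le_trans ?_ (lintegral_mono_set hsub)
      refine setLIntegral_mono' measurableSet_Ioc fun X hX => ?_
      rw [Set.indicator_of_mem hX]
      exact mul_le_mul_right (mul_le_mul_left (hWm X hX) _) _
    refine (add_le_add g2 h1).trans ((le_lintegral_add _ _).trans (le_of_eq ?_))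
    refine lintegral_congr fun X => ?_
    rw [hBJ, ← mul_add, ← mul_add]
  have hfin := (add_le_add g3 le_rfl).trans (hsum.trans hupper)
  obtain ⟨Q, hQ⟩ : ∃ Q, Q = Real.sqrt π * (Real.log T ^ 2 / T ^ 2) := ⟨_, rfl⟩
  rw [← hQ] at hfin ⊢
  have hQ0 : 0 ≤ Q := by rw [hQ]; positivity
  obtain ⟨DI, hDI⟩ : ∃ DI, DI = ∫⁻ X in Set.Ioc (T ^ (1 + ε)) (T ^ (κ + 1)),
      ENNReal.ofReal (X ^ (-4 : ℤ)) * (ENNReal.ofReal (Real.sqrt π *
        K (Real.log X / Real.log T)) * Dfi ε σ T X) := ⟨_, rfl⟩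
  rw [← hDI] at hfin ⊢
  have e3 : Q * (3 * ε * I + δ) = Q * ((1 + 3 * ε) * I + δ / 2) - Q * (I - δ / 2) := by ring
  rw [e3]
  rcases le_or_gt 0 (Q * (I - δ / 2)) with hc | hc
  · rw [ENNReal.ofReal_sub _ hc]
    exact ENNReal.le_sub_of_add_le_left ENNReal.ofReal_ne_top hfin
  · rw [ENNReal.ofReal_of_nonpos hc.le, zero_add] at hfin
    exact hfin.trans (ENNReal.ofReal_le_ofReal (by linarith))

end Pool.Agent.H7.PS
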