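import Pool.Agent.H7.PS.Mean4
import Pool.Agent.H7.PS.Hyp2

/-! The asymptotic formula in mean. -/

open MeasureTheory Filter Topology Real
open scoped ENNReal ContDiff

namespace Pool.Agent.H7.PS

open H370 TH803TW Pool.Agent.Y744 Pool.Agent.Y744.ANC Pool.Agent.H7.FF
open Pool.Agent.Results.MP_103a5c_nt.BohrSetPairs
open Pool.Agent.Results.MP_2a816b_nt.SparseScales (V)

lemma shift_lint (f : ℝ → ℝ≥0∞) (Y Z H : ℝ) : ∫⁻ a in Set.Ico Y Z, f (a + H) =
    ∫⁻ a in Set.Ico (Y + H) (Z + H), f a := by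
  rw [← lintegral_indicator measurableSet_Ico, ← lintegral_indicator measurableSet_Ico,
    ← lintegral_add_right_eq_self ((Set.Ico (Y + H) (Z + H)).indicator f) H]
  refine lintegral_congr fun a => ?_
  by_cases ha : a ∈ Set.Ico Y Z
  · rw [Set.indicator_of_mem ha, Set.indicator_of_mem (by
      exact ⟨by linarith [ha.1], by linarith [ha.2]⟩)]
  · rw [Set.indicator_of_notMem ha, Set.indicator_of_notMem (fun h => ha
      ⟨by linarith [h.1], by linarith [h.2]⟩)]

/-- the triangle inequality -/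
lemma tri {Y H h θ : ℝ} (_hY : 0 < Y) (hH : 0 ≤ H) (hHY : H ≤ 2 * Y) (hθ : 0 < θ) :
    Ul Y H ≤ ENNReal.ofReal (1 + θ) * Ul Y (H + h) +
      ENNReal.ofReal (1 + 1 / θ) * (Ul Y h + Ul (2 * Y) h) := by
  have hm : ∀ x : ℝ, Measurable fun a : ℝ => ENNReal.ofReal (dP a x ^ 2) := fun x =>
    ((dP_meas.comp (measurable_id.prodMk measurable_const)).pow_const 2).ennreal_ofReal
  have h1 : Ul Y H ≤ ∫⁻ a in Set.Ico Y (2 * Y), (ENNReal.ofReal (1 + θ) *
      ENNReal.ofReal (dP a (H + h) ^ 2) + ENNReal.ofReal (1 + 1 / θ) *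
        ENNReal.ofReal (dP (a + H) h ^ 2)) := by
    unfold Ul
    refine lintegral_mono fun a => ?_
    show ENNReal.ofReal (dP a H ^ 2) ≤ _
    rw [← ENNReal.ofReal_mul (by positivity), ← ENNReal.ofReal_mul (by positivity),
      ← ENNReal.ofReal_add (by positivity) (by positivity)]
    refine ENNReal.ofReal_le_ofReal ?_
    have e : dP a H = dP a (H + h) - dP (a + H) h := by
      unfold dP
      rw [show a + (H + h) = a + H + h by ring]
      ring
    rw [e]
    obtain ⟨p, hp⟩ : ∃ p, p = dP a (H + h) := ⟨_, rfl⟩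
    obtain ⟨q, hq⟩ : ∃ q, q = dP (a + H) h := ⟨_, rfl⟩
    rw [← hp, ← hq]
    have h2 : (1 + θ) * p ^ 2 + (1 + 1 / θ) * q ^ 2 - (p - q) ^ 2 = (θ * p + q) ^ 2 / θ := by
      field_simp
      ring
    have h3 : 0 ≤ (θ * p + q) ^ 2 / θ := by positivity
    linarith
  refine h1.trans ?_
  rw [lintegral_add_left ((hm _).const_mul _), lintegral_const_mul _ (hm _),
    lintegral_const_mul' _ _ ENNReal.ofReal_ne_top]
  refine add_le_add le_rfl (mul_le_mul_right ?_ _)
  rw [shift_lint (fun a => ENNReal.ofReal (dP a h ^ 2)) Y (2 * Y) H]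
  have hsub : Set.Ico (Y + H) (2 * Y + H) ⊆ Set.Ico Y (2 * Y) ∪ Set.Ico (2 * Y) (2 * (2 * Y)) := by
    intro x hx
    rcases lt_or_ge x (2 * Y) with h2 | h2
    · exact Or.inl ⟨by linarith [hx.1], h2⟩
    · exact Or.inr ⟨h2, by linarith [hx.2]⟩
  exact (lintegral_mono_set hsub).trans (lintegral_union_le _ _ _)

/-- the upper bound on the line `X / H = T` -/
lemma V_line (h : HypV) {a b ε : ℝ} (ha : 1 < a) (hab : a ≤ b) (hε : 0 < ε) :
    ∀ᶠ T : ℝ in atTop, ∀ X : ℝ, T ^ a ≤ X → X ≤ T ^ b →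
      V X (X / T) ≤ (1 + ε) * (X / T * Real.log T) := by
  obtain ⟨ε0, hε0, h1, h2, h3⟩ : ∃ ε0 : ℝ, 0 < ε0 ∧ ε0 ≤ ε ∧ ε0 ≤ 1 - 1 / a ∧ ε0 ≤ 1 / b := by
    have : 1 / a < 1 := by
      rw [div_lt_one (by linarith)]
      exact ha
    have hb : 0 < b := by linarith
    exact ⟨min ε (min (1 - 1 / a) (1 / b)), lt_min hε (lt_min (by linarith) (by positivity)),
      min_le_left _ _, (min_le_right _ _).trans (min_le_left _ _),
      (min_le_right _ _).trans (min_le_right _ _)⟩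
  obtain ⟨X0, hX0⟩ := (h.sharp ε0 hε0).exists_forall_of_atTop
  filter_upwards [eventually_ge_atTop X0, eventually_gt_atTop 1] with T hTX hT X hX1 hX2
  have hT0 : 0 < T := by linarith
  have hL : 0 < Real.log T := Real.log_pos hT
  have hTX1 : T ≤ X := by
    calc T = T ^ (1 : ℝ) := (Real.rpow_one T).symm
      _ ≤ T ^ a := Real.rpow_le_rpow_of_exponent_le hT.le ha.le
      _ ≤ X := hX1
  have hX0' : 0 < X := by linarith
  have hX1' : 1 ≤ X := by linarith
  have ha0 : 0 < a := by linarith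
  have hb0 : 0 < b := by linarith
  have k1 : T ≤ X ^ (1 / a) := by
    calc T = (T ^ a) ^ (1 / a) := by
          rw [← Real.rpow_mul hT0.le, mul_one_div_cancel ha0.ne', Real.rpow_one]
      _ ≤ X ^ (1 / a) := Real.rpow_le_rpow (by positivity) hX1 (by positivity)
  have k2 : X ^ (1 / b) ≤ T := by
    calc X ^ (1 / b) ≤ (T ^ b) ^ (1 / b) := Real.rpow_le_rpow hX0'.le hX2 (by positivity)
      _ = T := by rw [← Real.rpow_mul hT0.le, mul_one_div_cancel hb0.ne', Real.rpow_one]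
  have k3 : X ^ ε0 ≤ X / T := by
    rw [le_div_iff₀ hT0]
    calc X ^ ε0 * T ≤ X ^ (1 - 1 / a) * X ^ (1 / a) := by
          refine mul_le_mul (Real.rpow_le_rpow_of_exponent_le hX1' h2) k1 hT0.le (by positivity)
      _ = X := by
          rw [← Real.rpow_add hX0', sub_add_cancel, Real.rpow_one]
  have k4 : X / T ≤ X ^ (1 - ε0) := by
    rw [div_le_iff₀ hT0]
    calc X = X ^ (1 - ε0) * X ^ ε0 := by
          rw [← Real.rpow_add hX0', sub_add_cancel, Real.rpow_one]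
      _ ≤ X ^ (1 - ε0) * T := by
          refine mul_le_mul_of_nonneg_left ?_ (by positivity)
          exact (Real.rpow_le_rpow_of_exponent_le hX1' h3).trans k2
  have k5 := hX0 X (hTX.trans hTX1) (X / T) k3 k4
  have e : X / (X / T) = T := by field_simp
  rw [e] at k5
  refine k5.trans ?_
  have : 0 ≤ X / T * Real.log T := by positivity
  exact mul_le_mul_of_nonneg_right (by linarith) this

lemma V_nonneg {X H : ℝ} (hX : 0 < X) : 0 ≤ V X H := by
  unfold V
  refine mul_nonneg (by positivity) (intervalIntegral.integral_nonneg (by linarith) fun x _ => ?_)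
  positivity

/-- the normalised mean square on the line `X / H = T` -/
noncomputable def vl (T X : ℝ) : ℝ := V X (X / T) / (X / T * Real.log T)

/-- the deficit at a point controls the normalised mean square -/
lemma point (h : HypV) {a b : ℝ} (ha : 1 < a) (hab : a ≤ b) : ∃ C : ℝ, 0 ≤ C ∧
    ∀ θ : ℝ, 0 < θ → θ ≤ 1 / 2 → ∀ ε : ℝ, 0 < ε → ε ≤ 1 → ∀ᶠ T : ℝ in atTop,
      ∀ X : ℝ, T ^ a ≤ X → X ≤ T ^ b →
      ∀ H ∈ Set.Ioc ((1 - θ ^ 2) * (X * (1 - 1 / (4 * T))) / T) (X * (1 - 1 / (4 * T)) / T),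
      ENNReal.ofReal (X * (X / T) * Real.log T * (1 + 2 * ε - vl T X - C * θ)) ≤
        Dfc ε T (X * (1 - 1 / (4 * T))) H := by
  obtain ⟨C, hC, hr⟩ := h.toU.rough (b + 1) (by linarith)
  refine ⟨8 + 12 * C, by positivity, fun θ hθ hθ1 ε hε hε1 => ?_⟩
  filter_upwards [hr, V_line h ha hab hε, eventually_ge_atTop 16,
    eventually_ge_atTop (1 / (2 * θ ^ 2))] with T hr hV hT hTθ X hX1 hX2 H hH
  have hT0 : 0 < T := by linarith
  have hT1 : 1 < T := by linarith
  have hL : 0 < Real.log T := Real.log_pos hT1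
  have hTX1 : T ≤ X := by
    calc T = T ^ (1 : ℝ) := (Real.rpow_one T).symm
      _ ≤ T ^ a := Real.rpow_le_rpow_of_exponent_le hT1.le ha.le
      _ ≤ X := hX1
  have hX0 : 0 < X := by linarith
  obtain ⟨l, hl⟩ : ∃ l : ℝ, l = 1 - 1 / (4 * T) := ⟨_, rfl⟩
  rw [← hl] at hH ⊢
  have hl0 : 1 / 2 ≤ l := by
    rw [hl]
    have : 1 / (4 * T) ≤ 1 / 2 := by
      rw [div_le_div_iff₀ (by positivity) (by norm_num)]
      linarith
    linarith
  have hl1 : l < 1 := by
    rw [hl]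
    have : 0 < 1 / (4 * T) := by positivity
    linarith
  have hl2 : 1 - l = 1 / (4 * T) := by rw [hl]; ring
  obtain ⟨Y, hY⟩ : ∃ Y : ℝ, Y = X * l := ⟨_, rfl⟩
  rw [← hY] at hH ⊢
  have hYX : Y ≤ X := by rw [hY]; nlinarith
  have hXY : X ≤ 2 * Y := by rw [hY]; nlinarith
  have hY0 : 0 < Y := by linarith
  have hθ2 : θ ^ 2 ≤ 1 / 4 := by nlinarith
  obtain ⟨σ, hσ⟩ : ∃ σ : ℝ, σ = 1 - θ ^ 2 := ⟨_, rfl⟩
  rw [← hσ] at hH
  have hσ0 : 1 / 2 ≤ σ := by rw [hσ]; linarith
  have hσ1 : σ < 1 := by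
    rw [hσ]
    have : 0 < θ ^ 2 := by positivity
    linarith
  obtain ⟨H0, hH0⟩ : ∃ H0 : ℝ, H0 = X / T := ⟨_, rfl⟩
  have hH0p : 0 < H0 := by rw [hH0]; positivity
  have hHp : 0 < H := lt_of_le_of_lt (by positivity) hH.1
  have hHH0 : H < H0 := by
    refine lt_of_le_of_lt hH.2 ?_
    rw [hH0]
    exact div_lt_div_of_pos_right (by rw [hY]; nlinarith) hT0
  have hH0X : H0 ≤ X := by
    rw [hH0, div_le_iff₀ hT0]
    nlinarith
  -- the triangle inequality
  have ht := tri (Y := Y) (H := H) (h := H0 - H) (θ := θ) hY0 hHp.le (by linarith) hθ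
  rw [add_sub_cancel] at ht
  have hV1 := V_ge_Ul (X := X) (H := H0) hX0 hH0p.le hH0X
  have e1 : X - H0 / 4 = Y := by
    rw [hY, hl, hH0]
    field_simp
  rw [e1] at hV1
  have hlow : T ^ (1 / 4 : ℝ) ≤ Y := by
    have h1 : T ^ (1 / 4 : ℝ) ≤ T / 2 := by
      have h2 : T ^ (1 / 4 : ℝ) ≤ T ^ (1 / 2 : ℝ) :=
        Real.rpow_le_rpow_of_exponent_le hT1.le (by norm_num)
      have h3 : T ^ (1 / 2 : ℝ) = Real.sqrt T := (Real.sqrt_eq_rpow T).symm
      have h4 : Real.sqrt T ≤ T / 2 := by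
        rw [Real.sqrt_le_left (by linarith)]
        nlinarith
      linarith
    linarith
  have hhigh : 2 * Y ≤ T ^ (b + 1) := by
    calc 2 * Y ≤ T ^ b * T := by
          have : 2 * Y ≤ 2 * X := by linarith
          nlinarith
      _ = T ^ (b + 1) := by rw [Real.rpow_add_one hT0.ne']
  have hhp : 0 < H0 - H := by linarith
  have hhle : H0 - H ≤ Y * T ^ (-1 / 2 : ℝ) := by
    have h1 : T ^ (-1 / 2 : ℝ) = 1 / Real.sqrt T := by
      rw [Real.sqrt_eq_rpow, one_div, ← Real.rpow_neg hT0.le]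
      norm_num
    have h2 : 0 < Real.sqrt T := Real.sqrt_pos.2 hT0
    have h3 : 2 ≤ Real.sqrt T := by
      rw [Real.le_sqrt' (by norm_num)]
      linarith
    have h4 : H0 ≤ Y * T ^ (-1 / 2 : ℝ) := by
      rw [h1, hH0, mul_one_div, div_le_div_iff₀ hT0 h2]
      have h5 : T = Real.sqrt T * Real.sqrt T := (Real.mul_self_sqrt hT0.le).symm
      calc X * Real.sqrt T ≤ (2 * Y) * Real.sqrt T := by gcongr
        _ ≤ (Real.sqrt T * Y) * Real.sqrt T := by gcongr
        _ = Y * T := by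
            nth_rewrite 3 [h5]
            ring
    linarith
  have hr1 := hr Y (H0 - H) hlow (by linarith) hhp hhle
  have hr2 := hr (2 * Y) (H0 - H) (by linarith) hhigh hhp (by
    have h1 : 0 ≤ Y * T ^ (-1 / 2 : ℝ) := by positivity
    linarith)
  have hv := hV X hX1 hX2
  rw [← hH0] at hv
  have hvd : V X H0 = vl T X * (H0 * Real.log T) := by
    unfold vl
    rw [← hH0, div_mul_cancel₀]
    positivity
  have hv0 : 0 ≤ vl T X := by
    unfold vl
    rw [← hH0]
    exact div_nonneg (V_nonneg hX0) (by positivity)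
  have hv2 : vl T X ≤ 2 := by
    rw [hvd] at hv
    have h1 : 0 < H0 * Real.log T := by positivity
    have h2 := le_of_mul_le_mul_right hv h1
    linarith
  obtain ⟨v, hvv⟩ : ∃ v, v = vl T X := ⟨_, rfl⟩
  rw [← hvv] at hvd hv0 hv2 ⊢
  rw [← hH0]
  obtain ⟨L, hLL⟩ : ∃ L, L = Real.log T := ⟨_, rfl⟩
  rw [← hLL] at hvd hL hr1 hr2 ⊢
  rw [hvd] at hV1
  -- the bound for the length of the difference
  obtain ⟨ρ, hρ⟩ : ∃ ρ : ℝ, ρ = θ ^ 2 + 1 / (2 * T) := ⟨_, rfl⟩
  have hρ1 : 1 - σ * l ≤ ρ := by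
    rw [hρ, hσ]
    have h1 : 1 - (1 - θ ^ 2) * l = θ ^ 2 * l + (1 - l) := by ring
    have h2 : θ ^ 2 * l ≤ θ ^ 2 := mul_le_of_le_one_right (by positivity) hl1.le
    have h3 : 1 / (4 * T) ≤ 1 / (2 * T) :=
      div_le_div_of_nonneg_left (by norm_num) (by positivity) (by linarith)
    rw [h1, hl2]
    linarith
  have hρ2 : 1 - σ * l ^ 2 ≤ ρ := by
    rw [hρ, hσ]
    have h1 : 1 - (1 - θ ^ 2) * l ^ 2 = θ ^ 2 * l ^ 2 + (1 - l) * (1 + l) := by ring
    have h2 : θ ^ 2 * l ^ 2 ≤ θ ^ 2 := mul_le_of_le_one_right (by positivity) (by nlinarith)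
    have h3 : (1 - l) * (1 + l) ≤ 1 / (4 * T) * 2 := by
      rw [← hl2]
      exact mul_le_mul_of_nonneg_left (by linarith) (by linarith)
    have h4 : 1 / (4 * T) * 2 = 1 / (2 * T) := by
      field_simp
      norm_num
    rw [h1]
    linarith
  have hρ3 : ρ ≤ 2 * θ ^ 2 := by
    rw [hρ]
    have h1 : 1 / (2 * T) ≤ θ ^ 2 := by
      rw [div_le_iff₀ (by positivity)] at hTθ ⊢
      nlinarith
    linarith
  have hρ0 : 0 ≤ ρ := by
    rw [hρ]
    positivity
  have hh : H0 - H ≤ H0 * ρ := by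
    have h1 : H0 * (σ * l) ≤ H := by
      have h2 : σ * Y / T = H0 * (σ * l) := by
        rw [hY, hH0]
        ring
      rw [← h2]
      exact hH.1.le
    nlinarith
  have hYH : X * H0 * (1 - ρ) ≤ Y * H := by
    have h1 : H0 * (σ * l) ≤ H := by
      have h2 : σ * Y / T = H0 * (σ * l) := by
        rw [hY, hH0]
        ring
      rw [← h2]
      exact hH.1.le
    calc X * H0 * (1 - ρ) ≤ X * H0 * (σ * l ^ 2) :=
          mul_le_mul_of_nonneg_left (by linarith) (by positivity)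
      _ = (X * l) * (H0 * (σ * l)) := by ring
      _ ≤ Y * H := by
          rw [← hY]
          exact mul_le_mul_of_nonneg_left h1 hY0.le
  have hN0 : 0 ≤ X * H0 * L := by positivity
  have hUl : Ul Y H ≤ ENNReal.ofReal (X * H0 * L * ((1 + θ) * v + (1 + 1 / θ) * (3 * C) * ρ)) := by
    refine ht.trans ?_
    calc ENNReal.ofReal (1 + θ) * Ul Y H0 + ENNReal.ofReal (1 + 1 / θ) *
        (Ul Y (H0 - H) + Ul (2 * Y) (H0 - H)) ≤
        ENNReal.ofReal (1 + θ) * ENNReal.ofReal (X * (v * (H0 * L))) +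
        ENNReal.ofReal (1 + 1 / θ) * (ENNReal.ofReal (C * (Y * (H0 - H) * L)) +
          ENNReal.ofReal (C * (2 * Y * (H0 - H) * L))) := by gcongr
      _ = ENNReal.ofReal ((1 + θ) * (X * (v * (H0 * L))) + (1 + 1 / θ) *
          (C * (Y * (H0 - H) * L) + C * (2 * Y * (H0 - H) * L))) := by
          rw [← ENNReal.ofReal_add (by positivity) (by positivity),
            ← ENNReal.ofReal_mul (by positivity), ← ENNReal.ofReal_mul (by positivity),
            ← ENNReal.ofReal_add (by positivity) (by positivity)]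
      _ ≤ _ := by
          refine ENNReal.ofReal_le_ofReal ?_
          have h1 : Y * (H0 - H) * L ≤ X * (H0 * ρ) * L := by gcongr
          have h2 : (1 + 1 / θ) * (C * (Y * (H0 - H) * L) + C * (2 * Y * (H0 - H) * L)) ≤
              (1 + 1 / θ) * (3 * C * (X * (H0 * ρ) * L)) := by
            refine mul_le_mul_of_nonneg_left ?_ (by positivity)
            have := mul_le_mul_of_nonneg_left h1 (show 0 ≤ 3 * C by positivity)
            linarith
          have h3 : (1 + θ) * (X * (v * (H0 * L))) + (1 + 1 / θ) *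
              (3 * C * (X * (H0 * ρ) * L)) =
              X * H0 * L * ((1 + θ) * v + (1 + 1 / θ) * (3 * C) * ρ) := by ring
          linarith
  unfold Dfc
  rw [← hLL]
  have hmain : ENNReal.ofReal (X * H0 * L * ((1 + 2 * ε) * (1 - ρ))) ≤
      ENNReal.ofReal ((1 + 2 * ε) * (Y * H * L)) := by
    refine ENNReal.ofReal_le_ofReal ?_
    have h1 := mul_le_mul_of_nonneg_left (mul_le_mul_of_nonneg_right hYH hL.le)
      (show 0 ≤ 1 + 2 * ε by positivity)
    linarith
  have hbr0 : 0 ≤ X * H0 * L * ((1 + θ) * v + (1 + 1 / θ) * (3 * C) * ρ) := by positivity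
  have hbr : X * H0 * L * (1 + 2 * ε - v - (8 + 12 * C) * θ) ≤
      X * H0 * L * ((1 + 2 * ε) * (1 - ρ)) -
        X * H0 * L * ((1 + θ) * v + (1 + 1 / θ) * (3 * C) * ρ) := by
    rw [← mul_sub]
    refine mul_le_mul_of_nonneg_left ?_ hN0
    have h1 : (1 + 2 * ε) * ρ ≤ 3 * (2 * θ ^ 2) := by
      refine mul_le_mul (by linarith) hρ3 hρ0 (by norm_num)
    have h2 : (1 + 1 / θ) * (3 * C) * ρ ≤ 12 * C * θ := by
      have h3 : 1 + 1 / θ ≤ 2 / θ := by
        rw [le_div_iff₀ hθ]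
        field_simp
        linarith
      calc (1 + 1 / θ) * (3 * C) * ρ ≤ (2 / θ) * (3 * C) * (2 * θ ^ 2) := by gcongr
        _ = 12 * C * θ := by
            field_simp
            ring
    have h4 : θ * v ≤ θ * 2 := mul_le_mul_of_nonneg_left hv2 hθ.le
    have h5 : 3 * (2 * θ ^ 2) ≤ 6 * θ := by nlinarith
    nlinarith
  calc ENNReal.ofReal (X * H0 * L * (1 + 2 * ε - v - (8 + 12 * C) * θ)) ≤
      ENNReal.ofReal (X * H0 * L * ((1 + 2 * ε) * (1 - ρ)) -
        X * H0 * L * ((1 + θ) * v + (1 + 1 / θ) * (3 * C) * ρ)) := ENNReal.ofReal_le_ofReal hbr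
    _ = ENNReal.ofReal (X * H0 * L * ((1 + 2 * ε) * (1 - ρ))) -
        ENNReal.ofReal (X * H0 * L * ((1 + θ) * v + (1 + 1 / θ) * (3 * C) * ρ)) :=
        ENNReal.ofReal_sub _ hbr0
    _ ≤ _ := tsub_le_tsub hmain hUl

end Pool.Agent.H7.PS
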