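import Pool.Agent.H7.PS.Mean5

/-! The asymptotic formula in mean, conclusion. -/

open MeasureTheory Filter Topology Real
open scoped ENNReal ContDiff

namespace Pool.Agent.H7.PS

open H370 TH803TW Pool.Agent.Y744 Pool.Agent.Y744.ANC Pool.Agent.H7.FF
open Pool.Agent.Results.MP_103a5c_nt.BohrSetPairs
open Pool.Agent.Results.MP_2a816b_nt.SparseScales (V)

/-- a cutoff -/
noncomputable def cut (p q α : ℝ) : ℝ :=
  Real.smoothTransition ((q ^ 2 - α ^ 2) / (q ^ 2 - p ^ 2))

lemma cut_smooth (p q : ℝ) : ContDiff ℝ ∞ (cut p q) := by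
  unfold cut
  exact Real.smoothTransition.contDiff.comp
    ((contDiff_const.sub (contDiff_id.pow 2)).div_const _)

lemma cut_nonneg (p q α : ℝ) : 0 ≤ cut p q α := Real.smoothTransition.nonneg _

lemma cut_le (p q α : ℝ) : cut p q α ≤ 1 := Real.smoothTransition.le_one _

lemma cut_even (p q α : ℝ) : cut p q (-α) = cut p q α := by
  unfold cut
  rw [neg_sq]

lemma cut_one {p q α : ℝ} (hp : 0 ≤ p) (hpq : p < q) (hα : |α| ≤ p) : cut p q α = 1 := by
  refine Real.smoothTransition.one_of_one_le ?_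
  have h1 : 0 < q ^ 2 - p ^ 2 := by nlinarith
  rw [le_div_iff₀ h1, one_mul]
  have : α ^ 2 ≤ p ^ 2 := by
    rw [← sq_abs]
    exact pow_le_pow_left₀ (abs_nonneg _) hα 2
  linarith

lemma cut_zero {p q α : ℝ} (hp : 0 ≤ p) (hpq : p < q) (hα : q ≤ |α|) : cut p q α = 0 := by
  refine Real.smoothTransition.zero_of_nonpos ?_
  have h1 : 0 < q ^ 2 - p ^ 2 := by nlinarith
  refine div_nonpos_of_nonpos_of_nonneg ?_ h1.le
  have : q ^ 2 ≤ α ^ 2 := by
    rw [← sq_abs α]
    exact pow_le_pow_left₀ (by linarith) hα 2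
  linarith

lemma exists_K {a0 a' b' : ℝ} (h0 : 0 < a0) (h1 : a0 < a') (h2 : a' ≤ b') :
    ∃ K, TK (b' + 1) K ∧ (∀ x, 0 ≤ K x) ∧ (∀ x, |x| ≤ a0 → K x = 0) ∧
      (∀ x, a' ≤ |x| → |x| ≤ b' → K x = 1) := by
  refine ⟨fun α => cut b' (b' + 1) α * (1 - cut a0 a' α), ⟨?_, fun x => ?_, fun x hx => ?_⟩,
    fun x => mul_nonneg (cut_nonneg _ _ _) (by linarith [cut_le a0 a' x]), fun x hx => ?_,
    fun x hx hx2 => ?_⟩
  · exact (cut_smooth _ _).mul (contDiff_const.sub (cut_smooth _ _))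
  · show cut b' (b' + 1) (-x) * (1 - cut a0 a' (-x)) = _
    rw [cut_even, cut_even]
  · show cut b' (b' + 1) x * (1 - cut a0 a' x) = 0
    rw [cut_zero (by linarith) (by linarith) hx.le, zero_mul]
  · show cut b' (b' + 1) x * (1 - cut a0 a' x) = 0
    rw [cut_one h0.le h1 hx, sub_self, mul_zero]
  · show cut b' (b' + 1) x * (1 - cut a0 a' x) = 1
    rw [cut_zero h0.le h1 hx, cut_one (by linarith) (by linarith) hx2]
    norm_num

lemma third {T Y H : ℝ} (hT : 0 < T) (hY : 0 < Y) (hH : 0 ≤ H) (hHY : H ≤ Y / T) :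
    1 / 3 ≤ (1 + H / Y) ^ (-T) := by
  have h1 : 0 < 1 + H / Y := by positivity
  rw [Real.rpow_neg h1.le, ← one_div]
  have h2 : (1 + H / Y) ^ T ≤ 3 := by
    have h3 : 1 + H / Y ≤ Real.exp (1 / T) := by
      have h4 : H / Y ≤ 1 / T := by
        rw [div_le_div_iff₀ hY hT]
        rw [le_div_iff₀ hT] at hHY
        linarith
      have h5 := Real.add_one_le_exp (1 / T)
      linarith
    calc (1 + H / Y) ^ T ≤ (Real.exp (1 / T)) ^ T := Real.rpow_le_rpow h1.le h3 hT.le
      _ = Real.exp 1 := by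
          rw [← Real.exp_mul]
          congr 1
          field_simp
      _ ≤ 3 := by
          have := Real.exp_one_lt_d9
          linarith
  exact one_div_le_one_div_of_le (by positivity) h2

lemma Dfi_ge {ε σ T Y N : ℝ} (hT : 0 < T) (hY : 0 < Y) (hσ0 : 0 ≤ σ) (hσ1 : σ ≤ 1)
    (h : ∀ H ∈ Set.Ioc (σ * Y / T) (Y / T), ENNReal.ofReal N ≤ Dfc ε T Y H) :
    ENNReal.ofReal ((1 - σ) * (Y / T) * (1 / 3) * N) ≤ Dfi ε σ T Y := by
  have h1 : ∫⁻ _ in Set.Ioc (σ * Y / T) (Y / T), ENNReal.ofReal (1 / 3) * ENNReal.ofReal N ≤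
      Dfi ε σ T Y := by
    unfold Dfi
    refine setLIntegral_mono' measurableSet_Ioc fun H hH => ?_
    refine mul_le_mul' (ENNReal.ofReal_le_ofReal (third hT hY ?_ hH.2)) (h H hH)
    exact (lt_of_le_of_lt (by positivity) hH.1).le
  refine le_trans (le_of_eq ?_) h1
  have e : (1 - σ) * (Y / T) * (1 / 3) * N = (Y / T - σ * Y / T) * (1 / 3 * N) := by ring
  have hn : 0 ≤ Y / T - σ * Y / T := by
    have : (Y / T - σ * Y / T) = (1 - σ) * (Y / T) := by ring
    rw [this]
    exact mul_nonneg (by linarith) (by positivity)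
  rw [e, ENNReal.ofReal_mul hn, ENNReal.ofReal_mul (by norm_num), setLIntegral_const,
    Real.volume_Ioc, mul_comm]

/-- the mean is small -/
theorem mean_small (h : HypV) {a b : ℝ} (ha : 1 < a) (hab : a ≤ b) {ε' : ℝ} (hε' : 0 < ε') :
    ∀ᶠ T : ℝ in atTop, ∫⁻ X in Set.Ioc (T ^ a) (T ^ b), ENNReal.ofReal (|vl T X - 1| / X) ≤
      ENNReal.ofReal (ε' * Real.log T) := by
  obtain ⟨C, hC, hpt⟩ := point h ha hab
  obtain ⟨K, hK, hpos, hK0, hK1⟩ := exists_K (a0 := 1 + (a - 1) / 4) (a' := 1 + (a - 1) / 2)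
    (b' := b) (by linarith) (by linarith) (by linarith)
  obtain ⟨I, hI⟩ : ∃ I, I = ∫ α in (0 : ℝ)..(b + 1), K α := ⟨_, rfl⟩
  have hI0 : 0 ≤ I := by
    rw [hI]
    exact intervalIntegral.integral_nonneg (by linarith) fun x _ => hpos x
  have hba : 0 ≤ b - a := by linarith
  -- the parameters
  obtain ⟨θ, hθ, hθ1, hθ2⟩ : ∃ θ : ℝ, 0 < θ ∧ θ ≤ 1 / 2 ∧ C * θ * (b - a) ≤ ε' / 4 := by
    refine ⟨min (1 / 2) (ε' / (4 * (C + 1) * (b - a + 1))), lt_min (by norm_num) (by positivity),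
      min_le_left _ _, ?_⟩
    have h1 : min (1 / 2) (ε' / (4 * (C + 1) * (b - a + 1))) ≤
        ε' / (4 * (C + 1) * (b - a + 1)) := min_le_right _ _
    calc C * min (1 / 2) (ε' / (4 * (C + 1) * (b - a + 1))) * (b - a) ≤
        C * (ε' / (4 * (C + 1) * (b - a + 1))) * (b - a) := by gcongr
      _ ≤ (C + 1) * (ε' / (4 * (C + 1) * (b - a + 1))) * (b - a + 1) := by
          gcongr <;> linarith
      _ = ε' / 4 := by
          field_simp
  obtain ⟨ε, hε, hε1, hε2, hε3, hε4⟩ : ∃ ε : ℝ, 0 < ε ∧ ε ≤ 1 ∧ ε ≤ (a - 1) / 8 ∧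
      ε * (b - a) ≤ ε' / 4 ∧ 6 * (3 * ε * I) / θ ^ 2 ≤ ε' / 4 := by
    have p1 : 0 < (a - 1) / 8 := by linarith
    refine ⟨min (min 1 ((a - 1) / 8)) (min (ε' / (4 * (b - a + 1))) (ε' * θ ^ 2 / (72 * (I + 1)))),
      lt_min (lt_min one_pos p1) (lt_min (by positivity) (by positivity)),
      (min_le_left _ _).trans (min_le_left _ _), (min_le_left _ _).trans (min_le_right _ _),
      ?_, ?_⟩
    · have h1 : min (min 1 ((a - 1) / 8)) (min (ε' / (4 * (b - a + 1)))
          (ε' * θ ^ 2 / (72 * (I + 1)))) ≤ ε' / (4 * (b - a + 1)) :=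
        (min_le_right _ _).trans (min_le_left _ _)
      calc _ ≤ (ε' / (4 * (b - a + 1))) * (b - a) := mul_le_mul_of_nonneg_right h1 hba
        _ ≤ (ε' / (4 * (b - a + 1))) * (b - a + 1) := by gcongr; linarith
        _ = ε' / 4 := by field_simp
    · have h1 : min (min 1 ((a - 1) / 8)) (min (ε' / (4 * (b - a + 1)))
          (ε' * θ ^ 2 / (72 * (I + 1)))) ≤ ε' * θ ^ 2 / (72 * (I + 1)) :=
        (min_le_right _ _).trans (min_le_right _ _)
      rw [div_le_iff₀ (by positivity)]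
      calc _ ≤ 6 * (3 * (ε' * θ ^ 2 / (72 * (I + 1))) * I) := by gcongr
        _ = ε' / 4 * θ ^ 2 * (I / (I + 1)) := by
            field_simp
            ring
        _ ≤ ε' / 4 * θ ^ 2 * 1 := by
            refine mul_le_mul_of_nonneg_left ?_ (by positivity)
            rw [div_le_one (by positivity)]
            linarith
        _ = _ := by ring
  have hθsq : 0 < θ ^ 2 := by positivity
  have hθsq1 : θ ^ 2 ≤ 1 := by nlinarith
  have hK0' : ∀ x, |x| < 1 + 2 * ε → K x = 0 := fun x hx => hK0 x (by linarith)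
  have hRH := h.RH
  have hdef := deficit hRH h.toU (κ := b + 1) (by linarith) hK hpos hε hε1 hK0'
    (σ := 1 - θ ^ 2) (by nlinarith) (δ := ε' * θ ^ 2 / 24) (by positivity)
  rw [← hI] at hdef
  have ta : ∀ᶠ T : ℝ in atTop, 2 ≤ T ^ ((a - 1) / 2) :=
    (tendsto_rpow_atTop (by linarith)).eventually_ge_atTop 2
  filter_upwards [hdef, hpt θ hθ hθ1 ε hε hε1, V_line h ha hab hε, ta, eventually_ge_atTop 2]
    with T hd hp hV hTa hT
  have hT0 : 0 < T := by linarith
  have hT1 : 1 < T := by linarith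
  have hL : 0 < Real.log T := Real.log_pos hT1
  obtain ⟨l, hl⟩ : ∃ l : ℝ, l = 1 - 1 / (4 * T) := ⟨_, rfl⟩
  rw [← hl] at hp
  have hl0 : 1 / 2 ≤ l := by
    rw [hl]
    have : 1 / (4 * T) ≤ 1 / 2 := by
      rw [div_le_div_iff₀ (by positivity) (by norm_num)]
      linarith
    linarith
  have hl1 : l < 1 := by
    rw [hl]
    have : 0 < 1 / (4 * T) := by positivity
    linarith
  have hlp : 0 < l := by linarith
  obtain ⟨L, hLL⟩ : ∃ L, L = Real.log T := ⟨_, rfl⟩
  rw [← hLL] at hL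
  obtain ⟨br, hbr⟩ : ∃ br : ℝ → ℝ, br = fun X => 1 + 2 * ε - vl T X - C * θ := ⟨_, rfl⟩
  -- pointwise splitting
  have hsplit : ∀ X ∈ Set.Ioc (T ^ a) (T ^ b), ENNReal.ofReal (|vl T X - 1| / X) ≤
      ENNReal.ofReal (br X / X) + ENNReal.ofReal ((ε + C * θ) * X⁻¹) := by
    intro X hX
    have hX0 : 0 < X := lt_trans (by positivity) hX.1
    have hTX : 0 < X / T * Real.log T := by
      rw [← hLL]
      positivity
    have hv1 : vl T X ≤ 1 + ε := by
      unfold vl
      rw [div_le_iff₀ hTX]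
      exact hV X hX.1.le hX.2
    have h1 : |vl T X - 1| / X ≤ max (br X / X) 0 + (ε + C * θ) * X⁻¹ := by
      have h2 : |vl T X - 1| ≤ max (br X) 0 + (ε + C * θ) := by
        have h3 : 0 ≤ C * θ := by positivity
        rw [abs_le, hbr]
        constructor
        · have := le_max_left (1 + 2 * ε - vl T X - C * θ) 0
          simp only
          linarith
        · have := le_max_right (1 + 2 * ε - vl T X - C * θ) 0
          simp only
          linarith
      have h4 : max (br X / X) 0 = max (br X) 0 / X := by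
        rcases le_total (br X) 0 with hb | hb
        · rw [max_eq_right hb, zero_div, max_eq_right (div_nonpos_of_nonpos_of_nonneg hb hX0.le)]
        · rw [max_eq_left hb, max_eq_left (div_nonneg hb hX0.le)]
      rw [h4, ← div_eq_mul_inv, ← add_div]
      exact div_le_div_of_nonneg_right h2 hX0.le
    refine (ENNReal.ofReal_le_ofReal h1).trans (ENNReal.ofReal_add_le.trans (le_of_eq ?_))
    congr 1
    rcases le_total (br X / X) 0 with hb | hb
    · rw [max_eq_right hb, ENNReal.ofReal_zero, ENNReal.ofReal_of_nonpos hb]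
    · rw [max_eq_left hb]
  have hTab : T ^ a ≤ T ^ b := Real.rpow_le_rpow_of_exponent_le hT1.le hab
  have hTa0 : 0 < T ^ a := by positivity
  -- the second part
  have hpart2 : ∫⁻ X in Set.Ioc (T ^ a) (T ^ b), ENNReal.ofReal ((ε + C * θ) * X⁻¹) ≤
      ENNReal.ofReal ((ε' / 4 + ε' / 4) * L) := by
    have hcont : ContinuousOn (fun X : ℝ => (ε + C * θ) * X⁻¹) (Set.Icc (T ^ a) (T ^ b)) :=
      continuousOn_const.mul (ContinuousOn.inv₀ continuousOn_id
        fun x hx => (hTa0.trans_le hx.1).ne')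
    have hi := (hcont.integrableOn_Icc (μ := volume)).mono_set Set.Ioc_subset_Icc_self
    rw [← ofReal_integral_eq_lintegral_ofReal hi, ← intervalIntegral.integral_of_le hTab]
    · refine ENNReal.ofReal_le_ofReal ?_
      have h1 := chv hT1 (f := fun _ => ε + C * θ) continuous_const a b
      rw [h1, intervalIntegral.integral_const, smul_eq_mul, ← hLL]
      have h2 : (b - a) * (ε + C * θ) ≤ ε' / 4 + ε' / 4 := by linarith
      calc L * ((b - a) * (ε + C * θ)) ≤ L * (ε' / 4 + ε' / 4) :=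
            mul_le_mul_of_nonneg_left h2 hL.le
        _ = _ := by ring
    · refine (ae_restrict_iff' measurableSet_Ioc).2 (Eventually.of_forall fun X hX => ?_)
      have hX0 : 0 < X := hTa0.trans hX.1
      show 0 ≤ (ε + C * θ) * X⁻¹
      positivity
  -- the first part
  obtain ⟨F, hF⟩ : ∃ F : ℝ → ℝ≥0∞, F = fun Y => ENNReal.ofReal (Y ^ (-4 : ℤ)) *
      (ENNReal.ofReal (Real.sqrt π * K (Real.log Y / Real.log T)) *
        Dfi ε (1 - θ ^ 2) T Y) := ⟨_, rfl⟩
  have hd' : ∫⁻ Y in Set.Ioc (T ^ (1 + ε)) (T ^ (b + 1 + 1)), F Y ≤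
      ENNReal.ofReal (Real.sqrt π * (L ^ 2 / T ^ 2) * (3 * ε * I + ε' * θ ^ 2 / 24)) := by
    rw [hF, hLL]
    exact hd
  obtain ⟨c0, hc0⟩ : ∃ c0 : ℝ, c0 = Real.sqrt π * (1 / 3) * θ ^ 2 * (L / T ^ 2) := ⟨_, rfl⟩
  have hspi : 0 < Real.sqrt π := by positivity
  have hc0p : 0 < c0 := by
    rw [hc0]
    positivity
  have hFp : ∀ X ∈ Set.Ioc (T ^ a) (T ^ b), ENNReal.ofReal c0 * ENNReal.ofReal (br X / X) ≤
      F (X * l) := by
    intro X hX
    have hX0 : 0 < X := lt_trans (by positivity) hX.1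
    have hY0 : 0 < X * l := by positivity
    have hYX : X * l ≤ X := mul_le_of_le_one_right hX0.le hl1.le
    have hK1' : K (Real.log (X * l) / Real.log T) = 1 := by
      have hlow : 1 + (a - 1) / 2 ≤ Real.log (X * l) / Real.log T := by
        rw [le_div_iff₀ (by rw [← hLL]; exact hL), ← Real.log_rpow hT0]
        refine Real.log_le_log (by positivity) ?_
        have h1 : T ^ a = T ^ (1 + (a - 1) / 2) * T ^ ((a - 1) / 2) := by
          rw [← Real.rpow_add hT0]
          congr 1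
          ring
        have h2 : 0 < T ^ (1 + (a - 1) / 2) := by positivity
        have h3 : T ^ (1 + (a - 1) / 2) * 2 ≤ X := by
          refine le_trans ?_ hX.1.le
          rw [h1]
          exact mul_le_mul_of_nonneg_left hTa h2.le
        nlinarith
      have hhigh : Real.log (X * l) / Real.log T ≤ b := by
        rw [div_le_iff₀ (by rw [← hLL]; exact hL), ← Real.log_rpow hT0]
        exact Real.log_le_log hY0 (hYX.trans hX.2)
      refine hK1 _ ?_ ?_
      · exact hlow.trans (le_abs_self _)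
      · rw [abs_of_nonneg (by linarith)]
        exact hhigh
    have hDf := Dfi_ge (ε := ε) (σ := 1 - θ ^ 2) (T := T) (Y := X * l)
      (N := X * (X / T) * L * br X) hT0 hY0 (by linarith) (by linarith) (fun H hH => by
        have := hp X hX.1.le hX.2 H hH
        rw [hbr, hLL]
        exact this)
    rw [hF]
    show _ ≤ ENNReal.ofReal ((X * l) ^ (-4 : ℤ)) *
      (ENNReal.ofReal (Real.sqrt π * K (Real.log (X * l) / Real.log T)) *
        Dfi ε (1 - θ ^ 2) T (X * l))
    rw [hK1', mul_one]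
    refine le_trans ?_ (mul_le_mul_right (mul_le_mul_right hDf _) _)
    rcases le_total (br X) 0 with hb | hb
    · rw [ENNReal.ofReal_of_nonpos (div_nonpos_of_nonpos_of_nonneg hb hX0.le), mul_zero]
      exact zero_le
    · rw [← ENNReal.ofReal_mul hc0p.le, ← ENNReal.ofReal_mul (Real.sqrt_nonneg _),
        ← ENNReal.ofReal_mul (by positivity)]
      refine ENNReal.ofReal_le_ofReal ?_
      have e1 : (X * l) ^ (-4 : ℤ) = 1 / (X * l) ^ 4 := by
        rw [zpow_neg, one_div]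
        norm_cast
      rw [e1, hc0]
      have e2 : 1 / (X * l) ^ 4 * (Real.sqrt π * ((1 - (1 - θ ^ 2)) * (X * l / T) * (1 / 3) *
          (X * (X / T) * L * br X))) = Real.sqrt π * (1 / 3) * θ ^ 2 * (L / T ^ 2) *
            (br X * (X ^ 2 / (X * l) ^ 3)) := by
        field_simp
        ring
      rw [e2]
      refine mul_le_mul_of_nonneg_left ?_ (by positivity)
      rw [div_eq_mul_one_div]
      refine mul_le_mul_of_nonneg_left ?_ hb
      rw [div_le_div_iff₀ hX0 (by positivity), one_mul]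
      have h5 : (X * l) ^ 3 ≤ X ^ 3 := pow_le_pow_left₀ hY0.le hYX 3
      calc (X * l) ^ 3 ≤ X ^ 3 := h5
        _ = X ^ 2 * X := by ring
  have hsc : ∫⁻ X in Set.Ioc (T ^ a) (T ^ b), F (X * l) ≤
      ENNReal.ofReal 2 * ∫⁻ Y in Set.Ioc (T ^ (1 + ε)) (T ^ (b + 1 + 1)), F Y := by
    obtain ⟨G, hG⟩ : ∃ G : ℝ → ℝ≥0∞, G = (Set.Ioc (T ^ a * l) (T ^ b * l)).indicator F :=
      ⟨_, rfl⟩
    have h1 : ∫⁻ X in Set.Ioc (T ^ a) (T ^ b), F (X * l) ≤
        ∫⁻ X in Set.Ioi (0 : ℝ), G (X * l) := by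
      have h2 : ∫⁻ X in Set.Ioc (T ^ a) (T ^ b), F (X * l) =
          ∫⁻ X in Set.Ioc (T ^ a) (T ^ b), G (X * l) := by
        refine setLIntegral_congr_fun measurableSet_Ioc fun X hX => ?_
        rw [hG]
        show F (X * l) = (Set.Ioc (T ^ a * l) (T ^ b * l)).indicator F (X * l)
        rw [Set.indicator_of_mem]
        exact ⟨mul_lt_mul_of_pos_right hX.1 hlp, mul_le_mul_of_nonneg_right hX.2 hlp.le⟩
      rw [h2]
      exact lintegral_mono_set fun X hX => hTa0.trans hX.1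
    refine h1.trans ?_
    rw [scale_lint hlp G]
    refine mul_le_mul' (ENNReal.ofReal_le_ofReal ?_) ?_
    · rw [inv_le_comm₀ hlp (by norm_num)]
      linarith
    · rw [hG, setLIntegral_indicator measurableSet_Ioc]
      refine lintegral_mono_set fun Y hY => ?_
      have hY1 := hY.1
      have h3 : T ^ (1 + ε) ≤ T ^ a * l := by
        have h4 : T ^ a = T ^ (1 + (a - 1) / 2) * T ^ ((a - 1) / 2) := by
          rw [← Real.rpow_add hT0]
          congr 1
          ring
        have h5 : T ^ (1 + ε) ≤ T ^ (1 + (a - 1) / 2) :=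
          Real.rpow_le_rpow_of_exponent_le hT1.le (by linarith)
        have h6 : 0 < T ^ (1 + (a - 1) / 2) := by positivity
        have h7 : T ^ (1 + (a - 1) / 2) * 2 ≤ T ^ a := by
          rw [h4]
          exact mul_le_mul_of_nonneg_left hTa h6.le
        nlinarith
      have h8 : T ^ b * l ≤ T ^ (b + 1 + 1) := by
        have h9 : T ^ b ≤ T ^ (b + 1 + 1) :=
          Real.rpow_le_rpow_of_exponent_le hT1.le (by linarith)
        have h10 : 0 < T ^ b := by positivity
        nlinarith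
      exact ⟨lt_of_le_of_lt h3 hY1.1, hY1.2.trans h8⟩
  have hpart1 : ∫⁻ X in Set.Ioc (T ^ a) (T ^ b), ENNReal.ofReal (br X / X) ≤
      ENNReal.ofReal ((ε' / 4 + ε' / 4) * L) := by
    have h1 : ENNReal.ofReal c0 * ∫⁻ X in Set.Ioc (T ^ a) (T ^ b), ENNReal.ofReal (br X / X) ≤
        ENNReal.ofReal c0 * ENNReal.ofReal ((ε' / 4 + ε' / 4) * L) := by
      rw [← lintegral_const_mul' _ _ ENNReal.ofReal_ne_top]
      calc ∫⁻ X in Set.Ioc (T ^ a) (T ^ b), ENNReal.ofReal c0 * ENNReal.ofReal (br X / X) ≤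
          ∫⁻ X in Set.Ioc (T ^ a) (T ^ b), F (X * l) := setLIntegral_mono' measurableSet_Ioc hFp
        _ ≤ ENNReal.ofReal 2 * ENNReal.ofReal (Real.sqrt π * (L ^ 2 / T ^ 2) *
            (3 * ε * I + ε' * θ ^ 2 / 24)) := hsc.trans (mul_le_mul_right hd' _)
        _ = ENNReal.ofReal (2 * (Real.sqrt π * (L ^ 2 / T ^ 2) *
            (3 * ε * I + ε' * θ ^ 2 / 24))) := by
            rw [← ENNReal.ofReal_mul (by norm_num)]
        _ ≤ ENNReal.ofReal (c0 * ((ε' / 4 + ε' / 4) * L)) := by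
            refine ENNReal.ofReal_le_ofReal ?_
            have e3 : 2 * (Real.sqrt π * (L ^ 2 / T ^ 2) * (3 * ε * I + ε' * θ ^ 2 / 24)) =
                c0 * ((6 * (3 * ε * I) / θ ^ 2 + ε' / 4) * L) := by
              rw [hc0]
              field_simp
              ring
            rw [e3]
            refine mul_le_mul_of_nonneg_left ?_ hc0p.le
            refine mul_le_mul_of_nonneg_right ?_ hL.le
            linarith
        _ = _ := by rw [ENNReal.ofReal_mul hc0p.le]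
    have hne : ENNReal.ofReal c0 ≠ 0 := by
      rw [Ne, ENNReal.ofReal_eq_zero]
      linarith
    exact (ENNReal.mul_le_mul_iff_right hne ENNReal.ofReal_ne_top).1 h1
  calc ∫⁻ X in Set.Ioc (T ^ a) (T ^ b), ENNReal.ofReal (|vl T X - 1| / X) ≤
      ∫⁻ X in Set.Ioc (T ^ a) (T ^ b), (ENNReal.ofReal (br X / X) +
        ENNReal.ofReal ((ε + C * θ) * X⁻¹)) := setLIntegral_mono' measurableSet_Ioc hsplit
    _ = (∫⁻ X in Set.Ioc (T ^ a) (T ^ b), ENNReal.ofReal (br X / X)) +
        ∫⁻ X in Set.Ioc (T ^ a) (T ^ b), ENNReal.ofReal ((ε + C * θ) * X⁻¹) :=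
        lintegral_add_right _ (by fun_prop)
    _ ≤ ENNReal.ofReal ((ε' / 4 + ε' / 4) * L) + ENNReal.ofReal ((ε' / 4 + ε' / 4) * L) :=
        add_le_add hpart1 hpart2
    _ = ENNReal.ofReal (ε' * L) := by
        rw [← ENNReal.ofReal_add (by positivity) (by positivity)]
        congr 1
        ring
    _ = _ := by rw [hLL]

/-- **the asymptotic formula in mean** -/
theorem mean_tendsto (h : HypV) {a b : ℝ} (ha : 1 < a) (hab : a ≤ b) :
    Tendsto (fun T : ℝ => (Real.log T)⁻¹ * ∫ X in (T ^ a)..(T ^ b), |vl T X - 1| / X)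
      atTop (𝓝 0) := by
  rw [Metric.tendsto_nhds]
  intro ε hε
  filter_upwards [mean_small h ha hab (half_pos hε), eventually_gt_atTop 1] with T h1 hT
  have hT0 : 0 < T := by linarith
  have hL : 0 < Real.log T := Real.log_pos hT
  have hTab : T ^ a ≤ T ^ b := Real.rpow_le_rpow_of_exponent_le hT.le hab
  rw [Real.dist_eq, sub_zero, abs_mul, abs_of_pos (inv_pos.2 hL), inv_mul_lt_iff₀ hL,
    intervalIntegral.integral_of_le hTab]
  have h2 : ‖∫ X in Set.Ioc (T ^ a) (T ^ b), |vl T X - 1| / X‖ ≤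
      (∫⁻ X in Set.Ioc (T ^ a) (T ^ b), ENNReal.ofReal ‖|vl T X - 1| / X‖).toReal :=
    norm_integral_le_lintegral_norm _
  rw [Real.norm_eq_abs] at h2
  have h3 : ∫⁻ X in Set.Ioc (T ^ a) (T ^ b), ENNReal.ofReal ‖|vl T X - 1| / X‖ =
      ∫⁻ X in Set.Ioc (T ^ a) (T ^ b), ENNReal.ofReal (|vl T X - 1| / X) := by
    refine setLIntegral_congr_fun measurableSet_Ioc fun X hX => ?_
    have hX0 : 0 < X := lt_trans (by positivity) hX.1
    show ENNReal.ofReal ‖|vl T X - 1| / X‖ = _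
    rw [Real.norm_eq_abs, abs_of_nonneg (by positivity)]
  rw [h3] at h2
  have h4 := ENNReal.toReal_le_of_le_ofReal (by positivity) h1
  have h5 : 0 < ε * Real.log T := by positivity
  linarith

end Pool.Agent.H7.PS
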