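import Pool.Agent.H7.PS.Func

/-! Mixtures of the quadratic functional and intervals of fixed length. -/

open MeasureTheory Filter Topology Real
open scoped ENNReal

namespace Pool.Agent.H7.PS

/-- the discrepancy of the primes in `(a, a + H]` -/
noncomputable def dP (a H : ℝ) : ℝ := Chebyshev.psi (a + H) - Chebyshev.psi a - H

lemma dP_meas : Measurable fun p : ℝ × ℝ => dP p.1 p.2 := by
  unfold dP
  have hψ : Measurable Chebyshev.psi := Chebyshev.psi_mono.measurable
  exact ((hψ.comp (by fun_prop)).sub (hψ.comp (by fun_prop))).sub measurable_snd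

/-- the functional of the intervals of fixed length -/
noncomputable def RF (R : ℝ) (Ω : ℝ → ℝ≥0∞) : ℝ≥0∞ :=
  ∫⁻ X in Set.Ioi (0 : ℝ), ENNReal.ofReal (X ^ (-4 : ℤ)) * ∫⁻ H in Set.Ioi (0 : ℝ),
    ENNReal.ofReal ((1 + H / X) ^ (-R)) * ∫⁻ a in Set.Ico X (2 * X), Ω (Real.log a) *
      ENNReal.ofReal (dP a H ^ 2)

lemma sub_log {g : ℝ → ℝ≥0∞} : ∫⁻ v, g v = ∫⁻ a in Set.Ioi (0 : ℝ), ENNReal.ofReal (1 / a) *
    g (Real.log a) := by
  have h := lintegral_image_eq_lintegral_abs_deriv_mul (f := Real.exp) (f' := Real.exp)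
    MeasurableSet.univ (fun x _ => (Real.hasDerivAt_exp x).hasDerivWithinAt)
    Real.exp_injective.injOn (fun a => ENNReal.ofReal (1 / a) * g (Real.log a))
  rw [Set.image_univ, Real.range_exp, setLIntegral_univ] at h
  rw [h]
  refine lintegral_congr fun v => ?_
  rw [Real.log_exp, ← mul_assoc, ← ENNReal.ofReal_mul (abs_nonneg _),
    abs_of_pos (Real.exp_pos v), mul_one_div_cancel (Real.exp_pos v).ne', ENNReal.ofReal_one,
    one_mul]

lemma sub_H {a : ℝ} (ha : 0 < a) {g : ℝ → ℝ≥0∞} : ∫⁻ δ in Set.Ioi (0 : ℝ), g δ =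
    ∫⁻ H in Set.Ioi (0 : ℝ), ENNReal.ofReal (1 / (a + H)) * g (Real.log (1 + H / a)) := by
  have himg : (fun δ => a * (Real.exp δ - 1)) '' Set.Ioi (0 : ℝ) = Set.Ioi (0 : ℝ) := by
    ext H
    simp only [Set.mem_image, Set.mem_Ioi]
    constructor
    · rintro ⟨δ, hδ, rfl⟩
      have : 1 < Real.exp δ := Real.one_lt_exp_iff.2 hδ
      exact mul_pos ha (by linarith)
    · intro hH
      refine ⟨Real.log (1 + H / a), Real.log_pos (by have : 0 < H / a := by positivity
                                                     linarith), ?_⟩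
      rw [Real.exp_log (by positivity)]
      field_simp
      ring
  have h := lintegral_image_eq_lintegral_abs_deriv_mul (f := fun δ => a * (Real.exp δ - 1))
    (f' := fun δ => a * Real.exp δ) (s := Set.Ioi (0 : ℝ)) measurableSet_Ioi
    (fun x _ => (((Real.hasDerivAt_exp x).sub_const 1).const_mul a).hasDerivWithinAt)
    (fun x _ y _ hxy => by
      have h1 : Real.exp x - 1 = Real.exp y - 1 := mul_left_cancel₀ ha.ne' hxy
      exact Real.exp_injective (by linarith))
    (fun H => ENNReal.ofReal (1 / (a + H)) * g (Real.log (1 + H / a)))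
  rw [himg] at h
  rw [h]
  refine setLIntegral_congr_fun measurableSet_Ioi fun δ _ => ?_
  have e1 : a + a * (Real.exp δ - 1) = a * Real.exp δ := by ring
  have e2 : 1 + a * (Real.exp δ - 1) / a = Real.exp δ := by
    field_simp
    ring
  have hpos : 0 < a * Real.exp δ := by positivity
  show g δ = ENNReal.ofReal |a * Real.exp δ| * (ENNReal.ofReal (1 / (a + a * (Real.exp δ - 1))) *
    g (Real.log (1 + a * (Real.exp δ - 1) / a)))
  rw [e1, e2, Real.log_exp, ← mul_assoc, ← ENNReal.ofReal_mul (abs_nonneg _), abs_of_pos hpos,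
    mul_one_div_cancel hpos.ne', ENNReal.ofReal_one, one_mul]

lemma sub_X {a : ℝ} (ha : 0 < a) {g : ℝ → ℝ≥0∞} : ∫⁻ X in Set.Ioc (a / 2) a, g X =
    ∫⁻ y in Set.Ioc (1 / 2 : ℝ) 1, ENNReal.ofReal a * g (y * a) := by
  have himg : (fun y => y * a) '' Set.Ioc (1 / 2 : ℝ) 1 = Set.Ioc (a / 2) a := by
    ext X
    simp only [Set.mem_image, Set.mem_Ioc]
    constructor
    · rintro ⟨y, ⟨h1, h2⟩, rfl⟩
      constructor <;> nlinarith
    · rintro ⟨h1, h2⟩
      refine ⟨X / a, ⟨?_, ?_⟩, ?_⟩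
      · rw [lt_div_iff₀ ha]; linarith
      · rw [div_le_one ha]; exact h2
      · field_simp
  have h := lintegral_image_eq_lintegral_abs_deriv_mul (f := fun y => y * a)
    (f' := fun _ => a) (s := Set.Ioc (1 / 2 : ℝ) 1) measurableSet_Ioc
    (fun x _ => by simpa using ((hasDerivAt_id x).mul_const a).hasDerivWithinAt)
    (fun x _ y _ hxy => mul_right_cancel₀ ha.ne' hxy) g
  rw [himg] at h
  rw [h, abs_of_pos ha]

lemma dn_log {a H : ℝ} (ha : 0 < a) (hH : 0 < H) :
    dn (Real.log a) (Real.log (1 + H / a)) = dP a H := by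
  unfold dn dP
  have h1 : 0 < 1 + H / a := by positivity
  have h2 : Real.exp (Real.log a + Real.log (1 + H / a)) = a + H := by
    rw [Real.exp_add, Real.exp_log ha, Real.exp_log h1]
    field_simp
  rw [h2, Real.exp_log ha]
  ring

/-- the quadratic functional in the original variables -/
lemma JF_le (S : ℝ) {Ω : ℝ → ℝ≥0∞} (hΩ : Measurable Ω) :
    JF S Ω ≤ ∫⁻ a in Set.Ioi (0 : ℝ), ∫⁻ H in Set.Ioi (0 : ℝ),
      Ω (Real.log a) * ENNReal.ofReal (dP a H ^ 2) *
        ENNReal.ofReal (a ^ (-3 : ℤ) * (1 + H / a) ^ (-S)) := by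
  have hm : Measurable fun p : ℝ × ℝ => Ω p.1 * qd p :=
    (hΩ.comp measurable_fst).mul qd_meas
  have hm2 : Measurable fun p : ℝ × ℝ => ENNReal.ofReal (Real.exp (-S * p.1)) *
      (Ω p.2 * qd (p.2, p.1)) :=
    (Continuous.measurable (by fun_prop)).ennreal_ofReal.mul (hm.comp measurable_swap)
  have e1 : JF S Ω = ∫⁻ v, ∫⁻ δ in Set.Ioi (0 : ℝ), ENNReal.ofReal (Real.exp (-S * δ)) *
      (Ω v * qd (v, δ)) := by
    unfold JF
    rw [lintegral_lintegral_swap]
    · refine lintegral_congr fun δ => ?_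
      rw [lintegral_const_mul' _ _ ENNReal.ofReal_ne_top]
    · exact (hm2.comp measurable_swap).aemeasurable
  rw [e1, sub_log]
  refine setLIntegral_mono' measurableSet_Ioi fun a ha => ?_
  have ha0 : 0 < a := ha
  rw [sub_H ha0, ← lintegral_const_mul' _ _ ENNReal.ofReal_ne_top]
  refine setLIntegral_mono' measurableSet_Ioi fun H hH => ?_
  have hH0 : 0 < H := hH
  have h1 : 0 < 1 + H / a := by positivity
  unfold qd
  show ENNReal.ofReal (1 / a) * (ENNReal.ofReal (1 / (a + H)) *
    (ENNReal.ofReal (Real.exp (-S * Real.log (1 + H / a))) * (Ω (Real.log a) *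
      ENNReal.ofReal (Real.exp (-Real.log a) * dn (Real.log a) (Real.log (1 + H / a)) ^ 2)))) ≤ _
  rw [dn_log ha0 hH0]
  have h2 : Real.exp (-S * Real.log (1 + H / a)) = (1 + H / a) ^ (-S) := by
    rw [Real.rpow_def_of_pos h1, mul_comm]
  have h3 : Real.exp (-Real.log a) = 1 / a := by
    rw [Real.exp_neg, Real.exp_log ha0, one_div]
  rw [h2, h3, ENNReal.ofReal_mul (by positivity : (0 : ℝ) ≤ 1 / a)]
  have h4 : 0 ≤ (1 + H / a) ^ (-S) := Real.rpow_nonneg h1.le _
  have h5 : ENNReal.ofReal (1 / a) * ENNReal.ofReal (1 / (a + H)) *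
      ENNReal.ofReal ((1 + H / a) ^ (-S)) * ENNReal.ofReal (1 / a) ≤
      ENNReal.ofReal (a ^ (-3 : ℤ) * (1 + H / a) ^ (-S)) := by
    rw [← ENNReal.ofReal_mul (by positivity), ← ENNReal.ofReal_mul (by positivity),
      ← ENNReal.ofReal_mul (by positivity)]
    refine ENNReal.ofReal_le_ofReal ?_
    have h6 : 1 / (a + H) ≤ 1 / a := one_div_le_one_div_of_le ha0 (by linarith)
    have h7 : a ^ (-3 : ℤ) = 1 / a * (1 / a) * (1 / a) := by
      rw [zpow_neg]
      field_simp
    rw [h7]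
    calc 1 / a * (1 / (a + H)) * (1 + H / a) ^ (-S) * (1 / a) ≤
        1 / a * (1 / a) * (1 + H / a) ^ (-S) * (1 / a) := by gcongr
      _ = _ := by ring
  calc _ = ENNReal.ofReal (1 / a) * ENNReal.ofReal (1 / (a + H)) *
      ENNReal.ofReal ((1 + H / a) ^ (-S)) * ENNReal.ofReal (1 / a) *
        (Ω (Real.log a) * ENNReal.ofReal (dP a H ^ 2)) := by ring
    _ ≤ ENNReal.ofReal (a ^ (-3 : ℤ) * (1 + H / a) ^ (-S)) *
        (Ω (Real.log a) * ENNReal.ofReal (dP a H ^ 2)) := mul_le_mul_left h5 _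
    _ = _ := by ring

/-- **the mixture** -/
theorem mix_le {R : ℝ} (hR : 0 ≤ R) {Ω : ℝ → ℝ≥0∞} (hΩ : Measurable Ω) :
    ∫⁻ y in Set.Ioc (1 / 2 : ℝ) 1, ENNReal.ofReal (y ^ (-4 : ℤ)) * JF (R / y) Ω ≤ RF R Ω := by
  obtain ⟨G, hG⟩ : ∃ G : ℝ × ℝ → ℝ≥0∞, G = fun p => Ω (Real.log p.1) *
      ENNReal.ofReal (dP p.1 p.2 ^ 2) := ⟨_, rfl⟩
  have hGm : Measurable G := by
    rw [hG]
    exact (hΩ.comp (Real.measurable_log.comp measurable_fst)).mul
      (dP_meas.pow_const 2).ennreal_ofReal
  have hG' : ∀ a H, Ω (Real.log a) * ENNReal.ofReal (dP a H ^ 2) = G (a, H) := by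
    intro a H
    rw [hG]
  -- the kernel
  have hker : ∀ a H : ℝ, 0 < a → 0 < H →
      ∫⁻ y in Set.Ioc (1 / 2 : ℝ) 1, ENNReal.ofReal (y ^ (-4 : ℤ)) *
        ENNReal.ofReal (a ^ (-3 : ℤ) * (1 + H / a) ^ (-(R / y))) ≤
      ∫⁻ X in Set.Ioc (a / 2) a, ENNReal.ofReal (X ^ (-4 : ℤ)) *
        ENNReal.ofReal ((1 + H / X) ^ (-R)) := by
    intro a H ha hH
    rw [sub_X ha]
    refine setLIntegral_mono' measurableSet_Ioc fun y hy => ?_
    have hy0 : 0 < y := by linarith [hy.1]
    have h1 : 0 < 1 + H / a := by positivity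
    have h2 : 0 < 1 + H / (y * a) := by positivity
    rw [← ENNReal.ofReal_mul (by positivity), ← ENNReal.ofReal_mul (by positivity),
      ← ENNReal.ofReal_mul ha.le]
    refine ENNReal.ofReal_le_ofReal ?_
    have h3 : 1 + H / (y * a) ≤ (1 + H / a) ^ (1 / y) := by
      have h4 := one_add_mul_self_le_rpow_one_add (s := H / a) (p := 1 / y)
        (by have : 0 < H / a := by positivity
            linarith) (by rw [le_div_iff₀ hy0]; linarith [hy.2])
      have h5 : 1 / y * (H / a) = H / (y * a) := by field_simp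
      rwa [h5] at h4
    have h4 : (1 + H / a) ^ (-(R / y)) ≤ (1 + H / (y * a)) ^ (-R) := by
      have h5 : (1 + H / a) ^ (-(R / y)) = ((1 + H / a) ^ (1 / y)) ^ (-R) := by
        rw [← Real.rpow_mul h1.le]
        congr 1
        ring
      rw [h5]
      exact Real.rpow_le_rpow_of_nonpos h2 h3 (by linarith)
    have h5 : y ^ (-4 : ℤ) * (a ^ (-3 : ℤ) * (1 + H / a) ^ (-(R / y))) ≤
        y ^ (-4 : ℤ) * (a ^ (-3 : ℤ) * (1 + H / (y * a)) ^ (-R)) := by
      gcongr
    refine h5.trans (le_of_eq ?_)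
    have h6 : a * (y * a) ^ (-4 : ℤ) = y ^ (-4 : ℤ) * a ^ (-3 : ℤ) := by
      rw [mul_zpow, zpow_neg, zpow_neg, zpow_neg]
      field_simp
    rw [← mul_assoc, ← mul_assoc, h6]
  calc ∫⁻ y in Set.Ioc (1 / 2 : ℝ) 1, ENNReal.ofReal (y ^ (-4 : ℤ)) * JF (R / y) Ω ≤
      ∫⁻ y in Set.Ioc (1 / 2 : ℝ) 1, ∫⁻ a in Set.Ioi (0 : ℝ), ∫⁻ H in Set.Ioi (0 : ℝ),
        G (a, H) * (ENNReal.ofReal (y ^ (-4 : ℤ)) *
          ENNReal.ofReal (a ^ (-3 : ℤ) * (1 + H / a) ^ (-(R / y)))) := by
        refine setLIntegral_mono' measurableSet_Ioc fun y _ => ?_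
        refine (mul_le_mul_right (JF_le (R / y) hΩ) _).trans (le_of_eq ?_)
        rw [← lintegral_const_mul' _ _ ENNReal.ofReal_ne_top]
        refine lintegral_congr fun a => ?_
        rw [← lintegral_const_mul' _ _ ENNReal.ofReal_ne_top]
        refine lintegral_congr fun H => ?_
        rw [hG']
        ring
    _ = ∫⁻ a in Set.Ioi (0 : ℝ), ∫⁻ H in Set.Ioi (0 : ℝ), ∫⁻ y in Set.Ioc (1 / 2 : ℝ) 1,
        G (a, H) * (ENNReal.ofReal (y ^ (-4 : ℤ)) *
          ENNReal.ofReal (a ^ (-3 : ℤ) * (1 + H / a) ^ (-(R / y)))) := by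
        have hm : Measurable fun p : ℝ × ℝ × ℝ => G (p.2.1, p.2.2) *
            (ENNReal.ofReal (p.1 ^ (-4 : ℤ)) *
            ENNReal.ofReal (p.2.1 ^ (-3 : ℤ) * (1 + p.2.2 / p.2.1) ^ (-(R / p.1)))) := by
          have k1 : Measurable fun p : ℝ × ℝ × ℝ => ENNReal.ofReal (p.1 ^ (-4 : ℤ)) :=
            (measurable_fst.pow_const (-4 : ℤ)).ennreal_ofReal
          have k2 : Measurable fun p : ℝ × ℝ × ℝ => p.2.1 ^ (-3 : ℤ) :=
            (measurable_fst.comp measurable_snd).pow_const (-3 : ℤ)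
          have k3 : Measurable fun p : ℝ × ℝ × ℝ => (1 + p.2.2 / p.2.1) ^ (-(R / p.1)) :=
            Measurable.pow (by fun_prop) (by fun_prop)
          have k4 : Measurable fun p : ℝ × ℝ × ℝ => G (p.2.1, p.2.2) := hGm.comp (by fun_prop)
          exact k4.mul (k1.mul (k2.mul k3).ennreal_ofReal)
        rw [lintegral_lintegral_swap]
        · refine lintegral_congr fun a => ?_
          rw [lintegral_lintegral_swap]
          have : Measurable fun q : ℝ × ℝ => G (a, q.2) *
            (ENNReal.ofReal (q.1 ^ (-4 : ℤ)) *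
            ENNReal.ofReal (a ^ (-3 : ℤ) * (1 + q.2 / a) ^ (-(R / q.1)))) :=
            hm.comp (measurable_fst.prodMk (measurable_const.prodMk measurable_snd))
          exact this.aemeasurable
        · have : Measurable fun q : ℝ × ℝ => ∫⁻ H in Set.Ioi (0 : ℝ), G (q.2, H) *
            (ENNReal.ofReal (q.1 ^ (-4 : ℤ)) *
            ENNReal.ofReal (q.2 ^ (-3 : ℤ) * (1 + H / q.2) ^ (-(R / q.1)))) := by
            refine Measurable.lintegral_prod_right' (f := fun r : (ℝ × ℝ) × ℝ => G (r.1.2, r.2) *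
              (ENNReal.ofReal (r.1.1 ^ (-4 : ℤ)) *
              ENNReal.ofReal (r.1.2 ^ (-3 : ℤ) * (1 + r.2 / r.1.2) ^ (-(R / r.1.1))))) ?_
            exact hm.comp (by fun_prop : Measurable fun r : (ℝ × ℝ) × ℝ => (r.1.1, r.1.2, r.2))
          exact this.aemeasurable
    _ ≤ ∫⁻ a in Set.Ioi (0 : ℝ), ∫⁻ H in Set.Ioi (0 : ℝ), ∫⁻ X in Set.Ioi (0 : ℝ),
        (Set.Ico X (2 * X)).indicator (fun _ => G (a, H) * (ENNReal.ofReal (X ^ (-4 : ℤ)) *
          ENNReal.ofReal ((1 + H / X) ^ (-R)))) a := by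
        refine setLIntegral_mono' measurableSet_Ioi fun a ha => ?_
        refine setLIntegral_mono' measurableSet_Ioi fun H hH => ?_
        have ha0 : 0 < a := ha
        have k1 : Measurable fun y : ℝ => ENNReal.ofReal (y ^ (-4 : ℤ)) *
            ENNReal.ofReal (a ^ (-3 : ℤ) * (1 + H / a) ^ (-(R / y))) := by
          refine Measurable.mul (measurable_id.pow_const (-4 : ℤ)).ennreal_ofReal ?_
          refine Measurable.ennreal_ofReal (Measurable.mul measurable_const ?_)
          exact Measurable.pow (by fun_prop) (by fun_prop)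
        have k2 : Measurable fun X : ℝ => ENNReal.ofReal (X ^ (-4 : ℤ)) *
            ENNReal.ofReal ((1 + H / X) ^ (-R)) := by
          refine Measurable.mul (measurable_id.pow_const (-4 : ℤ)).ennreal_ofReal ?_
          exact Measurable.ennreal_ofReal (Measurable.pow (by fun_prop) (by fun_prop))
        rw [lintegral_const_mul _ k1]
        refine (mul_le_mul_right (hker a H ha0 hH) _).trans ?_
        rw [← lintegral_const_mul _ k2, ← lintegral_indicator measurableSet_Ioc,
          ← lintegral_indicator measurableSet_Ioi]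
        refine lintegral_mono fun X => ?_
        by_cases hX : X ∈ Set.Ioc (a / 2) a
        · rw [Set.indicator_of_mem hX, Set.indicator_of_mem
            (show X ∈ Set.Ioi (0 : ℝ) from by have := hX.1; exact Set.mem_Ioi.2 (by linarith)),
            Set.indicator_of_mem (show a ∈ Set.Ico X (2 * X) from ⟨hX.2, by linarith [hX.1]⟩)]
        · rw [Set.indicator_of_notMem hX]
          exact zero_le
    _ = RF R Ω := by
        have hset : MeasurableSet {p : ℝ × ℝ | p.1 ∈ Set.Ico p.2 (2 * p.2)} :=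
          (measurableSet_le measurable_snd measurable_fst).inter
            (measurableSet_lt measurable_fst (measurable_snd.const_mul 2))
        have hm : Measurable fun p : ℝ × ℝ × ℝ => (Set.Ico p.2.2 (2 * p.2.2)).indicator
            (fun _ => G (p.1, p.2.1) * (ENNReal.ofReal (p.2.2 ^ (-4 : ℤ)) *
            ENNReal.ofReal ((1 + p.2.1 / p.2.2) ^ (-R)))) p.1 := by
          have e : (fun p : ℝ × ℝ × ℝ => (Set.Ico p.2.2 (2 * p.2.2)).indicator
            (fun _ => G (p.1, p.2.1) * (ENNReal.ofReal (p.2.2 ^ (-4 : ℤ)) *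
            ENNReal.ofReal ((1 + p.2.1 / p.2.2) ^ (-R)))) p.1) =
            {p : ℝ × ℝ × ℝ | (p.1, p.2.2) ∈ {p : ℝ × ℝ | p.1 ∈ Set.Ico p.2 (2 * p.2)}}.indicator
            (fun p => G (p.1, p.2.1) * (ENNReal.ofReal (p.2.2 ^ (-4 : ℤ)) *
            ENNReal.ofReal ((1 + p.2.1 / p.2.2) ^ (-R)))) := by
            funext p
            by_cases hp : p.1 ∈ Set.Ico p.2.2 (2 * p.2.2)
            · rw [Set.indicator_of_mem hp, Set.indicator_of_mem
                (show p ∈ {p : ℝ × ℝ × ℝ | (p.1, p.2.2) ∈ {p : ℝ × ℝ | p.1 ∈ Set.Ico p.2 (2 * p.2)}}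
                  from hp)]
            · rw [Set.indicator_of_notMem hp, Set.indicator_of_notMem
                (show p ∉ {p : ℝ × ℝ × ℝ | (p.1, p.2.2) ∈ {p : ℝ × ℝ | p.1 ∈ Set.Ico p.2 (2 * p.2)}}
                  from hp)]
          rw [e]
          refine Measurable.indicator ?_ (hset.preimage (by fun_prop :
            Measurable fun p : ℝ × ℝ × ℝ => (p.1, p.2.2)))
          have k1 : Measurable fun p : ℝ × ℝ × ℝ => ENNReal.ofReal (p.2.2 ^ (-4 : ℤ)) :=
            ((measurable_snd.comp measurable_snd).pow_const (-4 : ℤ)).ennreal_ofReal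
          have k3 : Measurable fun p : ℝ × ℝ × ℝ => (1 + p.2.1 / p.2.2) ^ (-R) :=
            Measurable.pow (by fun_prop) (by fun_prop)
          have k4 : Measurable fun p : ℝ × ℝ × ℝ => G (p.1, p.2.1) := hGm.comp (by fun_prop)
          exact k4.mul (k1.mul k3.ennreal_ofReal)
        unfold RF
        -- move X outside
        have s1 : ∀ a : ℝ, ∫⁻ H in Set.Ioi (0 : ℝ), ∫⁻ X in Set.Ioi (0 : ℝ),
            (Set.Ico X (2 * X)).indicator (fun _ => G (a, H) * (ENNReal.ofReal (X ^ (-4 : ℤ)) *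
            ENNReal.ofReal ((1 + H / X) ^ (-R)))) a =
            ∫⁻ X in Set.Ioi (0 : ℝ), ∫⁻ H in Set.Ioi (0 : ℝ),
            (Set.Ico X (2 * X)).indicator (fun _ => G (a, H) * (ENNReal.ofReal (X ^ (-4 : ℤ)) *
            ENNReal.ofReal ((1 + H / X) ^ (-R)))) a := by
          intro a
          rw [lintegral_lintegral_swap]
          exact (hm.comp (measurable_const.prodMk measurable_id :
            Measurable fun q : ℝ × ℝ => (a, q))).aemeasurable
        simp_rw [s1]
        rw [lintegral_lintegral_swap]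
        · refine setLIntegral_congr_fun measurableSet_Ioi fun X hX => ?_
          have hX0 : 0 < X := hX
          rw [← lintegral_const_mul' _ _ ENNReal.ofReal_ne_top, lintegral_lintegral_swap]
          · refine setLIntegral_congr_fun measurableSet_Ioi fun H hH => ?_
            rw [← mul_assoc, ← lintegral_const_mul', ← lintegral_indicator measurableSet_Ioi,
              ← lintegral_indicator measurableSet_Ico]
            · refine lintegral_congr fun a => ?_
              by_cases ha : a ∈ Set.Ico X (2 * X)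
              · rw [Set.indicator_of_mem (show a ∈ Set.Ioi (0 : ℝ) from
                  lt_of_lt_of_le hX0 ha.1), Set.indicator_of_mem ha, Set.indicator_of_mem ha,
                  hG']
                ring
              · rw [Set.indicator_of_notMem (s := Set.Ico X (2 * X)) ha]
                by_cases ha0 : a ∈ Set.Ioi (0 : ℝ)
                · rw [Set.indicator_of_mem ha0, Set.indicator_of_notMem ha]
                · rw [Set.indicator_of_notMem ha0]
            · exact ENNReal.mul_ne_top ENNReal.ofReal_ne_top ENNReal.ofReal_ne_top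
          · exact (hm.comp (by fun_prop : Measurable fun q : ℝ × ℝ => (q.1, q.2, X))).aemeasurable
        · have : Measurable fun q : ℝ × ℝ => ∫⁻ H in Set.Ioi (0 : ℝ),
            (Set.Ico q.2 (2 * q.2)).indicator (fun _ => G (q.1, H) *
              (ENNReal.ofReal (q.2 ^ (-4 : ℤ)) *
            ENNReal.ofReal ((1 + H / q.2) ^ (-R)))) q.1 := by
            refine Measurable.lintegral_prod_right' (f := fun r : (ℝ × ℝ) × ℝ =>
              (Set.Ico r.1.2 (2 * r.1.2)).indicator (fun _ => G (r.1.1, r.2) *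
              (ENNReal.ofReal (r.1.2 ^ (-4 : ℤ)) *
            ENNReal.ofReal ((1 + r.2 / r.1.2) ^ (-R)))) r.1.1) ?_
            exact hm.comp (by fun_prop : Measurable fun r : (ℝ × ℝ) × ℝ => (r.1.1, r.2, r.1.2))
          exact this.aemeasurable

end Pool.Agent.H7.PS
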