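import Pool.Agent.H7.PS.PUp

/-! The upper bound on the side of the primes, the limit. -/

open MeasureTheory Filter Topology Real
open scoped ENNReal

namespace Pool.Agent.H7.PS

lemma low_tendsto : Tendsto (fun T : ℝ => T ^ (5 / 4 : ℝ) * Real.exp (-(Real.log T ^ 2 / 256)))
    atTop (𝓝 0) := by
  have h1 : Tendsto (fun L : ℝ => 5 / 4 * L - L ^ 2 / 256) atTop atBot := by
    have h2 : Tendsto (fun L : ℝ => L * (L / 256 - 5 / 4)) atTop atTop := by
      refine tendsto_id.atTop_mul_atTop₀ ?_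
      exact tendsto_atTop_add_const_right _ _ (tendsto_id.atTop_div_const (by norm_num))
    refine (tendsto_neg_atTop_atBot.comp h2).congr fun L => ?_
    show -(L * (L / 256 - 5 / 4)) = _
    ring
  refine ((Real.tendsto_exp_atBot.comp h1).comp Real.tendsto_log_atTop).congr' ?_
  filter_upwards [eventually_gt_atTop 0] with T hT
  show Real.exp (5 / 4 * Real.log T - Real.log T ^ 2 / 256) = _
  rw [Real.rpow_def_of_pos hT, ← Real.exp_add]
  congr 1
  ring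

lemma tails_small {c q κ δ : ℝ} (hc : 0 < c) (hq : 0 ≤ q) (hκ : 0 ≤ κ) (hδ : 0 < δ) :
    ∀ᶠ T : ℝ in atTop, q * Real.exp (-(Real.log T ^ 2 / 256)) * (4 * cC ^ 2) / (c * T - 3) *
      T ^ (1 / 4 : ℝ) + q * (4 * cC ^ 2) / (c * T - 3) * (T ^ (κ + 1)) ^ (-2 : ℝ) ≤
      Real.log T ^ 2 / (c * T) ^ 2 * δ := by
  have t1 : Tendsto (fun T : ℝ => q * (4 * cC ^ 2) * (2 * c) * (T ^ (5 / 4 : ℝ) *
      Real.exp (-(Real.log T ^ 2 / 256)) + T ^ (-1 : ℝ))) atTop
      (𝓝 (q * (4 * cC ^ 2) * (2 * c) * (0 + 0))) := by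
    refine Tendsto.const_mul _ (low_tendsto.add ?_)
    exact tendsto_rpow_neg_atTop one_pos
  have t2 := (tendsto_order.1 t1).2 δ (by simpa using hδ)
  filter_upwards [t2, eventually_ge_atTop (Real.exp 1), eventually_ge_atTop (6 / c)]
    with T ht hT hTc
  have hT1 : 1 < T := lt_of_lt_of_le (Real.one_lt_exp_iff.2 one_pos) hT
  have hT0 : 0 < T := by linarith
  have hL : 1 ≤ Real.log T := by
    rw [Real.le_log_iff_exp_le hT0]
    exact hT
  have hcT : 6 ≤ c * T := by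
    rw [div_le_iff₀ hc] at hTc
    linarith
  have hcT0 : 0 < c * T := by linarith
  have h1 : 1 / (c * T - 3) ≤ 2 * c * T * (Real.log T ^ 2 / (c * T) ^ 2) := by
    have h2 : 1 / (c * T - 3) ≤ 2 / (c * T) := by
      rw [div_le_div_iff₀ (by linarith) hcT0]
      linarith
    refine h2.trans ?_
    have h3 : 2 * c * T * (Real.log T ^ 2 / (c * T) ^ 2) = 2 / (c * T) * Real.log T ^ 2 := by
      field_simp
    rw [h3]
    have h4 : 1 ≤ Real.log T ^ 2 := by nlinarith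
    have h5 : 0 < 2 / (c * T) := by positivity
    nlinarith
  have h6 : (T ^ (κ + 1)) ^ (-2 : ℝ) ≤ T ^ (-2 : ℝ) := by
    rw [← Real.rpow_mul hT0.le]
    exact Real.rpow_le_rpow_of_exponent_le hT1.le (by linarith)
  have h7 : T * T ^ (-2 : ℝ) = T ^ (-1 : ℝ) := by
    rw [← Real.rpow_one_add' hT0.le (by norm_num)]
    norm_num
  have h8 : T * T ^ (1 / 4 : ℝ) = T ^ (5 / 4 : ℝ) := by
    rw [← Real.rpow_one_add' hT0.le (by norm_num)]
    norm_num
  have hE := Real.exp_pos (-(Real.log T ^ 2 / 256))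
  have h9 : 0 ≤ 1 / (c * T - 3) := by
    have : 0 < c * T - 3 := by linarith
    positivity
  calc q * Real.exp (-(Real.log T ^ 2 / 256)) * (4 * cC ^ 2) / (c * T - 3) *
      T ^ (1 / 4 : ℝ) + q * (4 * cC ^ 2) / (c * T - 3) * (T ^ (κ + 1)) ^ (-2 : ℝ) =
      q * (4 * cC ^ 2) * (Real.exp (-(Real.log T ^ 2 / 256)) * T ^ (1 / 4 : ℝ) +
        (T ^ (κ + 1)) ^ (-2 : ℝ)) * (1 / (c * T - 3)) := by ring
    _ ≤ q * (4 * cC ^ 2) * (Real.exp (-(Real.log T ^ 2 / 256)) * T ^ (1 / 4 : ℝ) +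
        T ^ (-2 : ℝ)) * (2 * c * T * (Real.log T ^ 2 / (c * T) ^ 2)) := by gcongr
    _ = (q * (4 * cC ^ 2) * (2 * c) * ((T * T ^ (1 / 4 : ℝ)) *
      Real.exp (-(Real.log T ^ 2 / 256)) + T * T ^ (-2 : ℝ))) *
        (Real.log T ^ 2 / (c * T) ^ 2) := by ring
    _ = (q * (4 * cC ^ 2) * (2 * c) * (T ^ (5 / 4 : ℝ) *
      Real.exp (-(Real.log T ^ 2 / 256)) + T ^ (-1 : ℝ))) *
        (Real.log T ^ 2 / (c * T) ^ 2) := by rw [h7, h8]
    _ ≤ δ * (Real.log T ^ 2 / (c * T) ^ 2) := by gcongr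
    _ = _ := by ring

lemma supp_int {κ M D : ℝ} {K : ℝ → ℝ} (h : WK κ M D K) (hκ : 0 ≤ κ) {a b : ℝ} (ha : 0 ≤ a)
    (hab : a ≤ b) : ∫ α in a..b, K α ≤ ∫ α in (0 : ℝ)..κ, K α := by
  have hc := h.cont
  have hi : ∀ x y : ℝ, IntervalIntegrable K volume x y := fun x y => hc.intervalIntegrable _ _
  have h1 : ∫ α in κ..(max b κ), K α = 0 := by
    refine (intervalIntegral.integral_congr_ae (g := fun _ => 0) ?_).trans (by simp)
    refine Eventually.of_forall fun x hx => ?_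
    rw [Set.uIoc_of_le (le_max_right _ _)] at hx
    by_contra hne
    have := (h.supp x (hκ.trans_lt hx.1) hne).2
    exact absurd hx.1 (not_lt.2 this)
  calc ∫ α in a..b, K α ≤ ∫ α in (0 : ℝ)..(max b κ), K α := by
        refine intervalIntegral.integral_mono_interval ha hab (le_max_left _ _)
          (Eventually.of_forall fun x => h.nonneg x) (hi _ _)
    _ = (∫ α in (0 : ℝ)..κ, K α) + ∫ α in κ..(max b κ), K α :=
        (intervalIntegral.integral_add_adjacent_intervals (hi _ _) (hi _ _)).symm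
    _ = _ := by rw [h1, add_zero]

/-- the main part -/
theorem PU0 (h : HypU) {κ : ℝ} (hκ : 1 ≤ κ) : ∃ C : ℝ, 0 ≤ C ∧ ∀ (K : ℝ → ℝ) (M D : ℝ),
    0 ≤ M → WK κ M D K → ∀ c : ℝ, 0 < c → ∀ δ : ℝ, 0 < δ → ∀ᶠ T : ℝ in atTop,
      RF (c * T) (Om0 (kT K T)) ≤ ENNReal.ofReal (Real.sqrt π * (Real.log T ^ 2 / (c * T) ^ 2) *
        ((∫ α in (0 : ℝ)..κ, K α) + C * (∫ α in (0 : ℝ)..(1 + δ), K α) + δ)) := by
  obtain ⟨C, hC, hr⟩ := B_rough h (κ := κ + 1) (by linarith)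
  refine ⟨C, hC, fun K M D hM hK c hc δ hδ => ?_⟩
  have hD : 0 ≤ D := by
    have h1 := hK.lip 1 0
    have h2 := abs_nonneg (K 1 - K 0)
    simp at h1
    linarith
  have hIK : 0 ≤ ∫ α in (0 : ℝ)..κ, K α :=
    intervalIntegral.integral_nonneg (by linarith) fun x _ => hK.nonneg x
  obtain ⟨I, hI⟩ : ∃ I, I = ∫ α in (0 : ℝ)..κ, K α := ⟨_, rfl⟩
  rw [← hI] at hIK
  obtain ⟨ε, hε, hε1, hεδ, hεI⟩ : ∃ ε : ℝ, 0 < ε ∧ ε ≤ 1 ∧ ε ≤ δ ∧ 3 * ε * I ≤ δ / 4 := by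
    refine ⟨min (min 1 δ) (δ / (12 * (I + 1))), ?_, (min_le_left _ _).trans (min_le_left _ _),
      (min_le_left _ _).trans (min_le_right _ _), ?_⟩
    · exact lt_min (lt_min one_pos hδ) (by positivity)
    · have h1 : min (min 1 δ) (δ / (12 * (I + 1))) ≤ δ / (12 * (I + 1)) := min_le_right _ _
      have h2 : 3 * (δ / (12 * (I + 1))) * I ≤ δ / 4 := by
        have h3 : 3 * (δ / (12 * (I + 1))) * I = δ / 4 * (I / (I + 1)) := by
          field_simp
          ring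
        rw [h3]
        have h4 : I / (I + 1) ≤ 1 := by
          rw [div_le_one (by linarith)]
          linarith
        nlinarith
      have h5 : 3 * min (min 1 δ) (δ / (12 * (I + 1))) * I ≤ 3 * (δ / (12 * (I + 1))) * I := by
        gcongr
      linarith
  have hsharp := B_sharp h (κ := κ + 1) hε hε1 (by linarith) hc
  have hrough := hr c hc
  have hspi : 0 < Real.sqrt π := by positivity
  have htail := tails_small (q := 4 * M * Real.sqrt (4 * π)) (κ := κ) hc (by positivity)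
    (by linarith) (show 0 < Real.sqrt π * (δ / 4) by positivity)
  have t1 : Tendsto (fun T : ℝ => (C * (1 + ε) + (1 + 3 * ε) * (κ + 1)) * (3 * D) / Real.log T)
      atTop (𝓝 0) := tendsto_const_nhds.div_atTop Real.tendsto_log_atTop
  have t2 := (tendsto_order.1 t1).2 (δ / 4) (by linarith)
  filter_upwards [hsharp, hrough, htail, t2, eventually_ge_atTop (Real.exp 1),
    eventually_ge_atTop (4 / c), Real.tendsto_log_atTop.eventually_ge_atTop 8,
    Real.tendsto_log_atTop.eventually_ge_atTop (12 * (κ + 1))]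
    with T hs hro ht ht2 hT hTc hL8 hL12
  have hT1 : 1 < T := lt_of_lt_of_le (Real.one_lt_exp_iff.2 one_pos) hT
  have hT0 : 0 < T := by linarith
  have hL : 1 ≤ Real.log T := by linarith
  have hcT : 4 ≤ c * T := by
    rw [div_le_iff₀ hc] at hTc
    linarith
  have hLpos : 0 < Real.log T := by linarith
  have hDL : 0 ≤ 3 * D / Real.log T := by positivity
  have key := RF_four (T := T) (R := c * T) (κ := κ) (ε := ε) (C := C)
    (q1 := 4 * M * Real.sqrt (4 * π) * Real.exp (-(Real.log T ^ 2 / 256)))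
    (q2 := 4 * M * Real.sqrt (4 * π))
    (f := fun α => Real.sqrt π * (K α + 3 * D / Real.log T)) (Ω := Om0 (kT K T)) hT1 (by linarith)
    hε (by linarith) hC (by positivity) (by positivity)
    (continuous_const.mul (hK.cont.add continuous_const))
    (fun x => mul_nonneg hspi.le (add_nonneg (hK.nonneg x) hDL))
    (fun X hX hX1 a ha => (Om0_le_Om1 _ _).trans (Om1_low hK hT1 hM hL8 hX hX1 ha))
    (fun X hX1 _ a ha => Om0_main hK hT1 (lt_trans (by positivity) hX1) ha)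
    (fun X hX1 a ha => (Om0_le_Om1 _ _).trans
      (Om1_high hK hT1 hM (by linarith) hL12 hX1 ha)) hro hs
  refine key.trans (ENNReal.ofReal_le_ofReal ?_)
  have hint : ∀ a b : ℝ, ∫ α in a..b, Real.sqrt π * (K α + 3 * D / Real.log T) =
      Real.sqrt π * ((∫ α in a..b, K α) + (b - a) * (3 * D / Real.log T)) := by
    intro a b
    rw [intervalIntegral.integral_const_mul, intervalIntegral.integral_add
      (hK.cont.intervalIntegrable _ _) (continuous_const.intervalIntegrable _ _),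
      intervalIntegral.integral_const, smul_eq_mul]
  rw [hint, hint, ← hI]
  have i1 : ∫ α in (1 / 4 : ℝ)..(1 + ε), K α ≤ ∫ α in (0 : ℝ)..(1 + δ), K α :=
    intervalIntegral.integral_mono_interval (by norm_num) (by linarith) (by linarith)
      (Eventually.of_forall fun x => hK.nonneg x) (hK.cont.intervalIntegrable _ _)
  have i2 : ∫ α in (1 + ε)..(κ + 1), K α ≤ I := by
    rw [hI]
    exact supp_int hK (by linarith) (by linarith) (by linarith)
  obtain ⟨Q, hQ⟩ : ∃ Q, Q = Real.log T ^ 2 / (c * T) ^ 2 := ⟨_, rfl⟩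
  have hQ0 : 0 ≤ Q := by rw [hQ]; positivity
  rw [← hQ] at ht ⊢
  obtain ⟨E, hE⟩ : ∃ E, E = 3 * D / Real.log T := ⟨_, rfl⟩
  rw [← hE] at hDL ⊢
  have ht3 : (C * (1 + ε) + (1 + 3 * ε) * (κ + 1)) * E ≤ δ / 4 := by
    rw [hE]
    have : (C * (1 + ε) + (1 + 3 * ε) * (κ + 1)) * (3 * D / Real.log T) =
        (C * (1 + ε) + (1 + 3 * ε) * (κ + 1)) * (3 * D) / Real.log T := by ring
    rw [this]
    exact ht2.le
  have j1 : C * (Real.sqrt π * ((∫ α in (1 / 4 : ℝ)..(1 + ε), K α) + (1 + ε - 1 / 4) * E)) ≤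
      Real.sqrt π * (C * (∫ α in (0 : ℝ)..(1 + δ), K α) + C * (1 + ε) * E) := by
    have j2 : (∫ α in (1 / 4 : ℝ)..(1 + ε), K α) + (1 + ε - 1 / 4) * E ≤
        (∫ α in (0 : ℝ)..(1 + δ), K α) + (1 + ε) * E := by
      have : (1 + ε - 1 / 4) * E ≤ (1 + ε) * E := mul_le_mul_of_nonneg_right (by linarith) hDL
      linarith
    calc C * (Real.sqrt π * ((∫ α in (1 / 4 : ℝ)..(1 + ε), K α) + (1 + ε - 1 / 4) * E)) ≤
        C * (Real.sqrt π * ((∫ α in (0 : ℝ)..(1 + δ), K α) + (1 + ε) * E)) := by gcongr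
      _ = _ := by ring
  have j3 : (1 + 3 * ε) * (Real.sqrt π * ((∫ α in (1 + ε)..(κ + 1), K α) +
      (κ + 1 - (1 + ε)) * E)) ≤ Real.sqrt π * (I + δ / 4 + (1 + 3 * ε) * (κ + 1) * E) := by
    have j4 : (∫ α in (1 + ε)..(κ + 1), K α) + (κ + 1 - (1 + ε)) * E ≤ I + (κ + 1) * E := by
      have : (κ + 1 - (1 + ε)) * E ≤ (κ + 1) * E := mul_le_mul_of_nonneg_right (by linarith) hDL
      linarith
    calc (1 + 3 * ε) * (Real.sqrt π * ((∫ α in (1 + ε)..(κ + 1), K α) +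
        (κ + 1 - (1 + ε)) * E)) ≤ (1 + 3 * ε) * (Real.sqrt π * (I + (κ + 1) * E)) := by gcongr
      _ = Real.sqrt π * (I + 3 * ε * I + (1 + 3 * ε) * (κ + 1) * E) := by ring
      _ ≤ _ := by gcongr
  have j5 := mul_le_mul_of_nonneg_left (add_le_add j1 j3) hQ0
  have j6 : Q * (Real.sqrt π * ((C * (1 + ε) + (1 + 3 * ε) * (κ + 1)) * E)) ≤
      Q * (Real.sqrt π * (δ / 4)) := by gcongr
  have e1 : 4 * M * Real.sqrt (4 * π) * Real.exp (-(Real.log T ^ 2 / 256)) * (4 * cC ^ 2) /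
      (c * T - 3) * T ^ (1 / 4 : ℝ) + Q * (C * (Real.sqrt π *
        ((∫ α in (1 / 4 : ℝ)..(1 + ε), K α) + (1 + ε - 1 / 4) * E))) +
      Q * ((1 + 3 * ε) * (Real.sqrt π * ((∫ α in (1 + ε)..(κ + 1), K α) +
        (κ + 1 - (1 + ε)) * E))) + 4 * M * Real.sqrt (4 * π) * (4 * cC ^ 2) / (c * T - 3) *
        (T ^ (κ + 1)) ^ (-2 : ℝ) =
      (4 * M * Real.sqrt (4 * π) * Real.exp (-(Real.log T ^ 2 / 256)) * (4 * cC ^ 2) /
      (c * T - 3) * T ^ (1 / 4 : ℝ) + 4 * M * Real.sqrt (4 * π) * (4 * cC ^ 2) / (c * T - 3) *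
        (T ^ (κ + 1)) ^ (-2 : ℝ)) + Q * (C * (Real.sqrt π *
        ((∫ α in (1 / 4 : ℝ)..(1 + ε), K α) + (1 + ε - 1 / 4) * E)) +
        (1 + 3 * ε) * (Real.sqrt π * ((∫ α in (1 + ε)..(κ + 1), K α) +
        (κ + 1 - (1 + ε)) * E))) := by ring
  rw [e1]
  have e2 : Real.sqrt π * Q * (I + C * (∫ α in (0 : ℝ)..(1 + δ), K α) + δ) =
      Q * (Real.sqrt π * (δ / 4)) + Q * (Real.sqrt π * (δ / 4)) +
      Q * (Real.sqrt π * (C * (∫ α in (0 : ℝ)..(1 + δ), K α)) + Real.sqrt π * (I + δ / 4)) +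
      Q * (Real.sqrt π * (δ / 4)) := by ring
  rw [e2]
  have e3 : Q * (Real.sqrt π * (C * (∫ α in (0 : ℝ)..(1 + δ), K α) + C * (1 + ε) * E) +
      Real.sqrt π * (I + δ / 4 + (1 + 3 * ε) * (κ + 1) * E)) =
      Q * (Real.sqrt π * (C * (∫ α in (0 : ℝ)..(1 + δ), K α)) + Real.sqrt π * (I + δ / 4)) +
      Q * (Real.sqrt π * ((C * (1 + ε) + (1 + 3 * ε) * (κ + 1)) * E)) := by ring
  rw [e3] at j5
  have hδQ : 0 ≤ Q * (Real.sqrt π * (δ / 4)) := by positivity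
  linarith

/-- the secondary part -/
theorem PU1 (h : HypU) {κ : ℝ} (hκ : 1 ≤ κ) {K : ℝ → ℝ} {M D : ℝ} (hM : 0 ≤ M)
    (hK : WK κ M D K) {c : ℝ} (hc : 0 < c) : ∃ C : ℝ, 0 ≤ C ∧ ∀ᶠ T : ℝ in atTop,
      RF (c * T / 2) (Om1 (kT K T)) ≤ ENNReal.ofReal (C * (Real.log T ^ 2 / (c * T) ^ 2)) := by
  obtain ⟨C, hC, hr⟩ := B_rough h (κ := κ + 1) (by linarith)
  have hc2 : 0 < c / 2 := by positivity
  have hsharp := B_sharp h (κ := κ + 1) one_pos le_rfl (by linarith) hc2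
  have hrough := hr (c / 2) hc2
  have htail := tails_small (q := 4 * M * Real.sqrt (4 * π)) (κ := κ) hc2 (by positivity)
    (by linarith) one_pos
  obtain ⟨P, hP⟩ : ∃ P, P = 4 * M * Real.sqrt (4 * π) := ⟨_, rfl⟩
  have hP0 : 0 ≤ P := by rw [hP]; positivity
  refine ⟨4 * (C * 2 * P + (1 + 3 * 1) * (κ + 1) * P + 1), by positivity, ?_⟩
  filter_upwards [hsharp, hrough, htail, eventually_ge_atTop (Real.exp 1),
    eventually_ge_atTop (4 / (c / 2)), Real.tendsto_log_atTop.eventually_ge_atTop 8,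
    Real.tendsto_log_atTop.eventually_ge_atTop (12 * (κ + 1))]
    with T hs hro ht hT hTc hL8 hL12
  have hT1 : 1 < T := lt_of_lt_of_le (Real.one_lt_exp_iff.2 one_pos) hT
  have hT0 : 0 < T := by linarith
  have hcT : 4 ≤ c / 2 * T := by
    rw [div_le_iff₀ hc2] at hTc
    linarith
  have hLpos : 0 < Real.log T := by linarith
  rw [← hP] at ht
  have key := RF_four (T := T) (R := c / 2 * T) (κ := κ) (ε := 1) (C := C)
    (q1 := P * Real.exp (-(Real.log T ^ 2 / 256)))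
    (q2 := P) (f := fun α => P) (Ω := Om1 (kT K T)) hT1 (by linarith)
    one_pos (by linarith) hC (by positivity) hP0 continuous_const (fun x => hP0)
    (fun X hX hX1 a ha => by rw [hP]; exact Om1_low hK hT1 hM hL8 hX hX1 ha)
    (fun X hX1 _ a ha => by rw [hP]; exact Om1_main hK hT1 hM _)
    (fun X hX1 a ha => by rw [hP]; exact Om1_high hK hT1 hM (by linarith) hL12 hX1 ha) hro hs
  have e0 : c * T / 2 = c / 2 * T := by ring
  rw [e0]
  refine key.trans (ENNReal.ofReal_le_ofReal ?_)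
  rw [intervalIntegral.integral_const, intervalIntegral.integral_const, smul_eq_mul, smul_eq_mul]
  have eQ : Real.log T ^ 2 / (c / 2 * T) ^ 2 = 4 * (Real.log T ^ 2 / (c * T) ^ 2) := by
    field_simp
    ring
  rw [eQ] at ht ⊢
  obtain ⟨Q, hQ⟩ : ∃ Q, Q = Real.log T ^ 2 / (c * T) ^ 2 := ⟨_, rfl⟩
  have hQ0 : 0 ≤ Q := by rw [hQ]; positivity
  rw [← hQ] at ht ⊢
  have j1 : 4 * Q * (C * ((1 + 1 - 1 / 4) * P)) ≤ 4 * Q * (C * 2 * P) := by
    have : C * ((1 + 1 - 1 / 4) * P) ≤ C * 2 * P := by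
      have h1 : 0 ≤ C * P := by positivity
      nlinarith
    exact mul_le_mul_of_nonneg_left this (by positivity)
  have j2 : 4 * Q * ((1 + 3 * 1) * ((κ + 1 - (1 + 1)) * P)) ≤
      4 * Q * ((1 + 3 * 1) * (κ + 1) * P) := by
    refine mul_le_mul_of_nonneg_left ?_ (by positivity)
    nlinarith
  linarith

/-- the truncated mean squares, superposed -/
noncomputable def Zu (K : ℝ → ℝ) (T τ : ℝ) : ℝ≥0∞ :=
  ∫⁻ t in Set.Ioc 0 (τ * T), ∫⁻ u in Set.Ioi (0 : ℝ), kT K T u * PH (u, t)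

/-- **the upper bound on the side of the primes** -/
theorem prime_upper (h : HypU) {κ : ℝ} (hκ : 1 ≤ κ) : ∃ C : ℝ, 0 ≤ C ∧ ∀ (K : ℝ → ℝ) (M D : ℝ),
    0 ≤ M → WK κ M D K → ∀ c : ℝ, 0 < c → ∀ δ : ℝ, 0 < δ → ∀ᶠ T : ℝ in atTop,
      ∫⁻ τ in Set.Ioi (0 : ℝ), ENNReal.ofReal (kc c τ) * Zu K T τ ≤
      ENNReal.ofReal (π * Real.sqrt π / 2 * (c * T * Real.log T ^ 2) *
        ((∫ α in (0 : ℝ)..κ, K α) + C * (∫ α in (0 : ℝ)..(1 + δ), K α) + δ)) := by
  obtain ⟨C, hC, h0⟩ := PU0 h hκ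
  refine ⟨C, hC, fun K M D hM hK c hc δ hδ => ?_⟩
  obtain ⟨C', hC', h1⟩ := PU1 h hκ hM hK hc
  have hIK : 0 ≤ ∫ α in (0 : ℝ)..κ, K α :=
    intervalIntegral.integral_nonneg (by linarith) fun x _ => hK.nonneg x
  have hIK1 : ∀ x, 0 ≤ x → 0 ≤ ∫ α in (0 : ℝ)..x, K α := fun x hx =>
    intervalIntegral.integral_nonneg hx fun x _ => hK.nonneg x
  obtain ⟨I1, hI1⟩ : ∃ I1, I1 = (∫ α in (0 : ℝ)..κ, K α) + C * (∫ α in (0 : ℝ)..(1 + δ), K α) :=
    ⟨_, rfl⟩
  have hI10 : 0 ≤ I1 := by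
    rw [hI1]
    have := hIK1 (1 + δ) (by linarith)
    positivity
  obtain ⟨η, hη, hη2⟩ : ∃ η : ℝ, 0 < η ∧ (1 + η) * (I1 + δ / 4) ≤ I1 + δ / 2 := by
    refine ⟨δ / 4 / (I1 + δ / 4), by positivity, le_of_eq ?_⟩
    have : I1 + δ / 4 ≠ 0 := by positivity
    field_simp
    ring
  have t1 : Tendsto (fun T : ℝ => π * (1 + 1 / η) * C' / (c * T) ^ 2) atTop (𝓝 0) := by
    refine tendsto_const_nhds.div_atTop ?_
    exact (tendsto_pow_atTop two_ne_zero).comp (tendsto_id.const_mul_atTop hc)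
  have t2 := (tendsto_order.1 t1).2 (π * Real.sqrt π / 2 * (δ / 2)) (by positivity)
  filter_upwards [h0 K M D hM hK c hc (δ / 4) (by positivity), h1, t2, eventually_gt_atTop 1]
    with T h0 h1 ht hT1
  have hT0 : 0 < T := by linarith
  have hcT : 0 < c * T := by positivity
  have hm := ker_main (η := η) hc hT0 hη (kT_meas hK T)
  have hm' : ∫⁻ τ in Set.Ioi (0 : ℝ), ENNReal.ofReal (kc c τ) * Zu K T τ ≤
      ENNReal.ofReal (π / 2 * (1 + η) * (c * T) ^ 3) * RF (c * T) (Om0 (kT K T)) +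
      ENNReal.ofReal (π * (1 + 1 / η) * (c * T)) * RF (c * T / 2) (Om1 (kT K T)) := hm
  refine hm'.trans ?_
  have hmono : ∫ α in (0 : ℝ)..(1 + δ / 4), K α ≤ ∫ α in (0 : ℝ)..(1 + δ), K α :=
    intervalIntegral.integral_mono_interval le_rfl (by linarith) (by linarith)
      (Eventually.of_forall fun x => hK.nonneg x) (hK.cont.intervalIntegrable _ _)
  have hI14 := hIK1 (1 + δ / 4) (by linarith)
  refine (add_le_add (mul_le_mul_right h0 _) (mul_le_mul_right h1 _)).trans ?_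
  rw [← ENNReal.ofReal_mul (by positivity), ← ENNReal.ofReal_mul (by positivity),
    ← ENNReal.ofReal_add (by positivity) (by positivity)]
  refine ENNReal.ofReal_le_ofReal ?_
  rw [← hI1]
  have k1 : (∫ α in (0 : ℝ)..κ, K α) + C * (∫ α in (0 : ℝ)..(1 + δ / 4), K α) + δ / 4 ≤
      I1 + δ / 4 := by
    rw [hI1]
    have := mul_le_mul_of_nonneg_left hmono hC
    linarith
  have k2 : π / 2 * (1 + η) * (c * T) ^ 3 * (Real.sqrt π * (Real.log T ^ 2 / (c * T) ^ 2) *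
      ((∫ α in (0 : ℝ)..κ, K α) + C * (∫ α in (0 : ℝ)..(1 + δ / 4), K α) + δ / 4)) ≤
      π * Real.sqrt π / 2 * (c * T * Real.log T ^ 2) * (I1 + δ / 2) := by
    calc π / 2 * (1 + η) * (c * T) ^ 3 * (Real.sqrt π * (Real.log T ^ 2 / (c * T) ^ 2) *
      ((∫ α in (0 : ℝ)..κ, K α) + C * (∫ α in (0 : ℝ)..(1 + δ / 4), K α) + δ / 4)) ≤
        π / 2 * (1 + η) * (c * T) ^ 3 * (Real.sqrt π * (Real.log T ^ 2 / (c * T) ^ 2) *
        (I1 + δ / 4)) := by gcongr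
      _ = π * Real.sqrt π / 2 * (c * T * Real.log T ^ 2) * ((1 + η) * (I1 + δ / 4)) := by
          field_simp
      _ ≤ _ := by gcongr
  have k3 : π * (1 + 1 / η) * (c * T) * (C' * (Real.log T ^ 2 / (c * T) ^ 2)) ≤
      π * Real.sqrt π / 2 * (c * T * Real.log T ^ 2) * (δ / 2) := by
    have k4 : π * (1 + 1 / η) * (c * T) * (C' * (Real.log T ^ 2 / (c * T) ^ 2)) =
        (π * (1 + 1 / η) * C' / (c * T) ^ 2) * (c * T * Real.log T ^ 2) := by
      field_simp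
    rw [k4]
    have k5 : 0 ≤ c * T * Real.log T ^ 2 := by positivity
    calc (π * (1 + 1 / η) * C' / (c * T) ^ 2) * (c * T * Real.log T ^ 2) ≤
        (π * Real.sqrt π / 2 * (δ / 2)) * (c * T * Real.log T ^ 2) :=
          mul_le_mul_of_nonneg_right ht.le k5
      _ = _ := by ring
  calc _ ≤ π * Real.sqrt π / 2 * (c * T * Real.log T ^ 2) * (I1 + δ / 2) +
      π * Real.sqrt π / 2 * (c * T * Real.log T ^ 2) * (δ / 2) := add_le_add k2 k3
    _ = _ := by ring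

end Pool.Agent.H7.PS
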