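import Mathlib

/-! A Parseval inequality for differences of finite measures. -/

open MeasureTheory Filter Topology Real
open scoped ENNReal

namespace Pool.Agent.H7.PS

/-- the Gaussian kernel -/
noncomputable def gk (ε x : ℝ) : ℝ := Real.sqrt (π / ε) * Real.exp (-x ^ 2 / (4 * ε))

lemma gk_nonneg (ε x : ℝ) : 0 ≤ gk ε x := by unfold gk; positivity

lemma gk_cont (ε : ℝ) : Continuous (gk ε) := by
  unfold gk
  fun_prop

lemma gk_lint {ε : ℝ} (hε : 0 < ε) (a : ℝ) :
    ∫⁻ x, ENNReal.ofReal (gk ε (a - x)) = ENNReal.ofReal (2 * π) := by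
  have h1 : Integrable (fun x : ℝ => Real.exp (-(1 / (4 * ε)) * x ^ 2)) :=
    integrable_exp_neg_mul_sq (by positivity)
  have h2 : (fun x : ℝ => gk ε x) = fun x => Real.sqrt (π / ε) *
      Real.exp (-(1 / (4 * ε)) * x ^ 2) := by
    funext x
    unfold gk
    congr 2
    ring
  have h3 : Integrable (fun x => gk ε x) := by
    rw [h2]
    exact h1.const_mul _
  have h4 : ∫ x, gk ε x = 2 * π := by
    rw [h2, integral_const_mul, integral_gaussian, ← Real.sqrt_mul (by positivity)]
    have : π / ε * (π / (1 / (4 * ε))) = (2 * π) ^ 2 := by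
      field_simp
      ring
    rw [this, Real.sqrt_sq (by positivity)]
  have h5 : ∫⁻ x, ENNReal.ofReal (gk ε (a - x)) = ∫⁻ x, ENNReal.ofReal (gk ε x) :=
    lintegral_sub_left_eq_self (fun x => ENNReal.ofReal (gk ε x)) a
  rw [h5, ← ofReal_integral_eq_lintegral_ofReal h3 (Eventually.of_forall fun x => gk_nonneg ε x),
    h4]

/-- the transform -/
noncomputable def ft (E : ℝ → ℝ) (t : ℝ) : ℂ := ∫ v, (E v : ℂ) * Complex.exp (t * v * Complex.I)

lemma norm_e (x : ℝ) : ‖Complex.exp (x * Complex.I)‖ = 1 := Complex.norm_exp_ofReal_mul_I x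

lemma norm_e2 (t v : ℝ) : ‖Complex.exp (t * v * Complex.I)‖ = 1 := by
  have := norm_e (t * v)
  push_cast at this
  exact this

lemma ft_int {E : ℝ → ℝ} (hE : Integrable E) (t : ℝ) :
    Integrable fun v => (E v : ℂ) * Complex.exp (t * v * Complex.I) := by
  refine hE.ofReal.mul_bdd (c := 1) (by fun_prop) ?_
  exact Eventually.of_forall fun v => (norm_e2 t v).le

lemma ft_cont {E : ℝ → ℝ} (hE : Integrable E) : Continuous (ft E) := by
  unfold ft
  refine continuous_of_dominated (bound := fun v => |E v|) (fun t => (ft_int hE t).1)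
    (fun t => Eventually.of_forall fun v => ?_) hE.abs
    (Eventually.of_forall fun v => by fun_prop)
  rw [norm_mul, norm_e2, mul_one, Complex.norm_real, Real.norm_eq_abs]

lemma ft_bound {E : ℝ → ℝ} (t : ℝ) : ‖ft E t‖ ≤ ∫ v, |E v| := by
  unfold ft
  refine (norm_integral_le_integral_norm _).trans (le_of_eq ?_)
  refine integral_congr_ae (Eventually.of_forall fun v => ?_)
  show ‖_‖ = _
  rw [norm_mul, norm_e2, mul_one, Complex.norm_real, Real.norm_eq_abs]

lemma bessel_eps {E : ℝ → ℝ} (hE : Integrable E) (hm : Measurable E) {ε : ℝ} (hε : 0 < ε) :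
    ∫⁻ t, ENNReal.ofReal (Real.exp (-ε * t ^ 2)) * ‖ft E t‖ₑ ^ 2 ≤
      ENNReal.ofReal (2 * π) * ∫⁻ v, ENNReal.ofReal (E v ^ 2) := by
  set F : ℝ → ℝ × ℝ → ℂ := fun t p => ((Real.exp (-ε * t ^ 2) : ℝ) : ℂ) *
    (((E p.1 : ℂ) * Complex.exp (t * p.1 * Complex.I)) *
      ((E p.2 : ℂ) * Complex.exp ((-t : ℝ) * p.2 * Complex.I))) with hF
  have hg : Integrable (fun t : ℝ => Real.exp (-ε * t ^ 2)) := integrable_exp_neg_mul_sq hε
  have hEE : Integrable (fun p : ℝ × ℝ => E p.1 * E p.2) (volume.prod volume) :=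
    hE.mul_prod hE
  have hFm : AEStronglyMeasurable (Function.uncurry F) (volume.prod (volume.prod volume)) := by
    refine Measurable.aestronglyMeasurable ?_
    simp only [hF, Function.uncurry_def]
    have hE1 : Measurable fun p : ℝ × ℝ × ℝ => (E p.2.1 : ℂ) :=
      Complex.measurable_ofReal.comp (hm.comp (measurable_fst.comp measurable_snd))
    have hE2 : Measurable fun p : ℝ × ℝ × ℝ => (E p.2.2 : ℂ) :=
      Complex.measurable_ofReal.comp (hm.comp (measurable_snd.comp measurable_snd))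
    refine Measurable.mul ?_ (Measurable.mul (hE1.mul ?_) (hE2.mul ?_))
    · exact Continuous.measurable (by fun_prop)
    · exact Continuous.measurable (by fun_prop)
    · exact Continuous.measurable (by fun_prop)
  have hFi : Integrable (Function.uncurry F) (volume.prod (volume.prod volume)) := by
    have h1 : Integrable (fun p : ℝ × ℝ × ℝ => Real.exp (-ε * p.1 ^ 2) * (E p.2.1 * E p.2.2))
        (volume.prod (volume.prod volume)) := hg.mul_prod hEE
    refine h1.norm.mono' hFm (Eventually.of_forall fun p => ?_)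
    simp only [hF, Function.uncurry_def]
    rw [norm_mul, norm_mul, norm_mul, norm_mul, norm_e2, norm_e2, Complex.norm_real,
      Complex.norm_real, Complex.norm_real, norm_mul, norm_mul, mul_one, mul_one]
  have hft : ∀ t : ℝ, ((Real.exp (-ε * t ^ 2) * ‖ft E t‖ ^ 2 : ℝ) : ℂ) =
      ∫ p, F t p ∂(volume.prod volume) := by
    intro t
    have h1 : ((‖ft E t‖ ^ 2 : ℝ) : ℂ) = ft E t * ft E (-t) := by
      have h2 : ft E (-t) = (starRingEnd ℂ) (ft E t) := by
        unfold ft
        rw [← integral_conj]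
        refine integral_congr_ae (Eventually.of_forall fun v => ?_)
        show _ = (starRingEnd ℂ) _
        rw [map_mul, Complex.conj_ofReal, ← Complex.exp_conj]
        congr 2
        simp
      rw [h2, Complex.mul_conj, Complex.normSq_eq_norm_sq]
    rw [Complex.ofReal_mul, h1]
    simp only [hF]
    rw [integral_const_mul]
    congr 1
    have h3 := integral_prod_mul (μ := (volume : Measure ℝ)) (ν := (volume : Measure ℝ))
      (fun v : ℝ => (E v : ℂ) * Complex.exp (t * v * Complex.I))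
      (fun v : ℝ => (E v : ℂ) * Complex.exp ((-t : ℝ) * v * Complex.I))
    rw [h3]
    rfl
  have hswap : ∫ t, ∫ p, F t p ∂(volume.prod volume) = ∫ p, ∫ t, F t p ∂volume ∂(volume.prod volume) :=
    integral_integral_swap hFi
  have hinner : ∀ p : ℝ × ℝ, ∫ t, F t p = ((E p.1 * E p.2 * gk ε (p.1 - p.2) : ℝ) : ℂ) := by
    intro p
    have h1 : ∀ t : ℝ, F t p = ((E p.1 : ℂ) * (E p.2 : ℂ)) *
        (Complex.exp (Complex.I * ((p.1 - p.2 : ℝ) : ℂ) * t) * Complex.exp (-(ε : ℂ) * t ^ 2)) := by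
      intro t
      simp only [hF]
      have h2 : ((Real.exp (-ε * t ^ 2) : ℝ) : ℂ) = Complex.exp (-(ε : ℂ) * t ^ 2) := by
        push_cast
        ring_nf
      have h3 : Complex.exp (t * p.1 * Complex.I) * Complex.exp ((-t : ℝ) * p.2 * Complex.I) =
          Complex.exp (Complex.I * ((p.1 - p.2 : ℝ) : ℂ) * t) := by
        rw [← Complex.exp_add]
        congr 1
        push_cast
        ring
      rw [h2, ← h3]
      ring
    simp_rw [h1]
    rw [integral_const_mul, fourierIntegral_gaussian (by simpa using hε)]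
    unfold gk
    have h4 : ((π : ℂ) / (ε : ℂ)) ^ (1 / 2 : ℂ) = ((Real.sqrt (π / ε) : ℝ) : ℂ) := by
      rw [Real.sqrt_eq_rpow, Complex.ofReal_cpow (by positivity)]
      push_cast
      rfl
    rw [h4]
    push_cast
    ring_nf
  -- the real identity
  have hreal : ∫⁻ t, ENNReal.ofReal (Real.exp (-ε * t ^ 2)) * ‖ft E t‖ₑ ^ 2 =
      ENNReal.ofReal (∫ t, Real.exp (-ε * t ^ 2) * ‖ft E t‖ ^ 2) := by
    rw [ofReal_integral_eq_lintegral_ofReal]
    · refine lintegral_congr fun t => ?_
      rw [ENNReal.ofReal_mul (Real.exp_pos _).le, ← ofReal_norm,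
        ENNReal.ofReal_pow (norm_nonneg _)]
    · refine hg.mul_bdd (c := (∫ v, |E v|) ^ 2)
        (((ft_cont hE).norm.pow 2).aestronglyMeasurable) (Eventually.of_forall fun t => ?_)
      rw [norm_pow, norm_norm]
      exact pow_le_pow_left₀ (norm_nonneg _) (ft_bound t) 2
    · exact Eventually.of_forall fun t => by positivity
  rw [hreal]
  have h5 : ((∫ t, Real.exp (-ε * t ^ 2) * ‖ft E t‖ ^ 2 : ℝ) : ℂ) =
      ((∫ p, E p.1 * E p.2 * gk ε (p.1 - p.2) ∂((volume : Measure ℝ).prod volume) : ℝ) : ℂ) := by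
    have k1 : ∫ t, ((Real.exp (-ε * t ^ 2) * ‖ft E t‖ ^ 2 : ℝ) : ℂ) =
        ((∫ t, Real.exp (-ε * t ^ 2) * ‖ft E t‖ ^ 2 : ℝ) : ℂ) := integral_ofReal
    have k2 : ∫ p, ((E p.1 * E p.2 * gk ε (p.1 - p.2) : ℝ) : ℂ)
        ∂((volume : Measure ℝ).prod volume) =
        ((∫ p, E p.1 * E p.2 * gk ε (p.1 - p.2) ∂((volume : Measure ℝ).prod volume) : ℝ) : ℂ) :=
      integral_ofReal
    rw [← k1, ← k2, integral_congr_ae (Eventually.of_forall hft), hswap]
    exact integral_congr_ae (Eventually.of_forall hinner)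
  have h6 : ∫ t, Real.exp (-ε * t ^ 2) * ‖ft E t‖ ^ 2 =
      ∫ p, E p.1 * E p.2 * gk ε (p.1 - p.2) ∂((volume : Measure ℝ).prod volume) := by
    exact_mod_cast h5
  rw [h6]
  have hEm1 : Measurable fun p : ℝ × ℝ => E p.1 := hm.comp measurable_fst
  have hEm2 : Measurable fun p : ℝ × ℝ => E p.2 := hm.comp measurable_snd
  have hgm : Measurable fun p : ℝ × ℝ => gk ε (p.1 - p.2) :=
    (gk_cont ε).measurable.comp (measurable_fst.sub measurable_snd)
  have hE2m : Measurable fun v : ℝ => ENNReal.ofReal (E v ^ 2 / 2) :=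
    ((hm.pow_const 2).div_const 2).ennreal_ofReal
  calc ENNReal.ofReal (∫ p, E p.1 * E p.2 * gk ε (p.1 - p.2) ∂((volume : Measure ℝ).prod volume)) ≤
      ∫⁻ p, ‖E p.1 * E p.2 * gk ε (p.1 - p.2)‖ₑ ∂((volume : Measure ℝ).prod volume) :=
        (Real.ofReal_le_enorm _).trans (enorm_integral_le_lintegral_enorm _)
    _ ≤ ∫⁻ p, (ENNReal.ofReal (E p.1 ^ 2 / 2) * ENNReal.ofReal (gk ε (p.1 - p.2)) +
        ENNReal.ofReal (E p.2 ^ 2 / 2) * ENNReal.ofReal (gk ε (p.1 - p.2)))
          ∂((volume : Measure ℝ).prod volume) := by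
        refine lintegral_mono fun p => ?_
        have hg0 := gk_nonneg ε (p.1 - p.2)
        rw [Real.enorm_eq_ofReal_abs, ← ENNReal.ofReal_mul (by positivity),
          ← ENNReal.ofReal_mul (by positivity), ← ENNReal.ofReal_add (by positivity)
          (by positivity)]
        refine ENNReal.ofReal_le_ofReal ?_
        rw [abs_mul, abs_mul, abs_of_nonneg hg0, ← add_mul]
        refine mul_le_mul_of_nonneg_right ?_ hg0
        nlinarith [sq_nonneg (|E p.1| - |E p.2|), sq_abs (E p.1), sq_abs (E p.2)]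
    _ = (∫⁻ p, ENNReal.ofReal (E p.1 ^ 2 / 2) * ENNReal.ofReal (gk ε (p.1 - p.2))
          ∂((volume : Measure ℝ).prod volume)) +
        ∫⁻ p, ENNReal.ofReal (E p.2 ^ 2 / 2) * ENNReal.ofReal (gk ε (p.1 - p.2))
          ∂((volume : Measure ℝ).prod volume) := by
        rw [lintegral_add_left]
        exact (hE2m.comp measurable_fst).mul hgm.ennreal_ofReal
    _ = ENNReal.ofReal (2 * π) * (∫⁻ v, ENNReal.ofReal (E v ^ 2 / 2)) +
        ENNReal.ofReal (2 * π) * (∫⁻ v, ENNReal.ofReal (E v ^ 2 / 2)) := by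
        congr 1
        · have hmm : Measurable fun p : ℝ × ℝ => ENNReal.ofReal (E p.1 ^ 2 / 2) *
              ENNReal.ofReal (gk ε (p.1 - p.2)) :=
            (hE2m.comp measurable_fst).mul hgm.ennreal_ofReal
          rw [lintegral_prod _ hmm.aemeasurable]
          rw [← lintegral_const_mul _ hE2m]
          refine lintegral_congr fun v => ?_
          show ∫⁻ w, ENNReal.ofReal (E v ^ 2 / 2) * ENNReal.ofReal (gk ε (v - w)) = _
          have hgv : Measurable fun w => ENNReal.ofReal (gk ε (v - w)) :=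
            ((gk_cont ε).measurable.comp (measurable_const.sub measurable_id)).ennreal_ofReal
          rw [lintegral_const_mul _ hgv, gk_lint hε, mul_comm]
        · have hmm : Measurable fun p : ℝ × ℝ => ENNReal.ofReal (E p.2 ^ 2 / 2) *
              ENNReal.ofReal (gk ε (p.1 - p.2)) :=
            (hE2m.comp measurable_snd).mul hgm.ennreal_ofReal
          rw [lintegral_prod_symm _ hmm.aemeasurable]
          rw [← lintegral_const_mul _ hE2m]
          refine lintegral_congr fun v => ?_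
          show ∫⁻ w, ENNReal.ofReal (E v ^ 2 / 2) * ENNReal.ofReal (gk ε (w - v)) = _
          have e : ∀ w, gk ε (w - v) = gk ε (v - w) := fun w => by
            unfold gk
            congr 2
            ring
          simp_rw [e]
          have hgv : Measurable fun w => ENNReal.ofReal (gk ε (v - w)) :=
            ((gk_cont ε).measurable.comp (measurable_const.sub measurable_id)).ennreal_ofReal
          rw [lintegral_const_mul _ hgv, gk_lint hε, mul_comm]
    _ = ENNReal.ofReal (2 * π) * ∫⁻ v, ENNReal.ofReal (E v ^ 2) := by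
        rw [← mul_add, ← lintegral_add_left hE2m]
        congr 1
        refine lintegral_congr fun v => ?_
        rw [← ENNReal.ofReal_add (by positivity) (by positivity), add_halves]

/-- Bessel's inequality -/
lemma bessel {E : ℝ → ℝ} (hE : Integrable E) (hm : Measurable E) :
    ∫⁻ t, ‖ft E t‖ₑ ^ 2 ≤ ENNReal.ofReal (2 * π) * ∫⁻ v, ENNReal.ofReal (E v ^ 2) := by
  have hmf : Measurable fun t => ‖ft E t‖ₑ ^ 2 := (ft_cont hE).measurable.enorm.pow_const 2
  have h1 : ∀ t : ℝ, Tendsto (fun n : ℕ => ENNReal.ofReal (Real.exp (-(1 / ((n : ℝ) + 1)) * t ^ 2)) *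
      ‖ft E t‖ₑ ^ 2) atTop (𝓝 (‖ft E t‖ₑ ^ 2)) := by
    intro t
    have h2 : Tendsto (fun n : ℕ => Real.exp (-(1 / ((n : ℝ) + 1)) * t ^ 2)) atTop
        (𝓝 (Real.exp (-0 * t ^ 2))) :=
      (Real.continuous_exp.tendsto _).comp
        ((tendsto_one_div_add_atTop_nhds_zero_nat.neg).mul_const _)
    have h3 := ENNReal.tendsto_ofReal h2
    have h4 := ENNReal.Tendsto.mul_const (b := ‖ft E t‖ₑ ^ 2) h3 (Or.inr (by
      exact ENNReal.pow_ne_top enorm_ne_top))
    simpa using h4
  have h2 : ∫⁻ t, ‖ft E t‖ₑ ^ 2 = ∫⁻ t, liminf (fun n : ℕ =>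
      ENNReal.ofReal (Real.exp (-(1 / ((n : ℝ) + 1)) * t ^ 2)) * ‖ft E t‖ₑ ^ 2) atTop :=
    lintegral_congr fun t => (h1 t).liminf_eq.symm
  rw [h2]
  refine (lintegral_liminf_le fun n => ?_).trans ?_
  · exact (Continuous.measurable (by fun_prop)).ennreal_ofReal.mul hmf
  · refine liminf_le_of_le (by isBoundedDefault) fun b hb => ?_
    obtain ⟨n, hn⟩ := hb.exists
    exact hn.trans (bessel_eps hE hm (by positivity))

/-- the mass of the window -/
noncomputable def bm (m : Measure ℝ) (δ v : ℝ) : ℝ := (m (Set.Ioc v (v + δ))).toReal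

/-- the transform of the window -/
noncomputable def kap (δ t : ℝ) : ℂ := ∫ y in Set.Ico (-δ) 0, Complex.exp (t * y * Complex.I)

/-- the strip -/
def strip (δ : ℝ) : Set (ℝ × ℝ) := {p | p.1 < p.2 ∧ p.2 ≤ p.1 + δ}

lemma strip_meas (δ : ℝ) : MeasurableSet (strip δ) :=
  (measurableSet_lt measurable_fst measurable_snd).inter
    (measurableSet_le measurable_snd (measurable_fst.add_const δ))

section measures

variable (m : Measure ℝ) [IsFiniteMeasure m] {δ : ℝ}

lemma bm_meas (δ : ℝ) : Measurable (bm m δ) := by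
  have h := measurable_measure_prodMk_left (ν := m) (strip_meas δ)
  exact h.ennreal_toReal

lemma strip_lint (hδ : 0 < δ) : ∫⁻ v, m (Set.Ioc v (v + δ)) = ENNReal.ofReal δ * m Set.univ := by
  have h1 : ∫⁻ v, m (Set.Ioc v (v + δ)) = (volume.prod m) (strip δ) :=
    (Measure.prod_apply (strip_meas δ)).symm
  rw [h1, Measure.prod_apply_symm (strip_meas δ)]
  have h2 : ∀ x : ℝ, volume ((fun v => (v, x)) ⁻¹' strip δ) = ENNReal.ofReal δ := by
    intro x
    have : (fun v => (v, x)) ⁻¹' strip δ = Set.Ico (x - δ) x := by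
      ext v
      simp only [strip, Set.mem_preimage, Set.mem_ofPred_eq, Set.mem_Ico]
      constructor
      · rintro ⟨h1, h2⟩; exact ⟨by linarith, h1⟩
      · rintro ⟨h1, h2⟩; exact ⟨h2, by linarith⟩
    rw [this, Real.volume_Ico]
    congr 1
    ring
  simp_rw [h2]
  rw [lintegral_const]

lemma bm_int (hδ : 0 < δ) : Integrable (bm m δ) := by
  refine ⟨(bm_meas m δ).aestronglyMeasurable, ?_⟩
  have h1 : ∫⁻ v, ‖bm m δ v‖ₑ = ∫⁻ v, m (Set.Ioc v (v + δ)) := by
    refine lintegral_congr fun v => ?_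
    unfold bm
    rw [Real.enorm_eq_ofReal ENNReal.toReal_nonneg, ENNReal.ofReal_toReal (measure_ne_top _ _)]
  show ∫⁻ v, ‖bm m δ v‖ₑ < ⊤
  rw [h1, strip_lint m hδ]
  exact ENNReal.mul_lt_top ENNReal.ofReal_lt_top (measure_lt_top _ _)

lemma ft_bm (hδ : 0 < δ) (t : ℝ) : ft (bm m δ) t = kap δ t * charFun m t := by
  set J : ℝ → ℝ → ℂ := fun v x => (strip δ).indicator (fun p => Complex.exp (t * p.1 * Complex.I))
    (v, x) with hJ
  have hJm : Measurable (Function.uncurry J) := by
    simp only [hJ, Function.uncurry_def]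
    refine Measurable.indicator ?_ (strip_meas δ)
    exact Continuous.measurable (by fun_prop)
  have hJi : Integrable (Function.uncurry J) (volume.prod m) := by
    refine ⟨hJm.aestronglyMeasurable, ?_⟩
    have h1 : ∫⁻ p, ‖Function.uncurry J p‖ₑ ∂(volume.prod m) ≤ (volume.prod m) (strip δ) := by
      rw [← lintegral_indicator_one (strip_meas δ)]
      refine lintegral_mono fun p => ?_
      simp only [hJ, Function.uncurry_def]
      by_cases hp : p ∈ strip δ
      · rw [Set.indicator_of_mem hp, Set.indicator_of_mem hp, ← ofReal_norm, norm_e2]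
        simp
      · rw [Set.indicator_of_notMem hp, Set.indicator_of_notMem hp]
        simp
    refine lt_of_le_of_lt h1 ?_
    rw [Measure.prod_apply (strip_meas δ)]
    have h2 : ∫⁻ v, m (Prod.mk v ⁻¹' strip δ) = ∫⁻ v, m (Set.Ioc v (v + δ)) := rfl
    rw [h2, strip_lint m hδ]
    exact ENNReal.mul_lt_top ENNReal.ofReal_lt_top (measure_lt_top _ _)
  have h1 : ∀ v, (bm m δ v : ℂ) * Complex.exp (t * v * Complex.I) = ∫ x, J v x ∂m := by
    intro v
    have h2 : ∀ x, J v x = (Set.Ioc v (v + δ)).indicator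
        (fun _ => Complex.exp (t * v * Complex.I)) x := by
      intro x
      simp only [hJ]
      by_cases hx : x ∈ Set.Ioc v (v + δ)
      · rw [Set.indicator_of_mem hx, Set.indicator_of_mem (show (v, x) ∈ strip δ from hx)]
      · rw [Set.indicator_of_notMem hx, Set.indicator_of_notMem (show (v, x) ∉ strip δ from hx)]
    simp_rw [h2]
    rw [integral_indicator_const _ measurableSet_Ioc]
    unfold bm Measure.real
    rw [Complex.real_smul]
  have h3 : ∀ x, ∫ v, J v x = kap δ t * Complex.exp (t * x * Complex.I) := by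
    intro x
    have h4 : ∀ v, J v x = (Set.Ico (x - δ) x).indicator
        (fun v => Complex.exp (t * v * Complex.I)) v := by
      intro v
      simp only [hJ]
      by_cases hv : v ∈ Set.Ico (x - δ) x
      · rw [Set.indicator_of_mem hv, Set.indicator_of_mem
          (show (v, x) ∈ strip δ from ⟨hv.2, by linarith [hv.1]⟩)]
      · rw [Set.indicator_of_notMem hv, Set.indicator_of_notMem
          (show (v, x) ∉ strip δ from fun h => hv ⟨by linarith [h.2], h.1⟩)]
    simp_rw [h4]
    rw [integral_indicator measurableSet_Ico]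
    unfold kap
    have h5 := integral_indicator (μ := volume) (measurableSet_Ico (a := x - δ) (b := x))
      (f := fun v : ℝ => Complex.exp (t * v * Complex.I))
    have h6 := integral_indicator (μ := volume) (measurableSet_Ico (a := -δ) (b := (0 : ℝ)))
      (f := fun v : ℝ => Complex.exp (t * v * Complex.I))
    rw [← h5, ← h6, ← integral_add_right_eq_self _ x, ← integral_mul_const]
    refine integral_congr_ae (Eventually.of_forall fun v => ?_)
    show Set.indicator _ _ (v + x) = Set.indicator _ _ v * _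
    by_cases hv : v ∈ Set.Ico (-δ) 0
    · rw [Set.indicator_of_mem hv, Set.indicator_of_mem
        (show v + x ∈ Set.Ico (x - δ) x from ⟨by linarith [hv.1], by linarith [hv.2]⟩),
        ← Complex.exp_add]
      congr 1
      push_cast
      ring
    · rw [Set.indicator_of_notMem hv, Set.indicator_of_notMem
        (show v + x ∉ Set.Ico (x - δ) x from fun h => hv ⟨by linarith [h.1], by linarith [h.2]⟩),
        zero_mul]
  unfold ft
  simp_rw [h1]
  rw [integral_integral_swap hJi]
  simp_rw [h3]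
  rw [integral_const_mul, charFun_apply_real]

end measures

lemma kap_sq {δ t : ℝ} (hδ : 0 < δ) (ht : t ≠ 0) :
    ‖kap δ t‖ ^ 2 = (2 - 2 * Real.cos (δ * t)) / t ^ 2 := by
  have h1 : kap δ t = (1 - Complex.exp ((-(δ * t) : ℝ) * Complex.I)) / (t * Complex.I) := by
    unfold kap
    rw [integral_Ico_eq_integral_Ioc, ← intervalIntegral.integral_of_le (by linarith)]
    have hc : (t : ℂ) * Complex.I ≠ 0 := by simp [ht]
    have h2 := integral_exp_mul_complex (c := (t : ℂ) * Complex.I) (a := -δ) (b := 0) hc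
    have h3 : ∀ y : ℝ, Complex.exp (t * y * Complex.I) = Complex.exp (t * Complex.I * y) := by
      intro y
      congr 1
      ring
    simp_rw [h3]
    rw [h2]
    congr 2
    · simp
    · congr 1
      push_cast
      ring
  have h2 : ‖(t : ℂ) * Complex.I‖ ^ 2 = t ^ 2 := by
    rw [norm_mul, Complex.norm_I, mul_one, Complex.norm_real, Real.norm_eq_abs, sq_abs]
  rw [h1, norm_div, div_pow, h2]
  congr 1
  rw [← Complex.normSq_eq_norm_sq, Complex.normSq_apply]
  simp only [Complex.sub_re, Complex.one_re, Complex.sub_im, Complex.one_im,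
    Complex.exp_ofReal_mul_I_re, Complex.exp_ofReal_mul_I_im, Real.cos_neg, Real.sin_neg]
  nlinarith [Real.sin_sq_add_cos_sq (δ * t)]

lemma exp_cos {S t : ℝ} (hS : 0 < S) :
    IntegrableOn (fun δ : ℝ => Real.exp (-S * δ) * Real.cos (δ * t)) (Set.Ioi 0) ∧
    ∫ δ in Set.Ioi (0 : ℝ), Real.exp (-S * δ) * Real.cos (δ * t) = S / (S ^ 2 + t ^ 2) := by
  set a : ℂ := (-S : ℝ) + t * Complex.I with ha
  have hre : a.re < 0 := by simp [ha, hS]
  have h1 := integral_exp_mul_complex_Ioi hre 0
  have hi := integrableOn_exp_mul_complex_Ioi hre 0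
  have h2 : ∀ δ : ℝ, (Complex.exp (a * δ)).re = Real.exp (-S * δ) * Real.cos (δ * t) := by
    intro δ
    rw [Complex.exp_re]
    simp [ha, mul_comm]
  constructor
  · refine (hi.re).congr (Eventually.of_forall fun δ => ?_)
    exact h2 δ
  · have h3 : ∫ δ in Set.Ioi (0 : ℝ), (Complex.exp (a * δ)).re =
        (∫ δ in Set.Ioi (0 : ℝ), Complex.exp (a * δ)).re := by
      have := integral_re (μ := volume.restrict (Set.Ioi (0 : ℝ))) hi
      exact this
    simp_rw [h2] at h3
    rw [h3, h1]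
    simp only [Complex.ofReal_zero, mul_zero, Complex.exp_zero]
    rw [Complex.div_re]
    simp [ha, Complex.normSq_apply]
    have : S * S + t * t ≠ 0 := by nlinarith [sq_nonneg t, mul_pos hS hS]
    rw [show S ^ 2 + t ^ 2 = S * S + t * t by ring]

lemma kap_lint {S t : ℝ} (hS : 0 < S) (ht : t ≠ 0) :
    ∫⁻ δ in Set.Ioi (0 : ℝ), ENNReal.ofReal (S ^ 2 * Real.exp (-S * δ)) *
      ENNReal.ofReal ((2 - 2 * Real.cos (δ * t)) / t ^ 2) =
      ENNReal.ofReal (2 * S / (S ^ 2 + t ^ 2)) := by
  obtain ⟨h1, h2⟩ := exp_cos (t := t) hS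
  obtain ⟨h3, h4⟩ := exp_cos (t := 0) hS
  have e1 : ∀ δ : ℝ, ENNReal.ofReal (S ^ 2 * Real.exp (-S * δ)) *
      ENNReal.ofReal ((2 - 2 * Real.cos (δ * t)) / t ^ 2) =
      ENNReal.ofReal (2 * S ^ 2 / t ^ 2 * (Real.exp (-S * δ) * Real.cos (δ * 0) -
        Real.exp (-S * δ) * Real.cos (δ * t))) := by
    intro δ
    rw [← ENNReal.ofReal_mul (by positivity)]
    congr 1
    rw [mul_zero, Real.cos_zero]
    ring
  simp_rw [e1]
  rw [← ofReal_integral_eq_lintegral_ofReal]
  · congr 1
    rw [integral_const_mul, integral_sub h3 h1, h2, h4]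
    have : S ^ 2 + t ^ 2 ≠ 0 := by positivity
    field_simp
    ring
  · exact ((h3.sub h1).const_mul _)
  · refine Eventually.of_forall fun δ => ?_
    show 0 ≤ 2 * S ^ 2 / t ^ 2 * (Real.exp (-S * δ) * Real.cos (δ * 0) -
        Real.exp (-S * δ) * Real.cos (δ * t))
    rw [mul_zero, Real.cos_zero]
    have := Real.cos_le_one (δ * t)
    have h5 : Real.exp (-S * δ) * 1 - Real.exp (-S * δ) * Real.cos (δ * t) =
        Real.exp (-S * δ) * (1 - Real.cos (δ * t)) := by ring
    rw [h5]
    have := Real.exp_pos (-S * δ)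
    have : 0 ≤ 1 - Real.cos (δ * t) := by linarith
    positivity

/-- **the Parseval inequality** -/
theorem parseval (m1 m2 : Measure ℝ) [IsFiniteMeasure m1] [IsFiniteMeasure m2] {S : ℝ}
    (hS : 0 < S) : ∫⁻ t, ENNReal.ofReal (2 * S / (S ^ 2 + t ^ 2)) *
      ‖charFun m1 t - charFun m2 t‖ₑ ^ 2 ≤
      ENNReal.ofReal (2 * π) * ∫⁻ δ in Set.Ioi (0 : ℝ), ENNReal.ofReal (S ^ 2 * Real.exp (-S * δ)) *
        ∫⁻ v, ENNReal.ofReal ((bm m1 δ v - bm m2 δ v) ^ 2) := by
  have hφ : Measurable fun t => ‖charFun m1 t - charFun m2 t‖ₑ ^ 2 :=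
    ((measurable_charFun.sub measurable_charFun).enorm).pow_const 2
  have hstep : ∀ δ : ℝ, 0 < δ → ∫⁻ t, ENNReal.ofReal ((2 - 2 * Real.cos (δ * t)) / t ^ 2) *
      ‖charFun m1 t - charFun m2 t‖ₑ ^ 2 ≤
      ENNReal.ofReal (2 * π) * ∫⁻ v, ENNReal.ofReal ((bm m1 δ v - bm m2 δ v) ^ 2) := by
    intro δ hδ
    have hE := (bm_int m1 hδ).sub (bm_int m2 hδ)
    have h1 := bessel hE ((bm_meas m1 δ).sub (bm_meas m2 δ))
    refine le_trans (le_of_eq ?_) h1
    refine lintegral_congr_ae ?_
    have hn0 : ∀ᵐ x : ℝ, x ≠ 0 := by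
      rw [ae_iff]
      simp
    filter_upwards [hn0] with t ht
    have h2 : ft (bm m1 δ - bm m2 δ) t = kap δ t * (charFun m1 t - charFun m2 t) := by
      have h3 : ft (bm m1 δ - bm m2 δ) t = ft (bm m1 δ) t - ft (bm m2 δ) t := by
        unfold ft
        rw [← integral_sub (ft_int (bm_int m1 hδ) t) (ft_int (bm_int m2 hδ) t)]
        refine integral_congr_ae (Eventually.of_forall fun v => ?_)
        show ((bm m1 δ - bm m2 δ) v : ℂ) * _ = _ - _
        rw [Pi.sub_apply]
        push_cast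
        ring
      rw [h3, ft_bm m1 hδ, ft_bm m2 hδ]
      ring
    rw [h2, enorm_mul, mul_pow]
    congr 1
    rw [← kap_sq hδ ht, ENNReal.ofReal_pow (norm_nonneg _), ofReal_norm]
  have hjm : Measurable fun p : ℝ × ℝ => ENNReal.ofReal (S ^ 2 * Real.exp (-S * p.1)) *
      (ENNReal.ofReal ((2 - 2 * Real.cos (p.1 * p.2)) / p.2 ^ 2) *
        ‖charFun m1 p.2 - charFun m2 p.2‖ₑ ^ 2) := by
    refine Measurable.mul (Continuous.measurable (by fun_prop)).ennreal_ofReal
      (Measurable.mul ?_ (hφ.comp measurable_snd))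
    refine (Measurable.div ?_ (measurable_snd.pow_const 2)).ennreal_ofReal
    exact Continuous.measurable (by fun_prop)
  calc ∫⁻ t, ENNReal.ofReal (2 * S / (S ^ 2 + t ^ 2)) * ‖charFun m1 t - charFun m2 t‖ₑ ^ 2 =
      ∫⁻ t, ∫⁻ δ in Set.Ioi (0 : ℝ), ENNReal.ofReal (S ^ 2 * Real.exp (-S * δ)) *
      (ENNReal.ofReal ((2 - 2 * Real.cos (δ * t)) / t ^ 2) *
        ‖charFun m1 t - charFun m2 t‖ₑ ^ 2) := by
        refine lintegral_congr_ae ?_
        have hn0 : ∀ᵐ x : ℝ, x ≠ 0 := by
          rw [ae_iff]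
          simp
        filter_upwards [hn0] with t ht
        rw [← kap_lint hS ht, ← lintegral_mul_const]
        · refine lintegral_congr fun δ => ?_
          rw [mul_assoc]
        · have k1 : Measurable fun δ : ℝ => ENNReal.ofReal (S ^ 2 * Real.exp (-S * δ)) :=
            (Continuous.measurable (by fun_prop)).ennreal_ofReal
          have k2 : Measurable fun δ : ℝ => ENNReal.ofReal ((2 - 2 * Real.cos (δ * t)) / t ^ 2) :=
            (Continuous.measurable (by fun_prop)).ennreal_ofReal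
          exact k1.mul k2
    _ = ∫⁻ δ in Set.Ioi (0 : ℝ), ∫⁻ t, ENNReal.ofReal (S ^ 2 * Real.exp (-S * δ)) *
      (ENNReal.ofReal ((2 - 2 * Real.cos (δ * t)) / t ^ 2) *
        ‖charFun m1 t - charFun m2 t‖ₑ ^ 2) := by
        rw [lintegral_lintegral_swap]
        exact (hjm.comp measurable_swap).aemeasurable
    _ ≤ ∫⁻ δ in Set.Ioi (0 : ℝ), ENNReal.ofReal (2 * π) *
        (ENNReal.ofReal (S ^ 2 * Real.exp (-S * δ)) *
        ∫⁻ v, ENNReal.ofReal ((bm m1 δ v - bm m2 δ v) ^ 2)) := by
        refine setLIntegral_mono_ae' measurableSet_Ioi (Eventually.of_forall fun δ hδ => ?_)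
        rw [lintegral_const_mul' _ _ ENNReal.ofReal_ne_top, mul_left_comm]
        gcongr
        exact hstep δ hδ
    _ = _ := by
        rw [lintegral_const_mul' _ _ ENNReal.ofReal_ne_top]

end Pool.Agent.H7.PS
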