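import Pool.Agent.H7.PS.Pars

/-! Partial integration against measures. -/

open MeasureTheory Filter Topology Real
open scoped ENNReal

namespace Pool.Agent.H7.PS

/-- partial integration against a measure -/
lemma part {f f' : ℝ → ℝ} (hf : ∀ x, HasDerivAt f (f' x) x) (hf' : Continuous f') (ρ : Measure ℝ)
    {v β : ℝ} (hρ : ρ (Set.Ioc v β) ≠ ⊤) :
    IntegrableOn (fun w => f' w * (ρ (Set.Ioc w β)).toReal) (Set.Ioc v β) ∧
    ∫ x in Set.Ioc v β, f x ∂ρ = f v * (ρ (Set.Ioc v β)).toReal +
      ∫ w in Set.Ioc v β, f' w * (ρ (Set.Ioc w β)).toReal := by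
  have hfc : Continuous f := continuous_iff_continuousAt.2 fun x => (hf x).continuousAt
  set ν : Measure ℝ := ρ.restrict (Set.Ioc v β) with hν
  have : IsFiniteMeasure ν := ⟨by rw [hν, Measure.restrict_apply_univ]; exact lt_top_iff_ne_top.2 hρ⟩
  set G : ℝ → ℝ → ℝ := fun w x => {p : ℝ × ℝ | p.1 < p.2}.indicator (fun p => f' p.1) (w, x) with hG
  have hsm : MeasurableSet {p : ℝ × ℝ | p.1 < p.2} := measurableSet_lt measurable_fst measurable_snd
  have hGm : Measurable (Function.uncurry G) := by
    simp only [hG, Function.uncurry_def]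
    exact (hf'.measurable.comp measurable_fst).indicator hsm
  obtain ⟨M, hM⟩ := isCompact_Icc.exists_bound_of_continuousOn (f := f') (s := Set.Icc v β)
    hf'.continuousOn
  have hGi : Integrable (Function.uncurry G) ((volume.restrict (Set.Ioc v β)).prod ν) := by
    have hb : ∀ᵐ p ∂((volume.restrict (Set.Ioc v β)).prod ν), ‖Function.uncurry G p‖ ≤ |M| := by
      have h1 : ∀ᵐ p ∂((volume.restrict (Set.Ioc v β)).prod ν), p.1 ∈ Set.Ioc v β := by
        have h2 : ∀ᵐ w ∂(volume.restrict (Set.Ioc v β)), w ∈ Set.Ioc v β :=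
          ae_restrict_mem measurableSet_Ioc
        exact Measure.quasiMeasurePreserving_fst.ae h2
      filter_upwards [h1] with p hp
      simp only [hG, Function.uncurry_def]
      have h3 := (hM p.1 (Set.Ioc_subset_Icc_self hp)).trans (le_abs_self M)
      by_cases h : p ∈ {p : ℝ × ℝ | p.1 < p.2}
      · rw [Set.indicator_of_mem h]
        exact h3
      · rw [Set.indicator_of_notMem h, norm_zero]
        exact abs_nonneg _
    exact Integrable.of_bound hGm.aestronglyMeasurable _ hb
  have h1 : ∀ w ∈ Set.Ioc v β, ∫ x, G w x ∂ν = f' w * (ρ (Set.Ioc w β)).toReal := by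
    intro w hw
    have h2 : ∀ x, G w x = (Set.Ioi w).indicator (fun _ => f' w) x := by
      intro x
      simp only [hG]
      by_cases hx : w < x
      · rw [Set.indicator_of_mem (show x ∈ Set.Ioi w from hx),
          Set.indicator_of_mem (show (w, x) ∈ {p : ℝ × ℝ | p.1 < p.2} from hx)]
      · rw [Set.indicator_of_notMem (show x ∉ Set.Ioi w from hx),
          Set.indicator_of_notMem (show (w, x) ∉ {p : ℝ × ℝ | p.1 < p.2} from hx)]
    simp_rw [h2]
    rw [integral_indicator_const _ measurableSet_Ioi, smul_eq_mul, mul_comm]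
    congr 1
    unfold Measure.real
    rw [hν, Measure.restrict_apply measurableSet_Ioi]
    congr 2
    ext x
    simp only [Set.mem_inter_iff, Set.mem_Ioi, Set.mem_Ioc]
    constructor
    · rintro ⟨a, b, c⟩; exact ⟨a, c⟩
    · rintro ⟨a, c⟩; exact ⟨a, lt_of_lt_of_le hw.1 a.le, c⟩
  have h3 : ∀ x ∈ Set.Ioc v β, ∫ w in Set.Ioc v β, G w x = f x - f v := by
    intro x hx
    have h4 : ∀ w, G w x = (Set.Iio x).indicator f' w := by
      intro w
      simp only [hG]
      by_cases hw : w < x
      · rw [Set.indicator_of_mem (show w ∈ Set.Iio x from hw),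
          Set.indicator_of_mem (show (w, x) ∈ {p : ℝ × ℝ | p.1 < p.2} from hw)]
      · rw [Set.indicator_of_notMem (show w ∉ Set.Iio x from hw),
          Set.indicator_of_notMem (show (w, x) ∉ {p : ℝ × ℝ | p.1 < p.2} from hw)]
    simp_rw [h4]
    rw [setIntegral_indicator measurableSet_Iio]
    have h5 : Set.Ioc v β ∩ Set.Iio x = Set.Ioo v x := by
      ext w
      simp only [Set.mem_inter_iff, Set.mem_Iio, Set.mem_Ioc, Set.mem_Ioo]
      constructor
      · rintro ⟨⟨a, b⟩, c⟩; exact ⟨a, c⟩
      · rintro ⟨a, c⟩; exact ⟨⟨a, c.le.trans hx.2⟩, c⟩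
    rw [h5, ← integral_Ioc_eq_integral_Ioo, ← intervalIntegral.integral_of_le hx.1.le]
    exact intervalIntegral.integral_eq_sub_of_hasDerivAt (fun x _ => hf x)
      (hf'.intervalIntegrable _ _)
  have hint : IntegrableOn (fun w => f' w * (ρ (Set.Ioc w β)).toReal) (Set.Ioc v β) := by
    have h4 := hGi.integral_prod_left
    refine h4.congr ?_
    rw [Filter.EventuallyEq, ae_restrict_iff' measurableSet_Ioc]
    exact Eventually.of_forall fun w hw => h1 w hw
  refine ⟨hint, ?_⟩
  have hswap := integral_integral_swap hGi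
  have h6 : ∫ w in Set.Ioc v β, ∫ x, G w x ∂ν =
      ∫ w in Set.Ioc v β, f' w * (ρ (Set.Ioc w β)).toReal :=
    setIntegral_congr_fun measurableSet_Ioc fun w hw => h1 w hw
  have h7 : ∫ x, (∫ w in Set.Ioc v β, G w x) ∂ν = ∫ x in Set.Ioc v β, (f x - f v) ∂ρ :=
    setIntegral_congr_fun (μ := ρ) measurableSet_Ioc fun x hx => h3 x hx
  have hfi : IntegrableOn f (Set.Ioc v β) ρ := by
    obtain ⟨M2, hM2⟩ := isCompact_Icc.exists_bound_of_continuousOn (f := f) (s := Set.Icc v β)
      hfc.continuousOn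
    refine Integrable.of_bound (μ := ν) hfc.aestronglyMeasurable M2 ?_
    rw [hν, ae_restrict_iff' measurableSet_Ioc]
    exact Eventually.of_forall fun x hx => hM2 x (Set.Ioc_subset_Icc_self hx)
  have h8 : ∫ x in Set.Ioc v β, (f x - f v) ∂ρ = (∫ x in Set.Ioc v β, f x ∂ρ) -
      f v * (ρ (Set.Ioc v β)).toReal := by
    have hc : IntegrableOn (fun _ : ℝ => f v) (Set.Ioc v β) ρ := by
      show Integrable _ ν
      exact integrable_const _
    rw [integral_sub hfi hc, setIntegral_const, smul_eq_mul, mul_comm]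
    rfl
  have h9 := h6.symm.trans (hswap.trans (h7.trans h8))
  linarith

end Pool.Agent.H7.PS
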