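import Pool.Agent.H7.PS.Part
import Pool.Graph.R_seed8.H345R2.A2.EFb

/-! The measures of the primes. -/

open MeasureTheory Filter Topology Real
open scoped ENNReal

namespace Pool.Agent.H7.PS

open ArithmeticFunction (vonMangoldt vonMangoldt_nonneg)

/-- the primes, in the logarithmic scale -/
noncomputable def rho1 : Measure ℝ :=
  Measure.sum fun n : ℕ => ENNReal.ofReal (vonMangoldt n) • Measure.dirac (Real.log n)

/-- the density of the primes, in the logarithmic scale -/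
noncomputable def rho2 : Measure ℝ := volume.withDensity fun w => ENNReal.ofReal (Real.exp w)

/-- the weight -/
noncomputable def gf (u w : ℝ) : ℝ := Real.exp (-w / 2) * Real.exp (-(u - w) ^ 2 / 2)

/-- the derivative of the weight -/
noncomputable def gf' (u w : ℝ) : ℝ := (-1 / 2 + (u - w)) * gf u w

lemma gf_pos (u w : ℝ) : 0 < gf u w := by unfold gf; positivity

lemma gf_cont2 : Continuous fun p : ℝ × ℝ => gf p.1 p.2 := by
  unfold gf
  fun_prop

lemma gf_cont (u : ℝ) : Continuous (gf u) := by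
  unfold gf
  fun_prop

lemma gf'_cont (u : ℝ) : Continuous (gf' u) := by
  unfold gf' gf
  fun_prop

lemma gf_deriv (u w : ℝ) : HasDerivAt (gf u) (gf' u w) w := by
  have h1 : HasDerivAt (fun w : ℝ => Real.exp (-w / 2)) (Real.exp (-w / 2) * (-1 / 2)) w := by
    refine HasDerivAt.exp ?_
    exact ((hasDerivAt_id w).neg.div_const 2)
  have h2 : HasDerivAt (fun w : ℝ => Real.exp (-(u - w) ^ 2 / 2))
      (Real.exp (-(u - w) ^ 2 / 2) * (u - w)) w := by
    refine HasDerivAt.exp ?_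
    have h4 : HasDerivAt (fun w : ℝ => u - w) (-1) w := by
      simpa using (hasDerivAt_id w).const_sub u
    have h5 : HasDerivAt (fun w : ℝ => (u - w) * (u - w)) (-1 * (u - w) + (u - w) * -1) w :=
      h4.mul h4
    have h6 : HasDerivAt (fun w : ℝ => -((u - w) * (u - w)) / 2)
        (-(-1 * (u - w) + (u - w) * -1) / 2) w := h5.neg.div_const 2
    have e1 : (fun w : ℝ => -(u - w) ^ 2 / 2) = fun w : ℝ => -((u - w) * (u - w)) / 2 := by
      funext w
      ring
    rw [e1]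
    refine h6.congr_deriv ?_
    ring
  have h3 : HasDerivAt (fun w : ℝ => Real.exp (-w / 2) * Real.exp (-(u - w) ^ 2 / 2)) _ w :=
    h1.mul h2
  show HasDerivAt (fun w : ℝ => Real.exp (-w / 2) * Real.exp (-(u - w) ^ 2 / 2)) _ w
  refine h3.congr_deriv ?_
  unfold gf' gf
  ring

lemma gf_sq (u w : ℝ) : gf u w ^ 2 = Real.exp (-w) * Real.exp (-(u - w) ^ 2) := by
  unfold gf
  rw [mul_pow, ← Real.exp_nat_mul, ← Real.exp_nat_mul]
  congr 2 <;> (push_cast; ring)

lemma gf'_sq (u w : ℝ) : gf' u w ^ 2 ≤ 4 * (Real.exp (-w) * Real.exp (-(u - w) ^ 2 / 2)) := by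
  unfold gf'
  rw [mul_pow, gf_sq]
  have h1 : (-1 / 2 + (u - w)) ^ 2 * Real.exp (-(u - w) ^ 2) ≤ 4 * Real.exp (-(u - w) ^ 2 / 2) := by
    set t := u - w with ht
    have h2 : Real.exp (-t ^ 2) = Real.exp (-t ^ 2 / 2) * Real.exp (-t ^ 2 / 2) := by
      rw [← Real.exp_add]
      congr 1
      ring
    have h3 : (-1 / 2 + t) ^ 2 * Real.exp (-t ^ 2 / 2) ≤ 4 := by
      have h4 : 1 + t ^ 2 / 2 ≤ Real.exp (t ^ 2 / 2) := by
        have := Real.add_one_le_exp (t ^ 2 / 2)
        linarith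
      have h5 : (-1 / 2 + t) ^ 2 ≤ 4 * Real.exp (t ^ 2 / 2) := by nlinarith [sq_nonneg (t + 1/2)]
      have h6 : Real.exp (-t ^ 2 / 2) = (Real.exp (t ^ 2 / 2))⁻¹ := by
        rw [← Real.exp_neg]
        congr 1
        ring
      rw [h6, ← div_eq_mul_inv, div_le_iff₀ (Real.exp_pos _)]
      exact h5
    rw [h2, ← mul_assoc]
    exact mul_le_mul_of_nonneg_right h3 (Real.exp_pos _).le
  calc (-1 / 2 + (u - w)) ^ 2 * (Real.exp (-w) * Real.exp (-(u - w) ^ 2)) =
      Real.exp (-w) * ((-1 / 2 + (u - w)) ^ 2 * Real.exp (-(u - w) ^ 2)) := by ring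
    _ ≤ Real.exp (-w) * (4 * Real.exp (-(u - w) ^ 2 / 2)) :=
      mul_le_mul_of_nonneg_left h1 (Real.exp_pos _).le
    _ = _ := by ring

/-! ### masses -/

lemma mem_Ioc_log {n : ℕ} (hn : n ≠ 0) (v β : ℝ) :
    Real.log n ∈ Set.Ioc v β ↔ n ∈ Finset.Ioc ⌊Real.exp v⌋₊ ⌊Real.exp β⌋₊ := by
  have hn0 : (0 : ℝ) < n := by exact_mod_cast Nat.pos_of_ne_zero hn
  rw [Set.mem_Ioc, Finset.mem_Ioc, Nat.floor_lt (Real.exp_pos v).le,
    Nat.le_floor_iff (Real.exp_pos β).le, ← Real.lt_log_iff_exp_lt hn0, Real.log_le_iff_le_exp hn0]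

lemma rho1_Ioc (v β : ℝ) : rho1 (Set.Ioc v β) =
    ENNReal.ofReal (∑ n ∈ Finset.Ioc ⌊Real.exp v⌋₊ ⌊Real.exp β⌋₊, vonMangoldt n) := by
  unfold rho1
  rw [Measure.sum_apply _ measurableSet_Ioc,
    tsum_eq_sum (s := Finset.Ioc ⌊Real.exp v⌋₊ ⌊Real.exp β⌋₊), ENNReal.ofReal_sum_of_nonneg]
  · refine Finset.sum_congr rfl fun n hn => ?_
    have hn0 : n ≠ 0 := by
      rw [Finset.mem_Ioc] at hn
      omega
    rw [Measure.smul_apply, Measure.dirac_apply' _ measurableSet_Ioc,
      Set.indicator_of_mem ((mem_Ioc_log hn0 v β).2 hn)]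
    simp
  · exact fun _ _ => vonMangoldt_nonneg
  · intro n hn
    rcases eq_or_ne n 0 with rfl | hn0
    · simp
    · rw [Measure.smul_apply, Measure.dirac_apply' _ measurableSet_Ioc,
        Set.indicator_of_notMem (fun h => hn ((mem_Ioc_log hn0 v β).1 h))]
      simp

lemma rho2_Ioc {v β : ℝ} (h : v ≤ β) : rho2 (Set.Ioc v β) =
    ENNReal.ofReal (Real.exp β - Real.exp v) := by
  unfold rho2
  rw [withDensity_apply _ measurableSet_Ioc, ← ofReal_integral_eq_lintegral_ofReal]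
  · rw [← intervalIntegral.integral_of_le h, integral_exp]
  · exact Real.continuous_exp.integrableOn_Ioc
  · exact Eventually.of_forall fun x => (Real.exp_pos x).le

/-- the discrepancy of the primes in `(e ^ v, e ^ β]` -/
noncomputable def dN (v β : ℝ) : ℝ := (rho1 (Set.Ioc v β)).toReal - (rho2 (Set.Ioc v β)).toReal

lemma dN_eq {v β : ℝ} (h : v ≤ β) : dN v β =
    Chebyshev.psi (Real.exp β) - Chebyshev.psi (Real.exp v) - (Real.exp β - Real.exp v) := by
  unfold dN
  have h1 : ⌊Real.exp v⌋₊ ≤ ⌊Real.exp β⌋₊ := Nat.floor_le_floor (Real.exp_le_exp.2 h)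
  rw [rho1_Ioc, rho2_Ioc h, ENNReal.toReal_ofReal (Finset.sum_nonneg fun _ _ => vonMangoldt_nonneg),
    ENNReal.toReal_ofReal (by linarith [Real.exp_le_exp.2 h])]
  congr 1
  unfold Chebyshev.psi
  rw [eq_sub_iff_add_eq, add_comm]
  exact Finset.sum_Ioc_consecutive _ (Nat.zero_le _) h1

lemma rho1_ne_top (v β : ℝ) : rho1 (Set.Ioc v β) ≠ ⊤ := by
  rw [rho1_Ioc]
  exact ENNReal.ofReal_ne_top

lemma rho2_ne_top (v β : ℝ) : rho2 (Set.Ioc v β) ≠ ⊤ := by
  rcases le_or_gt v β with h | h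
  · rw [rho2_Ioc h]
    exact ENNReal.ofReal_ne_top
  · rw [Set.Ioc_eq_empty (not_lt.2 h.le)]
    simp

/-- the weighted measures -/
noncomputable def mu (ρ : Measure ℝ) (u : ℝ) : Measure ℝ :=
  ρ.withDensity fun w => ENNReal.ofReal (gf u w)

lemma pt_eq (u : ℝ) (n : ℕ) : vonMangoldt n * gf u (Real.log n) =
    H370.pt H370.A2.lamC u n := by
  unfold H370.pt gf
  rw [H370.A2.lamC_norm, mul_assoc]
  rcases Nat.eq_zero_or_pos n with rfl | hn
  · simp
  · congr 2
    have hn0 : (0 : ℝ) < n := by exact_mod_cast hn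
    rw [Real.sqrt_eq_rpow, ← Real.rpow_neg hn0.le, Real.rpow_def_of_pos hn0]
    congr 1
    ring

lemma lamC_le (n : ℕ) : ‖H370.A2.lamC n‖ ≤ vonMangoldt n := (H370.A2.lamC_norm n).le

lemma lint_rho1 {F : ℝ → ℝ≥0∞} (hF : Measurable F) :
    ∫⁻ w, F w ∂rho1 = ∑' n : ℕ, ENNReal.ofReal (vonMangoldt n) * F (Real.log n) := by
  unfold rho1
  rw [lintegral_sum_measure]
  refine tsum_congr fun n => ?_
  rw [lintegral_smul_measure, lintegral_dirac' _ hF, smul_eq_mul]

lemma mass1 (u : ℝ) : ∫⁻ w, ENNReal.ofReal (gf u w) ∂rho1 < ⊤ := by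
  rw [lint_rho1 (gf_cont u).measurable.ennreal_ofReal]
  have h1 := (H370.pt_summable lamC_le u).tsum_ofReal_lt_top
  refine lt_of_le_of_lt (le_of_eq ?_) h1
  refine tsum_congr fun n => ?_
  rw [← ENNReal.ofReal_mul vonMangoldt_nonneg, pt_eq]

lemma quad_int (u : ℝ) : Integrable fun w : ℝ => Real.exp w * gf u w := by
  have h := integrable_cexp_quadratic (b := 1 / 2) (by norm_num) ((u + 1 / 2 : ℝ) : ℂ)
    ((-u ^ 2 / 2 : ℝ) : ℂ)
  refine (h.norm).congr (Eventually.of_forall fun w => ?_)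
  show ‖_‖ = _
  have e : -(1 / 2 : ℂ) * (w : ℂ) ^ 2 + ((u + 1 / 2 : ℝ) : ℂ) * w + ((-u ^ 2 / 2 : ℝ) : ℂ) =
      ((w + (-w / 2 + -(u - w) ^ 2 / 2) : ℝ) : ℂ) := by
    push_cast
    ring
  rw [e, ← Complex.ofReal_exp, Complex.norm_real, Real.norm_of_nonneg (Real.exp_pos _).le]
  show _ = Real.exp w * gf u w
  unfold gf
  rw [← Real.exp_add, ← Real.exp_add]

lemma mass2 (u : ℝ) : ∫⁻ w, ENNReal.ofReal (gf u w) ∂rho2 < ⊤ := by
  unfold rho2
  rw [lintegral_withDensity_eq_lintegral_mul _ Real.measurable_exp.ennreal_ofReal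
    (gf_cont u).measurable.ennreal_ofReal]
  have h := (quad_int u).lintegral_lt_top
  refine lt_of_le_of_lt (le_of_eq ?_) h
  refine lintegral_congr fun w => ?_
  rw [Pi.mul_apply, ← ENNReal.ofReal_mul (Real.exp_pos _).le]

instance mu1_fin (u : ℝ) : IsFiniteMeasure (mu rho1 u) := isFiniteMeasure_withDensity (mass1 u).ne

instance mu2_fin (u : ℝ) : IsFiniteMeasure (mu rho2 u) := isFiniteMeasure_withDensity (mass2 u).ne

lemma mu_integral (ρ : Measure ℝ) (u : ℝ) (g : ℝ → ℂ) :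
    ∫ x, g x ∂(mu ρ u) = ∫ x, (gf u x : ℂ) * g x ∂ρ := by
  unfold mu
  have hm : Measurable fun x => (gf u x).toNNReal := (gf_cont u).measurable.real_toNNReal
  have h1 := integral_withDensity_eq_integral_smul (μ := ρ) hm g
  rw [show (fun w => ENNReal.ofReal (gf u w)) = fun w => ((gf u w).toNNReal : ℝ≥0∞) from rfl, h1]
  refine integral_congr_ae (Eventually.of_forall fun x => ?_)
  show (gf u x).toNNReal • g x = _
  rw [NNReal.smul_def, Real.coe_toNNReal _ (gf_pos u x).le, Complex.real_smul]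

lemma bm_mu (ρ : Measure ℝ) (u δ v : ℝ) :
    bm (mu ρ u) δ v = ∫ x in Set.Ioc v (v + δ), gf u x ∂ρ := by
  unfold bm mu
  rw [withDensity_apply _ measurableSet_Ioc,
    integral_eq_lintegral_of_nonneg_ae (Eventually.of_forall fun x => (gf_pos u x).le)
      (gf_cont u).aestronglyMeasurable]

/-- the discrepancy of the weighted measures in a window -/
lemma bm_sub (u v δ : ℝ) :
    IntegrableOn (fun w => gf' u w * dN w (v + δ)) (Set.Ioc v (v + δ)) ∧
    bm (mu rho1 u) δ v - bm (mu rho2 u) δ v = gf u v * dN v (v + δ) +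
      ∫ w in Set.Ioc v (v + δ), gf' u w * dN w (v + δ) := by
  obtain ⟨i1, e1⟩ := part (gf_deriv u) (gf'_cont u) rho1 (v := v) (β := v + δ) (rho1_ne_top _ _)
  obtain ⟨i2, e2⟩ := part (gf_deriv u) (gf'_cont u) rho2 (v := v) (β := v + δ) (rho2_ne_top _ _)
  constructor
  · refine (i1.sub i2).congr (Eventually.of_forall fun w => ?_)
    show gf' u w * (rho1 (Set.Ioc w (v + δ))).toReal - gf' u w * (rho2 (Set.Ioc w (v + δ))).toReal =
      gf' u w * dN w (v + δ)
    unfold dN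
    ring
  · rw [bm_mu, bm_mu, e1, e2]
    have h3 : ∫ w in Set.Ioc v (v + δ), gf' u w * dN w (v + δ) =
        (∫ w in Set.Ioc v (v + δ), gf' u w * (rho1 (Set.Ioc w (v + δ))).toReal) -
        ∫ w in Set.Ioc v (v + δ), gf' u w * (rho2 (Set.Ioc w (v + δ))).toReal := by
      rw [← integral_sub i1 i2]
      refine integral_congr_ae (Eventually.of_forall fun w => ?_)
      show _ = _ - _
      unfold dN
      ring
    rw [h3]
    unfold dN
    ring

/-- the transforms are the Dirichlet series of the explicit formula -/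
lemma charFun_mu1 (u t : ℝ) :
    H370.PP H370.A2.lamC u t = Complex.exp (u * t * Complex.I) * charFun (mu rho1 u) (-t) := by
  rw [charFun_apply_real, mu_integral]
  have hi : Integrable (fun x => (gf u x : ℂ) * Complex.exp (((-t : ℝ) : ℂ) * x * Complex.I))
      rho1 := by
    refine ⟨?_, ?_⟩
    · apply Continuous.aestronglyMeasurable
      have := gf_cont u
      fun_prop
    · refine lt_of_le_of_lt (le_of_eq ?_) (mass1 u)
      refine lintegral_congr fun x => ?_
      rw [← ofReal_norm, norm_mul, norm_e2, mul_one, Complex.norm_real,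
        Real.norm_of_nonneg (gf_pos u x).le]
  unfold rho1 at hi ⊢
  rw [integral_sum_measure hi, H370.PP_eq, ← tsum_mul_left]
  refine tsum_congr fun n => ?_
  rw [integral_smul_measure, integral_dirac, ENNReal.toReal_ofReal vonMangoldt_nonneg]
  unfold H370.pterm H370.A2.lamC
  rcases Nat.eq_zero_or_pos n with rfl | hn
  · simp
  have hn0 : (0 : ℝ) < n := by exact_mod_cast hn
  have h1 : gf u (Real.log n) = (Real.sqrt n)⁻¹ * Real.exp (-(u - Real.log n) ^ 2 / 2) := by
    unfold gf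
    congr 1
    rw [Real.sqrt_eq_rpow, ← Real.rpow_neg hn0.le, Real.rpow_def_of_pos hn0]
    congr 1
    ring
  have h2 : Complex.exp (Complex.I * t * (u - Real.log n)) = Complex.exp (u * t * Complex.I) *
      Complex.exp (((-t : ℝ) : ℂ) * Real.log n * Complex.I) := by
    rw [← Complex.exp_add]
    congr 1
    push_cast
    ring
  rw [h1, h2, Complex.real_smul]
  push_cast
  ring

/-- the transform of the pole -/
lemma charFun_mu2 (u t : ℝ) :
    ‖charFun (mu rho2 u) t‖ = Real.sqrt (2 * π) * Real.exp (u / 2 + 1 / 8 - t ^ 2 / 2) := by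
  rw [charFun_apply_real, mu_integral]
  have h0 : ∫ x, (gf u x : ℂ) * Complex.exp (t * x * Complex.I) ∂rho2 =
      ∫ x : ℝ, Complex.exp (-(1 / 2 : ℂ) * (x : ℂ) ^ 2 + (((u + 1 / 2 : ℝ) : ℂ) + t * Complex.I) * x +
        ((-u ^ 2 / 2 : ℝ) : ℂ)) := by
    unfold rho2
    have hm : Measurable fun x : ℝ => (Real.exp x).toNNReal :=
      Real.measurable_exp.real_toNNReal
    have h1 := integral_withDensity_eq_integral_smul (μ := (volume : Measure ℝ)) hm
      (fun x => (gf u x : ℂ) * Complex.exp (t * x * Complex.I))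
    rw [show (fun w => ENNReal.ofReal (Real.exp w)) = fun w => ((Real.exp w).toNNReal : ℝ≥0∞)
      from rfl, h1]
    refine integral_congr_ae (Eventually.of_forall fun x => ?_)
    show (Real.exp x).toNNReal • _ = _
    rw [NNReal.smul_def, Real.coe_toNNReal _ (Real.exp_pos x).le, Complex.real_smul]
    unfold gf
    push_cast
    rw [← Complex.exp_add, ← Complex.exp_add, ← Complex.exp_add]
    congr 1
    ring
  rw [h0, integral_cexp_quadratic (by norm_num), norm_mul]
  congr 1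
  · have h4 : ((π : ℂ) / -(-(1 / 2 : ℂ))) ^ (1 / 2 : ℂ) = ((Real.sqrt (2 * π) : ℝ) : ℂ) := by
      rw [Real.sqrt_eq_rpow, Complex.ofReal_cpow (by positivity)]
      push_cast
      congr 1
      ring
    rw [h4, Complex.norm_real, Real.norm_of_nonneg (Real.sqrt_nonneg _)]
  · rw [Complex.norm_exp]
    congr 1
    have e : ((-u ^ 2 / 2 : ℝ) : ℂ) - (((u + 1 / 2 : ℝ) : ℂ) + t * Complex.I) ^ 2 /
        (4 * -(1 / 2 : ℂ)) = ((u / 2 + 1 / 8 - t ^ 2 / 2 : ℝ) : ℂ) +
        (((u + 1 / 2) * t : ℝ) : ℂ) * Complex.I := by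
      push_cast
      ring_nf
      rw [Complex.I_sq]
      ring
    rw [e]
    simp only [Complex.add_re, Complex.ofReal_re, Complex.mul_re, Complex.I_re, Complex.ofReal_im,
      Complex.I_im]
    ring

end Pool.Agent.H7.PS
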