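import Pool.Agent.H7.PS.Bnd

/-! Bounds in the two ranges. -/

open MeasureTheory Filter Topology Real
open scoped ENNReal

namespace Pool.Agent.H7.PS

/-- the information on the mean squares, in terms of the height `T` -/
structure HypU : Prop where
  sharp : ∀ ε κ : ℝ, 0 < ε → ε ≤ 1 → 1 ≤ κ → ∀ᶠ T : ℝ in atTop, ∀ X H : ℝ, T ^ (1 + ε) ≤ X →
    X ≤ T ^ κ → X * T ^ (-1 - ε / 4) ≤ H → H ≤ X * T ^ (-1 + ε / 4) →
    Ul X H ≤ ENNReal.ofReal ((1 + 2 * ε) * (X * H * Real.log T))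
  rough : ∀ κ : ℝ, 1 ≤ κ → ∃ C : ℝ, 0 ≤ C ∧ ∀ᶠ T : ℝ in atTop, ∀ X H : ℝ, T ^ (1 / 4 : ℝ) ≤ X →
    X ≤ T ^ κ → 0 < H → H ≤ X * T ^ (-1 / 2 : ℝ) →
    Ul X H ≤ ENNReal.ofReal (C * (X * H * Real.log T))

lemma tail_tendsto (q : ℝ) {c δ : ℝ} (hc : 0 < c) (hδ : 0 < δ) (hδ1 : δ < 1) :
    Tendsto (fun T : ℝ => T ^ q * (1 + T ^ (-1 + δ)) ^ (3 - c * T)) atTop (𝓝 0) := by
  have h1 : Tendsto (fun T : ℝ => (T ^ δ) ^ (q / δ) * Real.exp (-(c / 4) * T ^ δ)) atTop (𝓝 0) :=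
    (tendsto_rpow_mul_exp_neg_mul_atTop_nhds_zero (q / δ) (c / 4) (by positivity)).comp
      (tendsto_rpow_atTop hδ)
  refine squeeze_zero' ?_ ?_ h1
  · filter_upwards [eventually_ge_atTop 1] with T hT
    positivity
  · filter_upwards [eventually_ge_atTop 1, eventually_ge_atTop (6 / c)] with T hT hT2
    have hT0 : 0 < T := by linarith
    have h2 : (T ^ δ) ^ (q / δ) = T ^ q := by
      rw [← Real.rpow_mul hT0.le]
      congr 1
      field_simp
    rw [h2]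
    refine mul_le_mul_of_nonneg_left ?_ (by positivity)
    set x : ℝ := T ^ (-1 + δ) with hx
    have hx0 : 0 < x := by positivity
    have hx1 : x ≤ 1 := Real.rpow_le_one_of_one_le_of_nonpos hT (by linarith)
    have h3 : x / 2 ≤ Real.log (1 + x) := by
      have h4 := Real.one_sub_inv_le_log_of_pos (show 0 < 1 + x by linarith)
      have h5 : x / 2 ≤ 1 - (1 + x)⁻¹ := by
        have h6 : 1 - (1 + x)⁻¹ = x / (1 + x) := by
          field_simp
          ring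
        rw [h6, div_le_div_iff₀ (by norm_num) (by linarith)]
        nlinarith
      linarith
    have hcT : 6 ≤ c * T := by
      rw [div_le_iff₀ hc] at hT2
      linarith
    rw [Real.rpow_def_of_pos (by linarith : 0 < 1 + x)]
    refine Real.exp_le_exp.2 ?_
    have h7 : T ^ δ = T * x := by
      rw [hx, ← Real.rpow_one_add' hT0.le (by linarith)]
      congr 1
      ring
    rw [h7]
    have h8 : (c * T - 3) * (x / 2) ≤ (c * T - 3) * Real.log (1 + x) :=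
      mul_le_mul_of_nonneg_left h3 (by linarith)
    have h9 : c * T / 4 * x ≤ (c * T - 3) * (x / 2) := by nlinarith
    nlinarith

lemma quot_tendsto {c : ℝ} (hc : 0 < c) :
    Tendsto (fun T : ℝ => (c * T) ^ 2 / ((c * T - 1) * (c * T - 2))) atTop (𝓝 1) := by
  have h1 : Tendsto (fun T : ℝ => c * T) atTop atTop := tendsto_id.const_mul_atTop hc
  have h2 : Tendsto (fun y : ℝ => y ^ 2 / ((y - 1) * (y - 2))) atTop (𝓝 1) := by
    have h3 : Tendsto (fun y : ℝ => 1 / ((1 - 1 / y) * (1 - 2 / y))) atTop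
        (𝓝 (1 / ((1 - 0) * (1 - 0)))) := by
      have h4 : Tendsto (fun y : ℝ => 1 / y) atTop (𝓝 0) := tendsto_const_nhds.div_atTop tendsto_id
      have h5 : Tendsto (fun y : ℝ => 2 / y) atTop (𝓝 0) := tendsto_const_nhds.div_atTop tendsto_id
      exact tendsto_const_nhds.div ((h4.const_sub 1).mul (h5.const_sub 1)) (by norm_num)
    have h6 : (1 : ℝ) / ((1 - 0) * (1 - 0)) = 1 := by norm_num
    rw [h6] at h3
    refine h3.congr' ?_
    filter_upwards [eventually_gt_atTop 2] with y hy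
    have hy0 : y ≠ 0 := by linarith
    have hy1 : y - 1 ≠ 0 := by linarith
    have hy2 : y - 2 ≠ 0 := by linarith
    field_simp
  exact h2.comp h1

/-- the sharp range -/
lemma B_sharp (h : HypU) {ε κ c : ℝ} (hε : 0 < ε) (hε1 : ε ≤ 1) (hκ : 1 ≤ κ) (hc : 0 < c) :
    ∀ᶠ T : ℝ in atTop, ∀ X : ℝ, T ^ (1 + ε) ≤ X → X ≤ T ^ κ →
      ∫⁻ H in Set.Ioi (0 : ℝ), ENNReal.ofReal ((1 + H / X) ^ (-(c * T))) * Ul X H ≤
        ENNReal.ofReal ((1 + 3 * ε) * (Real.log T * X ^ 3 / (c * T) ^ 2)) := by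
  obtain ⟨C, hC, hr⟩ := h.rough κ hκ
  have hs := h.sharp ε κ hε hε1 hκ
  have t1 : Tendsto (fun T : ℝ => C * c ^ 2 * T ^ (-(ε / 2)) + (1 + 2 * ε) *
      ((c * T) ^ 2 / ((c * T - 1) * (c * T - 2))) + 4 * cC ^ 2 * c ^ 2 *
        (T ^ (κ + 2) * (1 + T ^ (-1 + ε / 4)) ^ (3 - c * T))) atTop
      (𝓝 (C * c ^ 2 * 0 + (1 + 2 * ε) * 1 + 4 * cC ^ 2 * c ^ 2 * 0)) :=
    (((tendsto_rpow_neg_atTop (by positivity)).const_mul _).add
      ((quot_tendsto hc).const_mul _)).add ((tail_tendsto _ hc (by positivity)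
        (by linarith)).const_mul _)
  have t2 := (tendsto_order.1 t1).2 (1 + 3 * ε) (by linarith)
  filter_upwards [hr, hs, t2, eventually_ge_atTop (Real.exp 1), eventually_ge_atTop (4 / c)]
    with T hr hs ht hT hTc X hX1 hX2
  have hT1 : 1 < T := lt_of_lt_of_le (Real.one_lt_exp_iff.2 one_pos) hT
  have hT0 : 0 < T := by linarith
  have hL : 1 ≤ Real.log T := by
    rw [Real.le_log_iff_exp_le hT0]
    exact hT
  have hX0 : 0 < X := lt_of_lt_of_le (by positivity) hX1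
  have hcT : 4 ≤ c * T := by
    rw [div_le_iff₀ hc] at hTc
    linarith
  have e14 : T ^ (1 / 4 : ℝ) ≤ X :=
    (Real.rpow_le_rpow_of_exponent_le hT1.le (by linarith)).trans hX1
  have hb := B_gen (X := X) (R := c * T) (H1 := X * T ^ (-1 - ε / 4)) (H2 := X * T ^ (-1 + ε / 4))
    (M0 := C * (X * Real.log T)) (M1 := (1 + 2 * ε) * (X * Real.log T)) hX0 (by linarith)
    (by positivity) (mul_le_mul_of_nonneg_left
      (Real.rpow_le_rpow_of_exponent_le hT1.le (by linarith)) hX0.le) (by positivity)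
    (by positivity) (fun H hH0 hH1 => by
      have h1 : H ≤ X * T ^ (-1 / 2 : ℝ) := hH1.trans (mul_le_mul_of_nonneg_left
        (Real.rpow_le_rpow_of_exponent_le hT1.le (by linarith)) hX0.le)
      refine (hr X H e14 hX2 hH0 h1).trans (le_of_eq ?_)
      congr 1
      ring) (fun H hH1 hH2 => by
      refine (hs X H hX1 hX2 hH1.le hH2).trans (le_of_eq ?_)
      congr 1
      ring)
  refine hb.trans (ENNReal.ofReal_le_ofReal ?_)
  have e1 : X * T ^ (-1 + ε / 4) / X = T ^ (-1 + ε / 4) := by field_simp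
  rw [e1]
  have e2 : (X * T ^ (-1 - ε / 4)) ^ 2 = X ^ 2 * (T ^ (-(ε / 2)) / T ^ 2) := by
    rw [mul_pow]
    congr 1
    rw [← Real.rpow_natCast, ← Real.rpow_mul hT0.le, ← Real.rpow_natCast T 2,
      ← Real.rpow_sub hT0]
    congr 1
    push_cast
    ring
  rw [e2]
  have hP : 0 < (c * T - 1) * (c * T - 2) := mul_pos (by linarith) (by linarith)
  have hq : X ^ 4 / (c * T - 3) ≤ X ^ 3 * T ^ κ * Real.log T := by
    rw [div_le_iff₀ (by linarith)]
    have h1 : X ^ 4 = X ^ 3 * X := by ring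
    rw [h1]
    have h2 : X ≤ T ^ κ * Real.log T * (c * T - 3) := by
      have h3 : 0 < T ^ κ := by positivity
      have h4 : 1 ≤ Real.log T * (c * T - 3) := by nlinarith
      calc X ≤ T ^ κ * 1 := by rw [mul_one]; exact hX2
        _ ≤ T ^ κ * (Real.log T * (c * T - 3)) := mul_le_mul_of_nonneg_left h4 h3.le
        _ = _ := by ring
    calc X ^ 3 * X ≤ X ^ 3 * (T ^ κ * Real.log T * (c * T - 3)) := by gcongr
      _ = _ := by ring
  have hY : 0 ≤ (1 + T ^ (-1 + ε / 4)) ^ (3 - c * T) := by positivity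
  calc C * (X * Real.log T) * (X ^ 2 * (T ^ (-(ε / 2)) / T ^ 2)) +
        (1 + 2 * ε) * (X * Real.log T) * (X ^ 2 / ((c * T - 1) * (c * T - 2))) +
        4 * cC ^ 2 * (X ^ 4 / (c * T - 3) * (1 + T ^ (-1 + ε / 4)) ^ (3 - c * T)) ≤
      C * (X * Real.log T) * (X ^ 2 * (T ^ (-(ε / 2)) / T ^ 2)) +
        (1 + 2 * ε) * (X * Real.log T) * (X ^ 2 / ((c * T - 1) * (c * T - 2))) +
        4 * cC ^ 2 * (X ^ 3 * T ^ κ * Real.log T * (1 + T ^ (-1 + ε / 4)) ^ (3 - c * T)) := by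
        gcongr
    _ = (C * c ^ 2 * T ^ (-(ε / 2)) + (1 + 2 * ε) *
      ((c * T) ^ 2 / ((c * T - 1) * (c * T - 2))) + 4 * cC ^ 2 * c ^ 2 *
        (T ^ (κ + 2) * (1 + T ^ (-1 + ε / 4)) ^ (3 - c * T))) *
          (Real.log T * X ^ 3 / (c * T) ^ 2) := by
        have e3 : T ^ (κ + 2) = T ^ κ * T ^ 2 := by
          rw [Real.rpow_add hT0]
          norm_cast
        rw [e3]
        field_simp
    _ ≤ _ := by gcongr

/-- the rough range -/
lemma B_rough (h : HypU) {κ : ℝ} (hκ : 1 ≤ κ) : ∃ C : ℝ, 0 ≤ C ∧ ∀ c : ℝ, 0 < c →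
    ∀ᶠ T : ℝ in atTop, ∀ X : ℝ, T ^ (1 / 4 : ℝ) ≤ X → X ≤ T ^ κ →
      ∫⁻ H in Set.Ioi (0 : ℝ), ENNReal.ofReal ((1 + H / X) ^ (-(c * T))) * Ul X H ≤
        ENNReal.ofReal (C * (Real.log T * X ^ 3 / (c * T) ^ 2)) := by
  obtain ⟨C, hC, hr⟩ := h.rough κ hκ
  refine ⟨C * 2 + 1, by positivity, fun c hc => ?_⟩
  have t1 : Tendsto (fun T : ℝ => C *
      ((c * T) ^ 2 / ((c * T - 1) * (c * T - 2))) + 4 * cC ^ 2 * c ^ 2 *
        (T ^ (κ + 2) * (1 + T ^ (-1 + 1 / 2 : ℝ)) ^ (3 - c * T))) atTop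
      (𝓝 (C * 1 + 4 * cC ^ 2 * c ^ 2 * 0)) :=
    ((quot_tendsto hc).const_mul _).add ((tail_tendsto _ hc (by positivity)
        (by norm_num)).const_mul _)
  have t2 := (tendsto_order.1 t1).2 (C * 2 + 1) (by linarith)
  filter_upwards [hr, t2, eventually_ge_atTop (Real.exp 1), eventually_ge_atTop (4 / c)]
    with T hr ht hT hTc X hX1 hX2
  have hT1 : 1 < T := lt_of_lt_of_le (Real.one_lt_exp_iff.2 one_pos) hT
  have hT0 : 0 < T := by linarith
  have hL : 1 ≤ Real.log T := by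
    rw [Real.le_log_iff_exp_le hT0]
    exact hT
  have hX0 : 0 < X := lt_of_lt_of_le (by positivity) hX1
  have hcT : 4 ≤ c * T := by
    rw [div_le_iff₀ hc] at hTc
    linarith
  have hb := B_gen (X := X) (R := c * T) (H1 := 0) (H2 := X * T ^ (-1 + 1 / 2 : ℝ))
    (M0 := 0) (M1 := C * (X * Real.log T)) hX0 (by linarith) le_rfl (by positivity) le_rfl
    (by positivity) (fun H hH0 hH1 => by linarith) (fun H hH1 hH2 => by
      refine (hr X H hX1 hX2 hH1 ?_).trans (le_of_eq ?_)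
      · norm_num at hH2 ⊢
        exact hH2
      · congr 1
        ring)
  refine hb.trans (ENNReal.ofReal_le_ofReal ?_)
  have e1 : X * T ^ (-1 + 1 / 2 : ℝ) / X = T ^ (-1 + 1 / 2 : ℝ) := by field_simp
  rw [e1]
  have hP : 0 < (c * T - 1) * (c * T - 2) := mul_pos (by linarith) (by linarith)
  have hq : X ^ 4 / (c * T - 3) ≤ X ^ 3 * T ^ κ * Real.log T := by
    rw [div_le_iff₀ (by linarith)]
    have h1 : X ^ 4 = X ^ 3 * X := by ring
    rw [h1]
    have h2 : X ≤ T ^ κ * Real.log T * (c * T - 3) := by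
      have h3 : 0 < T ^ κ := by positivity
      have h4 : 1 ≤ Real.log T * (c * T - 3) := by nlinarith
      calc X ≤ T ^ κ * 1 := by rw [mul_one]; exact hX2
        _ ≤ T ^ κ * (Real.log T * (c * T - 3)) := mul_le_mul_of_nonneg_left h4 h3.le
        _ = _ := by ring
    calc X ^ 3 * X ≤ X ^ 3 * (T ^ κ * Real.log T * (c * T - 3)) := by gcongr
      _ = _ := by ring
  have hY : 0 ≤ (1 + T ^ (-1 + 1 / 2 : ℝ)) ^ (3 - c * T) := by positivity
  calc 0 * 0 ^ 2 + C * (X * Real.log T) * (X ^ 2 / ((c * T - 1) * (c * T - 2))) +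
        4 * cC ^ 2 * (X ^ 4 / (c * T - 3) * (1 + T ^ (-1 + 1 / 2 : ℝ)) ^ (3 - c * T)) ≤
      0 * 0 ^ 2 + C * (X * Real.log T) * (X ^ 2 / ((c * T - 1) * (c * T - 2))) +
        4 * cC ^ 2 * (X ^ 3 * T ^ κ * Real.log T * (1 + T ^ (-1 + 1 / 2 : ℝ)) ^ (3 - c * T)) := by
        gcongr
    _ = (C *
      ((c * T) ^ 2 / ((c * T - 1) * (c * T - 2))) + 4 * cC ^ 2 * c ^ 2 *
        (T ^ (κ + 2) * (1 + T ^ (-1 + 1 / 2 : ℝ)) ^ (3 - c * T))) *
          (Real.log T * X ^ 3 / (c * T) ^ 2) := by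
        have e3 : T ^ (κ + 2) = T ^ κ * T ^ 2 := by
          rw [Real.rpow_add hT0]
          norm_cast
        rw [e3]
        field_simp
        ring
    _ ≤ _ := by gcongr

end Pool.Agent.H7.PS
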