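import Pool.Agent.H7.PS.Hyp2
import Pool.Agent.H7.PS.Mean4

/-! Smaller constants in the upper bound: the hypotheses. -/

open MeasureTheory Filter Topology Real
open scoped ENNReal

namespace Pool.Agent.H7.PS

open Pool.Agent.Results.MP_2a816b_nt.SparseScales (V)

/-- the upper bound with the constant `A` -/
def UpA (A : ℝ) : Prop := ∀ ε : ℝ, 0 < ε → ∀ᶠ X : ℝ in atTop, ∀ H : ℝ, X ^ ε ≤ H →
    H ≤ X ^ (1 - ε) → V X H ≤ A * (H * Real.log (X / H))

theorem UpA.RH {A : ℝ} (hA : A ≤ 1) (h : UpA A) : RiemannHypothesis := by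
  refine Pool.Agent.Results.MP_2a816b_nt.SparseScales.result.2.2.1 fun ε hε => ?_
  refine Eventually.frequently ?_
  have t1 : Tendsto (fun X : ℝ => Real.log X / X ^ ε) atTop (𝓝 0) :=
    (isLittleO_log_rpow_atTop hε).tendsto_div_nhds_zero
  filter_upwards [h ε hε, (tendsto_order.1 t1).2 1 one_pos, eventually_ge_atTop 1]
    with X h1 h2 hX H hH1 hH2
  have hX0 : 0 < X := by linarith
  have hXe : 1 ≤ X ^ ε := Real.one_le_rpow hX hε.le
  have hH : 1 < H := hXe.trans_lt hH1
  rcases le_or_gt (X ^ ε) (X ^ (1 - ε)) with hc | hc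
  · have hHX : H ≤ X := by
      refine hH2.le.trans ?_
      calc X ^ (1 - ε) ≤ X ^ (1 : ℝ) := Real.rpow_le_rpow_of_exponent_le hX (by linarith)
        _ = X := Real.rpow_one X
    refine (h1 H hH1.le hH2.le).trans ?_
    have h3 : Real.log (X / H) ≤ Real.log X := by
      refine Real.log_le_log (by positivity) ?_
      rw [div_le_iff₀ (by linarith)]
      nlinarith
    have h3' : 0 ≤ Real.log (X / H) := by
      refine Real.log_nonneg ?_
      rw [le_div_iff₀ (by linarith)]
      linarith
    have h4 : Real.log X ≤ X ^ ε := by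
      rw [div_lt_one (by positivity)] at h2
      exact h2.le
    calc A * (H * Real.log (X / H)) ≤ 1 * (H * Real.log (X / H)) := by
          refine mul_le_mul_of_nonneg_right hA (by positivity)
      _ ≤ 1 * (H * Real.log X) := by gcongr
      _ = Real.log X * H := by ring
      _ ≤ _ := by gcongr
  · exact absurd (hH1.trans hH2) (not_lt.2 hc.le)

theorem UpA.sharpU {A : ℝ} (hA0 : 0 ≤ A) (hA : A ≤ 1) (h : UpA A) {ε κ : ℝ} (hε : 0 < ε)
    (hε1 : ε ≤ 1) (hκ : 1 ≤ κ) : SharpU A ε κ := by
  have hε' : 0 < ε / (4 * κ) := by positivity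
  obtain ⟨X0, hX0⟩ := (h _ hε').exists_forall_of_atTop
  have t1 : Tendsto (fun T : ℝ => (1 + T ^ (-(3 / 4) : ℝ) / 2) * A *
      (Real.log 2 / Real.log T + (1 + ε / 4))) atTop
      (𝓝 ((1 + 0 / 2) * A * (0 + (1 + ε / 4)))) := by
    refine Tendsto.mul (Tendsto.mul_const _ ?_) (Tendsto.add_const _ ?_)
    · exact ((tendsto_rpow_neg_atTop (by norm_num)).div_const 2).const_add 1
    · exact tendsto_const_nhds.div_atTop Real.tendsto_log_atTop
  have t2 := (tendsto_order.1 t1).2 (A + 2 * ε) (by nlinarith)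
  filter_upwards [t2, eventually_ge_atTop X0, eventually_ge_atTop 3]
    with T ht hTX hT X H hX1 hX2 hH1 hH2
  have hT0 : 0 < T := by linarith
  have hT1 : 1 < T := by linarith
  have hL : 0 < Real.log T := Real.log_pos hT1
  have hTX1 : T ≤ X := by
    calc T = T ^ (1 : ℝ) := (Real.rpow_one T).symm
      _ ≤ T ^ (1 + ε) := Real.rpow_le_rpow_of_exponent_le hT1.le (by linarith)
      _ ≤ X := hX1
  have hXp : 0 < X := by linarith
  have hHp : 0 < H := lt_of_lt_of_le (by positivity) hH1
  have hHX34 : H ≤ X * T ^ (-(3 / 4) : ℝ) := hH2.trans (mul_le_mul_of_nonneg_left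
    (Real.rpow_le_rpow_of_exponent_le hT1.le (by linarith)) hXp.le)
  have hT34 : T ^ (-(3 / 4) : ℝ) ≤ 1 :=
    Real.rpow_le_one_of_one_le_of_nonpos hT1.le (by norm_num)
  have hHX : H ≤ X := hHX34.trans (mul_le_of_le_one_right hXp.le hT34)
  have hu := Ul_le_V hXp hHp.le hHX
  obtain ⟨X', hX'⟩ : ∃ X', X' = X + H / 2 := ⟨_, rfl⟩
  rw [← hX'] at hu
  have hX'p : 0 < X' := by rw [hX']; positivity
  have hpow : X' ^ (ε / (4 * κ)) ≤ T ^ (ε / 2) := by
    have h1 : X' ≤ T ^ (2 * κ) := by
      have h2 : X' ≤ 2 * X := by linarith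
      have h3 : 2 * X ≤ T * T ^ κ := mul_le_mul (by linarith) hX2 hXp.le hT0.le
      have h4 : T * T ^ κ ≤ T ^ (2 * κ) := by
        rw [← Real.rpow_one_add' hT0.le (by linarith)]
        exact Real.rpow_le_rpow_of_exponent_le hT1.le (by linarith)
      linarith
    calc X' ^ (ε / (4 * κ)) ≤ (T ^ (2 * κ)) ^ (ε / (4 * κ)) :=
          Real.rpow_le_rpow hX'p.le h1 hε'.le
      _ = T ^ (ε / 2) := by
          rw [← Real.rpow_mul hT0.le]
          congr 1
          field_simp
          ring
  have hlow : X' ^ (ε / (4 * κ)) ≤ H := by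
    refine hpow.trans (le_trans ?_ hH1)
    calc T ^ (ε / 2) ≤ T ^ ((1 + ε) + (-1 - ε / 4)) :=
          Real.rpow_le_rpow_of_exponent_le hT1.le (by linarith)
      _ = T ^ (1 + ε) * T ^ (-1 - ε / 4) := Real.rpow_add hT0 _ _
      _ ≤ _ := mul_le_mul_of_nonneg_right hX1 (by positivity)
  have hhigh : H ≤ X' ^ (1 - ε / (4 * κ)) := by
    rw [Real.rpow_sub hX'p, Real.rpow_one, le_div_iff₀ (by positivity)]
    calc H * X' ^ (ε / (4 * κ)) ≤ (X * T ^ (-(3 / 4) : ℝ)) * T ^ (ε / 2) := by gcongr
      _ = X * (T ^ (-(3 / 4) : ℝ) * T ^ (ε / 2)) := by ring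
      _ = X * T ^ (-(3 / 4) + ε / 2 : ℝ) := by rw [Real.rpow_add hT0]
      _ ≤ X * 1 := by
          refine mul_le_mul_of_nonneg_left ?_ hXp.le
          exact Real.rpow_le_one_of_one_le_of_nonpos hT1.le (by linarith)
      _ ≤ X' := by linarith
  have hV := hX0 X' (hTX.trans (by linarith)) H hlow hhigh
  refine hu.trans (ENNReal.ofReal_le_ofReal ?_)
  have hlog : Real.log (X' / H) ≤ Real.log 2 + (1 + ε / 4) * Real.log T := by
    have h1 : X' / H ≤ 2 * T ^ (1 + ε / 4) := by
      have h2 : X ≤ T ^ (1 + ε / 4) * H := by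
        have h3 : X * (T ^ (-1 - ε / 4) * T ^ (1 + ε / 4)) = X := by
          rw [← Real.rpow_add hT0, show -1 - ε / 4 + (1 + ε / 4) = 0 by ring, Real.rpow_zero,
            mul_one]
        calc X = (X * T ^ (-1 - ε / 4)) * T ^ (1 + ε / 4) := by rw [mul_assoc, h3]
          _ ≤ H * T ^ (1 + ε / 4) := by gcongr
          _ = _ := mul_comm _ _
      have h4 : 1 ≤ T ^ (1 + ε / 4) := Real.one_le_rpow hT1.le (by positivity)
      rw [div_le_iff₀ hHp, hX']
      nlinarith
    have h5 := Real.log_le_log (by positivity) h1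
    rw [Real.log_mul (by norm_num) (by positivity), Real.log_rpow hT0] at h5
    exact h5
  have hX'2 : X' ≤ X * (1 + T ^ (-(3 / 4) : ℝ) / 2) := by
    rw [hX']
    nlinarith
  have h6 : 0 ≤ H * Real.log (X' / H) := by
    refine mul_nonneg hHp.le (Real.log_nonneg ?_)
    rw [le_div_iff₀ hHp]
    linarith
  calc X' * V X' H ≤ X' * (A * (H * Real.log (X' / H))) := by gcongr
    _ ≤ (X * (1 + T ^ (-(3 / 4) : ℝ) / 2)) * (A *
        (H * (Real.log 2 + (1 + ε / 4) * Real.log T))) := by gcongr
    _ = ((1 + T ^ (-(3 / 4) : ℝ) / 2) * A *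
      (Real.log 2 / Real.log T + (1 + ε / 4))) * (X * H * Real.log T) := by
        field_simp
    _ ≤ _ := by
        refine mul_le_mul_of_nonneg_right ht.le (by positivity)

/-- the trivial bound -/
lemma dP_triv {a H : ℝ} (ha : 3 ≤ a) (hH : 0 ≤ H) : |dP a H| ≤ (H + 1) * Real.log (a + H) := by
  have hl1 : 1 ≤ Real.log (a + H) := by
    rw [Real.le_log_iff_exp_le (by linarith)]
    have := Real.exp_one_lt_d9
    linarith
  have h0 : 0 ≤ Chebyshev.psi (a + H) - Chebyshev.psi a :=
    sub_nonneg.2 (Chebyshev.psi_mono (by linarith))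
  have h1 : Chebyshev.psi (a + H) - Chebyshev.psi a ≤ (H + 1) * Real.log (a + H) := by
    have hfl : ⌊a⌋₊ ≤ ⌊a + H⌋₊ := Nat.floor_mono (by linarith)
    have h2 : Chebyshev.psi (a + H) - Chebyshev.psi a =
        ∑ n ∈ Finset.Ioc ⌊a⌋₊ ⌊a + H⌋₊, ArithmeticFunction.vonMangoldt n := by
      unfold Chebyshev.psi
      have := Finset.sum_Ioc_consecutive (fun n => ArithmeticFunction.vonMangoldt n)
        (Nat.zero_le ⌊a⌋₊) hfl
      linarith
    rw [h2]
    have h3 : ∀ n ∈ Finset.Ioc ⌊a⌋₊ ⌊a + H⌋₊, ArithmeticFunction.vonMangoldt n ≤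
        Real.log (a + H) := by
      intro n hn
      rw [Finset.mem_Ioc] at hn
      refine ArithmeticFunction.vonMangoldt_le_log.trans ?_
      have hn0 : (0 : ℝ) < n := by
        have : 0 < n := lt_of_le_of_lt (Nat.zero_le _) hn.1
        exact_mod_cast this
      refine Real.log_le_log hn0 ?_
      calc (n : ℝ) ≤ (⌊a + H⌋₊ : ℝ) := by exact_mod_cast hn.2
        _ ≤ a + H := Nat.floor_le (by linarith)
    refine (Finset.sum_le_card_nsmul _ _ _ h3).trans ?_
    rw [nsmul_eq_mul, Nat.card_Ioc, Nat.cast_sub hfl]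
    refine mul_le_mul_of_nonneg_right ?_ (by linarith)
    have h4 := Nat.floor_le (show 0 ≤ a + H by linarith)
    have h5 := Nat.lt_floor_add_one a
    linarith
  unfold dP
  rw [abs_le]
  constructor
  · nlinarith
  · linarith

theorem UpA.weakU {A : ℝ} (hA : A ≤ 1) (h : UpA A) {ε κ : ℝ} (hε : 0 < ε)
    (hκ : 1 ≤ κ) : ∃ C : ℝ, 0 ≤ C ∧ WeakU C ε κ := by
  set ε1 : ℝ := min (1 / (8 * κ)) (ε / (32 * κ)) with hε1
  have hε10 : 0 < ε1 := lt_min (by positivity) (by positivity)
  have hk1 : ε1 * (8 * κ) ≤ 1 := by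
    have : ε1 ≤ 1 / (8 * κ) := min_le_left _ _
    rwa [le_div_iff₀ (by positivity)] at this
  have hk2 : ε1 * (32 * κ) ≤ ε := by
    have : ε1 ≤ ε / (32 * κ) := min_le_right _ _
    rwa [le_div_iff₀ (by positivity)] at this
  obtain ⟨X0, hX0⟩ := (h ε1 hε10).exists_forall_of_atTop
  have hcC := cC_one
  refine ⟨4 * κ + (9 * cC + 2) * κ + 16 * κ ^ 2 * 4, by positivity, ?_⟩
  have tl : Tendsto (fun T : ℝ => Real.log T / T ^ (ε / 16)) atTop (𝓝 0) :=
    (isLittleO_log_rpow_atTop (by positivity)).tendsto_div_nhds_zero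
  filter_upwards [(tendsto_order.1 tl).2 1 one_pos, eventually_ge_atTop X0, eventually_ge_atTop 3]
    with T htl hTX hT X H hX1 hX2 hH0 hH2
  have hT0 : 0 < T := by linarith
  have hT1 : 1 < T := by linarith
  have hL : 0 < Real.log T := Real.log_pos hT1
  have hlogT : Real.log T ≤ T ^ (ε / 16) := by
    rw [div_lt_one (by positivity)] at htl
    exact htl.le
  have hTX1 : T ≤ X := by
    calc T = T ^ (1 : ℝ) := (Real.rpow_one T).symm
      _ ≤ T ^ (1 + ε) := Real.rpow_le_rpow_of_exponent_le hT1.le (by linarith)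
      _ ≤ X := hX1
  have hXp : 0 < X := by linarith
  have hlX : Real.log X ≤ κ * Real.log T := by
    have := Real.log_le_log hXp hX2
    rwa [Real.log_rpow hT0] at this
  have hTe : 1 ≤ T ^ (ε / 8) := Real.one_le_rpow hT1.le (by positivity)
  have hmain : 0 ≤ X * H * Real.log T := by positivity
  have hmain2 : X * H * Real.log T ≤ T ^ (ε / 8) * (X * H * Real.log T) := by nlinarith
  rcases lt_or_ge H 1 with hH1 | hH1
  · refine (short_one (by linarith) hH0 hH1.le).trans (ENNReal.ofReal_le_ofReal ?_)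
    have h1 : X * H * Real.log X ≤ κ * (X * H * Real.log T) := by
      have := mul_le_mul_of_nonneg_left hlX (show 0 ≤ X * H by positivity)
      linarith
    calc (9 * cC + 2) * (X * H * Real.log X) ≤
        (9 * cC + 2) * (κ * (T ^ (ε / 8) * (X * H * Real.log T))) := by
          refine mul_le_mul_of_nonneg_left (h1.trans ?_) (by positivity)
          exact mul_le_mul_of_nonneg_left hmain2 (by linarith)
      _ = ((9 * cC + 2) * κ) * (T ^ (ε / 8) * (X * H * Real.log T)) := by ring
      _ ≤ (4 * κ + (9 * cC + 2) * κ + 16 * κ ^ 2 * 4) * (T ^ (ε / 8) * (X * H * Real.log T)) := by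
          refine mul_le_mul_of_nonneg_right ?_ (by positivity)
          have : 0 ≤ 4 * κ + 16 * κ ^ 2 * 4 := by positivity
          linarith
      _ = _ := by ring
  · have hTh : T ^ (-1 - ε / 4) ≤ 1 / T := by
      rw [one_div, ← Real.rpow_neg_one]
      exact Real.rpow_le_rpow_of_exponent_le hT1.le (by linarith)
    have hHXT : H ≤ X / T := hH2.trans (by
      rw [show X / T = X * (1 / T) by ring]
      exact mul_le_mul_of_nonneg_left hTh hXp.le)
    have hHX : H ≤ X := hHXT.trans (by
      rw [div_le_iff₀ hT0]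
      nlinarith)
    obtain ⟨X', hX'⟩ : ∃ X', X' = X + H / 2 := ⟨_, rfl⟩
    have hXX' : X ≤ X' := by rw [hX']; linarith
    have hX'2 : X' ≤ 2 * X := by rw [hX']; linarith
    have hX'p : 0 < X' := by linarith
    have hX'1 : 1 ≤ X' := by linarith
    have hXX0 : X0 ≤ X' := by linarith
    have hl2T : Real.log 2 ≤ Real.log T := Real.log_le_log (by norm_num) (by linarith)
    have hκT : Real.log T ≤ κ * Real.log T := by nlinarith
    have hpow : X' ^ ε1 ≤ T ^ (2 * κ * ε1) := by
      have h3 : X' ≤ T ^ (2 * κ) := by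
        have h3 : 2 * X ≤ T * T ^ κ := mul_le_mul (by linarith) hX2 hXp.le hT0.le
        have h4 : T * T ^ κ ≤ T ^ (2 * κ) := by
          rw [← Real.rpow_one_add' hT0.le (by linarith)]
          exact Real.rpow_le_rpow_of_exponent_le hT1.le (by linarith)
        linarith
      calc X' ^ ε1 ≤ (T ^ (2 * κ)) ^ ε1 := Real.rpow_le_rpow hX'p.le h3 hε10.le
        _ = T ^ (2 * κ * ε1) := by rw [← Real.rpow_mul hT0.le]
    rcases le_or_gt (X' ^ ε1) H with hc | hc
    · -- the bound of the hypothesis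
      have hlog : Real.log X' ≤ 2 * κ * Real.log T := by
        have h1 : Real.log X' ≤ Real.log (2 * X) := Real.log_le_log hX'p hX'2
        rw [Real.log_mul (by norm_num) hXp.ne'] at h1
        linarith
      have h2 : H ≤ X' ^ (1 - ε1) := by
        rw [Real.rpow_sub hX'p, Real.rpow_one, le_div_iff₀ (by positivity)]
        have h5 : X' ^ ε1 ≤ T := by
          refine hpow.trans ?_
          calc T ^ (2 * κ * ε1) ≤ T ^ (1 : ℝ) :=
                Real.rpow_le_rpow_of_exponent_le hT1.le (by nlinarith)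
            _ = T := Real.rpow_one T
        calc H * X' ^ ε1 ≤ (X / T) * T := by gcongr
          _ = X := by field_simp
          _ ≤ X' := hXX'
      have hu := Ul_le_V hXp hH0.le hHX
      rw [← hX'] at hu
      refine hu.trans (ENNReal.ofReal_le_ofReal ?_)
      have h6 : Real.log (X' / H) ≤ Real.log X' := by
        refine Real.log_le_log (by positivity) ?_
        rw [div_le_iff₀ hH0]
        nlinarith
      have h7 : 0 ≤ Real.log (X' / H) := by
        refine Real.log_nonneg ?_
        rw [le_div_iff₀ hH0]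
        linarith
      have hV1 := hX0 X' hXX0 H hc h2
      calc X' * V X' H ≤ X' * (A * (H * Real.log (X' / H))) := by gcongr
        _ ≤ X' * (1 * (H * Real.log (X' / H))) := by
            refine mul_le_mul_of_nonneg_left ?_ hX'p.le
            exact mul_le_mul_of_nonneg_right hA (by positivity)
        _ ≤ (2 * X) * (1 * (H * (2 * κ * Real.log T))) := by
            refine mul_le_mul hX'2 ?_ (by positivity) (by positivity)
            refine mul_le_mul_of_nonneg_left ?_ zero_le_one
            exact mul_le_mul_of_nonneg_left (h6.trans hlog) hH0.le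
        _ = 4 * κ * (X * H * Real.log T) := by ring
        _ ≤ 4 * κ * (T ^ (ε / 8) * (X * H * Real.log T)) :=
            mul_le_mul_of_nonneg_left hmain2 (by positivity)
        _ ≤ (4 * κ + (9 * cC + 2) * κ + 16 * κ ^ 2 * 4) *
            (T ^ (ε / 8) * (X * H * Real.log T)) := by
            refine mul_le_mul_of_nonneg_right ?_ (by positivity)
            have : 0 ≤ (9 * cC + 2) * κ + 16 * κ ^ 2 * 4 := by positivity
            linarith
        _ = _ := by ring
    · -- the trivial bound
      have hup : ∀ a ∈ Set.Ico X (2 * X), dP a H ^ 2 ≤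
          16 * κ ^ 2 * 4 * (T ^ (ε / 8) * (H * Real.log T)) := by
        intro a ha
        have h1 := dP_triv (a := a) (H := H) (by linarith [ha.1]) hH0.le
        have h2 : Real.log (a + H) ≤ 4 * κ * Real.log T := by
          have h3 : Real.log (a + H) ≤ Real.log (3 * X) :=
            Real.log_le_log (by linarith [ha.1]) (by linarith [ha.2])
          rw [Real.log_mul (by norm_num) hXp.ne'] at h3
          have h4 : Real.log 3 ≤ Real.log T := Real.log_le_log (by norm_num) hT
          linarith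
        have h3 : |dP a H| ≤ (2 * H) * (4 * κ * Real.log T) := by
          refine h1.trans ?_
          have h4 : 0 ≤ Real.log (a + H) := Real.log_nonneg (by linarith [ha.1])
          refine mul_le_mul (by linarith) h2 h4 (by linarith)
        have h5 : dP a H ^ 2 ≤ ((2 * H) * (4 * κ * Real.log T)) ^ 2 := by
          rw [← sq_abs]
          exact pow_le_pow_left₀ (abs_nonneg _) h3 2
        refine h5.trans ?_
        have h6 : H ≤ T ^ (ε / 16) := by
          refine hc.le.trans (hpow.trans ?_)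
          exact Real.rpow_le_rpow_of_exponent_le hT1.le (by linarith)
        have h7 : T ^ (ε / 8) = T ^ (ε / 16) * T ^ (ε / 16) := by
          rw [← Real.rpow_add hT0]
          congr 1
          ring
        rw [h7]
        calc ((2 * H) * (4 * κ * Real.log T)) ^ 2 =
            16 * κ ^ 2 * 4 * ((H * Real.log T) * (H * Real.log T)) := by ring
          _ ≤ 16 * κ ^ 2 * 4 * ((T ^ (ε / 16) * T ^ (ε / 16)) * (H * Real.log T)) := by
              gcongr
      unfold Ul
      refine (setLIntegral_mono' measurableSet_Ico fun a ha =>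
        ENNReal.ofReal_le_ofReal (hup a ha)).trans ?_
      rw [setLIntegral_const, Real.volume_Ico, ← ENNReal.ofReal_mul (by positivity)]
      refine ENNReal.ofReal_le_ofReal ?_
      have e : 16 * κ ^ 2 * 4 * (T ^ (ε / 8) * (H * Real.log T)) * (2 * X - X) =
          16 * κ ^ 2 * 4 * (T ^ (ε / 8) * (X * H * Real.log T)) := by ring
      rw [e]
      calc 16 * κ ^ 2 * 4 * (T ^ (ε / 8) * (X * H * Real.log T)) ≤
          (4 * κ + (9 * cC + 2) * κ + 16 * κ ^ 2 * 4) *
            (T ^ (ε / 8) * (X * H * Real.log T)) := by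
            refine mul_le_mul_of_nonneg_right ?_ (by positivity)
            have : 0 ≤ 4 * κ + (9 * cC + 2) * κ := by positivity
            linarith
        _ = _ := by ring

end Pool.Agent.H7.PS
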