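import Pool.Agent.H7.PS.Sup1
import Pool.Agent.H7.PS.Mean6

/-! The constant in the upper bound cannot be smaller than one. -/

open MeasureTheory Filter Topology Real
open scoped ENNReal ContDiff

namespace Pool.Agent.H7.PS

open H370 TH803TW Pool.Agent.Y744 Pool.Agent.Y744.ANC Pool.Agent.H7.FF
open Pool.Agent.Results.MP_103a5c_nt.BohrSetPairs

variable {κ : ℝ} {K : ℝ → ℝ} {g : Ultrafilter ℝ} {B : ℝ → ℝ → ℝ} {C0 : ℝ}

/-- the upper bound on the side of the primes -/
def UB (K : ℝ → ℝ) (I : ℝ) : Prop := ∀ᶠ T : ℝ in atTop,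
  ∫⁻ τ in Set.Ioi (0 : ℝ), ENNReal.ofReal (kc 1 τ) * Zu K T τ ≤
    ENNReal.ofReal (π * Real.sqrt π / 2 * (1 * T * Real.log T ^ 2) * I)

lemma z_bd' {I : ℝ} (hI : 0 ≤ I) (hp : UB K I) {R : ℝ} (hR : 0 < R) : ∃ C1 : ℝ, 0 ≤ C1 ∧
    ∀ᶠ T : ℝ in atTop, ENNReal.ofReal (cz T) * Zu K T R ≤ ENNReal.ofReal C1 := by
  set m : ℝ := 3 * R / ((1 + (R + 1) ^ 2) * (4 + (R + 1) ^ 2)) with hm
  have hm0 : 0 < m := by positivity
  have hk : ∀ τ, R < τ → τ ≤ R + 1 → m ≤ kc 1 τ := by
    intro τ h1 h2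
    have hτ : 0 < τ := hR.trans h1
    rw [kc_eq one_pos, hm]
    rw [div_le_div_iff₀ (by positivity) (by positivity)]
    have h3 : (1 ^ 2 + τ ^ 2) * ((2 * 1) ^ 2 + τ ^ 2) ≤ (1 + (R + 1) ^ 2) * (4 + (R + 1) ^ 2) := by
      have : τ ^ 2 ≤ (R + 1) ^ 2 := by nlinarith
      refine mul_le_mul (by linarith) (by linarith) (by positivity) (by positivity)
    calc 3 * R * ((1 ^ 2 + τ ^ 2) * ((2 * 1) ^ 2 + τ ^ 2)) ≤
        3 * τ * ((1 + (R + 1) ^ 2) * (4 + (R + 1) ^ 2)) :=
          mul_le_mul (by linarith) h3 (by positivity) (by positivity)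
      _ = _ := by ring
  refine ⟨π * I / m, by have := Real.pi_pos; positivity, ?_⟩
  filter_upwards [hp, eventually_gt_atTop 1] with T h1 hT
  have hT0 : 0 < T := by linarith
  have h2 : ENNReal.ofReal m * Zu K T R ≤
      ∫⁻ τ in Set.Ioi (0 : ℝ), ENNReal.ofReal (kc 1 τ) * Zu K T τ := by
    calc ENNReal.ofReal m * Zu K T R = ∫⁻ _ in Set.Ioc R (R + 1),
        ENNReal.ofReal m * Zu K T R := by
          rw [lintegral_const, Measure.restrict_apply MeasurableSet.univ, Set.univ_inter,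
            Real.volume_Ioc]
          simp
      _ ≤ ∫⁻ τ in Set.Ioc R (R + 1), ENNReal.ofReal (kc 1 τ) * Zu K T τ := by
          refine setLIntegral_mono' measurableSet_Ioc fun τ hτ => ?_
          exact mul_le_mul' (ENNReal.ofReal_le_ofReal (hk τ hτ.1 hτ.2)) (Zu_mono hT0 hτ.1.le)
      _ ≤ _ := lintegral_mono_set fun τ hτ => Set.mem_Ioi.2 (hR.trans hτ.1)
  have h3 := h2.trans h1
  have h4 : ENNReal.ofReal m * (ENNReal.ofReal (cz T) * Zu K T R) ≤
      ENNReal.ofReal m * ENNReal.ofReal (π * I / m) := by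
    calc ENNReal.ofReal m * (ENNReal.ofReal (cz T) * Zu K T R) =
        ENNReal.ofReal (cz T) * (ENNReal.ofReal m * Zu K T R) := by ring
      _ ≤ ENNReal.ofReal (cz T) * ENNReal.ofReal (π * Real.sqrt π / 2 *
        (1 * T * Real.log T ^ 2) * I) := by gcongr
      _ = ENNReal.ofReal m * ENNReal.ofReal (π * I / m) := by
          rw [← ENNReal.ofReal_mul (cz_pos hT).le, ← ENNReal.ofReal_mul hm0.le, ← mul_assoc,
            cz_mul hT, mul_one]
          congr 1
          field_simp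
  have hm1 : ENNReal.ofReal m ≠ 0 := by
    rw [Ne, ENNReal.ofReal_eq_zero]
    linarith
  exact (ENNReal.mul_le_mul_iff_right hm1 ENNReal.ofReal_ne_top).1 h4

lemma mix_trunc' (RH : RiemannHypothesis) (hgt : (g : Filter ℝ) ≤ atTop) (h : LD g B C0)
    (hκ : 0 ≤ κ) (hK : TK κ K) (hpos : ∀ x, 0 ≤ K x) (h0 : ∀ x, 0 < x → x < 1 / 2 → K x = 0)
    {I : ℝ} (hI0 : 0 ≤ I) (hp : UB K I) {R : ℝ} (hR : 0 < R) :
    ∫ τ in (0 : ℝ)..R, kc 1 τ * Lam (Br B τ) K ≤ π * 1 * I := by
  have hc : (0 : ℝ) < 1 := one_pos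
  obtain ⟨C1, hC1, hz⟩ := z_bd' hI0 hp hR
  obtain ⟨T1, hT1⟩ := (hz.and (eventually_gt_atTop 1)).exists_forall_of_atTop
  set z : ℝ → ℝ → ℝ := fun T τ => (ENNReal.ofReal (cz T) * Zu K T τ).toReal with hzdef
  have hfin : ∀ T, T1 ≤ T → ∀ τ, τ ≤ R → ENNReal.ofReal (cz T) * Zu K T τ ≤
      ENNReal.ofReal C1 := by
    intro T hT τ hτ
    have := (hT1 T hT).2
    exact (mul_le_mul_right (Zu_mono (by linarith) hτ) _).trans (hT1 T hT).1
  have hzz : ∀ T, T1 ≤ T → ∀ τ, τ ≤ R → ENNReal.ofReal (z T τ) =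
      ENNReal.ofReal (cz T) * Zu K T τ := by
    intro T hT τ hτ
    simp only [hzdef]
    rw [ENNReal.ofReal_toReal (ne_top_of_le_ne_top ENNReal.ofReal_ne_top (hfin T hT τ hτ))]
  have hz0 : ∀ T τ, 0 ≤ z T τ := fun T τ => ENNReal.toReal_nonneg
  have hzm : ∀ T, T1 ≤ T → ∀ a b, a ≤ b → b ≤ R → z T a ≤ z T b := by
    intro T hT a b hab hb
    have := (hT1 T hT).2
    refine ENNReal.toReal_mono (ne_top_of_le_ne_top ENNReal.ofReal_ne_top (hfin T hT b hb)) ?_
    exact mul_le_mul_right (Zu_mono (by linarith) hab) _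
  have hzC : ∀ T, T1 ≤ T → ∀ τ, τ ≤ R → z T τ ≤ C1 := by
    intro T hT τ hτ
    exact ENNReal.toReal_le_of_le_ofReal hC1 (hfin T hT τ hτ)
  set A : ℝ → ℝ → ℝ := fun T τ => z T (min τ R) with hA
  have hAm : ∀ T, T1 ≤ T → Monotone (A T) := fun T hT a b hab =>
    hzm T hT _ _ (min_le_min_right R hab) (min_le_right _ _)
  have hAb : ∀ T, T1 ≤ T → ∀ y, |A T y| ≤ C1 * (1 + y ^ 2) := by
    intro T hT y
    rw [abs_of_nonneg (hz0 _ _)]
    have h1 := hzC T hT (min y R) (min_le_right _ _)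
    show z T (min y R) ≤ _
    nlinarith [sq_nonneg y]
  have hex : ∀ y, ∃ L, Tendsto (fun T => A T y) (g : Filter ℝ) (𝓝 L) := by
    intro y
    have h2 : ((g.map fun T => A T y : Ultrafilter ℝ) : Filter ℝ) ≤ 𝓟 (Set.Icc 0 C1) := by
      rw [le_principal_iff]
      have h3 : ∀ᶠ T in (g : Filter ℝ), A T y ∈ Set.Icc 0 C1 := by
        filter_upwards [hgt (eventually_ge_atTop T1)] with T hT
        exact ⟨hz0 _ _, hzC T hT _ (min_le_right _ _)⟩
      exact h3
    obtain ⟨L, _, hL⟩ := isCompact_Icc.ultrafilter_le_nhds _ h2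
    exact ⟨L, hL⟩
  choose A' hA'l using hex
  have hA'm : Monotone A' := by
    intro a b hab
    refine le_of_tendsto_of_tendsto (hA'l a) (hA'l b) ?_
    filter_upwards [hgt (eventually_ge_atTop T1)] with T hT using hAm T hT hab
  have hLA : ∀ τ, 0 < τ → τ ≤ R → Lam (Br B τ) K ≤ A' τ := by
    intro τ hτ hτR
    have h1 : ∀ ε : ℝ, 0 < ε → Lam (Br B τ) K ≤ (1 + ε) * A' τ + ε := by
      intro ε hε
      refine le_of_tendsto_of_tendsto (Lam_lim RH hgt h hK hτ)
        (((hA'l τ).const_mul (1 + ε)).add_const ε) ?_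
      filter_upwards [hgt (zero_lower RH hK hκ hpos h0 hτ hε),
        hgt (eventually_ge_atTop T1)] with T h2 hT
      rw [← hzz T hT τ hτR, ← ENNReal.ofReal_mul (by positivity),
        ← ENNReal.ofReal_add (by have := hz0 T τ; positivity) hε.le] at h2
      have h3 := (ENNReal.ofReal_le_ofReal_iff (by have := hz0 T τ; positivity)).1 h2
      show _ ≤ (1 + ε) * z T (min τ R) + ε
      rw [min_eq_left hτR]
      exact h3
    have h2 : Tendsto (fun ε : ℝ => (1 + ε) * A' τ + ε) (𝓝[>] 0) (𝓝 ((1 + 0) * A' τ + 0)) :=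
      ((by fun_prop : Continuous fun ε : ℝ => (1 + ε) * A' τ + ε).tendsto 0).mono_left
        nhdsWithin_le_nhds
    rw [show (1 + 0) * A' τ + 0 = A' τ by ring] at h2
    exact ge_of_tendsto h2 (eventually_mem_nhdsWithin.mono fun ε hε => h1 ε hε)
  set w : ℝ → ℝ := (Set.Ioc 0 R).indicator (kc 1) with hw
  have hwm : Measurable w := (kc_cont hc).measurable.indicator measurableSet_Ioc
  obtain ⟨Mk, hMk⟩ := (isCompact_Icc (a := (0 : ℝ)) (b := R)).exists_bound_of_continuousOn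
    (kc_cont hc).continuousOn
  have hMk0 : 0 ≤ Mk := (norm_nonneg _).trans (hMk 0 ⟨le_rfl, hR.le⟩)
  have hwd : ∀ y, |w y| ≤ (Mk * (1 + R ^ 2) ^ 2) / (1 + y ^ 2) ^ 2 := by
    intro y
    by_cases hy : y ∈ Set.Ioc 0 R
    · rw [hw, Set.indicator_of_mem hy]
      have h1 := hMk y ⟨hy.1.le, hy.2⟩
      rw [Real.norm_eq_abs] at h1
      rw [le_div_iff₀ (by positivity)]
      have h2 : y ^ 2 ≤ R ^ 2 := by nlinarith [hy.1, hy.2]
      gcongr
    · rw [hw, Set.indicator_of_notMem hy, abs_zero]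
      positivity
  have hlim := lim_gen hAm hAb hwm hwd hgt hA'm hA'l
  have hup : ∀ᶠ T in (g : Filter ℝ), ∫ y, A T y * w y ≤ π * 1 * I := by
    filter_upwards [hgt hp, hgt (eventually_ge_atTop T1)] with T h1 hT
    have hT1' := (hT1 T hT).2
    have e1 : ∫ y, A T y * w y = ∫ y in Set.Ioc 0 R, z T y * kc 1 y := by
      rw [← integral_indicator measurableSet_Ioc]
      refine integral_congr_ae (Eventually.of_forall fun y => ?_)
      show A T y * w y = (Set.Ioc 0 R).indicator (fun y => z T y * kc 1 y) y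
      by_cases hy : y ∈ Set.Ioc 0 R
      · rw [hw, Set.indicator_of_mem hy, Set.indicator_of_mem hy]
        show z T (min y R) * _ = _
        rw [min_eq_left hy.2]
      · rw [hw, Set.indicator_of_notMem hy, Set.indicator_of_notMem hy, mul_zero]
    rw [e1]
    have hnn : 0 ≤ᵐ[volume.restrict (Set.Ioc 0 R)] fun y => z T y * kc 1 y := by
      rw [EventuallyLE, ae_restrict_iff' measurableSet_Ioc]
      exact Eventually.of_forall fun y hy => mul_nonneg (hz0 _ _) (kc_nonneg hc hy.1.le)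
    have hmeas : AEStronglyMeasurable (fun y => z T y * kc 1 y)
        (volume.restrict (Set.Ioc 0 R)) := by
      have h3 : Measurable fun y => A T y * kc 1 y :=
        (hAm T hT).measurable.mul (kc_cont hc).measurable
      refine h3.aestronglyMeasurable.congr ?_
      rw [EventuallyEq, ae_restrict_iff' measurableSet_Ioc]
      refine Eventually.of_forall fun y hy => ?_
      show z T (min y R) * _ = _
      rw [min_eq_left hy.2]
    rw [integral_eq_lintegral_of_nonneg_ae hnn hmeas]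
    refine ENNReal.toReal_le_of_le_ofReal (by have := Real.pi_pos; positivity) ?_
    calc ∫⁻ y in Set.Ioc 0 R, ENNReal.ofReal (z T y * kc 1 y) =
        ∫⁻ y in Set.Ioc 0 R, ENNReal.ofReal (cz T) * (ENNReal.ofReal (kc 1 y) * Zu K T y) := by
          refine setLIntegral_congr_fun measurableSet_Ioc fun y hy => ?_
          show ENNReal.ofReal (z T y * kc 1 y) = _
          rw [ENNReal.ofReal_mul (hz0 _ _), hzz T hT y hy.2]
          ring
      _ ≤ ∫⁻ y in Set.Ioi 0, ENNReal.ofReal (cz T) * (ENNReal.ofReal (kc 1 y) * Zu K T y) :=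
          lintegral_mono_set Set.Ioc_subset_Ioi_self
      _ = ENNReal.ofReal (cz T) * ∫⁻ y in Set.Ioi 0, ENNReal.ofReal (kc 1 y) * Zu K T y := by
          rw [lintegral_const_mul' _ _ ENNReal.ofReal_ne_top]
      _ ≤ ENNReal.ofReal (cz T) * ENNReal.ofReal (π * Real.sqrt π / 2 *
          (1 * T * Real.log T ^ 2) * I) := by gcongr
      _ = ENNReal.ofReal (π * 1 * I) := by
          rw [← ENNReal.ofReal_mul (cz_pos hT1').le, ← mul_assoc, cz_mul hT1']
  have h5 := le_of_tendsto hlim hup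
  refine le_trans ?_ h5
  have e2 : ∫ y, A' y * w y = ∫ y in (0 : ℝ)..R, kc 1 y * A' y := by
    rw [intervalIntegral.integral_of_le hR.le, ← integral_indicator measurableSet_Ioc]
    refine integral_congr_ae (Eventually.of_forall fun y => ?_)
    show A' y * w y = (Set.Ioc 0 R).indicator (fun y => kc 1 y * A' y) y
    by_cases hy : y ∈ Set.Ioc 0 R
    · rw [hw, Set.indicator_of_mem hy, Set.indicator_of_mem hy, mul_comm]
    · rw [hw, Set.indicator_of_notMem hy, Set.indicator_of_notMem hy, mul_zero]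
  rw [e2]
  have hLint := Lam_kint h hK hc
  have hA'int : IntervalIntegrable A' volume 0 R := hA'm.intervalIntegrable
  refine intervalIntegral.integral_mono_on_of_le_Ioo hR.le ?_ ?_ fun τ hτ => ?_
  · rw [intervalIntegrable_iff_integrableOn_Ioc_of_le hR.le]
    exact hLint.mono_set Set.Ioc_subset_Ioi_self
  · exact hA'int.continuousOn_mul (kc_cont hc).continuousOn
  · exact mul_le_mul_of_nonneg_left (hLA τ hτ.1 hτ.2.le) (kc_nonneg hc hτ.1.le)

lemma mix_upper' (RH : RiemannHypothesis) (hgt : (g : Filter ℝ) ≤ atTop) (h : LD g B C0)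
    (hκ : 0 ≤ κ) (hK : TK κ K) (hpos : ∀ x, 0 ≤ K x) (h0 : ∀ x, 0 < x → x < 1 / 2 → K x = 0)
    {I : ℝ} (hI0 : 0 ≤ I) (hp : UB K I) : Lam (Bm B 1) K ≤ π * I := by
  rw [Lam_Bm h hK one_pos]
  refine le_of_tendsto (intervalIntegral_tendsto_integral_Ioi 0 (Lam_kint h hK one_pos)
    tendsto_id) ?_
  filter_upwards [eventually_gt_atTop 0] with R hR
  have := mix_trunc' RH hgt h hκ hK hpos h0 hI0 hp hR
  rw [mul_one] at this
  exact this

/-- positivity of the pair sums for nonnegative weights -/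
lemma Q2_nonneg (hK : TK κ K) (hpos : ∀ x, 0 ≤ K x) (V L : ℝ) : 0 ≤ Q2 (ct K) V L := by
  have e : Q2 (ct K) V L = ∫ α, K α * ((∑ s ∈ Zt V, mz s * Real.cos (s.im * L * α)) ^ 2 +
      (∑ s ∈ Zt V, mz s * Real.sin (s.im * L * α)) ^ 2) := by
    have hi : ∀ s s' : ℂ, Integrable fun α => mz s * mz s' *
        (K α * Real.cos (2 * π * ((s.im - s'.im) * L / (2 * π)) * α)) := fun s s' =>
      (hK.mul_int (by fun_prop)).const_mul _
    unfold Q2 QS ct
    have e1 : ∀ s s' : ℂ, mz s * mz s' * ∫ α, K α * Real.cos (2 * π *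
        ((s.im - s'.im) * L / (2 * π)) * α) = ∫ α, mz s * mz s' *
        (K α * Real.cos (2 * π * ((s.im - s'.im) * L / (2 * π)) * α)) := fun s s' => by
      rw [integral_const_mul]
    simp_rw [e1]
    have e2 : ∀ s : ℂ, ∑ s' ∈ Zt V, ∫ α, mz s * mz s' *
        (K α * Real.cos (2 * π * ((s.im - s'.im) * L / (2 * π)) * α)) =
        ∫ α, ∑ s' ∈ Zt V, mz s * mz s' *
          (K α * Real.cos (2 * π * ((s.im - s'.im) * L / (2 * π)) * α)) := fun s =>
      (integral_finsetSum _ fun s' _ => hi s s').symm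
    simp_rw [e2]
    rw [← integral_finsetSum _ fun s _ => integrable_finsetSum _ fun s' _ => hi s s']
    refine integral_congr_ae (Eventually.of_forall fun α => ?_)
    show ∑ s ∈ Zt V, ∑ s' ∈ Zt V, mz s * mz s' *
          (K α * Real.cos (2 * π * ((s.im - s'.im) * L / (2 * π)) * α)) =
      K α * ((∑ s ∈ Zt V, mz s * Real.cos (s.im * L * α)) ^ 2 +
      (∑ s ∈ Zt V, mz s * Real.sin (s.im * L * α)) ^ 2)
    rw [sq, sq, Finset.sum_mul_sum, Finset.sum_mul_sum, ← Finset.sum_add_distrib, Finset.mul_sum]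
    refine Finset.sum_congr rfl fun s _ => ?_
    rw [← Finset.sum_add_distrib, Finset.mul_sum]
    refine Finset.sum_congr rfl fun s' _ => ?_
    have e3 : 2 * π * ((s.im - s'.im) * L / (2 * π)) * α = s.im * L * α - s'.im * L * α := by
      have := Real.pi_pos
      field_simp
    rw [e3, Real.cos_sub]
    ring
  rw [e]
  exact integral_nonneg fun α => mul_nonneg (hpos α) (by positivity)

lemma Lam_Bm_nonneg (RH : RiemannHypothesis) (hgt : (g : Filter ℝ) ≤ atTop) (h : LD g B C0)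
    (hK : TK κ K) (hpos : ∀ x, 0 ≤ K x) : 0 ≤ Lam (Bm B 1) K := by
  rw [Lam_Bm h hK one_pos]
  refine setIntegral_nonneg measurableSet_Ioi fun τ hτ => ?_
  refine mul_nonneg (kc_nonneg one_pos (le_of_lt hτ)) ?_
  refine ge_of_tendsto (Lam_lim RH hgt h hK hτ) ?_
  filter_upwards [hgt (eventually_gt_atTop 1)] with T hT
  exact mul_nonneg (inv_pos.2 (Xf_pos hT)).le (Q2_nonneg hK hpos _ _)

/-- **the constant cannot be smaller than one** -/
theorem no_small {δ : ℝ} (hδ : 0 < δ) : ¬ UpA (1 - δ) := by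
  intro hup
  -- we may assume that the constant is nonnegative
  wlog hδ1 : δ ≤ 1 / 2 generalizing δ
  · refine this (δ := 1 / 2) (by norm_num) (fun ε hε => ?_) le_rfl
    filter_upwards [hup ε hε, eventually_ge_atTop 1] with X h1 hX H hH1 hH2
    refine (h1 H hH1 hH2).trans ?_
    have hX0 : 0 < X := by linarith
    have hH : 1 ≤ H := (Real.one_le_rpow hX hε.le).trans hH1
    have hHX : H ≤ X := by
      refine hH2.trans ?_
      calc X ^ (1 - ε) ≤ X ^ (1 : ℝ) := Real.rpow_le_rpow_of_exponent_le hX (by linarith)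
        _ = X := Real.rpow_one X
    have h3 : 0 ≤ H * Real.log (X / H) := by
      refine mul_nonneg (by linarith) (Real.log_nonneg ?_)
      rw [le_div_iff₀ (by linarith)]
      linarith
    exact mul_le_mul_of_nonneg_right (by linarith) h3
  have hA0 : 0 ≤ 1 - δ := by linarith
  have hA1 : 1 - δ ≤ 1 := by linarith
  have RH := hup.RH hA1
  obtain ⟨ε, hε, hε1⟩ : ∃ ε : ℝ, 0 < ε ∧ ε = δ / 6 := ⟨δ / 6, by positivity, rfl⟩
  set g : Ultrafilter ℝ := Ultrafilter.of atTop with hg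
  have hgt : (g : Filter ℝ) ≤ atTop := Ultrafilter.of_le atTop
  obtain ⟨B, C0, h⟩ := exists_LD RH g hgt
  obtain ⟨φ0, hφ, hφp, hφ1, hφ2, _⟩ := exists_pos2 (κ := 1) one_pos
  obtain ⟨Mp, hMp⟩ := Dc_str RH hgt h one_pos hφ hφ2
  obtain ⟨M, hM⟩ := hφ.hcs.exists_bound_of_continuous hφ.cont
  have hM0 : 0 ≤ M := (norm_nonneg _).trans (hM 0)
  have hMφ : ∀ x, φ0 x ≤ M := fun x => (le_abs_self _).trans (hM x)
  have hpi := Real.pi_pos
  set χ : ℝ → ℝ := cut (1 + 2 * ε) (1 + 3 * ε) with hχ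
  have hχ0 : ∀ x, 0 ≤ χ x := fun x => cut_nonneg _ _ _
  have hχ1 : ∀ x, χ x ≤ 1 := fun x => cut_le _ _ _
  have hχT : TK (1 + 3 * ε) χ := by
    refine ⟨cut_smooth _ _, fun x => cut_even _ _ _, fun x hx => ?_⟩
    exact cut_zero (by linarith) (by linarith) hx.le
  have hχone : ∀ x, |x| ≤ 1 + 2 * ε → χ x = 1 := fun x hx =>
    cut_one (by linarith) (by linarith) hx
  set C1 : ℝ := Lam (Bm B 1) (fun α => M * χ α) with hC1
  -- the bound
  have key : ∀ s : ℝ, 2 ≤ s → Dc B 1 (str φ0 s) ≤ C1 - π / 2 * (δ / 2) *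
      (s * (∫ α, φ0 α) - M * ∫ α, χ α) := by
    intro s hs
    have hs0 : 0 < s := by linarith
    have hSv : ∀ x, str φ0 s x = φ0 (s⁻¹ * x) := fun x => str_val φ0 hs0 x
    obtain ⟨κ, hκd⟩ : ∃ κ : ℝ, κ = s * 1 + 3 := ⟨_, rfl⟩
    have hκ1 : 1 ≤ κ := by linarith
    have hS : TK κ (str φ0 s) := (str_TK hφ hs0).mono (by linarith)
    have hSp : ∀ x, 0 ≤ str φ0 s x := fun x => by rw [hSv]; exact hφp _
    have hSM : ∀ x, str φ0 s x ≤ M := fun x => by rw [hSv]; exact hMφ _
    have hSχ : TK κ fun α => str φ0 s α * χ α := by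
      refine ⟨hS.smooth.mul (cut_smooth _ _), fun x => ?_, fun x hx => ?_⟩
      · show str φ0 s (-x) * χ (-x) = str φ0 s x * χ x
        rw [hS.even, hχT.even]
      · show str φ0 s x * χ x = 0
        rw [hS.supp x hx, zero_mul]
    have hMχ : TK κ fun α => M * χ α := (TK_smul hχT M).mono (by linarith)
    -- the part near the origin
    have hnear : Lam (Bm B 1) (fun α => str φ0 s α * χ α) ≤ C1 := by
      have h1 := Lam_Bm_nonneg RH hgt h (TK_sub hMχ hSχ) (fun x => by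
        have h2 := mul_le_mul_of_nonneg_right (hSM x) (hχ0 x)
        linarith)
      rw [Lam_sub (Bm_mono h one_pos).measurable (Bm_bd h one_pos) hMχ hSχ] at h1
      linarith
    -- the far part
    have hF := TK_sub hS hSχ
    set F : ℝ → ℝ := fun α => str φ0 s α - str φ0 s α * χ α with hFd
    have hFe : ∀ α, F α = str φ0 s α * (1 - χ α) := fun α => by
      simp only [hFd]
      ring
    have hFp : ∀ x, 0 ≤ F x := fun x => by
      rw [hFe]
      exact mul_nonneg (hSp x) (by linarith [hχ1 x])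
    have hFz : ∀ x, |x| ≤ 1 + 2 * ε → F x = 0 := fun x hx => by
      rw [hFe, hχone x hx, sub_self, mul_zero]
    have hF0' : ∀ x, 0 < x → x < 1 / 2 → F x = 0 := fun x hx hx2 =>
      hFz x (by rw [abs_of_pos hx]; linarith)
    have hFs : ∀ α, 0 < α → F α ≠ 0 → 1 + 2 * ε ≤ α := by
      intro α hα hne
      by_contra hcon
      refine hne (hFz α ?_)
      rw [abs_of_pos hα]
      linarith
    obtain ⟨MF, DF, hMF, hWF⟩ := TK_WK hF hFp hF0'
    obtain ⟨Cw, hCw, hweak⟩ := hup.weakU hA1 (κ := κ + 1) hε (by linarith)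
    have hsharp := hup.sharpU hA0 hA1 (κ := κ + 1) hε (by linarith) (by linarith)
    have hIF : 0 ≤ ∫ α in (0 : ℝ)..κ, F α :=
      intervalIntegral.integral_nonneg (by linarith) fun x _ => hFp x
    have hfar0 : ∀ δ' : ℝ, 0 < δ' → Lam (Bm B 1) F ≤
        π * ((1 - δ + 3 * ε) * (∫ α in (0 : ℝ)..κ, F α) + δ') := by
      intro δ' hδ'
      refine mix_upper' RH hgt h (by linarith) hF hFp hF0' (by
        have : 0 ≤ 1 - δ + 3 * ε := by linarith
        positivity) ?_
      exact prime_upperA hA0 hCw hε (by linarith) hκ1 one_pos hMF hWF hFs hsharp hweak hδ'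
    have hfar : Lam (Bm B 1) F ≤ π * ((1 - δ + 3 * ε) * (∫ α in (0 : ℝ)..κ, F α)) := by
      have h2 : Tendsto (fun δ' : ℝ => π * ((1 - δ + 3 * ε) * (∫ α in (0 : ℝ)..κ, F α) + δ'))
          (𝓝[>] 0) (𝓝 (π * ((1 - δ + 3 * ε) * (∫ α in (0 : ℝ)..κ, F α) + 0))) :=
        ((by fun_prop : Continuous fun δ' : ℝ => π * ((1 - δ + 3 * ε) *
          (∫ α in (0 : ℝ)..κ, F α) + δ')).tendsto 0).mono_left nhdsWithin_le_nhds
      rw [add_zero] at h2
      exact ge_of_tendsto h2 (eventually_mem_nhdsWithin.mono fun δ' hδ' => hfar0 δ' hδ')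
    rw [half0 hF (by linarith)] at hfar
    -- the sum
    have hsum : Lam (Bm B 1) (str φ0 s) = Lam (Bm B 1) F +
        Lam (Bm B 1) (fun α => str φ0 s α * χ α) := by
      have := Lam_sub (Bm_mono h one_pos).measurable (Bm_bd h one_pos) hS hSχ
      rw [← hFd] at this
      linarith
    have hAG : ∫ α, F α ≤ Lam AG (str φ0 s) := by
      rw [Lam_AG hS]
      have h1 : ∫ α, F α ≤ ∫ α, str φ0 s α * min |α| 1 := by
        refine integral_mono hF.integrable ?_ fun α => ?_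
        · exact (hS.cont.mul mn_cont).integrable_of_hasCompactSupport hS.hcs.mul_right
        · show F α ≤ str φ0 s α * min |α| 1
          rcases le_or_gt |α| (1 + 2 * ε) with hα | hα
          · rw [hFz α hα]
            exact mul_nonneg (hSp α) (le_min (abs_nonneg _) zero_le_one)
          · rw [min_eq_right (by linarith), mul_one, hFe]
            exact mul_le_of_le_one_right (hSp α) (by linarith [hχ0 α])
      have h2 := hSp 0
      linarith
    have hlow : s * (∫ α, φ0 α) - M * ∫ α, χ α ≤ ∫ α, F α := by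
      have h1 : ∫ α, F α = (∫ α, str φ0 s α) - ∫ α, str φ0 s α * χ α :=
        integral_sub hS.integrable hSχ.integrable
      have h2 : ∫ α, str φ0 s α = s * ∫ α, φ0 α := by
        simp_rw [hSv]
        rw [Measure.integral_comp_mul_left (fun x => φ0 x) s⁻¹, smul_eq_mul, inv_inv,
          abs_of_pos hs0]
      have h3 : ∫ α, str φ0 s α * χ α ≤ M * ∫ α, χ α := by
        rw [← integral_const_mul]
        exact integral_mono hSχ.integrable hMχ.integrable fun α =>
          mul_le_mul_of_nonneg_right (hSM α) (hχ0 α)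
      rw [h1, h2]
      linarith
    unfold Dc
    rw [hsum]
    have h4 : π * ((1 - δ + 3 * ε) * ((∫ α, F α) / 2)) - π / 2 * 1 * Lam AG (str φ0 s) ≤
        -(π / 2 * (δ / 2) * ∫ α, F α) := by
      have h5 : π / 2 * (∫ α, F α) ≤ π / 2 * Lam AG (str φ0 s) :=
        mul_le_mul_of_nonneg_left hAG (by positivity)
      have h6 : π * ((1 - δ + 3 * ε) * ((∫ α, F α) / 2)) = π / 2 * (∫ α, F α) -
          π / 2 * (δ - 3 * ε) * ∫ α, F α := by ring
      have h7 : δ - 3 * ε = δ / 2 := by rw [hε1]; ring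
      rw [h6, h7]
      linarith
    have h8 : π / 2 * (δ / 2) * (s * (∫ α, φ0 α) - M * ∫ α, χ α) ≤
        π / 2 * (δ / 2) * ∫ α, F α := mul_le_mul_of_nonneg_left hlow (by positivity)
    linarith
  -- the contradiction
  have hI : 0 < ∫ α, φ0 α := by
    have h1 : ct φ0 0 = ∫ α, φ0 α := by
      unfold ct
      refine integral_congr_ae (Eventually.of_forall fun α => ?_)
      show φ0 α * Real.cos (2 * π * 0 * α) = φ0 α
      rw [mul_zero, zero_mul, Real.cos_zero, mul_one]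
    rw [← h1]
    assumption
  have t1 : Tendsto (fun s : ℝ => C1 - π / 2 * (δ / 2) * (s * (∫ α, φ0 α) - M * ∫ α, χ α) +
      Mp / s ^ 2) atTop atBot := by
    have t2 : Tendsto (fun s : ℝ => Mp / s ^ 2) atTop (𝓝 0) :=
      tendsto_const_nhds.div_atTop (tendsto_pow_atTop two_ne_zero)
    refine Tendsto.atBot_add ?_ t2
    have t3 : Tendsto (fun s : ℝ => π / 2 * (δ / 2) * (s * (∫ α, φ0 α) - M * ∫ α, χ α)) atTop
        atTop := by
      refine Tendsto.const_mul_atTop (by positivity) ?_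
      exact tendsto_atTop_add_const_right _ _ (tendsto_id.atTop_mul_const hI)
    exact tendsto_atBot_add_const_left _ _ (tendsto_neg_atTop_atBot.comp t3)
  obtain ⟨s, hs1, hs2⟩ := ((t1.eventually_lt_atBot 0).and (eventually_ge_atTop 2)).exists
  have h1 := key s hs2
  have h2 := hMp s (by linarith)
  linarith

end Pool.Agent.H7.PS
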