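import Pool.Agent.H7.PS.Zer2

/-! The side of the zeros: all blocks. -/

open Filter Topology Complex MeasureTheory
open scoped ENNReal

namespace Pool.Agent.H7.PS

open H370 TH803TW Pool.Agent.Y744

variable {κ : ℝ} {K : ℝ → ℝ}

/-- the normalised truncated mean square -/
noncomputable def cz (T : ℝ) : ℝ := 2 / (Real.sqrt Real.pi * (T * Real.log T ^ 2))

lemma log_ratio {σ : ℝ} (hσ : 0 < σ) : ∀ᶠ T : ℝ in atTop, Real.log (σ * T) / 2 ≤ Real.log T ∧
    Real.log T ≤ 2 * Real.log (σ * T) ∧ Real.log (σ * T) ≤ 2 * Real.log T := by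
  filter_upwards [Real.tendsto_log_atTop.eventually_ge_atTop (2 * |Real.log σ|),
    eventually_gt_atTop 1] with T hT hT1
  have h1 := neg_abs_le (Real.log σ)
  have h2 := le_abs_self (Real.log σ)
  have h3 := abs_nonneg (Real.log σ)
  rw [Real.log_mul hσ.ne' (by linarith)]
  refine ⟨?_, ?_, ?_⟩ <;> linarith

/-- one step -/
lemma step (RH : RiemannHypothesis) (hK : TK κ K) (hκ : 0 ≤ κ) (hpos : ∀ x, 0 ≤ K x)
    (h0 : ∀ x, 0 < x → x < 1 / 2 → K x = 0) {η : ℝ} (hη : 0 < η) {σ : ℝ} (hσ : 0 < σ)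
    {ε : ℝ} (hε : 0 < ε) : ∀ᶠ T : ℝ in atTop,
      ENNReal.ofReal ((Xf T)⁻¹ * (Q2 (ct K) (2 * (σ * T)) (Real.log T) -
        Q2 (ct K) (σ * T) (Real.log T))) ≤
      ENNReal.ofReal (1 + η) * (ENNReal.ofReal (cz T) * ∫⁻ t in Set.Ioc (σ * T) (2 * (σ * T)),
        ∫⁻ u in Set.Ioi (0 : ℝ), kT K T u * PH (u, t)) + ENNReal.ofReal ε := by
  obtain ⟨C, V0, hC, hV0, hB⟩ := QS_block RH hK hκ hpos h0 hη
  obtain ⟨D, hD, hdec⟩ := hK.decay 1
  have hpi := Real.pi_pos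
  obtain ⟨V1, hV1, hcr⟩ := cross_gen RH hD (η := ε / (32 * Real.pi * σ)) (by positivity)
  have t1 : Tendsto (fun T : ℝ => 2 * Real.pi * C * σ / Real.log T) atTop (𝓝 0) :=
    tendsto_const_nhds.div_atTop Real.tendsto_log_atTop
  have t2 := (tendsto_order.1 t1).2 (ε / 2) (by positivity)
  filter_upwards [log_ratio hσ, t2, eventually_ge_atTop (V0 / σ), eventually_ge_atTop (V1 / σ),
    eventually_gt_atTop 1] with T hlr ht hT0 hT1 hT
  obtain ⟨l1, l2, l3⟩ := hlr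
  rw [div_le_iff₀ hσ] at hT0 hT1
  have hTpos : 0 < T := by linarith
  have hL : 0 < Real.log T := Real.log_pos hT
  have hVV0 : V0 ≤ σ * T := by linarith
  have hVV1 : V1 ≤ σ * T := by linarith
  have hX := Xf_pos hT
  obtain ⟨V, hV⟩ : ∃ V, V = σ * T := ⟨_, rfl⟩
  rw [← hV] at l1 l2 l3 hVV0 hVV1 ⊢
  have hV1' : 1 ≤ V := by linarith
  have hb := hB V hVV0 (Real.log T) l1 l2
  have hc := hcr V hVV1 (Real.log T) l1 (ct K) (fun y => by simpa using hdec y)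
  rw [block_swap hK hT] at hb
  have hsplit := QS_split (f := ct K) (TK.ct_neg K) hV1' (Real.log T)
  obtain ⟨I, hI⟩ : ∃ I, I = ∫⁻ t in Set.Ioc V (2 * V), ∫⁻ u in Set.Ioi (0 : ℝ),
      kT K T u * PH (u, t) := ⟨_, rfl⟩
  rw [← hI] at hb ⊢
  have hlV : 0 < Real.log V := by linarith
  -- the cross terms
  have hc2 : (Xf T)⁻¹ * (2 * QS (Zt V) (Zb V (2 * V)) mz (fun s => s.im) (ct K) (Real.log T)) ≤
      ε / 2 := by
    rw [inv_mul_le_iff₀ hX]
    have h1 := (le_abs_self _).trans hc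
    have h2 : ε / (32 * Real.pi * σ) * (V * Real.log V) ≤
        ε / (32 * Real.pi * σ) * (V * (2 * Real.log T)) := by gcongr
    have h3 : ε / (32 * Real.pi * σ) * (V * (2 * Real.log T)) = Xf T * (ε / 8) := by
      rw [hV]
      unfold Xf
      field_simp
      ring
    have h4 : Xf T * (ε / 8) ≤ Xf T * (ε / 4) := by
      apply mul_le_mul_of_nonneg_left _ hX.le
      linarith
    linarith
  have e0 : (Xf T)⁻¹ * (Q2 (ct K) (2 * V) (Real.log T) - Q2 (ct K) V (Real.log T)) =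
      (Xf T)⁻¹ * QS (Zb V (2 * V)) (Zb V (2 * V)) mz (fun s => s.im) (ct K) (Real.log T) +
      (Xf T)⁻¹ * (2 * QS (Zt V) (Zb V (2 * V)) mz (fun s => s.im) (ct K) (Real.log T)) := by
    rw [hsplit]
    ring
  rw [e0]
  refine (ENNReal.ofReal_add_le).trans ?_
  have h5 : ENNReal.ofReal ((Xf T)⁻¹ * QS (Zb V (2 * V)) (Zb V (2 * V)) mz (fun s => s.im) (ct K)
      (Real.log T)) ≤ ENNReal.ofReal (1 + η) * (ENNReal.ofReal (cz T) * I) +
        ENNReal.ofReal (ε / 2) := by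
    rw [ENNReal.ofReal_mul (by positivity)]
    refine (mul_le_mul_right hb _).trans ?_
    rw [mul_add, ← mul_assoc, ← mul_assoc, ← mul_assoc, ← ENNReal.ofReal_mul (by positivity),
      ← ENNReal.ofReal_mul (by positivity), ← ENNReal.ofReal_mul (by positivity),
      ← ENNReal.ofReal_mul (by positivity)]
    refine add_le_add (le_of_eq ?_) (ENNReal.ofReal_le_ofReal ?_)
    · congr 2
      unfold Xf cz
      field_simp
    · refine le_trans (le_of_eq ?_) ht.le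
      rw [hV]
      unfold Xf
      field_simp
  refine (add_le_add h5 (ENNReal.ofReal_le_ofReal hc2)).trans (le_of_eq ?_)
  rw [add_assoc, ← ENNReal.ofReal_add (by positivity) (by positivity), add_halves]

lemma Zu_add (K : ℝ → ℝ) (T : ℝ) {a b : ℝ} (ha : 0 ≤ a) (hab : a ≤ b) :
    (∫⁻ t in Set.Ioc 0 a, ∫⁻ u in Set.Ioi (0 : ℝ), kT K T u * PH (u, t)) +
      ∫⁻ t in Set.Ioc a b, ∫⁻ u in Set.Ioi (0 : ℝ), kT K T u * PH (u, t) =
    ∫⁻ t in Set.Ioc 0 b, ∫⁻ u in Set.Ioi (0 : ℝ), kT K T u * PH (u, t) := by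
  rw [← Set.Ioc_union_Ioc_eq_Ioc ha hab, lintegral_union measurableSet_Ioc]
  exact Set.Ioc_disjoint_Ioc_of_le le_rfl

/-- many steps -/
lemma steps (RH : RiemannHypothesis) (hK : TK κ K) (hκ : 0 ≤ κ) (hpos : ∀ x, 0 ≤ K x)
    (h0 : ∀ x, 0 < x → x < 1 / 2 → K x = 0) {η : ℝ} (hη : 0 < η) {τ : ℝ} (hτ : 0 < τ) (J : ℕ) :
    ∀ ε : ℝ, 0 < ε → ∀ᶠ T : ℝ in atTop,
      ENNReal.ofReal ((Xf T)⁻¹ * (Q2 (ct K) (τ * T) (Real.log T) -
        Q2 (ct K) (τ / 2 ^ J * T) (Real.log T))) ≤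
      ENNReal.ofReal (1 + η) * (ENNReal.ofReal (cz T) * ∫⁻ t in Set.Ioc (τ / 2 ^ J * T) (τ * T),
        ∫⁻ u in Set.Ioi (0 : ℝ), kT K T u * PH (u, t)) + ENNReal.ofReal ε := by
  induction J with
  | zero =>
    intro ε hε
    filter_upwards with T
    simp
  | succ J ih =>
    intro ε hε
    have h1 := step RH hK hκ hpos h0 hη (σ := τ / 2 ^ (J + 1)) (by positivity) (half_pos hε)
    filter_upwards [ih (ε / 2) (half_pos hε), h1, eventually_gt_atTop 0] with T h2 h3 hT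
    have e1 : 2 * (τ / 2 ^ (J + 1) * T) = τ / 2 ^ J * T := by
      rw [pow_succ]
      field_simp
    rw [e1] at h3
    have e2 : (Xf T)⁻¹ * (Q2 (ct K) (τ * T) (Real.log T) -
        Q2 (ct K) (τ / 2 ^ (J + 1) * T) (Real.log T)) =
        (Xf T)⁻¹ * (Q2 (ct K) (τ * T) (Real.log T) - Q2 (ct K) (τ / 2 ^ J * T) (Real.log T)) +
        (Xf T)⁻¹ * (Q2 (ct K) (τ / 2 ^ J * T) (Real.log T) -
          Q2 (ct K) (τ / 2 ^ (J + 1) * T) (Real.log T)) := by ring
    rw [e2]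
    refine (ENNReal.ofReal_add_le).trans ((add_le_add h2 h3).trans (le_of_eq ?_))
    have hle1 : τ / 2 ^ (J + 1) * T ≤ τ / 2 ^ J * T := by
      rw [← e1]
      have : 0 ≤ τ / 2 ^ (J + 1) * T := by positivity
      linarith
    have hle2 : τ / 2 ^ J * T ≤ τ * T := by
      have h4 : (1 : ℝ) ≤ 2 ^ J := one_le_pow₀ (by norm_num)
      have h5 : τ / 2 ^ J ≤ τ := div_le_self hτ.le h4
      exact mul_le_mul_of_nonneg_right h5 hT.le
    rw [← Set.Ioc_union_Ioc_eq_Ioc hle1 hle2, lintegral_union measurableSet_Ioc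
      (Set.Ioc_disjoint_Ioc_of_le le_rfl)]
    have e3 : ENNReal.ofReal ε = ENNReal.ofReal (ε / 2) + ENNReal.ofReal (ε / 2) := by
      rw [← ENNReal.ofReal_add (by positivity) (by positivity), add_halves]
    rw [e3]
    ring

/-- the bottom -/
lemma bottom (RH : RiemannHypothesis) (hK : TK κ K) {ε : ℝ} (hε : 0 < ε) : ∃ σ0 : ℝ, 0 < σ0 ∧
    ∀ σ : ℝ, 0 < σ → σ ≤ σ0 → ∀ᶠ T : ℝ in atTop,
      |(Xf T)⁻¹ * Q2 (ct K) (σ * T) (Real.log T)| ≤ ε := by
  obtain ⟨C, B0, V0, hC, hB0, hV0, hblk, hloc⟩ := PP_bound RH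
  obtain ⟨D, hD, hdec⟩ := hK.decay 1
  have hpi := Real.pi_pos
  refine ⟨min 1 (ε / (2 * (3200 * D * (2 * Real.pi) * C + 1))), lt_min one_pos (by positivity),
    fun σ hσ hσ0 => ?_⟩
  have hσ1 : σ ≤ 1 := hσ0.trans (min_le_left _ _)
  have hσ2 : σ ≤ ε / (2 * (3200 * D * (2 * Real.pi) * C + 1)) := hσ0.trans (min_le_right _ _)
  have t1 : Tendsto (fun T : ℝ => 3200 * D * (2 * Real.pi) * B0 / T) atTop (𝓝 0) :=
    tendsto_const_nhds.div_atTop tendsto_id
  have t2 := (tendsto_order.1 t1).2 (ε / 2) (by positivity)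
  filter_upwards [t2, eventually_ge_atTop (V0 / σ), eventually_ge_atTop (Real.exp 1)]
    with T ht hT0 hTe
  rw [div_le_iff₀ hσ] at hT0
  have hT1 : 1 < T := lt_of_lt_of_le (Real.one_lt_exp_iff.2 one_pos) hTe
  have hTpos : 0 < T := by linarith
  have hL : 1 ≤ Real.log T := by
    rw [Real.le_log_iff_exp_le hTpos]
    exact hTe
  have hX := Xf_pos hT1
  have hVV0 : V0 ≤ σ * T := by linarith
  have hVT : σ * T ≤ T := mul_le_of_le_one_left hTpos.le hσ1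
  have hlog : Real.log (σ * T) ≤ Real.log T := Real.log_le_log (by linarith) hVT
  have hf : ∀ y, |ct K y| ≤ D / (1 + y ^ 2) := fun y => by simpa using hdec y
  have b1 : |Q2 (ct K) (σ * T) (Real.log T)| ≤
      3200 * D * (B0 + C * (σ * T * Real.log (σ * T))) := by
    unfold Q2
    refine (QS_le_abs _ _ mz_nonneg _ _).trans ?_
    refine (QS_abs_bound (x := fun s : ℂ => s.im) _ _ mz_nonneg hf (by linarith) one_pos).trans ?_
    have h3 := hloc (σ * T) hVV0 (Real.log T) hlog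
    have h4 : (1 : ℝ) * PP1 (Zt (σ * T)) mz (fun s => s.im) (Real.log T) +
        1 / 1 * PP1 (Zt (σ * T)) mz (fun s => s.im) (Real.log T) ≤
        2 * (B0 + C * (σ * T * Real.log (σ * T))) := by
      rw [one_mul, div_one, one_mul]
      linarith
    have h5 := mul_le_mul_of_nonneg_left h4 (show (0 : ℝ) ≤ 1600 * D by positivity)
    linarith
  rw [abs_mul, abs_of_pos (inv_pos.2 hX), inv_mul_le_iff₀ hX]
  refine b1.trans ?_
  have h6 : 3200 * D * (B0 + C * (σ * T * Real.log (σ * T))) ≤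
      3200 * D * (B0 * Real.log T + C * (σ * T * Real.log T)) := by
    have : B0 ≤ B0 * Real.log T := by nlinarith
    gcongr
  refine h6.trans ?_
  have h7 : 3200 * D * (B0 * Real.log T + C * (σ * T * Real.log T)) =
      Xf T * (3200 * D * (2 * Real.pi) * B0 / T + 3200 * D * (2 * Real.pi) * C * σ) := by
    unfold Xf
    field_simp
  rw [h7]
  refine mul_le_mul_of_nonneg_left ?_ hX.le
  have h8 : 3200 * D * (2 * Real.pi) * C * σ ≤ ε / 2 := by
    have h9 : 3200 * D * (2 * Real.pi) * C * σ ≤ (3200 * D * (2 * Real.pi) * C + 1) *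
        (ε / (2 * (3200 * D * (2 * Real.pi) * C + 1))) :=
      mul_le_mul (by linarith) hσ2 hσ.le (by positivity)
    refine h9.trans (le_of_eq ?_)
    have : 3200 * D * (2 * Real.pi) * C + 1 ≠ 0 := by positivity
    field_simp
  linarith

/-- **the side of the zeros** -/
theorem zero_lower (RH : RiemannHypothesis) (hK : TK κ K) (hκ : 0 ≤ κ) (hpos : ∀ x, 0 ≤ K x)
    (h0 : ∀ x, 0 < x → x < 1 / 2 → K x = 0) {τ : ℝ} (hτ : 0 < τ) {ε : ℝ} (hε : 0 < ε) :
    ∀ᶠ T : ℝ in atTop, ENNReal.ofReal ((Xf T)⁻¹ * Q2 (ct K) (τ * T) (Real.log T)) ≤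
      ENNReal.ofReal (1 + ε) * (ENNReal.ofReal (cz T) * Zu K T τ) + ENNReal.ofReal ε := by
  obtain ⟨σ0, hσ0, hb⟩ := bottom RH hK (half_pos hε)
  obtain ⟨J, hJ⟩ := pow_unbounded_of_one_lt (τ / σ0) (one_lt_two)
  have hJ1 : τ / 2 ^ J ≤ σ0 := by
    rw [div_lt_iff₀ hσ0] at hJ
    rw [div_le_iff₀ (by positivity)]
    linarith
  filter_upwards [steps RH hK hκ hpos h0 hε hτ J (ε / 2) (half_pos hε),
    hb (τ / 2 ^ J) (by positivity) hJ1, eventually_gt_atTop 0] with T h1 h2 hT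
  have e2 : (Xf T)⁻¹ * Q2 (ct K) (τ * T) (Real.log T) =
      (Xf T)⁻¹ * (Q2 (ct K) (τ * T) (Real.log T) - Q2 (ct K) (τ / 2 ^ J * T) (Real.log T)) +
      (Xf T)⁻¹ * Q2 (ct K) (τ / 2 ^ J * T) (Real.log T) := by ring
  rw [e2]
  refine (ENNReal.ofReal_add_le).trans ?_
  have h3 : ENNReal.ofReal ((Xf T)⁻¹ * Q2 (ct K) (τ / 2 ^ J * T) (Real.log T)) ≤
      ENNReal.ofReal (ε / 2) := ENNReal.ofReal_le_ofReal ((le_abs_self _).trans h2)
  refine (add_le_add h1 h3).trans ?_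
  rw [add_assoc, ← ENNReal.ofReal_add (by positivity) (by positivity), add_halves]
  refine add_le_add (mul_le_mul_right (mul_le_mul_right ?_ _) _) le_rfl
  unfold Zu
  refine lintegral_mono_set fun t ht => ⟨?_, ht.2⟩
  have : 0 < τ / 2 ^ J * T := by positivity
  linarith [ht.1]

end Pool.Agent.H7.PS
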